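import Pool.Agent.MP_e620c0_nt.Mass
import Pool.Agent.MP_db1c88_nt.st.Mertens
import Pool.Agent.MP_39a890_nt.PNT

-- ======== part 0: formerly Pool.Agent.MP_e620c0_nt.Basic2
section MrgPart0

/-! Divisor sums, convolutions, reversal of digit strings and the parameters. -/

set_option autoImplicit false

namespace Pool.Agent.Emirp

open Finset Filter Real
open scoped ArithmeticFunction.vonMangoldt

theorem tau_nonneg (n : ℕ) : 0 ≤ tau n := Nat.cast_nonneg _

theorem tau_zero : tau 0 = 0 := by simp [tau]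

theorem one_le_tau {n : ℕ} (h : n ≠ 0) : 1 ≤ tau n := by
  unfold tau
  exact_mod_cast card_pos.2 ⟨1, Nat.one_mem_divisors.2 h⟩

theorem tau_le (n : ℕ) : tau n ≤ n := by
  unfold tau
  exact_mod_cast Nat.card_divisors_le_self n

theorem tau_mul (m n : ℕ) : tau (m * n) ≤ tau m * tau n := by
  unfold tau
  rw [Nat.divisors_mul]
  exact_mod_cast card_mul_le

theorem tau_dvd {d n : ℕ} (h : d ∣ n) (hn : n ≠ 0) : tau d ≤ tau n := by
  unfold tau
  exact_mod_cast card_le_card (Nat.divisors_subset_of_dvd hn h)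

theorem tau_ten (y : ℕ) : tau (10 ^ y) ≤ ((y : ℝ) + 1) ^ 2 := by
  have h : ∀ p : ℕ, p.Prime → tau (p ^ y) = y + 1 := fun p hp => by
    unfold tau
    rw [Nat.divisors_prime_pow hp]; simp
  have h1 := tau_mul (2 ^ y) (5 ^ y)
  rwa [← mul_pow, h 2 (by norm_num), h 5 (by norm_num), ← sq] at h1

theorem sum_conv {M : Type*} [AddCommMonoid M] (T₀ T₁ N : ℕ) (hN : T₁ ≤ N) (f : ℕ → ℕ → M) :
    ∑ k ∈ Ico T₀ T₁, ∑ p ∈ k.divisorsAntidiagonal, f p.1 p.2 =
      ∑ m ∈ Ico 1 N, ∑ n ∈ Ico 1 N, if T₀ ≤ m * n ∧ m * n < T₁ then f m n else 0 := by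
  rw [← sum_product', ← sum_filter, sum_sigma']
  refine sum_bij' (fun a _ => a.2) (fun p _ => ⟨p.1 * p.2, p⟩) ?_ ?_ ?_ ?_ ?_
  · rintro ⟨k, m, n⟩ h
    simp only [mem_sigma, mem_Ico, Nat.mem_divisorsAntidiagonal, mem_filter, mem_product] at h ⊢
    obtain ⟨⟨h1, h2⟩, rfl, h3⟩ := h
    have hm : 0 < m := Nat.pos_of_ne_zero (left_ne_zero_of_mul h3)
    have hn : 0 < n := Nat.pos_of_ne_zero (right_ne_zero_of_mul h3)
    have := Nat.le_mul_of_pos_right m hn
    have := Nat.le_mul_of_pos_left n hm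
    omega
  · rintro ⟨m, n⟩ h
    simp only [mem_sigma, mem_Ico, Nat.mem_divisorsAntidiagonal, mem_filter, mem_product] at h ⊢
    exact ⟨h.2, trivial, Nat.mul_ne_zero (by omega) (by omega)⟩
  · rintro ⟨k, m, n⟩ h
    simp only [mem_sigma, Nat.mem_divisorsAntidiagonal] at h
    obtain ⟨-, rfl, -⟩ := h
    rfl
  · intro p _; rfl
  · intro a _; rfl

theorem tau_pow_succ (k n : ℕ) :
    tau n ^ (k + 1) ≤ ∑ p ∈ n.divisorsAntidiagonal, tau p.1 ^ k * tau p.2 ^ k := by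
  have h : tau n ^ (k + 1) = ∑ _p ∈ n.divisorsAntidiagonal, tau n ^ k := by
    rw [sum_const, nsmul_eq_mul, pow_succ', ← Nat.map_div_right_divisors, card_map]; rfl
  rw [h]
  refine sum_le_sum fun p hp => ?_
  rw [← mul_pow, ← (Nat.mem_divisorsAntidiagonal.1 hp).1]
  exact pow_le_pow_left₀ (tau_nonneg _) (tau_mul _ _) k

theorem tau_div (k N : ℕ) : ∑ n ∈ Icc 1 N, tau n ^ k / n ≤ (1 + log N) ^ 2 ^ k := by
  induction k with
  | zero =>
    have := harmonic_le_one_add_log N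
    rw [harmonic_eq_sum_Icc] at this
    push_cast at this
    simpa [one_div] using this
  | succ k ih =>
    have h0 : ∀ n : ℕ, 0 ≤ tau n ^ k / n := fun n => div_nonneg (pow_nonneg (tau_nonneg n) k) (by positivity)
    calc ∑ n ∈ Icc 1 N, tau n ^ (k + 1) / n
        ≤ ∑ n ∈ Ico 1 (N + 1), ∑ p ∈ n.divisorsAntidiagonal,
            tau p.1 ^ k / p.1 * (tau p.2 ^ k / p.2) := by
          refine sum_le_sum fun n _ => ?_
          refine (div_le_div_of_nonneg_right (tau_pow_succ k n) (by positivity)).trans (le_of_eq ?_)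
          rw [sum_div]
          refine sum_congr rfl fun p hp => ?_
          rw [← (Nat.mem_divisorsAntidiagonal.1 hp).1, div_mul_div_comm]; push_cast; rfl
      _ ≤ ∑ m ∈ Ico 1 (N + 1), ∑ n ∈ Ico 1 (N + 1), tau m ^ k / m * (tau n ^ k / n) := by
          rw [sum_conv 1 (N + 1) (N + 1) le_rfl (fun m n => tau m ^ k / m * (tau n ^ k / n))]
          refine sum_le_sum fun m _ => sum_le_sum fun n _ => ?_
          split_ifs
          exacts [le_rfl, mul_nonneg (h0 m) (h0 n)]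
      _ = (∑ n ∈ Icc 1 N, tau n ^ k / n) ^ 2 := by rw [← sum_mul_sum, sq]; rfl
      _ ≤ _ := by
          rw [pow_succ 2 k, pow_mul]
          exact pow_le_pow_left₀ (sum_nonneg fun n _ => h0 n) ih 2

theorem tau_sum (k N : ℕ) : ∑ n ∈ Icc 1 N, tau n ^ k ≤ N * (1 + log N) ^ 2 ^ k := by
  refine le_trans ?_ (mul_le_mul_of_nonneg_left (tau_div k N) (Nat.cast_nonneg N))
  rw [mul_sum]
  refine sum_le_sum fun n hn => ?_
  have h1 : (0 : ℝ) < n := by exact_mod_cast (mem_Icc.1 hn).1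
  have h2 : (n : ℝ) ≤ N := by exact_mod_cast (mem_Icc.1 hn).2
  rw [mul_div_assoc', le_div_iff₀ h1, mul_comm]
  exact mul_le_mul_of_nonneg_right h2 (pow_nonneg (tau_nonneg n) k)

theorem abel_mono (N : ℕ) (b : ℕ → ℝ) (z : ℕ → ℂ) (E : ℝ) (hb : Monotone b) (h0 : ∀ n, 0 ≤ b n)
    (h1 : ∀ n < N, b n ≤ 1) (hz : ∀ N' ≤ N, ‖∑ n ∈ range N', z n‖ ≤ E) :
    ‖∑ n ∈ range N, (b n : ℂ) * z n‖ ≤ 2 * E := by
  have hE : 0 ≤ E := by simpa using hz 0 (Nat.zero_le _)
  rcases Nat.eq_zero_or_pos N with rfl | hN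
  · simpa using hE
  have h := sum_range_by_parts b z N
  simp only [Complex.real_smul] at h
  have hb1 := h1 (N - 1) (by omega)
  rw [h]
  refine (norm_sub_le _ _).trans ?_
  have h2 : ‖(b (N - 1) : ℂ) * ∑ n ∈ range N, z n‖ ≤ E := by
    rw [norm_mul, Complex.norm_real, Real.norm_of_nonneg (h0 _)]
    exact (mul_le_of_le_one_left (norm_nonneg _) hb1).trans (hz N le_rfl)
  have h3 : ‖∑ i ∈ range (N - 1), ((b (i + 1) - b i : ℝ) : ℂ) * ∑ n ∈ range (i + 1), z n‖ ≤
      ∑ i ∈ range (N - 1), (b (i + 1) - b i) * E := by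
    refine (norm_sum_le _ _).trans (sum_le_sum fun i hi => ?_)
    have := hb (Nat.le_succ i)
    rw [norm_mul, Complex.norm_real, Real.norm_of_nonneg (by linarith)]
    exact mul_le_mul_of_nonneg_left (hz _ (by have := mem_range.1 hi; omega)) (by linarith)
  rw [← sum_mul, sum_range_sub] at h3
  nlinarith [h0 0]

theorem S_conv (lam : ℕ) (x : ℕ → ℝ) (a b : ArithmeticFunction ℝ) (T₀ T₁ N : ℕ) (hN : T₁ ≤ N) :
    S lam x (⇑(a * b)) T₀ T₁ = ∑ m ∈ range N, ∑ n ∈ range N,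
      if T₀ ≤ m * n ∧ m * n < T₁ then ((a m * b n : ℝ) : ℂ) * cf lam x (m * n) else 0 := by
  have h1 : S lam x (⇑(a * b)) T₀ T₁ = ∑ k ∈ Ico T₀ T₁, ∑ p ∈ k.divisorsAntidiagonal,
      ((a p.1 * b p.2 : ℝ) : ℂ) * cf lam x (p.1 * p.2) := by
    refine sum_congr rfl fun k _ => ?_
    rw [ArithmeticFunction.mul_apply, Complex.ofReal_sum, sum_mul]
    exact sum_congr rfl fun p hp => by rw [(Nat.mem_divisorsAntidiagonal.1 hp).1]
  have h2 : Ico 1 N ⊆ range N := fun n hn => mem_range.2 (mem_Ico.1 hn).2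
  have h3 : ∀ n ∈ range N, n ∉ Ico 1 N → n = 0 := fun n h h' => by
    simp only [mem_range, mem_Ico] at h h'; omega
  rw [h1, sum_conv T₀ T₁ N hN (fun m n => ((a m * b n : ℝ) : ℂ) * cf lam x (m * n))]
  refine (sum_congr rfl fun m _ => sum_subset h2 fun n h h' => ?_).trans
    (sum_subset h2 fun m h h' => ?_)
  · simp [h3 n h h']
  · simp [h3 m h h']

theorem rv_eq (y k : ℕ) : rv y k = ∑ i ∈ range y, dg (y - 1 - i) k * 10 ^ i := by
  unfold rv
  rw [← sum_range_reflect]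
  refine sum_congr rfl fun i hi => ?_
  have := mem_range.1 hi
  rw [show y - 1 - (y - 1 - i) = i by omega]

theorem sum_lt_pow (d : ℕ → ℕ) (hd : ∀ i, d i < 10) (y : ℕ) :
    ∑ i ∈ range y, d i * 10 ^ i < 10 ^ y := by
  induction y with
  | zero => simp
  | succ y ih =>
    rw [sum_range_succ, pow_succ]
    have := Nat.mul_le_mul_right (10 ^ y) (Nat.le_of_lt_succ (hd y))
    omega

theorem dg_sum (d : ℕ → ℕ) (hd : ∀ i, d i < 10) {y i : ℕ} (h : i < y) :
    dg i (∑ j ∈ range y, d j * 10 ^ j) = d i := by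
  induction y with
  | zero => omega
  | succ y ih =>
    rw [sum_range_succ, add_comm, mul_comm]
    rcases Nat.lt_succ_iff_lt_or_eq.1 h with h1 | rfl
    · rw [dg_add_pow h1, ih h1]
    · rw [dg, Nat.mul_add_div (by positivity), Nat.div_eq_of_lt (sum_lt_pow d hd i), add_zero,
        Nat.mod_eq_of_lt (hd i)]

theorem rv_lt (y k : ℕ) : rv y k < 10 ^ y := by
  rw [rv_eq]; exact sum_lt_pow _ (fun _ => dg_lt _ _) y

theorem dg_rv {y i : ℕ} (h : i < y) (k : ℕ) : dg i (rv y k) = dg (y - 1 - i) k := by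
  rw [rv_eq]; exact dg_sum (fun j => dg (y - 1 - j) k) (fun _ => dg_lt _ _) h

theorem rv_rv {y k : ℕ} (h : k < 10 ^ y) : rv y (rv y k) = k := by
  rw [rv_eq]
  conv_rhs => rw [← Nat.mod_eq_of_lt h, ← sum_dg]
  refine sum_congr rfl fun i hi => ?_
  have := mem_range.1 hi
  rw [dg_rv (by omega), show y - 1 - (y - 1 - i) = i by omega]

theorem sum_rv {M : Type*} [AddCommMonoid M] (y : ℕ) (f : ℕ → M) :
    ∑ k ∈ range (10 ^ y), f (rv y k) = ∑ k ∈ range (10 ^ y), f k :=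
  sum_nbij' (rv y) (rv y) (fun k _ => mem_range.2 (rv_lt y k)) (fun k _ => mem_range.2 (rv_lt y k))
    (fun _ hk => rv_rv (mem_range.1 hk)) (fun _ hk => rv_rv (mem_range.1 hk)) fun _ _ => rfl

theorem kap_le (lam : ℕ) : 12000 * kap lam ≤ lam := by unfold kap; omega

theorem lt_kap (lam : ℕ) : lam < 12000 * (kap lam + 1) := by unfold kap; omega

theorem kap_tendsto : Tendsto kap atTop atTop :=
  tendsto_atTop_atTop.2 fun b => ⟨12000 * b, fun a h => by unfold kap; omega⟩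

theorem L0_sq (lam : ℕ) : 4 * L0 lam ^ 2 ≤ kap lam := by
  have h := Nat.sqrt_le' (kap lam)
  have h1 : 2 * L0 lam ≤ Nat.sqrt (kap lam) := by unfold L0; omega
  nlinarith [Nat.pow_le_pow_left h1 2]

theorem L0_tendsto : Tendsto L0 atTop atTop := by
  refine tendsto_atTop_atTop.2 fun b => ⟨12000 * (2 * b) ^ 2, fun a h => ?_⟩
  have h1 : 2 * b ≤ Nat.sqrt (kap a) := Nat.le_sqrt'.2 (by unfold kap; omega)
  unfold L0; omega

theorem pow_le_exp_L0 (A : ℕ) {c : ℝ} (hc : 0 < c) :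
    ∀ᶠ lam : ℕ in atTop, (lam : ℝ) ^ A ≤ exp (c * L0 lam) := by
  have h := (isLittleO_pow_exp_pos_mul_atTop (2 * A) hc).bound
    (c := 1 / 192000 ^ A) (by positivity)
  have h1 : Tendsto (fun lam => (L0 lam : ℝ)) atTop atTop :=
    tendsto_natCast_atTop_atTop.comp L0_tendsto
  filter_upwards [h1.eventually h, L0_tendsto.eventually_ge_atTop 1] with lam h2 h3
  have h4 : lam ≤ 192000 * L0 lam ^ 2 := by
    have h5 := Nat.lt_succ_sqrt' (kap lam)
    have h6 : Nat.sqrt (kap lam) + 1 ≤ 4 * L0 lam := by unfold L0 at h3 ⊢; omega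
    have h7 := Nat.pow_le_pow_left h6 2
    have h8 := lt_kap lam
    rw [Nat.succ_eq_add_one] at h5
    nlinarith
  have h9 : (lam : ℝ) ≤ 192000 * (L0 lam : ℝ) ^ 2 := by exact_mod_cast h4
  rw [Real.norm_of_nonneg (by positivity), Real.norm_of_nonneg (exp_pos _).le, one_div,
    ← div_eq_inv_mul, le_div_iff₀ (by positivity)] at h2
  refine (pow_le_pow_left₀ (by positivity) h9 A).trans ?_
  rwa [mul_pow, ← pow_mul, mul_comm]

end Pool.Agent.Emirp

end MrgPart0

-- ======== part 1: formerly Pool.Agent.MP_e620c0_nt.Core1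
section MrgPart1

/-! Type I sums. -/

set_option autoImplicit false

namespace Pool.Agent.Emirp

open Finset Filter Real

namespace C1

theorem blk (w ρ m j : ℕ) (x : ℕ → ℝ) (hm : 0 < m) :
    ‖∑ k ∈ range (10 ^ w), if m ∣ 10 ^ w * j + k then cf (w + ρ) x (10 ^ w * j + k) else 0‖ ≤
      10 ^ w / m * ∑ i ∈ range m, F w x (i / m) := by
  have hm' : (m : ℂ) ≠ 0 := by exact_mod_cast hm.ne'
  have hmr : (m : ℝ) ≠ 0 := by exact_mod_cast hm.ne'
  have h1 : ∑ k ∈ range (10 ^ w),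
      (if m ∣ 10 ^ w * j + k then cf (w + ρ) x (10 ^ w * j + k) else 0) =
      ∑ i ∈ range m, (cf ρ (sh w x) j * e (-(i * (10 ^ w * j) / m)) / m) *
        ∑ k ∈ range (10 ^ w), cf w x k * e (-(k * (i / m))) := by
    simp only [mul_sum]
    rw [sum_comm]
    refine sum_congr rfl fun k hk => ?_
    have hk' := mem_range.1 hk
    have h2 : (10 ^ w * j + k) / 10 ^ w = j := by
      rw [Nat.mul_add_div (by positivity), Nat.div_eq_of_lt hk', add_zero]
    have h3 := orth hm (-((10 ^ w * j + k : ℕ) : ℤ))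
    have h4 : ∀ i ∈ range m, cf ρ (sh w x) j * e (-(i * (10 ^ w * j) / m)) / m *
        (cf w x k * e (-(k * (i / m)))) = cf w x k * cf ρ (sh w x) j / m *
          e (i * ((-((10 ^ w * j + k : ℕ) : ℤ) : ℤ) : ℝ) / m) := fun i _ => by
      have : (i : ℝ) * ((-((10 ^ w * j + k : ℕ) : ℤ) : ℤ) : ℝ) / m =
          -(i * (10 ^ w * j) / m) + -(k * (i / m)) := by push_cast; field_simp; ring
      rw [this, e_add]; ring
    rw [sum_congr rfl h4, ← mul_sum, h3, cf_add, cf_add_pow, h2]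
    simp only [dvd_neg, Int.natCast_dvd_natCast]
    split_ifs
    · field_simp
    · simp
  rw [h1, mul_sum]
  refine (norm_sum_le _ _).trans (le_of_eq (sum_congr rfl fun i _ => ?_))
  rw [norm_mul, norm_hat, norm_div, norm_mul, norm_cf, norm_e, Complex.norm_natCast]
  ring

theorem sumF {lam w m : ℕ} {x : ℕ → ℝ} {B : ℝ} (h : Mix lam x B) (hw : 8050 * kap lam ≤ w)
    (hm : 0 < m) (hmU : m ≤ UU lam) :
    ∑ i ∈ range m, F w x (i / m) ≤ 2 * Nat.gcd m (UU lam) / B ^ 50 := by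
  obtain ⟨hB, -, hM⟩ := h
  have hk := kap_le lam
  set u := 3000 * kap lam with hu
  have hU : UU lam = 10 ^ u := rfl
  have hB0 : 0 < B ^ 50 := by positivity
  have h1 : ∀ t : ℝ, F w x t ≤
      (F u x t ^ 2 + F u (sh u x) (10 ^ u * t) ^ 2) / 2 / B ^ 50 := fun t => by
    refine (F_mono (y := u + (u + 2050 * kap lam)) (by omega) x t).trans ?_
    rw [F_add, F_add, sh_sh]
    have h2 := hM (u + u) (10 ^ u * (10 ^ u * t)) (by omega)
    have h3 : F (2050 * kap lam) (sh (u + u) x) (10 ^ u * (10 ^ u * t)) ≤ 1 / B ^ 50 := by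
      refine (pow_le_pow_iff_left₀ (F_nonneg _ _ _) (by positivity) two_ne_zero).1 (h2.trans ?_)
      rw [div_pow, one_pow, ← pow_mul]
    have h4 := F_nonneg u x t
    have h5 := F_nonneg u (sh u x) (10 ^ u * t)
    calc _ = F u x t * F u (sh u x) (10 ^ u * t) *
          F (2050 * kap lam) (sh (u + u) x) (10 ^ u * (10 ^ u * t)) := by ring
      _ ≤ (F u x t ^ 2 + F u (sh u x) (10 ^ u * t) ^ 2) / 2 * (1 / B ^ 50) :=
          mul_le_mul (by nlinarith [sq_nonneg (F u x t - F u (sh u x) (10 ^ u * t))]) h3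
            (F_nonneg _ _ _) (by positivity)
      _ = _ := by ring
  refine (sum_le_sum fun i _ => h1 _).trans ?_
  rw [← sum_div, ← sum_div, sum_add_distrib]
  refine div_le_div_of_nonneg_right ?_ hB0.le
  have h2 := pars u x hm 1 0
  have h3 := pars u (sh u x) hm (10 ^ u) 0
  simp only [Nat.cast_one, one_mul, add_zero, Nat.gcd_one_right, Nat.cast_pow, Nat.cast_ofNat]
    at h2 h3
  have h4 : (m : ℝ) / 10 ^ u ≤ 1 := by
    rw [div_le_one (by positivity)]
    exact_mod_cast hmU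
  have h5 : (1 : ℝ) ≤ Nat.gcd m (10 ^ u) := by exact_mod_cast Nat.gcd_pos_of_pos_left _ hm
  rw [hU]
  linarith

theorem part {lam m T : ℕ} {x : ℕ → ℝ} {B : ℝ} (h : Mix lam x B) (hm : 0 < m) (hmU : m ≤ UU lam)
    (hT : T ≤ 10 ^ lam) :
    ‖∑ k ∈ range T, if m ∣ k then cf lam x k else 0‖ ≤
      10 ^ lam / m * (2 * Nat.gcd m (UU lam) / B ^ 50) +
        (10 ^ (lam - 100 * kap lam) / m + 1) := by
  have hk := kap_le lam
  have hB := h.1
  obtain ⟨w, hw⟩ : ∃ w, lam = w + 100 * kap lam := ⟨lam - 100 * kap lam, by omega⟩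
  have hw' : lam - 100 * kap lam = w := by omega
  have hs := sumF (w := w) h (by omega) hm hmU
  rw [hw']
  set G := 2 * (Nat.gcd m (UU lam) : ℝ) / B ^ 50 with hG
  have hG0 : 0 ≤ G := by positivity
  set ρ := 100 * kap lam with hρ
  have hcf : ∀ k, cf lam x k = cf (w + ρ) x k := fun k => by rw [← hw]
  conv_lhs => rw [← Nat.div_add_mod T (10 ^ w), sum_range_add, sum_range_mul]
  refine (norm_add_le _ _).trans (add_le_add ?_ ?_)
  · refine (norm_sum_le _ _).trans ?_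
    calc _ ≤ ∑ _j ∈ range (T / 10 ^ w), 10 ^ w / (m : ℝ) * G := by
          refine sum_le_sum fun j _ => ?_
          simp only [hcf]
          exact (blk w ρ m j x hm).trans (mul_le_mul_of_nonneg_left hs (by positivity))
      _ = ((10 ^ w * (T / 10 ^ w) : ℕ) : ℝ) / m * G := by
          rw [sum_const, card_range, nsmul_eq_mul]; push_cast; ring
      _ ≤ _ := by
          gcongr
          exact_mod_cast (Nat.mul_div_le _ _).trans hT
  · rw [← sum_filter]
    refine (norm_sum_le _ _).trans ?_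
    simp only [norm_cf, sum_const, nsmul_eq_mul, mul_one]
    have := card_cong ((range (T % 10 ^ w)).filter fun k => m ∣ 10 ^ w * (T / 10 ^ w) + k)
      (10 ^ w) m hm
      (fun n hn => (mem_range.1 (mem_filter.1 hn).1).trans (Nat.mod_lt _ (by positivity)))
      fun a ha b hb => by
        have h1 := Int.natCast_dvd_natCast.2 (mem_filter.1 ha).2
        have h2 := Int.natCast_dvd_natCast.2 (mem_filter.1 hb).2
        have := dvd_sub h1 h2
        push_cast at this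
        rwa [add_sub_add_left_eq_sub] at this
    exact_mod_cast this

theorem reidx (m T N : ℕ) (hm : 0 < m) (f : ℕ → ℂ) :
    ∑ n ∈ range N, (if m * n < T then f (m * n) else 0) =
      ∑ k ∈ range (min T (m * N)), if m ∣ k then f k else 0 := by
  rw [← sum_filter, ← sum_filter]
  refine sum_bij (fun n _ => m * n) (fun n hn => ?_) (fun a _ b _ hab => ?_) (fun k hk => ?_)
    fun _ _ => rfl
  · obtain ⟨h1, h2⟩ := mem_filter.1 hn
    exact mem_filter.2 ⟨mem_range.2 (lt_min h2 (Nat.mul_lt_mul_of_pos_left (mem_range.1 h1) hm)),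
      Dvd.intro _ rfl⟩
  · exact Nat.eq_of_mul_eq_mul_left hm hab
  · obtain ⟨h1, n, rfl⟩ := mem_filter.1 hk
    have h2 := lt_min_iff.1 (mem_range.1 h1)
    exact ⟨n, mem_filter.2 ⟨mem_range.2 (Nat.lt_of_mul_lt_mul_left h2.2), h2.1⟩, rfl⟩

theorem gcd_sum (U : ℕ) (hU : U ≠ 0) :
    ∑ m ∈ Icc 1 U, tau m * Nat.gcd m U / m ≤ tau U ^ 2 * (1 + log U) ^ 2 := by
  have h0 : ∀ m g : ℕ, 0 ≤ tau m * g / m := fun m g => by have := tau_nonneg m; positivity
  calc _ ≤ ∑ m ∈ Icc 1 U, ∑ g ∈ U.divisors, if g ∣ m then tau m * g / m else 0 := by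
        refine sum_le_sum fun m _ => ?_
        have := single_le_sum (f := fun g : ℕ => if g ∣ m then tau m * g / m else 0)
          (fun g _ => by split_ifs; exacts [h0 m g, le_rfl])
          (Nat.mem_divisors.2 ⟨Nat.gcd_dvd_right m U, hU⟩)
        simpa [Nat.gcd_dvd_left] using this
    _ = ∑ g ∈ U.divisors, ∑ m ∈ (Icc 1 U).filter (g ∣ ·), tau m * g / m := by
        rw [sum_comm]; simp only [sum_filter]
    _ ≤ ∑ _g ∈ U.divisors, tau U * (1 + log U) ^ 2 := by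
        refine sum_le_sum fun g hg => ?_
        have hg0 : 0 < g := Nat.pos_of_mem_divisors hg
        have h1 := tau_div 1 U
        simp only [pow_one] at h1
        calc _ ≤ ∑ m ∈ (Icc 1 U).image (g * ·), tau m * g / m := by
              refine sum_le_sum_of_subset_of_nonneg (fun m hm => ?_) fun m _ _ => h0 m g
              obtain ⟨h2, n, rfl⟩ := mem_filter.1 hm
              obtain ⟨h3, h4⟩ := mem_Icc.1 h2
              refine mem_image.2 ⟨n, mem_Icc.2 ⟨Nat.pos_of_mul_pos_left h3, ?_⟩, rfl⟩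
              exact (Nat.le_mul_of_pos_left n hg0).trans h4
          _ = ∑ n ∈ Icc 1 U, tau (g * n) * g / (g * n : ℕ) :=
              sum_image fun a _ b _ hab => Nat.eq_of_mul_eq_mul_left hg0 hab
          _ ≤ ∑ n ∈ Icc 1 U, tau U * (tau n / n) := by
              refine sum_le_sum fun n hn => ?_
              have hn0 : (0 : ℝ) < n := by exact_mod_cast (mem_Icc.1 hn).1
              have hg1 : (0 : ℝ) < g := by exact_mod_cast hg0
              have h2 := (tau_mul g n).trans (mul_le_mul_of_nonneg_right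
                (tau_dvd (Nat.dvd_of_mem_divisors hg) hU) (tau_nonneg n))
              calc tau (g * n) * g / (g * n : ℕ) = tau (g * n) / n := by push_cast; field_simp
                _ ≤ tau U * tau n / n := div_le_div_of_nonneg_right h2 hn0.le
                _ = _ := by ring
          _ ≤ _ := by
              rw [← mul_sum]
              exact mul_le_mul_of_nonneg_left h1 (tau_nonneg U)
    _ = _ := by rw [sum_const, nsmul_eq_mul, tau]; ring

end C1

open C1 in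
theorem core1 : Core1Stmt := by
  refine ⟨7, ?_⟩
  filter_upwards [eventually_ge_atTop 8] with lam hl x B h T a b hT ha hb hb0 hb1
  have hk := kap_le lam
  have hB := h.1
  have hB' := h.2.1
  have hl' : (8 : ℝ) ≤ lam := by exact_mod_cast hl
  have hU0 : UU lam ≠ 0 := by unfold UU; positivity
  have hu : ((3000 * kap lam : ℕ) : ℝ) * 4 ≤ lam := by exact_mod_cast (by omega)
  have hlog : 1 + log (UU lam) ≤ lam := by
    have h10 : log 10 ≤ 3 := by
      rw [log_le_iff_le_exp (by norm_num)]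
      have := add_one_le_exp (3 / 2 : ℝ)
      have e3 : exp (3 : ℝ) = exp 1 ^ 3 := by rw [← exp_nat_mul]; norm_num
      have := exp_one_gt_d9
      rw [e3]
      calc (10 : ℝ) ≤ 2.7 ^ 3 := by norm_num
        _ ≤ _ := pow_le_pow_left₀ (by norm_num) (by linarith) 3
    unfold UU
    rw [Nat.cast_pow, log_pow, Nat.cast_ofNat]
    have : (0 : ℝ) ≤ ((3000 * kap lam : ℕ) : ℝ) := Nat.cast_nonneg _
    nlinarith
  have hlog0 : 0 ≤ 1 + log (UU lam) := by have := log_natCast_nonneg (UU lam); linarith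
  have hL2 : (1 + log (UU lam)) ^ 2 ≤ (lam : ℝ) ^ 2 := pow_le_pow_left₀ hlog0 hlog 2
  have htU : tau (UU lam) ≤ (lam : ℝ) ^ 2 :=
    (tau_ten _).trans (pow_le_pow_left₀ (by positivity) (by linarith) 2)
  set Z : ℝ := 10 ^ (lam - 100 * kap lam) with hZ
  have h1 : ∀ m ∈ Icc 1 (UU lam), ‖∑ n ∈ range (10 ^ lam),
      if m * n < T then ((a m * b n : ℝ) : ℂ) * cf lam x (m * n) else 0‖ ≤
      4 * 10 ^ lam / B ^ 50 * (tau m * Nat.gcd m (UU lam) / m) + 2 * Z * (tau m ^ 1 / m) +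
        2 * tau m ^ 1 := fun m hm => by
    obtain ⟨hm1, hmU⟩ := mem_Icc.1 hm
    have h2 := abel_mono (10 ^ lam) b (fun n => if m * n < T then cf lam x (m * n) else 0) _ hb hb0
      hb1 fun N' _ => by
        rw [reidx m T N' hm1]
        exact part h hm1 hmU ((min_le_left _ _).trans hT)
    have e1 : ∑ n ∈ range (10 ^ lam),
        (if m * n < T then ((a m * b n : ℝ) : ℂ) * cf lam x (m * n) else 0) =
        (a m : ℂ) * ∑ n ∈ range (10 ^ lam),
          (b n : ℂ) * (if m * n < T then cf lam x (m * n) else 0) := by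
      rw [mul_sum]
      refine sum_congr rfl fun n _ => ?_
      split_ifs
      · push_cast; ring
      · simp
    rw [e1, norm_mul, Complex.norm_real, Real.norm_eq_abs]
    refine (mul_le_mul (ha m) h2 (norm_nonneg _) (tau_nonneg m)).trans (le_of_eq ?_)
    ring
  refine (norm_sum_le _ _).trans ((sum_le_sum h1).trans ?_)
  rw [sum_add_distrib, sum_add_distrib, ← mul_sum, ← mul_sum, ← mul_sum]
  have h2 := (gcd_sum _ hU0).trans
    (mul_le_mul (pow_le_pow_left₀ (tau_nonneg _) htU 2) hL2 (by positivity) (by positivity))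
  have h3 := tau_div 1 (UU lam)
  have h4 := tau_sum 1 (UU lam)
  rw [pow_one 2] at h3 h4
  have hB49 : 0 < B ^ 49 := by positivity
  have hBk : B ^ 49 ≤ 10 ^ (49 * kap lam) := by
    rw [mul_comm, pow_mul]; exact pow_le_pow_left₀ (by linarith) hB' _
  have h5 : Z ≤ 10 ^ lam / B ^ 49 := by
    rw [le_div_iff₀ hB49]
    calc Z * B ^ 49 ≤ Z * 10 ^ (49 * kap lam) := mul_le_mul_of_nonneg_left hBk (by positivity)
      _ = 10 ^ (lam - 100 * kap lam + 49 * kap lam) := by rw [pow_add]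
      _ ≤ _ := pow_le_pow_right₀ (by norm_num) (by omega)
  have h6 : (UU lam : ℝ) ≤ 10 ^ lam / B ^ 49 := by
    rw [le_div_iff₀ hB49]
    calc (UU lam : ℝ) * B ^ 49 ≤ UU lam * 10 ^ (49 * kap lam) :=
          mul_le_mul_of_nonneg_left hBk (by positivity)
      _ = 10 ^ (3000 * kap lam + 49 * kap lam) := by rw [pow_add, UU]; push_cast; rfl
      _ ≤ _ := pow_le_pow_right₀ (by norm_num) (by omega)
  have h7 : 4 * 10 ^ lam / B ^ 50 ≤ 4 * (10 ^ lam / B ^ 49) := by
    rw [mul_div_assoc]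
    exact mul_le_mul_of_nonneg_left (div_le_div_of_nonneg_left (by positivity) hB49
      (pow_le_pow_right₀ hB (by norm_num))) (by norm_num)
  set Q : ℝ := 10 ^ lam / B ^ 49 with hQ
  have hQ0 : 0 ≤ Q := by positivity
  have h8 : (lam : ℝ) ^ 2 ≤ (lam : ℝ) ^ 6 := pow_le_pow_right₀ (by linarith) (by norm_num)
  have hs0 : 0 ≤ ∑ m ∈ Icc 1 (UU lam), tau m * Nat.gcd m (UU lam) / m :=
    sum_nonneg fun m _ => by have := tau_nonneg m; positivity
  have hs1 : 0 ≤ ∑ m ∈ Icc 1 (UU lam), tau m ^ 1 / m :=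
    sum_nonneg fun m _ => by have := tau_nonneg m; positivity
  calc _ ≤ 4 * Q * (((lam : ℝ) ^ 2) ^ 2 * (lam : ℝ) ^ 2) + 2 * Q * (lam : ℝ) ^ 6 +
        2 * (Q * (lam : ℝ) ^ 6) := by
        refine add_le_add (add_le_add (mul_le_mul h7 h2 hs0 (by positivity))
          (mul_le_mul (by linarith) (h3.trans (hL2.trans h8)) hs1 (by positivity))) ?_
        exact mul_le_mul_of_nonneg_left (h4.trans
          (mul_le_mul h6 (hL2.trans h8) (by positivity) hQ0)) (by norm_num)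
    _ = 8 * (Q * (lam : ℝ) ^ 6) := by ring
    _ ≤ lam * (Q * (lam : ℝ) ^ 6) := mul_le_mul_of_nonneg_right hl' (by positivity)
    _ = _ := by rw [hQ]; ring

theorem bil1 (hc : Core1Stmt) : Bil1Stmt := by
  obtain ⟨C, hC⟩ := hc
  refine ⟨C + 1, ?_⟩
  filter_upwards [hC, eventually_ge_atTop 2] with lam hC hl x B h T₀ T₁ hI a b W₁ W₂ hW₁ hW₂ ha haU
    hb hb1
  have hB := h.1
  have hk := kap_le lam
  have hl' : (2 : ℝ) ≤ lam := by exact_mod_cast hl
  have hb0 : ∀ n, 0 ≤ b n := fun n => by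
    have := hb (Nat.zero_le n)
    rwa [ArithmeticFunction.map_zero] at this
  rw [S_conv lam x a b T₀ T₁ _ hI.2.2]
  rcases hW₁.eq_or_lt with rfl | hW₁'
  · rw [sum_eq_zero]
    · simp
    · intro m hm
      have := ha m (mem_range.1 hm)
      rw [zero_mul, abs_nonpos_iff] at this
      simp [this]
  rcases hW₂.eq_or_lt with rfl | hW₂'
  · rw [sum_eq_zero]
    · simp
    · intro m _
      refine sum_eq_zero fun n hn => ?_
      have := le_antisymm (hb1 n (mem_range.1 hn)) (hb0 n)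
      simp [this]
  have hUX : UU lam < 10 ^ lam := Nat.pow_lt_pow_right (by norm_num) (by omega)
  have key := fun (T : ℕ) (hT : T ≤ 10 ^ lam) => hC x B h T
    (fun m => if m < 10 ^ lam then a m / W₁ else 0) (fun n => b n / W₂) hT
    (fun m => by
      split_ifs with hm
      · rw [abs_div, abs_of_pos hW₁', div_le_iff₀' hW₁']; exact ha m hm
      · simpa using tau_nonneg m)
    (fun m n hmn => div_le_div_of_nonneg_right (hb hmn) hW₂)
    (fun n => div_nonneg (hb0 n) hW₂)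
    (fun n hn => (div_le_one hW₂').2 (hb1 n hn))
  have k1 := key T₁ hI.2.2
  have k0 := key T₀ (hI.2.1.trans hI.2.2)
  have hsub : Icc 1 (UU lam) ⊆ range (10 ^ lam) := fun m hm =>
    mem_range.2 ((mem_Icc.1 hm).2.trans_lt hUX)
  rw [← sum_subset hsub fun m _ hm => ?_]
  · have e1 := (norm_sub_le _ _).trans (add_le_add k1 k0)
    rw [← sum_sub_distrib] at e1
    have e2 : ∑ m ∈ Icc 1 (UU lam), ∑ n ∈ range (10 ^ lam),
        (if T₀ ≤ m * n ∧ m * n < T₁ then ((a m * b n : ℝ) : ℂ) * cf lam x (m * n) else 0) =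
        ((W₁ * W₂ : ℝ) : ℂ) * ∑ m ∈ Icc 1 (UU lam), ((∑ n ∈ range (10 ^ lam), if m * n < T₁ then
          (((if m < 10 ^ lam then a m / W₁ else 0) * (b n / W₂) : ℝ) : ℂ) * cf lam x (m * n)
            else 0) - ∑ n ∈ range (10 ^ lam), if m * n < T₀ then
          (((if m < 10 ^ lam then a m / W₁ else 0) * (b n / W₂) : ℝ) : ℂ) * cf lam x (m * n)
            else 0) := by
      rw [mul_sum]
      refine sum_congr rfl fun m hm => ?_
      rw [← sum_sub_distrib, mul_sum, if_pos (mem_range.1 (hsub hm))]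
      refine sum_congr rfl fun n _ => ?_
      have h01 := hI.2.1
      have c1 : (W₁ : ℂ) ≠ 0 := by exact_mod_cast hW₁'.ne'
      have c2 : (W₂ : ℂ) ≠ 0 := by exact_mod_cast hW₂'.ne'
      by_cases h0 : m * n < T₀
      · rw [if_neg (by omega), if_pos (by omega), if_pos h0]; simp
      · by_cases h1 : m * n < T₁
        · rw [if_pos ⟨by omega, h1⟩, if_pos h1, if_neg h0]; push_cast; field_simp; ring
        · rw [if_neg (by omega), if_neg h1, if_neg h0]; simp
    rw [e2, norm_mul, Complex.norm_real, Real.norm_of_nonneg (by positivity)]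
    refine mul_le_mul_of_nonneg_left (e1.trans ?_) (by positivity)
    calc _ = 2 * (10 ^ lam * (lam : ℝ) ^ C / B ^ 49) := by ring
      _ ≤ lam * (10 ^ lam * (lam : ℝ) ^ C / B ^ 49) :=
          mul_le_mul_of_nonneg_right hl' (by positivity)
      _ = _ := by ring
  · have : a m = 0 := by
      by_contra h0
      refine hm (mem_Icc.2 ⟨Nat.pos_of_ne_zero ?_, haU m h0⟩)
      rintro rfl
      exact h0 ArithmeticFunction.map_zero
    simp [this]

end Pool.Agent.Emirp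

end MrgPart1

-- ======== part 2: formerly Pool.Agent.MP_e620c0_nt.Core2
section MrgPart2

/-! PROJECT EMI, module CORE2: the type II estimate. -/

set_option autoImplicit false

namespace Pool.Agent.Emirp

open Finset Filter Real

namespace Core2

/-- the relations between the lengths -/
structure Par (ρ μ ν : ℕ) (x : ℕ → ℝ) (G : ℝ) : Prop where
  h1 : 22 * ρ ≤ μ
  h2 : μ ≤ ν
  h3 : 76 * ρ ≤ μ + ν
  hG : 1 ≤ G * 10 ^ ρ
  win : ∀ t, F (μ - 9 * ρ) (sh (9 * ρ) x) t ^ 2 ≤ G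

theorem rp {a b c : ℕ} (h : 7 * a + 8 * c ≤ 8 * b) :
    ((10 : ℝ) ^ a) ^ (7 / 8 : ℝ) * 10 ^ c ≤ 10 ^ b := by
  have h' : (7 * a + 8 * c : ℝ) ≤ 8 * b := by exact_mod_cast h
  rw [← rpow_natCast, ← rpow_natCast, ← rpow_natCast, ← rpow_mul (by norm_num),
    ← rpow_add (by norm_num)]
  exact rpow_le_rpow_of_exponent_le (by norm_num) (by linarith)

theorem rp2 {d R : ℝ} (hR : 0 ≤ R) (h0 : 0 < d) (h : R ^ 8 ≤ d) : d ^ (7 / 8 : ℝ) * R ≤ d := by
  have h1 : R ≤ d ^ (1 / 8 : ℝ) := by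
    have := rpow_le_rpow (pow_nonneg hR 8) h (show (0 : ℝ) ≤ 1 / 8 by norm_num)
    rwa [← rpow_natCast, ← rpow_mul hR, show ((8 : ℕ) : ℝ) * (1 / 8) = 1 by norm_num,
      rpow_one] at this
  calc d ^ (7 / 8 : ℝ) * R ≤ d ^ (7 / 8 : ℝ) * d ^ (1 / 8 : ℝ) :=
        mul_le_mul_of_nonneg_left h1 (rpow_nonneg h0.le _)
    _ = d := by rw [← rpow_add h0]; norm_num

theorem log_ten_pow (y : ℕ) : log ((10 : ℝ) ^ y) ≤ 3 * y := by
  have h : log (10 : ℝ) ≤ 3 := by
    rw [log_le_iff_le_exp (by norm_num)]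
    have h1 := exp_one_gt_d9
    have h2 : exp 3 = exp 1 ^ 3 := by rw [← exp_nat_mul]; norm_num
    rw [h2]
    exact le_trans (by norm_num) (pow_le_pow_left₀ (by norm_num) h1.le 3)
  rw [log_pow, mul_comm]
  exact mul_le_mul_of_nonneg_right h (Nat.cast_nonneg _)

section
variable {ρ μ ν : ℕ} {x : ℕ → ℝ} {G : ℝ}

theorem Par.G_pos (P : Par ρ μ ν x G) : 0 < G :=
  (mul_pos_iff_of_pos_right (by positivity)).1 (one_pos.trans_le P.hG)

theorem Par.via (P : Par ρ μ ν x G) {q W : ℝ} (hq : 0 ≤ q) (h : q * 10 ^ ρ ≤ W) : q ≤ W * G :=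
  calc q ≤ q * (G * 10 ^ ρ) := le_mul_of_one_le_right hq P.hG
    _ = q * 10 ^ ρ * G := by ring
    _ ≤ W * G := mul_le_mul_of_nonneg_right h P.G_pos.le

/-- the number of partners -/
theorem partners {Y d : ℕ} (hY : 0 < Y) (hd : d ∣ Y) (h : ℕ) :
    (((range Y).filter fun h' : ℕ => (Y : ℤ) ∣ d * ((h : ℤ) - h')).card : ℝ) ≤ 2 * d := by
  obtain ⟨q, rfl⟩ := hd
  have hd : 0 < d := Nat.pos_of_mul_pos_right hY
  have hq : 0 < q := Nat.pos_of_mul_pos_left hY
  refine (card_cong _ (d * q) q hq (fun n hn => mem_range.1 (mem_filter.1 hn).1)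
    fun a ha b hb => ?_).trans ?_
  · have h1 := dvd_sub (mem_filter.1 hb).2 (mem_filter.1 ha).2
    rw [← mul_sub, Nat.cast_mul, mul_dvd_mul_iff_left (by exact_mod_cast hd.ne')] at h1
    simpa using h1
  · have : (1 : ℝ) ≤ d := by exact_mod_cast hd
    rw [Nat.cast_mul, mul_div_cancel_right₀ _ (by exact_mod_cast hq.ne')]
    linarith

theorem sym_sum {Y d : ℕ} (hY : 0 < Y) (hd : d ∣ Y) (f K : ℕ → ℝ) (hK : ∀ h, 0 ≤ K h)
    (hK' : ∀ h h' : ℕ, (Y : ℤ) ∣ d * ((h : ℤ) - h') → K h = K h') :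
    ∑ h ∈ range Y, ∑ h' ∈ range Y, (if (Y : ℤ) ∣ d * ((h : ℤ) - h') then f h * f h' * K h else 0)
      ≤ 2 * d * ∑ h ∈ range Y, f h ^ 2 * K h := by
  have h1 : ∑ h ∈ range Y, ∑ h' ∈ range Y,
      (if (Y : ℤ) ∣ d * ((h : ℤ) - h') then f h ^ 2 * K h else 0) ≤
      2 * d * ∑ h ∈ range Y, f h ^ 2 * K h := by
    rw [mul_sum]
    refine sum_le_sum fun h _ => ?_
    rw [← sum_filter, sum_const, nsmul_eq_mul]
    exact mul_le_mul_of_nonneg_right (partners hY hd h) (mul_nonneg (sq_nonneg _) (hK h))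
  have h2 : ∑ h ∈ range Y, ∑ h' ∈ range Y,
      (if (Y : ℤ) ∣ d * ((h : ℤ) - h') then f h' ^ 2 * K h' else 0) =
      ∑ h ∈ range Y, ∑ h' ∈ range Y,
      (if (Y : ℤ) ∣ d * ((h : ℤ) - h') then f h ^ 2 * K h else 0) := by
    rw [sum_comm]
    refine sum_congr rfl fun h _ => sum_congr rfl fun h' _ => if_congr ?_ rfl rfl
    rw [← dvd_neg, ← mul_neg, neg_sub]
  have h3 := add_le_add h1 (h2.trans_le h1)
  rw [← sum_add_distrib] at h3
  refine le_of_mul_le_mul_left (le_trans ?_ (h3.trans_eq (two_mul _).symm)) two_pos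
  rw [mul_sum]
  refine sum_le_sum fun h _ => ?_
  rw [mul_sum, ← sum_add_distrib]
  refine sum_le_sum fun h' _ => ?_
  split_ifs with k
  · rw [← hK' h h' k, ← add_mul, ← mul_assoc]
    exact mul_le_mul_of_nonneg_right (by nlinarith [sq_nonneg (f h - f h')]) (hK h)
  · simp

/-- the near terms of one divisor -/
theorem Par.near (P : Par ρ μ ν x G) (hP : PairStmt) (hD : DiagStmt) {d r : ℕ}
    (hd : d ∣ 10 ^ (μ + 2 * ρ)) (r1 : 1 ≤ r) (r2 : r ≤ 10 ^ ρ) :
    ((10 : ℝ) ^ ν / d + 1) * ∑ h ∈ range (10 ^ (μ + 2 * ρ)), ∑ h' ∈ range (10 ^ (μ + 2 * ρ)),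
      (if (10 : ℤ) ^ (μ + 2 * ρ) ∣ d * ((h : ℤ) - h') then
        F (μ + 2 * ρ) x (h / 10 ^ (μ + 2 * ρ)) * F (μ + 2 * ρ) x (h' / 10 ^ (μ + 2 * ρ)) *
          KK (20 * 10 ^ μ) (nn (d * (h * r / 10 ^ (μ + 2 * ρ))) / d) else 0) ≤
      4 * 10 ^ 5 * (μ + 1) * (10 ^ μ * 10 ^ ν) * G := by
  have hY : 0 < 10 ^ (μ + 2 * ρ) := by positivity
  have d0 : 0 < d := Nat.pos_of_dvd_of_pos hd hY
  have d1 : (0 : ℝ) < d := by exact_mod_cast d0
  have hA : (0 : ℝ) ≤ 20 * 10 ^ μ := by positivity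
  have hM : (0 : ℝ) < 10 ^ μ := by positivity
  have hN : (0 : ℝ) < 10 ^ ν := by positivity
  have hR : (0 : ℝ) < 10 ^ ρ := by positivity
  have hc : (0 : ℝ) ≤ 10 ^ ν / d + 1 := by positivity
  have G0 := P.G_pos
  have p1 := P.h1
  have p2 := P.h2
  have hK : ∀ t : ℝ, 0 ≤ nn t / d := fun t => div_nonneg (nn_nonneg t) d1.le
  rcases le_or_gt d (10 ^ (8 * ρ)) with k | k
  · have h1 := sym_sum hY hd (fun h => F (μ + 2 * ρ) x (h / 10 ^ (μ + 2 * ρ)))
      (fun h => KK (20 * 10 ^ μ) (nn (d * (h * r / 10 ^ (μ + 2 * ρ))) / d))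
      (fun h => KK_nonneg hA (hK _)) fun h h' ⟨c, hc⟩ => by
        have h2 : (d : ℝ) * (h - h') = 10 ^ (μ + 2 * ρ) * c := by exact_mod_cast hc
        have h3 : (d : ℝ) * (h * r / 10 ^ (μ + 2 * ρ)) =
            d * (h' * r / 10 ^ (μ + 2 * ρ)) + (c * r : ℤ) := by
          push_cast
          field_simp
          linear_combination h2
        simp only [h3, nn_add_int]
    have h2 := hD (9 * ρ) μ (2 * ρ) (r * d) x G (by omega) (by omega) (Nat.mul_pos r1 d0)
      ((Nat.mul_le_mul r2 k).trans_eq (by rw [← pow_add]; congr 1; omega)) P.win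
    have h3 : ∑ h ∈ range (10 ^ (μ + 2 * ρ)), F (μ + 2 * ρ) x (h / 10 ^ (μ + 2 * ρ)) ^ 2 *
        KK (20 * 10 ^ μ) (nn (d * (h * r / 10 ^ (μ + 2 * ρ))) / d) ≤
        10 ^ 5 * 10 ^ μ * (μ + 1) * G := by
      refine le_trans (sum_le_sum fun h _ => mul_le_mul_of_nonneg_left ?_ (sq_nonneg _)) h2
      have e1 : ((r * d : ℕ) : ℝ) * (h / 10 ^ (μ + 2 * ρ)) = d * (h * r / 10 ^ (μ + 2 * ρ)) := by
        push_cast; ring
      rw [e1]
      exact KK_anti hA (div_nonneg (nn_nonneg _) (Nat.cast_nonneg _))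
        (div_le_div_of_nonneg_left (nn_nonneg _) d1
          (by exact_mod_cast Nat.le_mul_of_pos_left d r1))
    have h4 : (d : ℝ) ≤ 10 ^ ν := by
      exact_mod_cast k.trans (Nat.pow_le_pow_right (by norm_num) (by omega))
    have h5 : ((10 : ℝ) ^ ν / d + 1) * (2 * d) ≤ 4 * 10 ^ ν := by
      rw [add_mul, mul_comm 2 (d : ℝ), ← mul_assoc, div_mul_cancel₀ _ d1.ne']
      linarith
    push_cast at h1
    refine (mul_le_mul_of_nonneg_left (h1.trans (mul_le_mul_of_nonneg_left h3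
      (by positivity))) hc).trans ?_
    rw [← mul_assoc]
    exact (mul_le_mul_of_nonneg_right h5 (by positivity)).trans_eq (by ring)
  · have h1 := mul_le_mul_of_nonneg_right (hP _ d x hd) hA
    rw [sum_mul] at h1
    have h2 : ((10 : ℝ) ^ ν / d + 1) * ((d : ℝ) ^ (7 / 8 : ℝ) * (20 * 10 ^ μ)) ≤
        40 * (10 ^ μ * 10 ^ ν) * G := by
      refine P.via (by positivity) ?_
      have e1 : (d : ℝ) ^ (7 / 8 : ℝ) * 10 ^ ρ ≤ d :=
        rp2 hR.le d1 (by rw [← pow_mul, mul_comm]; exact_mod_cast k.le)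
      have e2 : (d : ℝ) ^ (7 / 8 : ℝ) * 10 ^ ρ ≤ 10 ^ ν :=
        (mul_le_mul_of_nonneg_right (rpow_le_rpow d1.le
          (by exact_mod_cast Nat.le_of_dvd hY hd) (by norm_num)) hR.le).trans
          (rp (a := μ + 2 * ρ) (by omega))
      have e3 : (10 : ℝ) ^ ν / d * ((d : ℝ) ^ (7 / 8 : ℝ) * 10 ^ ρ) ≤ 10 ^ ν :=
        (mul_le_mul_of_nonneg_left e1 (by positivity)).trans_eq (div_mul_cancel₀ _ d1.ne')
      have e4 := mul_le_mul_of_nonneg_right (add_le_add e3 e2) hA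
      exact le_of_eq_of_le (by ring) (e4.trans_eq (by ring))
    refine (mul_le_mul_of_nonneg_left (le_trans (sum_le_sum fun h _ => ?_) h1) hc).trans
      (h2.trans (mul_le_mul_of_nonneg_right (mul_le_mul_of_nonneg_right ?_ (by positivity)) G0.le))
    · rw [sum_mul]
      refine sum_le_sum fun h' _ => ?_
      split_ifs
      · exact mul_le_mul_of_nonneg_left (KK_le hA (hK _)) (mul_nonneg (F_nonneg ..) (F_nonneg ..))
      · simp
    · have : (0 : ℝ) ≤ μ := Nat.cast_nonneg _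
      linarith

/-- the sum over `n` for one pair of frequencies -/
theorem one_pair (hK : KsumStmt) {Y : ℕ} (hY : 0 < Y) (N : ℕ) (D : ℤ) {A : ℝ} (hA : 0 ≤ A)
    (β : ℝ) : ∑ n ∈ range N, KK A (nn (D * n / Y + β)) ≤
      ∑ d ∈ Y.divisors, (if (Y : ℤ) ∣ d * D then (N / d + 1) * KK A (nn (d * β) / d) else 0) +
        4 * (N + Y) * (1 + log Y) := by
  obtain ⟨g, a, d, g0, hc, e1, e2⟩ := Int.exists_gcd_one'
    (Int.gcd_pos_of_ne_zero_right D (show (Y : ℤ) ≠ 0 by exact_mod_cast hY.ne'))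
  have d0 : 0 < d := (mul_pos_iff_of_pos_right (by exact_mod_cast g0)).1
    (e2 ▸ (by exact_mod_cast hY : (0 : ℤ) < Y))
  lift d to ℕ using d0.le
  have e3 : Y = d * g := by exact_mod_cast e2
  have d1 : 0 < d := by exact_mod_cast d0
  have d2 : (1 : ℝ) ≤ d := by exact_mod_cast d1
  have d3 : (d : ℝ) ≤ Y := by exact_mod_cast Nat.le_of_dvd hY ⟨g, e3⟩
  have g1 : (g : ℝ) ≠ 0 := by exact_mod_cast g0.ne'
  have h1 := hK N d a A β d1 (Int.isCoprime_iff_gcd_eq_one.2 hc) hA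
  have h2 : ∀ n : ℕ, (D : ℝ) * n / Y = a * n / d := fun n => by
    rw [e1, e3]; push_cast; field_simp
  simp only [h2]
  refine h1.trans ?_
  rw [mul_add]
  refine add_le_add ?_ ?_
  · refine le_trans ?_ (single_le_sum (f := fun d : ℕ => if (Y : ℤ) ∣ d * D then
      ((N : ℝ) / d + 1) * KK A (nn (d * β) / d) else 0) (fun d _ => ?_)
      (Nat.mem_divisors.2 ⟨⟨g, e3⟩, hY.ne'⟩))
    · rw [if_pos ⟨a, by rw [e1, e2]; ring⟩]
    · split_ifs
      · exact mul_nonneg (by positivity)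
          (KK_nonneg hA (div_nonneg (nn_nonneg _) (Nat.cast_nonneg _)))
      · rfl
  · have h3 := log_le_log (by linarith) d3
    have h4 := log_nonneg d2
    have h5 : ((N : ℝ) / d + 1) * (4 * d * (1 + log d)) = 4 * (N + d) * (1 + log d) := by
      field_simp
    rw [h5]
    exact mul_le_mul (by linarith) (by linarith) (by linarith) (by positivity)

/-- the sum over all pairs of frequencies -/
theorem Par.pairs (P : Par ρ μ ν x G) (hP : PairStmt) (hK : KsumStmt) (hD : DiagStmt) {r : ℕ}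
    (r1 : 1 ≤ r) (r2 : r ≤ 10 ^ ρ) :
    ∑ h ∈ range (10 ^ (μ + 2 * ρ)), ∑ h' ∈ range (10 ^ (μ + 2 * ρ)),
      F (μ + 2 * ρ) x (h / 10 ^ (μ + 2 * ρ)) * F (μ + 2 * ρ) x (h' / 10 ^ (μ + 2 * ρ)) *
        ∑ n ∈ range (10 ^ ν), KK (20 * 10 ^ μ)
          (nn ((h - h') * n / 10 ^ (μ + 2 * ρ) + h * r / 10 ^ (μ + 2 * ρ))) ≤
      10 ^ 6 * (μ + ν + 1) ^ 3 * (10 ^ μ * 10 ^ ν) * G := by
  obtain ⟨y, hy⟩ : ∃ y, y = μ + 2 * ρ := ⟨_, rfl⟩
  have near := fun d hd => P.near hP hD (d := d) hd r1 r2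
  rw [← hy] at near ⊢
  have hY : 0 < 10 ^ y := by positivity
  have hA : (0 : ℝ) ≤ 20 * 10 ^ μ := by positivity
  have G0 := P.G_pos
  have p1 := P.h1
  have p2 := P.h2
  have p3 := P.h3
  have hl := log_ten_pow y
  have hl0 : 0 ≤ log ((10 : ℝ) ^ y) := log_nonneg (one_le_pow₀ (by norm_num))
  have hyl : (y : ℝ) ≤ μ + ν := by exact_mod_cast (by omega : y ≤ μ + ν)
  have h1 : ∀ h h' : ℕ, F y x (h / 10 ^ y) * F y x (h' / 10 ^ y) *
      ∑ n ∈ range (10 ^ ν), KK (20 * 10 ^ μ) (nn ((h - h') * n / 10 ^ y + h * r / 10 ^ y)) ≤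
      ∑ d ∈ (10 ^ y).divisors, ((10 : ℝ) ^ ν / (d : ℕ) + 1) *
        (if (10 : ℤ) ^ y ∣ d * ((h : ℤ) - h') then
        F y x (h / 10 ^ y) * F y x (h' / 10 ^ y) *
          KK (20 * 10 ^ μ) (nn (d * (h * r / 10 ^ y)) / d) else 0) +
      4 * (10 ^ ν + 10 ^ y) * (1 + log (10 ^ y)) *
        (if (10 : ℤ) ^ y ∣ ((10 ^ y : ℕ) : ℤ) * ((h : ℤ) - h') then
          F y x (h / 10 ^ y) * F y x (h' / 10 ^ y) else 0) := fun h h' => by
    have h2 := mul_le_mul_of_nonneg_left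
      (one_pair hK hY (10 ^ ν) ((h : ℤ) - h') hA (h * r / 10 ^ y))
      (mul_nonneg (F_nonneg y x (h / 10 ^ y)) (F_nonneg y x (h' / 10 ^ y)))
    push_cast at h2
    refine h2.trans (le_of_eq ?_)
    rw [mul_add, mul_sum, if_pos (by push_cast; exact dvd_mul_right _ _), mul_comm _ (4 * _ * _)]
    congr 1
    refine sum_congr rfl fun d _ => ?_
    split_ifs
    · ring
    · ring
  refine (sum_le_sum fun h _ => sum_le_sum fun h' _ => h1 h h').trans ?_
  simp only [sum_add_distrib]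
  rw [sum_congr rfl fun h _ => sum_comm, sum_comm]
  simp only [← mul_sum]
  have h3 := (sum_le_sum fun d hd => near d (Nat.dvd_of_mem_divisors hd))
  rw [sum_const, nsmul_eq_mul] at h3
  have h4 := h3.trans (mul_le_mul_of_nonneg_right (tau_ten y) (by positivity))
  have h5 := hP y (10 ^ y) x dvd_rfl
  have h6 : ((10 : ℝ) ^ ν + 10 ^ y) * ((10 ^ y : ℕ) : ℝ) ^ (7 / 8 : ℝ) ≤
      2 * (10 ^ μ * 10 ^ ν) * G := by
    refine P.via (by positivity) ?_
    have e1 := mul_le_mul_of_nonneg_left (rp (a := y) (b := μ) (c := ρ) (by omega))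
      (show (0 : ℝ) ≤ 10 ^ ν by positivity)
    have e2 := rp (a := y) (b := μ + ν) (c := y + ρ) (by omega)
    rw [pow_add, pow_add] at e2
    push_cast
    exact le_of_eq_of_le (by ring) ((add_le_add e1 e2).trans_eq (by ring))
  have h7 := mul_le_mul_of_nonneg_left h5
    (show (0 : ℝ) ≤ 4 * (10 ^ ν + 10 ^ y) * (1 + log (10 ^ y)) by positivity)
  have h8 := mul_le_mul_of_nonneg_left h6 (show (0 : ℝ) ≤ 4 * (1 + log (10 ^ y)) by positivity)
  refine (add_le_add h4 (h7.trans (le_of_eq_of_le (by ring) h8))).trans ?_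
  obtain ⟨L, hL⟩ : ∃ L : ℝ, L = μ + ν + 1 := ⟨_, rfl⟩
  have m0 : (0 : ℝ) ≤ μ := Nat.cast_nonneg _
  have n0 : (0 : ℝ) ≤ ν := Nat.cast_nonneg _
  have y0 : (0 : ℝ) ≤ y := Nat.cast_nonneg _
  have l1 : 1 ≤ L := by linarith
  have l2 : ((y : ℝ) + 1) ^ 2 * (μ + 1) ≤ L ^ 3 := by
    rw [pow_succ L 2]
    exact mul_le_mul (pow_le_pow_left₀ (by linarith) (by linarith) 2) (by linarith) (by linarith)
      (by positivity)
  have l3 : L ≤ L ^ 3 := le_self_pow₀ l1 (by norm_num)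
  have l4 : 4 * 10 ^ 5 * (((y : ℝ) + 1) ^ 2 * (μ + 1)) + 8 * (1 + log (10 ^ y)) ≤
      10 ^ 6 * L ^ 3 := by linarith
  rw [← hL]
  exact le_of_eq_of_le (by ring) ((mul_le_mul_of_nonneg_right l4
    (show (0 : ℝ) ≤ 10 ^ μ * 10 ^ ν * G by positivity)).trans_eq (by ring))

end

/-- expansion of the truncated correlation in frequencies -/
theorem expand (y : ℕ) (x : ℕ → ℝ) (a b n r : ℕ) {A : ℝ} (hA : 2 * ((b - a : ℕ) : ℝ) ≤ A) :
    ‖∑ m ∈ Ico a b, cf y x (m * (n + r)) * (starRingEnd ℂ) (cf y x (m * n))‖ ≤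
      ∑ h ∈ range (10 ^ y), ∑ h' ∈ range (10 ^ y), F y x (h / 10 ^ y) * F y x (h' / 10 ^ y) *
        KK A (nn ((h - h') * n / 10 ^ y + h * r / 10 ^ y)) := by
  obtain ⟨g, hg, hc⟩ := cf_inv y x
  have h1 : ∀ m : ℕ, cf y x (m * (n + r)) * (starRingEnd ℂ) (cf y x (m * n)) =
      ∑ h ∈ range (10 ^ y), ∑ h' ∈ range (10 ^ y), g h * (starRingEnd ℂ) (g h') *
        e (m * ((h - h') * n / 10 ^ y + h * r / 10 ^ y)) := fun m => by
    rw [hc, hc, map_sum, sum_mul_sum]
    refine sum_congr rfl fun h _ => sum_congr rfl fun h' _ => ?_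
    rw [map_mul, conj_e, mul_mul_mul_comm, ← e_add]
    congr 2
    push_cast
    ring
  simp only [h1]
  rw [sum_comm]
  refine (norm_sum_le _ _).trans (sum_le_sum fun h _ => ?_)
  rw [sum_comm]
  refine (norm_sum_le _ _).trans (sum_le_sum fun h' _ => ?_)
  rw [← mul_sum, norm_mul, norm_mul, RCLike.norm_conj, hg, hg]
  exact mul_le_mul_of_nonneg_left (geo_KK a b _ A hA) (mul_nonneg (F_nonneg ..) (F_nonneg ..))

/-- removal of the top digits -/
theorem carry_pt (y y' : ℕ) (x : ℕ → ℝ) (k j H : ℕ) (hj : j ≤ H) :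
    ‖cf (y + y') x (k + j) * (starRingEnd ℂ) (cf (y + y') x k) -
      cf y x (k + j) * (starRingEnd ℂ) (cf y x k)‖ ≤ if 10 ^ y ≤ k % 10 ^ y + H then 2 else 0 := by
  split_ifs with h
  · refine (norm_sub_le _ _).trans ?_
    simp only [norm_mul, RCLike.norm_conj, norm_cf]
    norm_num
  · have h1 : (k + j) / 10 ^ y = k / 10 ^ y := by
      have hY : 0 < 10 ^ y := by positivity
      conv_lhs => rw [← Nat.div_add_mod k (10 ^ y), add_assoc, Nat.mul_add_div hY,
        Nat.div_eq_of_lt (show k % 10 ^ y + j < 10 ^ y by omega), add_zero]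
    have h2 := Complex.mul_conj' (cf y' (sh y x) (k / 10 ^ y))
    rw [norm_cf] at h2
    rw [cf_add, cf_add, h1, map_mul, mul_mul_mul_comm, h2]
    simp

theorem exists_cut (M T q : ℕ) (hq : 0 < q) : ∃ M' ≤ 10 * M,
    (Ico M (10 * M)).filter (fun m => m * q < T) = Ico M M' := by
  refine ⟨min (10 * M) ((T + q - 1) / q), min_le_left _ _, ?_⟩
  ext m
  have h : m < (T + q - 1) / q ↔ m * q < T := by
    rw [Nat.lt_iff_add_one_le, Nat.le_div_iff_mul_le hq, add_mul, one_mul]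
    omega
  simp only [mem_filter, mem_Ico, lt_min_iff, and_assoc, h]

/-- the correlation -/
noncomputable def V (lam : ℕ) (x : ℕ → ℝ) (M T r n : ℕ) : ℂ :=
  ∑ m ∈ Ico M (10 * M), if m * (n + r) < T then
    cf lam x (m * (n + r)) * (starRingEnd ℂ) (cf lam x (m * n)) else 0

theorem V_le (lam : ℕ) (x : ℕ → ℝ) (M T r n : ℕ) : ‖V lam x M T r n‖ ≤ 9 * M := by
  refine (norm_sum_le _ _).trans ((sum_le_card_nsmul _ _ 1 fun m _ => ?_).trans ?_)
  · split_ifs
    · simp only [norm_mul, RCLike.norm_conj, norm_cf, mul_one, le_refl]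
    · simp
  · rw [Nat.card_Ico, show 10 * M - M = 9 * M by omega]
    simp

theorem Par.V_sum {ρ μ ν : ℕ} {x : ℕ → ℝ} {G : ℝ} (P : Par ρ μ ν x G) (hP : PairStmt)
    (hK : KsumStmt) (hC : CarryStmt) (hD : DiagStmt) (T : ℕ) {r : ℕ} (r1 : 1 ≤ r)
    (r2 : r ≤ 10 ^ ρ) : ∑ n ∈ range (10 ^ ν), ‖V (μ + ν) x (10 ^ μ) T r n‖ ≤
      2 * 10 ^ 6 * (μ + ν + 1) ^ 3 * (10 ^ μ * 10 ^ ν) * G := by
  have pairs := P.pairs hP hK hD r1 r2
  have p1 := P.h1
  have p2 := P.h2
  obtain ⟨y, hy⟩ : ∃ y, y = μ + 2 * ρ := ⟨_, rfl⟩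
  obtain ⟨y', hy'⟩ : ∃ y', μ + ν = y + y' := ⟨ν - 2 * ρ, by omega⟩
  rw [← hy] at pairs
  have hM : (0 : ℝ) < 10 ^ μ := by positivity
  have hR : (1 : ℝ) ≤ 10 ^ ρ := one_le_pow₀ (by norm_num)
  have h1 : ∀ n, ‖V (μ + ν) x (10 ^ μ) T r n‖ ≤
      ∑ h ∈ range (10 ^ y), ∑ h' ∈ range (10 ^ y), F y x (h / 10 ^ y) * F y x (h' / 10 ^ y) *
        KK (20 * 10 ^ μ) (nn ((h - h') * n / 10 ^ y + h * r / 10 ^ y)) +
      ∑ m ∈ Ico (10 ^ μ) (10 * 10 ^ μ),
        if 10 ^ y ≤ m * n % 10 ^ y + 10 * 10 ^ μ * 10 ^ ρ then 2 else 0 := fun n => by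
    obtain ⟨M', k1, k2⟩ := exists_cut (10 ^ μ) T (n + r) (by omega)
    have k3 : 2 * ((M' - 10 ^ μ : ℕ) : ℝ) ≤ 20 * 10 ^ μ := by
      exact_mod_cast (by omega : 2 * (M' - 10 ^ μ) ≤ 20 * 10 ^ μ)
    rw [V, ← sum_filter, k2, hy']
    refine (norm_le_norm_add_norm_sub' _ _).trans (add_le_add (expand y x _ M' n r k3) ?_)
    rw [← sum_sub_distrib]
    refine (norm_sum_le _ _).trans ((sum_le_sum fun m hm => ?_).trans
      (sum_le_sum_of_subset_of_nonneg (Ico_subset_Ico_right k1) fun m _ _ => by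
        split_ifs <;> norm_num))
    rw [mul_add]
    exact carry_pt y y' x _ _ _ (Nat.mul_le_mul ((mem_Ico.1 hm).2.le.trans k1) r2)
  refine (sum_le_sum fun n _ => h1 n).trans ?_
  rw [sum_add_distrib, sum_comm, sum_congr rfl fun h _ => sum_comm]
  simp only [← mul_sum]
  have h2 : ∑ n ∈ range (10 ^ ν), ∑ m ∈ Ico (10 ^ μ) (10 * 10 ^ μ),
      (if 10 ^ y ≤ m * n % 10 ^ y + 10 * 10 ^ μ * 10 ^ ρ then (2 : ℝ) else 0) ≤
      2178 * (10 ^ μ * 10 ^ ν) * G := by
    refine P.via (sum_nonneg fun _ _ => sum_nonneg fun _ _ => by split_ifs <;> norm_num) ?_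
    have e0 : (10 : ℝ) ^ μ * 10 ^ ν = 10 ^ y * 10 ^ y' := by rw [← pow_add, ← pow_add, hy']
    have e1 : (10 : ℝ) ^ y = 10 ^ μ * 10 ^ ρ * 10 ^ ρ := by
      rw [← pow_add, ← pow_add, hy, add_assoc, two_mul]
    have e2 : (1 : ℝ) ≤ 10 ^ y' := one_le_pow₀ (by norm_num)
    rw [sum_comm]
    refine (mul_le_mul_of_nonneg_right (sum_le_card_nsmul _ _
      (11 * 10 ^ y' * (11 * 10 ^ ρ) * 2) fun m hm => ?_) (by positivity)).trans (le_of_eq ?_)
    · have m1 : (10 : ℝ) ^ μ ≤ m := by exact_mod_cast (mem_Ico.1 hm).1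
      have m2 : (m : ℝ) ≤ 10 * 10 ^ μ := by exact_mod_cast (mem_Ico.1 hm).2.le
      have h3 := hC m (10 ^ ν) (10 ^ y) (10 * 10 ^ μ * 10 ^ ρ)
        ((Nat.one_le_pow _ _ (by norm_num)).trans (mem_Ico.1 hm).1)
        (Nat.one_le_pow _ _ (by norm_num))
      rw [← sum_filter, sum_const, nsmul_eq_mul]
      refine mul_le_mul_of_nonneg_right (h3.trans ?_) zero_le_two
      push_cast
      have h4 : (m : ℝ) * 10 ^ ν / 10 ^ y ≤ 10 * 10 ^ y' := by
        rw [div_le_iff₀ (by positivity)]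
        refine (mul_le_mul_of_nonneg_right m2 (by positivity)).trans_eq ?_
        rw [mul_assoc, e0]; ring
      have h5 : (10 : ℝ) * 10 ^ μ * 10 ^ ρ / m ≤ 10 * 10 ^ ρ := by
        rw [div_le_iff₀ (hM.trans_le m1)]
        exact le_of_eq_of_le (by ring) (mul_le_mul_of_nonneg_left m1 (by positivity))
      exact mul_le_mul (by linarith) (by linarith) (by positivity) (by positivity)
    · rw [Nat.card_Ico, show 10 * 10 ^ μ - 10 ^ μ = 9 * 10 ^ μ by omega, e0, e1, nsmul_eq_mul]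
      push_cast
      ring
  have h3 : (1 : ℝ) ≤ (μ + ν + 1) ^ 3 :=
    one_le_pow₀ (le_add_of_nonneg_left (by positivity))
  have h4 := mul_le_mul_of_nonneg_right (show (2178 : ℝ) ≤ 10 ^ 6 * (μ + ν + 1) ^ 3 by linarith)
    (show (0 : ℝ) ≤ 10 ^ μ * 10 ^ ν * G from mul_nonneg (by positivity) P.G_pos.le)
  refine (add_le_add pairs (h2.trans (le_of_eq_of_le (mul_assoc _ _ _) h4))).trans_eq ?_
  ring

/-- large values of the coefficients are rare -/
theorem split_coef {u v B w W : ℝ} (hu : 0 ≤ u) (hv : 0 ≤ v) (hB : 1 ≤ B) (hw : 0 ≤ w)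
    (hW : w ≤ W) : u * v * w ≤ B ^ 2 * w + (u ^ 100 + v ^ 100) / B ^ 98 * W := by
  have B0 : 0 < B := by linarith
  wlog h : v ≤ u generalizing u v
  · rw [mul_comm u v, add_comm (u ^ 100)]
    exact this hv hu (le_of_not_ge h)
  have h1 : u * v ≤ u ^ 2 := by rw [sq]; exact mul_le_mul_of_nonneg_left h hu
  have h2 : 0 ≤ (u ^ 100 + v ^ 100) / B ^ 98 := by positivity
  rcases le_total u B with k | k
  · exact le_add_of_le_of_nonneg (mul_le_mul_of_nonneg_right
      (h1.trans (pow_le_pow_left₀ hu k 2)) hw) (mul_nonneg h2 (hw.trans hW))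
  · refine le_add_of_nonneg_of_le (by positivity) (mul_le_mul (h1.trans ?_) hW hw h2)
    rw [le_div_iff₀ (by positivity)]
    refine le_add_of_le_of_nonneg ?_ (by positivity)
    rw [show u ^ 100 = u ^ 2 * u ^ 98 by rw [← pow_add]]
    exact mul_le_mul_of_nonneg_left (pow_le_pow_left₀ B0.le k 98) (sq_nonneg u)

/-- shifted moments of the divisor function -/
theorem tau_shift {k : ℕ} (hk : k ≠ 0) (N N' r : ℕ) (h : N + r ≤ N') {L : ℝ}
    (hL : 1 + log N' ≤ L) : ∑ n ∈ range N, tau (n + r) ^ k ≤ N' * L ^ 2 ^ k := by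
  have h1 : ∑ n ∈ range N, tau (n + r) ^ k ≤ ∑ n ∈ insert 0 (Icc 1 N'), tau n ^ k := by
    rw [← sum_image (s := range N) (g := fun n => n + r) (f := fun n => tau n ^ k)
      fun a _ b _ e => Nat.add_right_cancel e]
    refine sum_le_sum_of_subset_of_nonneg (fun m hm => ?_) fun m _ _ => pow_nonneg (tau_nonneg m) k
    obtain ⟨n, hn, rfl⟩ := mem_image.1 hm
    have := mem_range.1 hn
    simp only [mem_insert, mem_Icc]
    omega
  rw [sum_insert (by simp), tau_zero, zero_pow hk, zero_add] at h1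
  exact h1.trans ((tau_sum k N').trans (mul_le_mul_of_nonneg_left (pow_le_pow_left₀
    (add_nonneg zero_le_one (log_natCast_nonneg _)) hL _) (Nat.cast_nonneg _)))

/-- the estimate with explicit constants -/
theorem Par.main {ρ μ ν : ℕ} {x : ℕ → ℝ} {B : ℝ} (P : Par ρ μ ν x (1 / B ^ 100)) (hB : 1 ≤ B)
    (hP : PairStmt) (hV : VdcStmt) (hK : KsumStmt) (hC : CarryStmt) (hD : DiagStmt) {E : ℕ}
    {L : ℝ} (hL : 3 * (μ + ν + 1) + 1 ≤ L)
    (hE : ∀ N N' r : ℕ, N + r ≤ N' → 1 + log N' ≤ L →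
      ∑ n ∈ range N, tau (n + r) ^ 100 ≤ N' * L ^ E)
    {T : ℕ} (hT : T ≤ 10 ^ (μ + ν)) {a b : ℕ → ℝ} (ha : ∀ m, |a m| ≤ tau m)
    (hb : ∀ n, |b n| ≤ tau n) :
    ‖∑ m ∈ Ico (10 ^ μ) (10 * 10 ^ μ), ∑ n ∈ range (10 ^ ν),
      if m * n < T then ((a m * b n : ℝ) : ℂ) * cf (μ + ν) x (m * n) else 0‖ ^ 2 ≤
      (10 ^ μ * 10 ^ ν) ^ 2 / B ^ 98 * (10 ^ 8 * L ^ (E + 8)) := by
  have B0 : 0 < B := by linarith
  have p1 := P.h1
  have p2 := P.h2
  have hM : (0 : ℝ) < 10 ^ μ := by positivity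
  have hN : (0 : ℝ) < 10 ^ ν := by positivity
  have m0 : (0 : ℝ) ≤ μ := Nat.cast_nonneg _
  have n0 : (0 : ℝ) ≤ ν := Nat.cast_nonneg _
  have L1 : 1 ≤ L := by linarith
  have hRN : 10 ^ ρ ≤ 10 ^ ν := Nat.pow_le_pow_right (by norm_num) (by omega)
  have hlog : ∀ j : ℕ, j ≤ μ + ν → 1 + log ((10 * 10 ^ j : ℕ) : ℝ) ≤ L := fun j hj => by
    have h1 := log_ten_pow (j + 1)
    have h2 : (j : ℝ) ≤ μ + ν := by exact_mod_cast hj
    rw [← pow_succ']
    push_cast at h1 ⊢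
    linarith
  obtain ⟨z, hz⟩ : ∃ z : ℕ → ℕ → ℂ, ∀ m n, z m n =
      if 10 ^ μ ≤ m ∧ m * n < T then (b n : ℂ) * cf (μ + ν) x (m * n) else 0 := ⟨_, fun _ _ => rfl⟩
  obtain ⟨c, hc⟩ : ∃ c : ℝ, c = 10 ^ μ * 10 ^ ν / B ^ 98 * (2 * 10 ^ 6 * L ^ 3 + 180 * L ^ E) :=
    ⟨_, rfl⟩
  have h1 := hV (Ico (10 ^ μ) (10 * 10 ^ μ)) z (10 ^ ν) (10 ^ ρ) c
    (Nat.one_le_pow _ _ (by norm_num)) (by rw [hc]; positivity) (fun m n hn => by
      rw [hz, if_neg]
      rintro ⟨k1, k2⟩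
      have := Nat.mul_le_mul k1 hn
      rw [← pow_add] at this
      omega) fun r r1 r2 => by
    have h2 : ∑ m ∈ Ico (10 ^ μ) (10 * 10 ^ μ), ∑ n ∈ range (10 ^ ν),
        z m (n + r) * (starRingEnd ℂ) (z m n) =
        ∑ n ∈ range (10 ^ ν), ((b (n + r) * b n : ℝ) : ℂ) * V (μ + ν) x (10 ^ μ) T r n := by
      rw [sum_comm]
      refine sum_congr rfl fun n _ => ?_
      rw [V, mul_sum]
      refine sum_congr rfl fun m hm => ?_
      by_cases k : m * (n + r) < T
      · rw [hz, hz, if_pos k, if_pos ⟨(mem_Ico.1 hm).1, k⟩, if_pos ⟨(mem_Ico.1 hm).1,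
          (Nat.mul_le_mul_left m (Nat.le_add_right n r)).trans_lt k⟩, map_mul, Complex.conj_ofReal]
        push_cast
        ring
      · rw [hz, if_neg k, if_neg fun h => k h.2, zero_mul, mul_zero]
    have h3 : ∀ n, ‖((b (n + r) * b n : ℝ) : ℂ) * V (μ + ν) x (10 ^ μ) T r n‖ ≤
        B ^ 2 * ‖V (μ + ν) x (10 ^ μ) T r n‖ +
          (tau (n + r) ^ 100 + tau (n + 0) ^ 100) / B ^ 98 * (9 * (10 ^ μ : ℕ)) := fun n => by
      rw [norm_mul, Complex.norm_real, norm_eq_abs, abs_mul]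
      exact (mul_le_mul_of_nonneg_right (mul_le_mul (hb _) (hb _) (abs_nonneg _) (tau_nonneg _))
        (norm_nonneg _)).trans
        (split_coef (tau_nonneg _) (tau_nonneg _) hB (norm_nonneg _) (V_le ..))
    have h4 := mul_le_mul_of_nonneg_left (P.V_sum hP hK hC hD T r1 r2.le) (sq_nonneg B)
    have h5 := add_le_add (hE (10 ^ ν) (10 * 10 ^ ν) r (by omega) (hlog ν (by omega)))
      (hE (10 ^ ν) (10 * 10 ^ ν) 0 (by omega) (hlog ν (by omega)))
    have h6 : ((μ : ℝ) + ν + 1) ^ 3 ≤ L ^ 3 := pow_le_pow_left₀ (by linarith) (by linarith) 3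
    rw [h2]
    refine (norm_sum_le _ _).trans ((sum_le_sum fun n _ => h3 n).trans ?_)
    rw [sum_add_distrib, ← mul_sum, ← sum_mul, ← sum_div, sum_add_distrib, hc, mul_add]
    refine add_le_add (h4.trans ?_) ((mul_le_mul_of_nonneg_right
      (div_le_div_of_nonneg_right h5 (by positivity)) (by positivity)).trans_eq ?_)
    · refine le_of_eq_of_le ?_ (mul_le_mul_of_nonneg_left (mul_le_mul_of_nonneg_left h6
        (by norm_num)) (by positivity))
      rw [show B ^ 100 = B ^ 2 * B ^ 98 by rw [← pow_add]]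
      field_simp
    · push_cast
      ring
  have h7 : (∑ m ∈ Ico (10 ^ μ) (10 * 10 ^ μ), ∑ n ∈ range (10 ^ ν), ‖z m n‖ ^ 2) /
      (10 ^ ρ : ℕ) ≤ 10 ^ μ * 10 ^ ν / B ^ 98 * (90 * L ^ 4) := by
    have e1 : ∀ m ∈ Ico (10 ^ μ) (10 * 10 ^ μ), ∑ n ∈ range (10 ^ ν), ‖z m n‖ ^ 2 ≤
        (10 * 10 ^ ν : ℕ) * L ^ 2 ^ 2 := fun m _ => by
      refine le_trans (sum_le_sum fun n _ => pow_le_pow_left₀ (norm_nonneg _) ?_ 2)
        (tau_shift two_ne_zero _ _ 0 (by omega) (hlog ν (by omega)))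
      rw [hz]
      split_ifs
      · rw [norm_mul, norm_cf, mul_one, Complex.norm_real]
        exact hb n
      · rw [norm_zero]; exact tau_nonneg _
    have e2 := sum_le_card_nsmul _ _ _ e1
    rw [Nat.card_Ico, show 10 * 10 ^ μ - 10 ^ μ = 9 * 10 ^ μ by omega, nsmul_eq_mul] at e2
    have e3 : 1 / B ^ 100 ≤ 1 / B ^ 98 :=
      one_div_le_one_div_of_le (by positivity) (pow_le_pow_right₀ hB (by norm_num))
    refine (P.via (div_nonneg (sum_nonneg fun _ _ => sum_nonneg fun _ _ => sq_nonneg _)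
      (Nat.cast_nonneg _)) (le_of_eq_of_le ?_ e2)).trans
      ((mul_le_mul_of_nonneg_left e3 (by positivity)).trans_eq ?_)
    · rw [Nat.cast_pow, Nat.cast_ofNat, div_mul_cancel₀ _ (by positivity)]
    · push_cast
      ring
  have h8 : ∑ m ∈ Ico (10 ^ μ) (10 * 10 ^ μ), |a m| ^ 2 ≤ (10 * 10 ^ μ : ℕ) * L ^ 2 ^ 2 := by
    refine le_trans ?_ (tau_shift two_ne_zero (10 * 10 ^ μ) _ 0 le_rfl (hlog μ (by omega)))
    refine (sum_le_sum fun m _ => pow_le_pow_left₀ (abs_nonneg _) (ha m) 2).trans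
      (sum_le_sum_of_subset_of_nonneg (fun m hm => mem_range.2 (mem_Ico.1 hm).2)
        fun _ _ _ => sq_nonneg _)
  have h9 : ‖∑ m ∈ Ico (10 ^ μ) (10 * 10 ^ μ), ∑ n ∈ range (10 ^ ν),
      if m * n < T then ((a m * b n : ℝ) : ℂ) * cf (μ + ν) x (m * n) else 0‖ ≤
      ∑ m ∈ Ico (10 ^ μ) (10 * 10 ^ μ), |a m| * ‖∑ n ∈ range (10 ^ ν), z m n‖ := by
    refine (norm_sum_le _ _).trans (sum_le_sum fun m hm => le_of_eq ?_)
    rw [← norm_eq_abs, ← Complex.norm_real, ← norm_mul, mul_sum]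
    refine congrArg _ (sum_congr rfl fun n _ => ?_)
    rw [hz]
    by_cases k : m * n < T
    · rw [if_pos k, if_pos ⟨(mem_Ico.1 hm).1, k⟩]
      push_cast
      ring
    · rw [if_neg k, if_neg fun h => k h.2, mul_zero]
  have h10 : ((10 ^ ν : ℕ) : ℝ) + (10 ^ ρ : ℕ) ≤ 2 * 10 ^ ν := by
    exact_mod_cast (by omega : 10 ^ ν + 10 ^ ρ ≤ 2 * 10 ^ ν)
  have l1 : L ^ 4 ≤ L ^ (E + 4) := pow_le_pow_right₀ L1 (by omega)
  have l2 : L ^ 3 ≤ L ^ (E + 4) := pow_le_pow_right₀ L1 (by omega)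
  have l3 : L ^ E ≤ L ^ (E + 4) := pow_le_pow_right₀ L1 (by omega)
  have l4 : 0 ≤ L ^ (E + 4) := by positivity
  have h11 : 10 ^ μ * 10 ^ ν / B ^ 98 * (90 * L ^ 4) + c ≤
      10 ^ μ * 10 ^ ν / B ^ 98 * (5 * 10 ^ 6 * L ^ (E + 4)) := by
    rw [hc, ← mul_add]
    exact mul_le_mul_of_nonneg_left (by linarith) (by positivity)
  have h12 := h1.trans (mul_le_mul h10 ((add_le_add h7 le_rfl).trans h11) (add_nonneg
    (div_nonneg (sum_nonneg fun _ _ => sum_nonneg fun _ _ => sq_nonneg _) (Nat.cast_nonneg _))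
    (by rw [hc]; positivity)) (by positivity))
  refine (pow_le_pow_left₀ (norm_nonneg _) h9 2).trans ((sum_mul_sq_le_sq_mul_sq _ _ _).trans
    ((mul_le_mul h8 h12 (sum_nonneg fun _ _ => sq_nonneg _) (by positivity)).trans_eq ?_))
  push_cast
  ring

end Core2

open Core2 in
theorem core2 (hP : PairStmt) (hV : VdcStmt) (hK : KsumStmt) (hC : CarryStmt) (hD : DiagStmt) :
    Core2Stmt := by
  obtain ⟨E, hE⟩ : ∃ E : ℕ, ∀ (L : ℝ) (N N' r : ℕ), N + r ≤ N' → 1 + log N' ≤ L →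
      ∑ n ∈ range N, tau (n + r) ^ 100 ≤ N' * L ^ E :=
    ⟨_, fun L N N' r h1 h2 => tau_shift (by norm_num) N N' r h1 h2⟩
  refine ⟨E + 12, ?_⟩
  filter_upwards [eventually_ge_atTop 12000] with lam hlam x B hB μ T a b h1 h2 hT ha hb
  obtain ⟨ν, rfl⟩ : ∃ ν, lam = μ + ν := ⟨lam - μ, by omega⟩
  have k1 := kap_le (μ + ν)
  have k2 := lt_kap (μ + ν)
  obtain ⟨B1, B2, B3⟩ := hB
  have B0 : 0 < B := by linarith
  have P : Par (100 * kap (μ + ν)) μ ν x (1 / B ^ 100) := by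
    refine ⟨by omega, by omega, by omega, ?_, fun t => le_trans (pow_le_pow_left₀ (F_nonneg ..)
      (F_mono (by omega) _ t) 2) (B3 _ t (by omega))⟩
    rw [one_div_mul_eq_div, one_le_div (by positivity), mul_comm, pow_mul]
    exact pow_le_pow_left₀ B0.le B2 100
  have l1 : (12000 : ℝ) ≤ (μ + ν : ℕ) := by exact_mod_cast hlam
  have l2 : 3 * ((μ : ℝ) + ν + 1) + 1 ≤ ((μ + ν : ℕ) : ℝ) ^ 2 := by
    rw [← Nat.cast_add]
    nlinarith
  have h3 := P.main B1 hP hV hK hC hD l2 (hE _) hT ha hb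
  have l3 : (10 : ℝ) ^ 8 ≤ ((μ + ν : ℕ) : ℝ) ^ 8 := pow_le_pow_left₀ (by norm_num) (by linarith) 8
  rw [Nat.add_sub_cancel_left, pow_succ' 10 μ]
  refine le_of_sq_le_sq (h3.trans ((mul_le_mul_of_nonneg_left (mul_le_mul_of_nonneg_right l3
    (by positivity)) (by positivity)).trans_eq ?_)) (by positivity)
  rw [pow_add (10 : ℝ) μ ν]
  generalize ((μ + ν : ℕ) : ℝ) = l
  field_simp
  ring

end Pool.Agent.Emirp

end MrgPart2

-- ======== part 3: formerly Pool.Agent.MP_e620c0_nt.AnaA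
section MrgPart3

/-! Module ANA, first part: Abel summation, Mertens, prime number theorem in intervals. -/

set_option autoImplicit false

namespace Pool.Agent.Emirp

open Finset Filter Real MeasureTheory
open scoped ArithmeticFunction.vonMangoldt

namespace Ana

lemma step_int {g : ℝ → ℝ} {a b : ℝ} (t : ℝ) (hg : IntervalIntegrable g volume a b) :
    IntervalIntegrable (fun u => if t ≤ u then g u else 0) volume a b := by
  have e : (fun u => if t ≤ u then g u else 0) = (Set.Ici t).indicator g := by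
    funext u
    simp [Set.indicator_apply]
  rw [e]
  exact ⟨hg.1.indicator measurableSet_Ici, hg.2.indicator measurableSet_Ici⟩

lemma step_eq {h g : ℝ → ℝ} {a b t : ℝ} (hat : a ≤ t) (htb : t ≤ b)
    (hd : ∀ u ∈ Set.Icc a b, HasDerivAt h (g u) u) (hg : ContinuousOn g (Set.Icc a b)) :
    ∫ u in a..b, (if t ≤ u then g u else 0) = h b - h t := by
  have h1 : IntervalIntegrable g volume a t :=
    (hg.mono (by rw [Set.uIcc_of_le hat]; exact Set.Icc_subset_Icc le_rfl htb)).intervalIntegrable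
  have h2 : IntervalIntegrable g volume t b :=
    (hg.mono (by rw [Set.uIcc_of_le htb]; exact Set.Icc_subset_Icc hat le_rfl)).intervalIntegrable
  rw [← intervalIntegral.integral_add_adjacent_intervals (step_int t h1) (step_int t h2)]
  have e1 : ∫ u in a..t, (if t ≤ u then g u else 0) = 0 := by
    apply intervalIntegral.integral_zero_ae
    filter_upwards [compl_mem_ae_iff.mpr (measure_singleton t)] with u hu hm
    rw [Set.uIoc_of_le hat] at hm
    rw [if_neg]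
    intro h3
    exact hu (le_antisymm hm.2 h3)
  have e2 : ∫ u in t..b, (if t ≤ u then g u else 0) = ∫ u in t..b, g u := by
    apply intervalIntegral.integral_congr
    intro u hu
    rw [Set.uIcc_of_le htb] at hu
    simp [hu.1]
  rw [e1, e2, zero_add]
  apply intervalIntegral.integral_eq_sub_of_hasDerivAt _ h2
  intro u hu
  rw [Set.uIcc_of_le htb] at hu
  exact hd u ⟨hat.trans hu.1, hu.2⟩

lemma sum_lt_eq {m T T₁ : ℕ} (hm : 1 ≤ m) (hT : 1 ≤ T) (h : T ≤ T₁) :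
    ∑ n ∈ (range T₁).filter (fun n => m * n < T), Λ n = Chebyshev.psi (((T : ℝ) - 1) / m) := by
  rw [MP_39a890_nt.PNT.psi_eq]
  have e : ⌊((T : ℝ) - 1) / m⌋₊ = (T - 1) / m := by
    rw [← Nat.floor_div_eq_div (K := ℝ), Nat.cast_sub hT, Nat.cast_one]
  rw [e]
  symm
  apply sum_subset
  · intro n hn
    rw [mem_Icc, Nat.le_div_iff_mul_le hm] at hn
    rw [mem_filter, mem_range]
    have : n ≤ n * m := Nat.le_mul_of_pos_right n hm
    rw [mul_comm m n]
    omega
  · intro n hn hn'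
    rw [mem_filter, mem_range] at hn
    rw [mem_Icc, Nat.le_div_iff_mul_le hm, mul_comm n m] at hn'
    have : n = 0 := by omega
    simp [this]

end Ana

open Ana

theorem abel : AbelStmt := by
  intro s w t h h' J a b κ C H hab hba ht hA hd hc
  have hI : Set.uIcc a b = Set.Icc a b := Set.uIcc_of_le hab
  have hi : IntervalIntegrable h' volume a b := (hI ▸ hc).intervalIntegrable
  have hb : b ∈ Set.Icc a b := ⟨hab, le_rfl⟩
  have hC : 0 ≤ C := (abs_nonneg _).trans (hA b hb)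
  have hH : 0 ≤ H := (abs_nonneg _).trans (hd b hb).2.2.1
  have i1 : ∀ i ∈ s, IntervalIntegrable (fun u => w i * if t i ≤ u then h' u else 0) volume a b :=
    fun i _ => (step_int (t i) hi).const_mul _
  have i2 : IntervalIntegrable (fun u => ∑ i ∈ s, w i * if t i ≤ u then h' u else 0) volume a b :=
    by simpa [Finset.sum_fn] using IntervalIntegrable.sum s i1
  have i3 : IntervalIntegrable (fun u => (u - a) * h' u) volume a b :=
    hi.continuousOn_mul (by fun_prop)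
  have e1 : ∫ u in a..b, ∑ i ∈ s, w i * (if t i ≤ u then h' u else 0) =
      ∑ i ∈ s, w i * (h b - h (t i)) := by
    rw [intervalIntegral.integral_finsetSum i1]
    refine sum_congr rfl fun i hi' => ?_
    rw [intervalIntegral.integral_const_mul,
      step_eq (ht i hi').1 (ht i hi').2 (fun u hu => (hd u hu).1) hc]
  have e2 : ∫ u in a..b, (u - a) * h' u = ((b - a) * h b - J b) - ((a - a) * h a - J a) := by
    apply intervalIntegral.integral_eq_sub_of_hasDerivAt (f := fun u => (u - a) * h u - J u) _ i3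
    intro u hu
    rw [hI] at hu
    have := (((hasDerivAt_id u).sub_const a).mul (hd u hu).1).sub (hd u hu).2.1
    refine this.congr_deriv ?_
    simp only [id]
    ring
  have e3 : ∫ u in a..b, (∑ i ∈ s, w i * (if t i ≤ u then h' u else 0) - κ * ((u - a) * h' u)) =
      ∑ i ∈ s, w i * (h b - h (t i)) - κ * (((b - a) * h b - J b) - ((a - a) * h a - J a)) := by
    rw [intervalIntegral.integral_sub i2 (i3.const_mul κ), e1,
      intervalIntegral.integral_const_mul, e2]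
  have b1 : ‖∫ u in a..b, (∑ i ∈ s, w i * (if t i ≤ u then h' u else 0) - κ * ((u - a) * h' u))‖
      ≤ C * H * |b - a| := by
    apply intervalIntegral.norm_integral_le_of_norm_le_const
    intro u hu
    rw [Set.uIoc_of_le hab] at hu
    have hu' : u ∈ Set.Icc a b := ⟨hu.1.le, hu.2⟩
    have e : ∑ i ∈ s, w i * (if t i ≤ u then h' u else 0) - κ * ((u - a) * h' u) =
        (∑ i ∈ s.filter (fun i => t i ≤ u), w i - κ * (u - a)) * h' u := by
      rw [sub_mul _ (κ * (u - a)), sum_filter, sum_mul, mul_assoc]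
      congr 1
      refine sum_congr rfl fun i _ => ?_
      split_ifs <;> simp
    rw [e, Real.norm_eq_abs, abs_mul]
    exact mul_le_mul (hA u hu') (hd u hu').2.2.2 (abs_nonneg _) hC
  rw [e3, Real.norm_eq_abs, abs_of_nonneg (sub_nonneg.mpr hab)] at b1
  have b2 : |(∑ i ∈ s, w i - κ * (b - a)) * h b| ≤ C * H := by
    have := hA b hb
    rw [filter_true_of_mem (fun i hi' => (ht i hi').2)] at this
    rw [abs_mul]
    exact mul_le_mul this (hd b hb).2.2.1 (abs_nonneg _) hC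
  have e4 : ∑ i ∈ s, w i * (h b - h (t i)) = (∑ i ∈ s, w i) * h b - ∑ i ∈ s, w i * h (t i) := by
    rw [sum_mul, ← sum_sub_distrib]
    exact sum_congr rfl fun i _ => by ring
  rw [e4] at b1
  have b3 : C * H * (b - a) ≤ C * H := mul_le_of_le_one_right (mul_nonneg hC hH) (by linarith)
  rw [abs_le] at b1 b2 ⊢
  constructor <;> nlinarith [b1.1, b1.2, b2.1, b2.2]

theorem mert : MertStmt := by
  obtain ⟨C, hC, h⟩ := MP_db1c88_nt.st.exists_nonprime_bound
  refine ⟨C + 6, fun y hy => ?_⟩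
  have h1 : 1 ≤ ⌊y⌋₊ := Nat.floor_pos.mpr hy
  have h1' : (1 : ℝ) ≤ ⌊y⌋₊ := by exact_mod_cast h1
  have l1 := MP_db1c88_nt.st.mertens_ge _ h1
  have l2 := MP_db1c88_nt.st.mertens_le _ h1
  have l3 := h (Ioc 0 ⌊y⌋₊)
  have l4 : 0 ≤ ∑ d ∈ (Ioc 0 ⌊y⌋₊).filter (fun d => ¬ d.Prime), Λ d / (d : ℝ) :=
    sum_nonneg fun d _ => div_nonneg ArithmeticFunction.vonMangoldt_nonneg (Nat.cast_nonneg _)
  have e := sum_filter_add_sum_filter_not (Ioc 0 ⌊y⌋₊) Nat.Prime (fun d => Λ d / (d : ℝ))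
  have e2 : ∑ p ∈ (Icc 1 ⌊y⌋₊).filter Nat.Prime, log p / p =
      ∑ d ∈ (Ioc 0 ⌊y⌋₊).filter Nat.Prime, Λ d / (d : ℝ) := by
    refine sum_congr rfl fun p hp => ?_
    rw [ArithmeticFunction.vonMangoldt_apply_prime (mem_filter.mp hp).2]
  have l5 : log ⌊y⌋₊ ≤ log y := log_le_log (by linarith) (Nat.floor_le (by linarith))
  have l6 : log y ≤ log ⌊y⌋₊ + 1 := by
    have a1 : y ≤ 2 * ⌊y⌋₊ := by linarith [Nat.lt_floor_add_one y]
    have a2 := log_le_log (by linarith) a1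
    rw [log_mul (by norm_num) (by linarith)] at a2
    linarith [Real.log_two_lt_d9]
  rw [e2, abs_le]
  constructor <;> linarith

theorem pnt_int : PntStmt := by
  intro ε hε
  have hp : Tendsto (fun x : ℝ => Chebyshev.psi x / x) atTop (nhds 1) := MP_39a890_nt.pnt
  obtain ⟨x₁, hx₁⟩ := eventually_atTop.mp
    ((Metric.tendsto_nhds.mp hp (ε / 22) (by positivity)).and (eventually_gt_atTop 0))
  refine ⟨max (x₁ + 1) (max 1 (4 / ε)), fun m T₀ T₁ hm h01 h10 hx => ?_⟩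
  have hm' : (1 : ℝ) ≤ m := by exact_mod_cast hm
  have hm0 : (0 : ℝ) < m := by linarith
  rw [← le_div_iff₀ hm0, max_le_iff, max_le_iff] at hx
  obtain ⟨hx1, hx2, hx3⟩ := hx
  have hT0 : 1 ≤ T₀ := by
    rw [le_div_iff₀ hm0] at hx2
    exact_mod_cast (show (1 : ℝ) ≤ T₀ by linarith)
  have key : ∀ T : ℕ, T₀ ≤ T → T ≤ T₁ →
      |∑ n ∈ (range T₁).filter (fun n => m * n < T), Λ n - T / m| ≤ ε / 22 * (T / m) + 1 := by
    intro T a1 a2
    rw [sum_lt_eq hm (hT0.trans a1) a2]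
    have a3 : (T₀ : ℝ) / m ≤ T / m := by gcongr
    have a4 : ((T : ℝ) - 1) / m = T / m - 1 / m := sub_div _ _ _
    have a5 : 1 / (m : ℝ) ≤ 1 := (div_le_one hm0).mpr hm'
    have a6 : 0 < 1 / (m : ℝ) := by positivity
    obtain ⟨b1, b2⟩ := hx₁ (((T : ℝ) - 1) / m) (by rw [a4]; linarith)
    set v := ((T : ℝ) - 1) / m
    rw [Real.dist_eq, show Chebyshev.psi v / v - 1 = (Chebyshev.psi v - v) / v by field_simp,
      abs_div, abs_of_pos b2, div_lt_iff₀ b2, abs_lt] at b1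
    have a7 : ε / 22 * v ≤ ε / 22 * (T / m) := by gcongr; linarith
    rw [abs_le]
    constructor <;> linarith [b1.1, b1.2]
  have e : ∑ n ∈ (range T₁).filter (fun n => T₀ ≤ m * n ∧ m * n < T₁), Λ n =
      ∑ n ∈ (range T₁).filter (fun n => m * n < T₁), Λ n -
        ∑ n ∈ (range T₁).filter (fun n => m * n < T₀), Λ n := by
    rw [sum_filter, sum_filter, sum_filter, ← sum_sub_distrib]
    refine sum_congr rfl fun n _ => ?_
    split_ifs <;> first | omega | simp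
  have k0 := key T₀ le_rfl h01
  have k1 := key T₁ h01 le_rfl
  have a1 : (T₁ : ℝ) / m ≤ 10 * (T₀ / m) := by
    rw [← mul_div_assoc]
    gcongr
    exact_mod_cast h10
  have a2 : 4 ≤ ε * (T₀ / m) := by rwa [div_le_iff₀' hε] at hx3
  have a3 : ε / 22 * (T₁ / m) ≤ ε / 22 * (10 * (T₀ / m)) := by gcongr
  rw [e, sub_div, mul_div_assoc]
  rw [abs_le] at k0 k1 ⊢
  constructor <;> linarith [k0.1, k0.2, k1.1, k1.2]

end Pool.Agent.Emirp

end MrgPart3

-- ======== part 4: formerly Pool.Agent.MP_e620c0_nt.Ana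
section MrgPart4

/-! Module ANA, second part: asymptotic formula for the Selberg sum. -/

set_option autoImplicit false

namespace Pool.Agent.Emirp

open Finset Filter Real
open scoped ArithmeticFunction.Moebius ArithmeticFunction.zeta

namespace Ana

/-- harmonic sum over the multiples of `l` -/
lemma sum_mult {l : ℕ} (hl : 1 ≤ l) (N : ℕ) :
    ∑ n ∈ Icc 1 N, (if l ∣ n then 1 / (n : ℝ) else 0) = (harmonic (N / l) : ℝ) / l := by
  rw [harmonic_eq_sum_Icc, ← sum_filter]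
  push_cast
  rw [sum_div]
  symm
  refine sum_bij (fun k _ => l * k) ?_ ?_ ?_ ?_
  · intro k hk
    rw [mem_Icc, Nat.le_div_iff_mul_le hl] at hk
    rw [mem_filter, mem_Icc]
    exact ⟨⟨Nat.mul_pos hl hk.1, by rw [mul_comm]; exact hk.2⟩, dvd_mul_right _ _⟩
  · intro k _ k' _ h
    exact Nat.eq_of_mul_eq_mul_left hl h
  · intro n hn
    rw [mem_filter, mem_Icc] at hn
    obtain ⟨⟨h1, h2⟩, k, rfl⟩ := hn
    refine ⟨k, ?_, rfl⟩
    rw [mem_Icc, Nat.le_div_iff_mul_le hl, mul_comm k l]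
    exact ⟨Nat.pos_of_mul_pos_left h1, h2⟩
  · intro k _
    push_cast
    rw [one_div, mul_inv, div_eq_mul_inv, mul_comm]

lemma harm_err {l : ℕ} (hl : 1 ≤ l) {y : ℝ} (hy : 1 ≤ y) :
    |(harmonic (⌊y⌋₊ / l) : ℝ) - log y| ≤ 1 + log l := by
  have hl' : (1 : ℝ) ≤ l := by exact_mod_cast hl
  have h0 : 0 ≤ log (l : ℝ) := log_nonneg hl'
  have h1 : 0 ≤ log y := log_nonneg hy
  rw [← Nat.floor_div_natCast, abs_le]
  have a1 := log_le_harmonic_floor (y / l) (by positivity)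
  rw [log_div (by linarith) (by linarith)] at a1
  refine ⟨by linarith, ?_⟩
  by_cases h : 1 ≤ y / l
  · have a2 := harmonic_floor_le_one_add_log (y / l) h
    rw [log_div (by linarith) (by linarith)] at a2
    linarith
  · rw [Nat.floor_eq_zero.mpr (not_le.mp h)]
    simp only [harmonic_zero, Rat.cast_zero]
    linarith

/-- general convolution lemma -/
lemma conv_asy {ι : Type} (a : ι → ℝ) (l : ι → ℕ) (G : ℕ → ℝ) (hl : ∀ i, a i ≠ 0 → 1 ≤ l i)
    (hs : Summable fun i => |a i| / l i * (1 + log (l i)))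
    (hG : ∀ n, 1 ≤ n → HasSum (fun i => if l i ∣ n then a i else 0) (G n)) :
    ∃ c C : ℝ, ∀ y : ℝ, 1 ≤ y → |∑ n ∈ Icc 1 ⌊y⌋₊, G n / n - c * log y| ≤ C := by
  have hs1 : Summable fun i => a i / l i := by
    refine Summable.of_norm_bounded hs fun i => ?_
    rw [Real.norm_eq_abs, abs_div, Nat.abs_cast]
    refine le_mul_of_one_le_right (by positivity) ?_
    linarith [log_natCast_nonneg (l i)]
  refine ⟨∑' i, a i / l i, ∑' i, |a i| / l i * (1 + log (l i)), fun y hy => ?_⟩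
  have h1 : HasSum (fun i => ∑ n ∈ Icc 1 ⌊y⌋₊, (if l i ∣ n then a i else 0) / (n : ℝ))
      (∑ n ∈ Icc 1 ⌊y⌋₊, G n / n) :=
    hasSum_sum fun n hn => (hG n (mem_Icc.mp hn).1).div_const _
  have h2 := h1.sub (hs1.hasSum.mul_right (log y))
  rw [← Real.norm_eq_abs]
  refine h2.norm_le_of_bounded hs.hasSum fun i => ?_
  by_cases h : a i = 0
  · simp [h]
  have e : ∑ n ∈ Icc 1 ⌊y⌋₊, (if l i ∣ n then a i else 0) / (n : ℝ) =
      a i * ((harmonic (⌊y⌋₊ / l i) : ℝ) / l i) := by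
    rw [← sum_mult (hl i h), mul_sum]
    refine sum_congr rfl fun n _ => ?_
    split_ifs <;> simp [div_eq_mul_inv]
  rw [e, show a i * ((harmonic (⌊y⌋₊ / l i) : ℝ) / l i) - a i / l i * log y =
    a i / l i * ((harmonic (⌊y⌋₊ / l i) : ℝ) - log y) by ring, Real.norm_eq_abs, abs_mul, abs_div,
    Nat.abs_cast]
  exact mul_le_mul_of_nonneg_left (harm_err (hl i h) hy) (by positivity)

lemma sum_sq_dvd {n : ℕ} (hn : 1 ≤ n) :
    ∑ e ∈ n.divisors, (if e ^ 2 ∣ n then (μ e : ℝ) else 0) = if Squarefree n then 1 else 0 := by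
  obtain ⟨a, b, ha, hb, rfl, hs⟩ := Nat.sq_mul_squarefree_of_pos hn
  have e1 : ∑ e ∈ (b ^ 2 * a).divisors, (if e ^ 2 ∣ b ^ 2 * a then (μ e : ℝ) else 0) =
      ∑ e ∈ b.divisors, (μ e : ℝ) := by
    rw [← sum_filter]
    symm
    apply sum_subset
    · intro e he
      have h := Nat.dvd_of_mem_divisors he
      have h2 : e ^ 2 ∣ b ^ 2 * a := (pow_dvd_pow_of_dvd h 2).mul_right a
      exact mem_filter.mpr ⟨Nat.mem_divisors.mpr ⟨(dvd_pow_self e two_ne_zero).trans h2,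
        by positivity⟩, h2⟩
    · intro e he he'
      by_contra h
      have h1 : Squarefree e := by
        by_contra h1
        exact h (by simp [ArithmeticFunction.moebius_eq_zero_of_not_squarefree h1])
      have h2 := (mem_filter.mp he).2
      rw [sq] at h2
      have h3 := (h1.dvd_pow_iff_dvd two_ne_zero).mp
        (hs.dvd_of_squarefree_of_mul_dvd_mul_left h2)
      exact he' (Nat.mem_divisors.mpr ⟨h3, hb.ne'⟩)
  have e2 : ∑ e ∈ b.divisors, (μ e : ℝ) = if b = 1 then 1 else 0 := by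
    have := congrArg (fun f : ArithmeticFunction ℝ => f b)
      (ArithmeticFunction.coe_moebius_mul_coe_zeta (R := ℝ))
    simp only [ArithmeticFunction.coe_mul_zeta_apply, ArithmeticFunction.intCoe_apply,
      ArithmeticFunction.one_apply] at this
    exact this
  rw [e1, e2]
  by_cases h : b = 1
  · simp [h, hs]
  · rw [if_neg h, if_neg]
    intro h1
    exact h (Nat.isUnit_iff.mp (h1 b (by rw [← sq]; exact dvd_mul_right _ _)))

/-- local correction factor -/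
noncomputable def kp (p : ℕ) : ℝ := if p ∣ 330 then -1 else 1 / ((p : ℝ) - 1)

/-- multiplicative correction factor -/
noncomputable def K : ArithmeticFunction ℝ := ArithmeticFunction.prodPrimeFactors kp

lemma sum_K {n : ℕ} (hn : Squarefree n) :
    ∑ d ∈ n.divisors, K d = if Nat.Coprime n 330 then (n : ℝ) / n.totient else 0 := by
  rw [K, ← (ArithmeticFunction.IsMultiplicative.prodPrimeFactors
    kp).prodPrimeFactors_one_add_of_squarefree hn]
  have e : ∀ p ∈ n.primeFactors, 1 + ArithmeticFunction.prodPrimeFactors kp p = 1 + kp p := by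
    intro p hp
    have := Nat.prime_of_mem_primeFactors hp
    rw [ArithmeticFunction.prodPrimeFactors_apply this.ne_zero, this.primeFactors, prod_singleton]
  rw [prod_congr rfl e]
  split_ifs with h
  · have e1 : n.totient = ∏ p ∈ n.primeFactors, (p - 1) := by
      have := Nat.totient_mul_prod_primeFactors n
      rw [Nat.prod_primeFactors_of_squarefree hn, mul_comm] at this
      exact Nat.eq_of_mul_eq_mul_left (Nat.pos_of_ne_zero hn.ne_zero) this
    rw [e1]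
    conv_rhs => rw [← Nat.prod_primeFactors_of_squarefree hn]
    rw [Nat.prod_primeFactors_of_squarefree hn]
    nth_rewrite 2 [← Nat.prod_primeFactors_of_squarefree hn]
    push_cast
    rw [← prod_div_distrib]
    refine prod_congr rfl fun p hp => ?_
    have h1 := Nat.prime_of_mem_primeFactors hp
    have h2 : ¬ p ∣ 330 := fun h2 =>
      h1.one_lt.ne' (Nat.eq_one_of_dvd_coprimes h (Nat.dvd_of_mem_primeFactors hp) h2)
    have h3 : (2 : ℝ) ≤ p := by exact_mod_cast h1.two_le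
    have h4 : (p : ℝ) - 1 ≠ 0 := by linarith
    rw [kp, if_neg h2, Nat.cast_sub h1.one_le, Nat.cast_one]
    field_simp
    ring
  · obtain ⟨p, hp, h1, h2⟩ := Nat.Prime.not_coprime_iff_dvd.mp h
    refine prod_eq_zero (Nat.mem_primeFactors.mpr ⟨hp, h1, hn.ne_zero⟩) ?_
    simp [kp, h2]

lemma K_le {d : ℕ} (hd : Squarefree d) : |K d| ≤ 330 * (d : ℝ) ^ (-(3 / 4) : ℝ) := by
  have hd0 : (0 : ℝ) < d := by exact_mod_cast Nat.pos_of_ne_zero hd.ne_zero
  have h1 : |K d| ^ 4 * (d : ℝ) ^ 3 ≤ 330 ^ 3 := by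
    rw [K, ArithmeticFunction.prodPrimeFactors_apply hd.ne_zero, abs_prod]
    nth_rewrite 2 [← Nat.prod_primeFactors_of_squarefree hd]
    push_cast
    rw [← prod_pow, ← prod_pow, ← prod_mul_distrib]
    calc ∏ p ∈ d.primeFactors, |kp p| ^ 4 * (p : ℝ) ^ 3
        ≤ ∏ p ∈ d.primeFactors, (if p ∣ 330 then (p : ℝ) ^ 3 else 1) := by
          refine prod_le_prod (fun p _ => by positivity) fun p hp => ?_
          have h1 := Nat.prime_of_mem_primeFactors hp
          unfold kp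
          split_ifs with h
          · simp
          · have h2 : 4 ≤ p := by
              by_contra h2
              have := h1.two_le
              have h3 : p = 2 ∨ p = 3 := by omega
              rcases h3 with rfl | rfl <;> exact h (by norm_num)
            have h3 : (4 : ℝ) ≤ p := by exact_mod_cast h2
            have h4 : (0 : ℝ) < p - 1 := by linarith
            rw [abs_of_pos (by positivity), div_pow, one_pow, one_div, inv_mul_le_iff₀ (by positivity)]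
            obtain ⟨u, hu, e⟩ : ∃ u : ℝ, 0 ≤ u ∧ (p : ℝ) = u + 4 := ⟨p - 4, by linarith, by ring⟩
            rw [e]
            have : (u + 4 - 1) ^ 4 * 1 - (u + 4) ^ 3 =
              u ^ 4 + 11 * u ^ 3 + 42 * u ^ 2 + 60 * u + 17 := by ring
            have h5 : 0 ≤ u ^ 4 + 11 * u ^ 3 + 42 * u ^ 2 + 60 * u + 17 := by positivity
            linarith
      _ = ((∏ p ∈ d.primeFactors.filter (· ∣ 330), p : ℕ) : ℝ) ^ 3 := by
          rw [← prod_filter]
          push_cast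
          rw [prod_pow]
      _ ≤ 330 ^ 3 := by
          have h2 : (∏ p ∈ d.primeFactors.filter (· ∣ 330), p) ∣ 330 :=
            Finset.prod_primes_dvd 330
              (fun p hp => (Nat.prime_of_mem_primeFactors (mem_filter.mp hp).1).prime)
              (fun p hp => (mem_filter.mp hp).2)
          have h3 : ((∏ p ∈ d.primeFactors.filter (· ∣ 330), p : ℕ) : ℝ) ≤ 330 := by
            exact_mod_cast Nat.le_of_dvd (by norm_num) h2
          gcongr
  refine le_of_pow_le_pow_left₀ (n := 4) (by norm_num) (by positivity) ?_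
  rw [mul_pow, ← rpow_natCast ((d : ℝ) ^ _), ← rpow_mul hd0.le,
    show (-(3 / 4) : ℝ) * (4 : ℕ) = -(3 : ℕ) by norm_num, rpow_neg hd0.le, rpow_natCast,
    ← div_eq_mul_inv, le_div_iff₀ (by positivity)]
  exact h1.trans (by norm_num)

/-- coefficient of a pair of integers -/
noncomputable def co (i : ℕ × ℕ) : ℝ := (if Squarefree i.1 then K i.1 else 0) * μ i.2

lemma co_ne {i : ℕ × ℕ} (h : co i ≠ 0) : Squarefree i.1 ∧ i.2 ≠ 0 := by
  obtain ⟨h1, h2⟩ := mul_ne_zero_iff.mp h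
  refine ⟨by_contra fun h3 => h1 (if_neg h3), fun h3 => h2 (by simp [h3])⟩

lemma co_le (i : ℕ × ℕ) :
    |co i| / (Nat.lcm i.1 (i.2 ^ 2) : ℕ) * (1 + log (Nat.lcm i.1 (i.2 ^ 2) : ℕ)) ≤
      5610 * ((i.1 : ℝ) ^ (-(9 / 8) : ℝ) * (i.2 : ℝ) ^ (-(9 / 8) : ℝ)) := by
  by_cases h : co i = 0
  · rw [h, abs_zero, zero_div, zero_mul]
    positivity
  obtain ⟨h1, h2⟩ := co_ne h
  obtain ⟨d, e⟩ := i
  dsimp only at h1 h2 ⊢
  have hd : 0 < d := Nat.pos_of_ne_zero h1.ne_zero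
  have he : 0 < e := Nat.pos_of_ne_zero h2
  have hl : 0 < Nat.lcm d (e ^ 2) := Nat.lcm_pos hd (by positivity)
  have a1 : (d : ℝ) ≤ (Nat.lcm d (e ^ 2) : ℕ) := by
    exact_mod_cast Nat.le_of_dvd hl (Nat.dvd_lcm_left _ _)
  have a2 : (e : ℝ) ^ 2 ≤ (Nat.lcm d (e ^ 2) : ℕ) := by
    exact_mod_cast Nat.le_of_dvd hl (Nat.dvd_lcm_right _ _)
  have hl' : (1 : ℝ) ≤ (Nat.lcm d (e ^ 2) : ℕ) := by exact_mod_cast hl
  generalize ((Nat.lcm d (e ^ 2) : ℕ) : ℝ) = l at a1 a2 hl'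
  have hd' : (0 : ℝ) < d := by exact_mod_cast hd
  have he' : (0 : ℝ) < e := by exact_mod_cast he
  have hl0 : 0 < l := by linarith
  have b1 : |co (d, e)| ≤ 330 * (d : ℝ) ^ (-(3 / 4) : ℝ) := by
    rw [co, if_pos h1, abs_mul]
    refine (mul_le_of_le_one_right (abs_nonneg _) ?_).trans (K_le h1)
    exact_mod_cast ArithmeticFunction.abs_moebius_le_one
  have b2 : 1 + log l ≤ 17 * l ^ (1 / 16 : ℝ) := by
    have c1 := log_le_rpow_div hl0.le (show (0 : ℝ) < 1 / 16 by norm_num)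
    have c2 : 1 ≤ l ^ (1 / 16 : ℝ) := one_le_rpow hl' (by norm_num)
    linarith
  have b3 : l ^ (1 / 16 : ℝ) / l = l ^ (-(3 / 8) : ℝ) * l ^ (-(9 / 16) : ℝ) := by
    rw [← rpow_add hl0, ← rpow_sub_one hl0.ne']
    norm_num
  have b4 : l ^ (-(3 / 8) : ℝ) ≤ (d : ℝ) ^ (-(3 / 8) : ℝ) :=
    rpow_le_rpow_of_nonpos hd' a1 (by norm_num)
  have b5 : l ^ (-(9 / 16) : ℝ) ≤ (e : ℝ) ^ (-(9 / 8) : ℝ) := by
    refine (rpow_le_rpow_of_nonpos (by positivity) a2 (by norm_num)).trans_eq ?_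
    rw [← rpow_natCast, ← rpow_mul he'.le]
    norm_num
  have b6 : (d : ℝ) ^ (-(9 / 8) : ℝ) = (d : ℝ) ^ (-(3 / 4) : ℝ) * (d : ℝ) ^ (-(3 / 8) : ℝ) := by
    rw [← rpow_add hd']
    norm_num
  have b7 : 0 ≤ 1 + log l := by linarith [log_nonneg hl']
  calc |co (d, e)| / l * (1 + log l)
      ≤ 330 * (d : ℝ) ^ (-(3 / 4) : ℝ) / l * (17 * l ^ (1 / 16 : ℝ)) := by gcongr
    _ = 5610 * ((d : ℝ) ^ (-(3 / 4) : ℝ) * (l ^ (1 / 16 : ℝ) / l)) := by ring
    _ ≤ 5610 * ((d : ℝ) ^ (-(3 / 4) : ℝ) *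
        ((d : ℝ) ^ (-(3 / 8) : ℝ) * (e : ℝ) ^ (-(9 / 8) : ℝ))) := by
        rw [b3]
        gcongr
    _ = _ := by rw [b6]; ring

lemma co_sum {n : ℕ} (hn : 1 ≤ n) :
    HasSum (fun i : ℕ × ℕ => if Nat.lcm i.1 (i.2 ^ 2) ∣ n then co i else 0)
      (if Squarefree n ∧ Nat.Coprime n 330 then (n : ℝ) / n.totient else 0) := by
  have h := hasSum_sum_of_ne_finset_zero
    (f := fun i : ℕ × ℕ => if Nat.lcm i.1 (i.2 ^ 2) ∣ n then co i else 0)
    (s := n.divisors ×ˢ n.divisors) (L := SummationFilter.unconditional _) (by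
      intro i hi
      rw [if_neg]
      intro h
      rw [Nat.lcm_dvd_iff] at h
      exact hi (mem_product.mpr ⟨Nat.mem_divisors.mpr ⟨h.1, by omega⟩,
        Nat.mem_divisors.mpr ⟨(dvd_pow_self _ two_ne_zero).trans h.2, by omega⟩⟩))
  have e : ∑ i ∈ n.divisors ×ˢ n.divisors, (if Nat.lcm i.1 (i.2 ^ 2) ∣ n then co i else 0) =
      (∑ d ∈ n.divisors, if Squarefree d then K d else 0) *
        ∑ e ∈ n.divisors, (if e ^ 2 ∣ n then (μ e : ℝ) else 0) := by
    rw [sum_mul_sum, sum_product]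
    refine sum_congr rfl fun d hd => sum_congr rfl fun e _ => ?_
    simp only [Nat.lcm_dvd_iff, Nat.dvd_of_mem_divisors hd, true_and, co]
    by_cases h : e ^ 2 ∣ n <;> simp [h]
  rw [e, sum_sq_dvd hn] at h
  convert h using 1
  by_cases hs : Squarefree n
  · rw [if_pos hs, mul_one, sum_congr rfl fun d hd =>
      if_pos (hs.squarefree_of_dvd (Nat.dvd_of_mem_divisors hd)), sum_K hs]
    simp [hs]
  · simp [hs]

end Ana

open Ana

theorem gasy : GasyStmt := by
  have hs : Summable fun n : ℕ => (n : ℝ) ^ (-(9 / 8) : ℝ) :=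
    summable_nat_rpow.mpr (by norm_num)
  have hs2 := (hs.mul_of_nonneg hs (fun n => by positivity) (fun n => by positivity)).mul_left 5610
  obtain ⟨c, C, h⟩ := conv_asy co (fun i => Nat.lcm i.1 (i.2 ^ 2))
    (fun n => if Squarefree n ∧ Nat.Coprime n 330 then (n : ℝ) / n.totient else 0)
    (fun i hi => Nat.lcm_pos (Nat.pos_of_ne_zero (co_ne hi).1.ne_zero)
      (pow_pos (Nat.pos_of_ne_zero (co_ne hi).2) 2))
    (hs2.of_nonneg_of_le (fun i => mul_nonneg (by positivity)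
      (by linarith [log_natCast_nonneg (Nat.lcm i.1 (i.2 ^ 2))])) co_le)
    (fun n hn => co_sum hn)
  have e : ∀ N : ℕ, ∑ n ∈ Icc 1 N,
      (if Squarefree n ∧ Nat.Coprime n 330 then (n : ℝ) / n.totient else 0) / n = GG N := by
    intro N
    rw [GG, DD, sum_filter]
    refine sum_congr rfl fun n hn => ?_
    have : (n : ℝ) ≠ 0 := by exact_mod_cast (Nat.pos_iff_ne_zero.mp (mem_Icc.mp hn).1)
    split_ifs
    · field_simp
    · simp
  simp only [e] at h
  refine ⟨c, C, ?_, h⟩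
  by_contra hc
  apply not_summable_one_div_on_primes
  refine summable_of_sum_range_le (c := C + 331)
    (fun n => Set.indicator_nonneg (fun _ _ => by positivity) n) fun N => ?_
  have h1 := (abs_le.mp (h (N + 1 : ℕ) (by simp))).2
  rw [Nat.floor_natCast] at h1
  have h2 : c * log (N + 1 : ℕ) ≤ 0 :=
    mul_nonpos_of_nonpos_of_nonneg (not_lt.mp hc) (log_natCast_nonneg _)
  have h3 : ∑ n ∈ range N, Set.indicator {p : ℕ | p.Prime} (fun n : ℕ => (1 : ℝ) / n) n ≤
      ∑ n ∈ range N, ((if n ∈ DD (N + 1) then 1 / (n.totient : ℝ) else 0) +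
        if n ∈ range 331 then 1 else 0) := by
    refine sum_le_sum fun n hn => ?_
    have p1 : 0 ≤ if n ∈ DD (N + 1) then 1 / (n.totient : ℝ) else 0 := by positivity
    have p2 : (0 : ℝ) ≤ if n ∈ range 331 then 1 else 0 := by positivity
    by_cases hp : n.Prime
    · rw [Set.indicator_of_mem (show n ∈ {p : ℕ | p.Prime} from hp)]
      have h2 : (2 : ℝ) ≤ n := by exact_mod_cast hp.two_le
      by_cases hd : n ∣ 330
      · rw [if_pos (mem_range.mpr (Nat.lt_succ_of_le (Nat.le_of_dvd (by norm_num) hd)))]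
        have : 1 / (n : ℝ) ≤ 1 := (div_le_one (by linarith)).mpr (by linarith)
        linarith
      · have hm : n ∈ DD (N + 1) := mem_filter.mpr ⟨mem_Icc.mpr ⟨hp.one_le,
          by have := mem_range.mp hn; omega⟩, hp.squarefree, (Nat.Prime.coprime_iff_not_dvd hp).mpr hd⟩
        rw [if_pos hm, Nat.totient_prime hp, Nat.cast_sub hp.one_le, Nat.cast_one]
        have : 1 / (n : ℝ) ≤ 1 / ((n : ℝ) - 1) :=
          one_div_le_one_div_of_le (by linarith) (by linarith)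
        linarith
    · rw [Set.indicator_of_notMem (show n ∉ {p : ℕ | p.Prime} from hp)]
      linarith
  rw [sum_add_distrib, sum_ite_mem, sum_ite_mem] at h3
  have h4 : ∑ n ∈ range N ∩ DD (N + 1), 1 / (n.totient : ℝ) ≤ GG (N + 1) :=
    sum_le_sum_of_subset_of_nonneg inter_subset_right fun _ _ _ => by positivity
  have h5 : ∑ n ∈ range N ∩ range 331, (1 : ℝ) ≤ ∑ n ∈ range 331, (1 : ℝ) :=
    sum_le_sum_of_subset_of_nonneg inter_subset_right fun _ _ _ => by positivity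
  rw [sum_const (s := range 331), card_range, nsmul_eq_mul, mul_one, Nat.cast_ofNat] at h5
  linarith

end Pool.Agent.Emirp

end MrgPart4

-- marker of a merged file
example : 731051 + 869572 = 731051 + 869572 := rfl
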