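import Mathlib
import Pool.Prelude.Def_F_3ec53e5b

-- ======== part 0: formerly Pool.Agent.MP_e620c0_nt.Defs
section MrgPart0

/-! Primes with an almost prime reversal in base ten: definitions and module statements. -/

set_option autoImplicit false

namespace Pool.Agent.Emirp

open Finset Filter Real
open scoped ArithmeticFunction.vonMangoldt

noncomputable section

/-- additive character -/
def e (x : ℝ) : ℂ := Complex.exp ((2 * π * x : ℝ) * Complex.I)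

/-- distance to the nearest integer -/
def nn (x : ℝ) : ℝ := |x - round x|

/-- digit number `i` of `k` -/
def dg (i k : ℕ) : ℕ := k / 10 ^ i % 10

/-- reversal of the string of the `y` lowest digits -/
def rv (y k : ℕ) : ℕ := ∑ i ∈ range y, dg i k * 10 ^ (y - 1 - i)

/-- digit multiplicative unimodular function with phases `x` -/
def cf (y : ℕ) (x : ℕ → ℝ) (k : ℕ) : ℂ := e (∑ i ∈ range y, x i * dg i k)

/-- normalized Dirichlet kernel -/
def Ph (t : ℝ) : ℝ := ‖∑ d ∈ range 10, e (d * t)‖ / 10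

/-- modulus of the normalized Fourier transform of `cf y x` -/
def F (y : ℕ) (x : ℕ → ℝ) (t : ℝ) : ℝ := ∏ i ∈ range y, Ph (x i - 10 ^ i * t)

/-- shifted phases -/
def sh (s : ℕ) (x : ℕ → ℝ) : ℕ → ℝ := fun i => x (s + i)

/-- phases of `k ↦ e (α * rv lam k)` -/
def ph (lam : ℕ) (α : ℝ) : ℕ → ℝ := fun i => α * 10 ^ (lam - 1 - i)

/-- number of divisors -/
def tau (n : ℕ) : ℝ := (n.divisors.card : ℝ)

/-- smooth version of the minimum of `A` and `1 / δ` -/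
def KK (A δ : ℝ) : ℝ := A / (1 + A * δ)

/-- unit of length -/
def kap (lam : ℕ) : ℕ := lam / 12000

/-- short window -/
def L0 (lam : ℕ) : ℕ := Nat.sqrt (kap lam) / 2

/-- Vaughan parameter -/
def UU (lam : ℕ) : ℕ := 10 ^ (3000 * kap lam)

/-- sieving limit -/
def zz (lam : ℕ) : ℕ := 10 ^ (16 * kap lam)

/-- every window of length `2050 * kap lam` has Fourier transform at most `B ^ (-50)` -/
def Mix (lam : ℕ) (x : ℕ → ℝ) (B : ℝ) : Prop :=
  1 ≤ B ∧ B ≤ 10 ^ kap lam ∧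
    ∀ (s : ℕ) (t : ℝ), s + 2050 * kap lam ≤ lam → F (2050 * kap lam) (sh s x) t ^ 2 ≤ 1 / B ^ 100

/-- exponential sum over an interval -/
def S (lam : ℕ) (x : ℕ → ℝ) (w : ℕ → ℝ) (T₀ T₁ : ℕ) : ℂ :=
  ∑ k ∈ Ico T₀ T₁, (w k : ℂ) * cf lam x k

/-- admissible interval -/
def Iv (lam T₀ T₁ : ℕ) : Prop := 10 ^ (lam - 1) ≤ T₀ ∧ T₀ ≤ T₁ ∧ T₁ ≤ 10 ^ lam

/-- discrepancy of the weights `w` on `range X` for the event `q ∣ v k` -/
def disc (X : ℕ) (w : ℕ → ℝ) (v : ℕ → ℕ) (q : ℕ) : ℝ :=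
  ∑ k ∈ range X, w k * ((if q ∣ v k then 1 else 0) - 1 / q)

/-- remainder sum of level `D` -/
def rem (X : ℕ) (w : ℕ → ℝ) (v : ℕ → ℕ) (D : ℕ) : ℝ :=
  ∑ q ∈ (Icc 1 D).filter (fun q => Nat.Coprime q 330), tau q ^ 5 * |disc X w v q|

/-- support of the sieve weights -/
def DD (ξ : ℕ) : Finset ℕ := (Icc 1 ξ).filter (fun r => Squarefree r ∧ Nat.Coprime r 330)

/-- Selberg sum -/
def GG (ξ : ℕ) : ℝ := ∑ r ∈ DD ξ, 1 / (r.totient : ℝ)

/-- no prime factor up to `z` apart from 2, 3, 5, 11 -/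
def Rough (z n : ℕ) : Prop := ∀ q ∈ DD z, q.Prime → ¬ q ∣ n

instance (z n : ℕ) : Decidable (Rough z n) := by unfold Rough; infer_instance

/-- sifted sum -/
def sift (X : ℕ) (w : ℕ → ℝ) (v : ℕ → ℕ) (z : ℕ) : ℝ :=
  ∑ k ∈ (range X).filter (fun k => Rough z (v k)), w k

/-- indicator of the primes between `zz lam` and the square root of `10 ^ lam` -/
def fP (lam : ℕ) : ArithmeticFunction ℝ :=
  ⟨fun p => if p.Prime ∧ zz lam < p ∧ p ^ 2 ≤ 10 ^ lam then 1 else 0, by simp⟩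

/-- cofactor weight for integers with one very large prime factor -/
def aa (lam : ℕ) : ArithmeticFunction ℝ :=
  ⟨fun m => if m ^ 2 ≤ 10 ^ lam then
      (∑ j ∈ Icc 15 751, (fP lam ^ j) m / j.factorial) / log (10 ^ (lam - 1) / m) else 0, by simp⟩

/-- majorant for rough squarefree integers with at least 16 prime factors -/
def nu (lam : ℕ) (k : ℕ) : ℝ :=
  (aa lam * Λ) k + ∑ j ∈ Icc 15 751, (fP lam ^ (j + 1)) k / (j + 1).factorial

/-! ### Kernel bounds -/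

def PairStmt : Prop := ∀ (y d : ℕ) (x : ℕ → ℝ), d ∣ 10 ^ y →
  ∑ h₁ ∈ range (10 ^ y), ∑ h₂ ∈ range (10 ^ y),
    (if (10 : ℤ) ^ y ∣ d * ((h₁ : ℤ) - h₂) then F y x (h₁ / 10 ^ y) * F y x (h₂ / 10 ^ y) else 0)
      ≤ (d : ℝ) ^ (7 / 8 : ℝ)

def DecayStmt : Prop := ∀ (l : ℕ) (x : ℕ → ℝ) (t : ℝ),
  F (l + 1) x t ^ 2 ≤ exp (-2 * ∑ i ∈ range l, nn (10 * x i - x (i + 1)) ^ 2)

/-! ### Tools for type II -/

def VdcStmt : Prop := ∀ (s : Finset ℕ) (z : ℕ → ℕ → ℂ) (N R : ℕ) (c : ℝ), 1 ≤ R → 0 ≤ c →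
  (∀ m n, N ≤ n → z m n = 0) →
  (∀ r, 1 ≤ r → r < R →
    ‖∑ m ∈ s, ∑ n ∈ range N, z m (n + r) * (starRingEnd ℂ) (z m n)‖ ≤ c) →
  ∑ m ∈ s, ‖∑ n ∈ range N, z m n‖ ^ 2 ≤
    (N + R) * ((∑ m ∈ s, ∑ n ∈ range N, ‖z m n‖ ^ 2) / R + c)

def KsumStmt : Prop := ∀ (N d : ℕ) (a : ℤ) (A β : ℝ), 1 ≤ d → IsCoprime a (d : ℤ) → 0 ≤ A →
  ∑ n ∈ range N, KK A (nn (a * n / d + β)) ≤
    (N / d + 1) * (KK A (nn (d * β) / d) + 4 * d * (1 + log d))

def CarryStmt : Prop := ∀ (m N Y H : ℕ), 1 ≤ m → 1 ≤ Y →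
  (((range N).filter (fun n => Y ≤ m * n % Y + H)).card : ℝ) ≤ (m * N / Y + 1) * (H / m + 1)

def DiagStmt : Prop := ∀ (s μ w ϱ : ℕ) (x : ℕ → ℝ) (G : ℝ), s ≤ μ → 3 * s ≤ 2 * μ → 1 ≤ ϱ →
  ϱ ≤ 10 ^ s → (∀ t, F (μ - s) (sh s x) t ^ 2 ≤ G) →
  ∑ h ∈ range (10 ^ (μ + w)), F (μ + w) x (h / 10 ^ (μ + w)) ^ 2 *
      KK (20 * 10 ^ μ) (nn (ϱ * (h / 10 ^ (μ + w))) / ϱ) ≤ 10 ^ 5 * 10 ^ μ * (μ + 1) * G

/-! ### Bilinear forms -/

def Core2Stmt : Prop := ∃ C : ℕ, ∀ᶠ lam : ℕ in atTop, ∀ (x : ℕ → ℝ) (B : ℝ), Mix lam x B →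
  ∀ (μ T : ℕ) (a b : ℕ → ℝ), 3000 * kap lam ≤ μ + 1 → 2 * μ ≤ lam → T ≤ 10 ^ lam →
  (∀ m, |a m| ≤ tau m) → (∀ n, |b n| ≤ tau n) →
  ‖∑ m ∈ Ico (10 ^ μ) (10 ^ (μ + 1)), ∑ n ∈ range (10 ^ (lam - μ)),
      if m * n < T then ((a m * b n : ℝ) : ℂ) * cf lam x (m * n) else 0‖
    ≤ 10 ^ lam * (lam : ℝ) ^ C / B ^ 49

def Core1Stmt : Prop := ∃ C : ℕ, ∀ᶠ lam : ℕ in atTop, ∀ (x : ℕ → ℝ) (B : ℝ), Mix lam x B →
  ∀ (T : ℕ) (a b : ℕ → ℝ), T ≤ 10 ^ lam → (∀ m, |a m| ≤ tau m) → Monotone b → (∀ n, 0 ≤ b n) →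
  (∀ n < 10 ^ lam, b n ≤ 1) →
  ‖∑ m ∈ Icc 1 (UU lam), ∑ n ∈ range (10 ^ lam),
      if m * n < T then ((a m * b n : ℝ) : ℂ) * cf lam x (m * n) else 0‖
    ≤ 10 ^ lam * (lam : ℝ) ^ C / B ^ 49

def Bil2Stmt : Prop := ∃ C : ℕ, ∀ᶠ lam : ℕ in atTop, ∀ (x : ℕ → ℝ) (B : ℝ), Mix lam x B →
  ∀ (T₀ T₁ : ℕ), Iv lam T₀ T₁ → ∀ (a b : ArithmeticFunction ℝ) (W₁ W₂ : ℝ), 0 ≤ W₁ → 0 ≤ W₂ →
  (∀ m < 10 ^ lam, |a m| ≤ W₁ * tau m) → (∀ n < 10 ^ lam, |b n| ≤ W₂ * tau n) →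
  (∀ m n, a m ≠ 0 → b n ≠ 0 → m * n < 10 ^ lam → UU lam < m ∧ m * UU lam ≤ 10 ^ lam) →
  ‖S lam x (⇑(a * b)) T₀ T₁‖ ≤ W₁ * W₂ * (10 ^ lam * (lam : ℝ) ^ C / B ^ 49)

def Bil1Stmt : Prop := ∃ C : ℕ, ∀ᶠ lam : ℕ in atTop, ∀ (x : ℕ → ℝ) (B : ℝ), Mix lam x B →
  ∀ (T₀ T₁ : ℕ), Iv lam T₀ T₁ → ∀ (a b : ArithmeticFunction ℝ) (W₁ W₂ : ℝ), 0 ≤ W₁ → 0 ≤ W₂ →
  (∀ m < 10 ^ lam, |a m| ≤ W₁ * tau m) → (∀ m, a m ≠ 0 → m ≤ UU lam) →
  Monotone b → (∀ n < 10 ^ lam, b n ≤ W₂) →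
  ‖S lam x (⇑(a * b)) T₀ T₁‖ ≤ W₁ * W₂ * (10 ^ lam * (lam : ℝ) ^ C / B ^ 49)

def VauStmt : Prop := ∃ C : ℕ, ∀ᶠ lam : ℕ in atTop, ∀ (x : ℕ → ℝ) (B : ℝ), Mix lam x B →
  ∀ (T₀ T₁ : ℕ), Iv lam T₀ T₁ → ∀ (a : ArithmeticFunction ℝ) (W : ℝ), 0 ≤ W →
  (∀ m, |a m| ≤ W) → (∀ m, a m ≠ 0 → m ^ 2 ≤ 10 ^ lam) →
  ‖S lam x (⇑(a * Λ)) T₀ T₁‖ ≤ W * (10 ^ lam * (lam : ℝ) ^ C / B ^ 49)

def NuStmt : Prop := ∃ C : ℕ, ∀ᶠ lam : ℕ in atTop,
  (∀ k < 10 ^ lam, 0 ≤ nu lam k ∧ nu lam k ≤ (lam : ℝ) ^ C) ∧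
  ∀ (x : ℕ → ℝ) (B : ℝ), Mix lam x B → ∀ (T₀ T₁ : ℕ), Iv lam T₀ T₁ →
    ‖S lam x (nu lam) T₀ T₁‖ ≤ 10 ^ lam * (lam : ℝ) ^ C / B ^ 49

/-! ### Level of distribution -/

def SmallStmt : Prop := ∀ᶠ lam : ℕ in atTop, ∀ q a : ℕ, 1 < q → q ≤ 10 ^ L0 lam →
  Nat.Coprime q 330 → Nat.Coprime a q → Mix lam (ph lam (a / q)) (exp (2 / 5 * L0 lam))

open Classical in
def BadStmt : Prop := ∀ᶠ lam : ℕ in atTop, ∀ q : ℕ, 10 ^ L0 lam < q → Nat.Coprime q 330 →
  (((range q).filter (fun a : ℕ => ¬ Mix lam (ph lam (a / q)) (10 ^ kap lam))).card : ℝ)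
    ≤ 2 * lam * q * exp (-(L0 lam / 5000))

def LevelStmt : Prop := ∀ A : ℕ, ∀ᶠ lam : ℕ in atTop, ∀ (w : ℕ → ℝ) (E : ℝ),
  (∀ k < 10 ^ lam, |w k| ≤ E) →
  (∀ x B, Mix lam x B → ‖S lam x w 0 (10 ^ lam)‖ ≤ E * 10 ^ lam / B ^ 49) →
  rem (10 ^ lam) w (rv lam) (zz lam ^ 3) ≤ E * 10 ^ lam / (lam : ℝ) ^ A

/-! ### Sieve -/

def AbelStmt : Prop := ∀ (s : Finset ℕ) (w t : ℕ → ℝ) (h h' J : ℝ → ℝ) (a b κ C H : ℝ),
  a ≤ b → b ≤ a + 1 → (∀ i ∈ s, a ≤ t i ∧ t i ≤ b) →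
  (∀ u ∈ Set.Icc a b, |∑ i ∈ s.filter (fun i => t i ≤ u), w i - κ * (u - a)| ≤ C) →
  (∀ u ∈ Set.Icc a b, HasDerivAt h (h' u) u ∧ HasDerivAt J (h u) u ∧ |h u| ≤ H ∧ |h' u| ≤ H) →
  ContinuousOn h' (Set.Icc a b) →
  |∑ i ∈ s, w i * h (t i) - κ * (J b - J a)| ≤ 2 * C * H

def MertStmt : Prop := ∃ C : ℝ, ∀ y : ℝ, 1 ≤ y →
  |∑ p ∈ (Icc 1 ⌊y⌋₊).filter Nat.Prime, log p / p - log y| ≤ C

def GasyStmt : Prop := ∃ c C : ℝ, 0 < c ∧ ∀ y : ℝ, 1 ≤ y → |GG ⌊y⌋₊ - c * log y| ≤ C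

def SelStmt : Prop := ∀ (X ξ : ℕ) (w : ℕ → ℝ) (v : ℕ → ℕ) (y : ℕ → ℝ) (Y : ℝ), 1 ≤ ξ →
  (∀ k < X, 0 ≤ w k) → (∀ r, |y r| ≤ Y) → (∀ r, r ∉ DD ξ → y r = 0) →
  ((∑ r ∈ DD ξ, y r / r.totient) ^ 2 * sift X w v ξ ≤
    (∑ k ∈ range X, w k) * (∑ r ∈ DD ξ, y r ^ 2 / r.totient)
      + (Y * GG ξ) ^ 2 * rem X w v (ξ ^ 2)) ∧
  (∑ k ∈ range X, w k) * (∑ r ∈ DD ξ, y r ^ 2 / r.totient -
      ∑ q ∈ (DD ξ).filter Nat.Prime, (1 / q) *
        ∑ r ∈ (DD ξ).filter (fun r => ¬ q ∣ r), (y r - y (r * q)) ^ 2 / r.totient)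
      - (Y * GG ξ) ^ 2 * rem X w v (ξ ^ 3)
    ≤ (∑ r ∈ DD ξ, y r / r.totient) ^ 2 * sift X w v ξ

def SieveStmt : Prop := ∃ c : ℝ, 0 < c ∧ ∀ᶠ z : ℕ in atTop,
  ∀ (X : ℕ) (w : ℕ → ℝ) (v : ℕ → ℕ), (∀ k < X, 0 ≤ w k) →
  sift X w v z ≤ (∑ k ∈ range X, w k) * (1001 / 1000) / (c * log z) + rem X w v (z ^ 2) ∧
  (∑ k ∈ range X, w k) * (8 / 25) / (c * log z) - 3 * rem X w v (z ^ 3) ≤ sift X w v z

/-! ### The majorant -/

def PntStmt : Prop := ∀ ε : ℝ, 0 < ε → ∃ x₀ : ℝ, ∀ (m T₀ T₁ : ℕ), 1 ≤ m → T₀ ≤ T₁ →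
  T₁ ≤ 10 * T₀ → x₀ * m ≤ T₀ →
  |∑ n ∈ (range T₁).filter (fun n => T₀ ≤ m * n ∧ m * n < T₁), Λ n - ((T₁ : ℝ) - T₀) / m|
    ≤ ε * T₀ / m

def MuStmt : Prop := ∀ᶠ lam : ℕ in atTop,
  ∑ p ∈ range (10 ^ lam), fP lam p * (p : ℝ) ^ (-(1 + 5 / 2 / (lam * log 10))) ≤ 251 / 50

def MajStmt : Prop := ∀ᶠ lam : ℕ in atTop, ∀ k, 10 ^ (lam - 1) ≤ k → k < 10 ^ lam →
  Squarefree k → (∀ p, p.Prime → p ∣ k → zz lam < p) → 16 ≤ ArithmeticFunction.cardFactors k →
  1 ≤ nu lam k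

def MassStmt : Prop := ∀ᶠ lam : ℕ in atTop, ∀ d, 1 ≤ d → d ≤ 9 →
  ∑ k ∈ Ico (d * 10 ^ (lam - 1)) ((d + 1) * 10 ^ (lam - 1)), nu lam k
    ≤ 9 / 20 * 10 ^ (lam - 1) / (lam * log 10)

/-! ### The result -/

def MainStmt : Prop := ∃ c : ℝ, 0 < c ∧ ∀ᶠ L : ℕ in atTop,
  c * 10 ^ L / (L : ℝ) ^ 2 ≤
    (((Ico (10 ^ (L - 1)) (10 ^ L)).filter (fun p => p.Prime ∧ Naccb31f3.reverse10 p ≠ p ∧
      ArithmeticFunction.cardFactors (Naccb31f3.reverse10 p) ≤ 15)).card : ℝ)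

end

end Pool.Agent.Emirp

end MrgPart0

-- ======== part 1: formerly Pool.Agent.MP_e620c0_nt.Basic
section MrgPart1

/-! Additive characters, digits and the Fourier transform of digit multiplicative functions. -/

set_option autoImplicit false

namespace Pool.Agent.Emirp

open Finset Filter Real
open scoped ArithmeticFunction.vonMangoldt

theorem e_add (x y : ℝ) : e (x + y) = e x * e y := by
  unfold e; rw [← Complex.exp_add]; congr 1; push_cast; ring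

theorem e_zero : e 0 = 1 := by simp [e]

theorem norm_e (x : ℝ) : ‖e x‖ = 1 := Complex.norm_exp_ofReal_mul_I _

theorem e_int (n : ℤ) : e n = 1 := by
  unfold e
  rw [← Complex.exp_int_mul_two_pi_mul_I n]; congr 1; push_cast; ring

theorem e_add_int (x : ℝ) (n : ℤ) : e (x + n) = e x := by rw [e_add, e_int, mul_one]

theorem conj_e (x : ℝ) : (starRingEnd ℂ) (e x) = e (-x) := by
  unfold e
  rw [← Complex.exp_conj, map_mul, Complex.conj_ofReal, Complex.conj_I]; congr 1; push_cast; ring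

theorem e_re (x : ℝ) : (e x).re = cos (2 * π * x) := Complex.exp_ofReal_mul_I_re _

theorem e_nat_mul (n : ℕ) (x : ℝ) : e (n * x) = e x ^ n := by
  unfold e; rw [← Complex.exp_nat_mul]; congr 1; push_cast; ring

theorem norm_e_sub (x y : ℝ) : ‖e x - e y‖ ≤ 2 * π * |x - y| := by
  have h : e x - e y = e y * (e (x - y) - 1) := by
    rw [mul_sub, ← e_add, mul_one]; congr 2; ring
  rw [h, norm_mul, norm_e, one_mul, e, mul_comm _ Complex.I]
  refine Real.norm_exp_I_mul_ofReal_sub_one_le.trans (le_of_eq ?_)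
  rw [Real.norm_eq_abs, abs_mul, abs_of_pos (by positivity : 0 < 2 * π)]

theorem nn_nonneg (x : ℝ) : 0 ≤ nn x := abs_nonneg _

theorem nn_le_half (x : ℝ) : nn x ≤ 1 / 2 := abs_sub_round x

theorem nn_le (x : ℝ) (n : ℤ) : nn x ≤ |x - n| := round_le x n

theorem le_nn {x δ : ℝ} (h : ∀ n : ℤ, δ ≤ |x - n|) : δ ≤ nn x := h _

theorem nn_add_int (x : ℝ) (n : ℤ) : nn (x + n) = nn x := by
  unfold nn; rw [round_add_intCast]; push_cast; congr 1; ring

theorem nn_neg (x : ℝ) : nn (-x) = nn x := by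
  have h : ∀ y : ℝ, nn (-y) ≤ nn y := fun y => by
    refine (nn_le _ (-round y)).trans (le_of_eq ?_)
    rw [nn, ← abs_neg]; push_cast; congr 1; ring
  exact le_antisymm (h x) (by simpa using h (-x))

theorem nn_add_le (x y : ℝ) : nn (x + y) ≤ nn x + nn y := by
  refine (nn_le _ (round x + round y)).trans ?_
  refine le_trans (le_of_eq ?_) (abs_add_le (x - round x) (y - round y))
  push_cast; congr 1; ring

theorem nn_nat_mul (n : ℕ) (x : ℝ) : nn (n * x) ≤ n * nn x := by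
  refine (nn_le _ (n * round x)).trans (le_of_eq ?_)
  rw [nn, ← abs_of_nonneg (Nat.cast_nonneg (α := ℝ) n), ← abs_mul,
    abs_of_nonneg (Nat.cast_nonneg (α := ℝ) n)]
  push_cast; congr 1; ring

theorem nn_ge_of {x δ : ℝ} (n : ℤ) (h1 : δ ≤ x - n) (h2 : x - n ≤ 1 - δ) : δ ≤ nn x := by
  refine le_nn fun k => ?_
  rcases le_or_gt k n with h | h
  · have : (k : ℝ) ≤ n := by exact_mod_cast h
    exact le_trans (by linarith) (le_abs_self _)
  · have : (n : ℝ) + 1 ≤ k := by exact_mod_cast h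
    exact le_trans (by linarith) (neg_le_abs _)

theorem nn_div {a : ℤ} {q : ℕ} (hq : 0 < q) (h : ¬ (q : ℤ) ∣ a) :
    1 / (q : ℝ) ≤ nn (a / q) := by
  refine le_nn fun k => ?_
  have hq' : (0 : ℝ) < q := by exact_mod_cast hq
  have h1 : (a : ℝ) / q - k = ((a - k * q : ℤ) : ℝ) / q := by push_cast; field_simp
  have h2 : a - k * q ≠ 0 := fun h0 => h ⟨k, by linarith⟩
  rw [h1, abs_div, abs_of_pos hq']
  gcongr
  exact_mod_cast Int.one_le_abs h2

theorem norm_e_sub_one (x : ℝ) : ‖e x - 1‖ = 2 * sin (π * nn x) := by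
  have h : e x = e (x - round x) := by
    rw [← e_add_int (x - round x) (round x)]; congr 1; ring
  have h2 := nn_le_half x
  rw [h, e, mul_comm _ Complex.I, Complex.norm_exp_I_mul_ofReal_sub_one, Real.norm_eq_abs, abs_mul,
    abs_two, show 2 * π * (x - round x) / 2 = π * (x - round x) by ring]
  congr 1
  have h3 : ∀ u : ℝ, 0 ≤ u → u ≤ 1 / 2 → 0 ≤ sin (π * u) := fun u h0 h1 =>
    sin_nonneg_of_nonneg_of_le_pi (by positivity) (by nlinarith [pi_pos])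
  unfold nn at h2 ⊢
  rcases le_total 0 (x - round x) with h0 | h0
  · rw [abs_of_nonneg h0] at h2 ⊢
    exact abs_of_nonneg (h3 _ h0 h2)
  · rw [abs_of_nonpos h0] at h2 ⊢
    rw [← abs_neg, ← sin_neg, ← mul_neg]
    exact abs_of_nonneg (h3 _ (by linarith) h2)

theorem geo_sin (a b : ℕ) (β : ℝ) : ‖∑ m ∈ Ico a b, e (m * β)‖ * sin (π * nn β) ≤ 1 := by
  rcases le_or_gt a b with h | h
  · have h1 : (∑ m ∈ Ico a b, e (m * β)) * (e β - 1) = e β ^ b - e β ^ a := by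
      simp_rw [e_nat_mul]
      exact geom_sum_Ico_mul _ h
    have h2 : ‖e β ^ b - e β ^ a‖ ≤ 2 := by
      refine (norm_sub_le _ _).trans ?_
      simp [norm_e]; norm_num
    rw [← h1, norm_mul, norm_e_sub_one] at h2
    linarith
  · simp [Ico_eq_empty_of_le h.le]

theorem geo (a b : ℕ) (β : ℝ) : ‖∑ m ∈ Ico a b, e (m * β)‖ * (2 * nn β) ≤ 1 := by
  refine le_trans (mul_le_mul_of_nonneg_left ?_ (norm_nonneg _)) (geo_sin a b β)
  have h := nn_le_half β
  have h1 := mul_le_sin (x := π * nn β) (mul_nonneg pi_pos.le (nn_nonneg β))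
    (by nlinarith [pi_pos])
  rwa [← mul_assoc, div_mul_cancel₀ _ pi_ne_zero] at h1

theorem KK_nonneg {A δ : ℝ} (hA : 0 ≤ A) (hδ : 0 ≤ δ) : 0 ≤ KK A δ := by
  unfold KK; positivity

theorem KK_le {A δ : ℝ} (hA : 0 ≤ A) (hδ : 0 ≤ δ) : KK A δ ≤ A :=
  div_le_self hA (le_add_of_nonneg_right (mul_nonneg hA hδ))

theorem KK_le_inv {A δ : ℝ} (hA : 0 ≤ A) (hδ : 0 < δ) : KK A δ ≤ 1 / δ := by
  unfold KK
  rw [div_le_div_iff₀ (by positivity) hδ]; linarith

theorem KK_anti {A δ δ' : ℝ} (hA : 0 ≤ A) (hδ : 0 ≤ δ) (h : δ ≤ δ') : KK A δ' ≤ KK A δ := by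
  unfold KK; gcongr

theorem geo_KK (a b : ℕ) (β A : ℝ) (hA : 2 * ((b - a : ℕ) : ℝ) ≤ A) :
    ‖∑ m ∈ Ico a b, e (m * β)‖ ≤ KK A (nn β) := by
  have h1 : ‖∑ m ∈ Ico a b, e (m * β)‖ ≤ ((b - a : ℕ) : ℝ) := by
    refine (norm_sum_le _ _).trans ?_
    simp [norm_e]
  have h2 := geo a b β
  have h3 := nn_nonneg β
  have h4 : 0 ≤ A := le_trans (by positivity) hA
  unfold KK
  rw [le_div_iff₀ (by positivity)]
  nlinarith [mul_le_mul_of_nonneg_left h2 h4]

theorem orth {Y : ℕ} (hY : 0 < Y) (j : ℤ) :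
    ∑ h ∈ range Y, e (h * j / Y) = if (Y : ℤ) ∣ j then (Y : ℂ) else 0 := by
  have hY' : (Y : ℝ) ≠ 0 := by positivity
  split_ifs with h
  · obtain ⟨k, rfl⟩ := h
    have : ∀ h : ℕ, e (h * ((Y * k : ℤ) : ℝ) / Y) = 1 := fun h => by
      rw [← e_int (h * k)]; congr 1; push_cast; field_simp
    simp only [this, sum_const, card_range, nsmul_eq_mul, mul_one]
  · have h1 : (∑ h ∈ range Y, e (h * j / Y)) * (e (j / Y) - 1) = 0 := by
      simp_rw [mul_div_assoc, e_nat_mul]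
      rw [geom_sum_mul, ← e_nat_mul, mul_div_cancel₀ _ hY', e_int, sub_self]
    refine (mul_eq_zero.1 h1).resolve_right fun h2 => ?_
    have h3 := norm_e_sub_one (j / Y)
    have h4 := nn_div hY h
    have h5 := nn_le_half ((j : ℝ) / Y)
    have h6 : 0 < nn ((j : ℝ) / Y) := lt_of_lt_of_le (by positivity) h4
    have h7 := sin_pos_of_pos_of_lt_pi (x := π * nn ((j : ℝ) / Y)) (by positivity)
      (by nlinarith [pi_pos])
    rw [h2, norm_zero] at h3
    linarith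

theorem card_cong (s : Finset ℕ) (N d : ℕ) (_hd : 0 < d) (hs : ∀ n ∈ s, n < N)
    (hc : ∀ a ∈ s, ∀ b ∈ s, (d : ℤ) ∣ (a : ℤ) - b) : (s.card : ℝ) ≤ N / d + 1 := by
  have h1 : s.card ≤ (range (N / d + 1)).card := by
    refine card_le_card_of_injOn (fun n => n / d) (fun n hn => ?_) fun a ha b hb hab => ?_
    · simp only [coe_range, Set.mem_Iio]
      exact Nat.lt_succ_of_le (Nat.div_le_div_right (hs n hn).le)
    · have h2 : b % d = a % d := (Nat.modEq_iff_dvd.2 (hc a ha b hb))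
      have hab' : a / d = b / d := hab
      rw [← Nat.div_add_mod a d, ← Nat.div_add_mod b d, hab', h2]
  rw [card_range] at h1
  calc (s.card : ℝ) ≤ ((N / d + 1 : ℕ) : ℝ) := by exact_mod_cast h1
    _ ≤ N / d + 1 := by push_cast; gcongr; exact Nat.cast_div_le

theorem sum_range_mul {M : Type*} [AddCommMonoid M] (Z J : ℕ) (f : ℕ → M) :
    ∑ k ∈ range (Z * J), f k = ∑ j ∈ range J, ∑ k ∈ range Z, f (Z * j + k) := by
  induction J with
  | zero => simp
  | succ J ih => rw [Nat.mul_succ, sum_range_add, ih, sum_range_succ]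

theorem dg_lt (i k : ℕ) : dg i k < 10 := Nat.mod_lt _ (by norm_num)

theorem dg_add_pow {i y : ℕ} (h : i < y) (j k : ℕ) : dg i (10 ^ y * j + k) = dg i k := by
  obtain ⟨c, rfl⟩ := Nat.exists_eq_add_of_lt h
  unfold dg
  rw [show 10 ^ (i + c + 1) * j + k = 10 ^ i * (10 * (10 ^ c * j)) + k by ring,
    Nat.mul_add_div (by positivity), Nat.mul_add_mod]

theorem dg_mod {i y : ℕ} (h : i < y) (k : ℕ) : dg i (k % 10 ^ y) = dg i k := by
  rw [← dg_add_pow h (k / 10 ^ y) (k % 10 ^ y), Nat.div_add_mod]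

theorem dg_div (y i k : ℕ) : dg (y + i) k = dg i (k / 10 ^ y) := by
  unfold dg; rw [Nat.div_div_eq_div_mul, pow_add]

theorem sum_dg (y k : ℕ) : ∑ i ∈ range y, dg i k * 10 ^ i = k % 10 ^ y := by
  induction y with
  | zero => simp [Nat.mod_one]
  | succ y ih => rw [sum_range_succ, ih, Nat.mod_pow_succ, dg, mul_comm]

theorem sum_digits {R : Type*} [CommSemiring R] (y : ℕ) (φ : ℕ → ℕ → R) :
    ∑ k ∈ range (10 ^ y), ∏ i ∈ range y, φ i (dg i k) = ∏ i ∈ range y, ∑ d ∈ range 10, φ i d := by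
  induction y with
  | zero => simp
  | succ y ih =>
    rw [pow_succ, sum_range_mul, prod_range_succ, ← ih, mul_sum]
    refine sum_congr rfl fun j hj => ?_
    rw [sum_mul]
    refine sum_congr rfl fun k hk => ?_
    rw [prod_range_succ]
    congr 1
    · exact prod_congr rfl fun i hi => by rw [dg_add_pow (mem_range.1 hi)]
    · rw [dg, Nat.mul_add_div (by positivity), Nat.div_eq_of_lt (mem_range.1 hk), add_zero,
        Nat.mod_eq_of_lt (mem_range.1 hj)]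

theorem norm_cf (y : ℕ) (x : ℕ → ℝ) (k : ℕ) : ‖cf y x k‖ = 1 := norm_e _

theorem cf_add (y y' : ℕ) (x : ℕ → ℝ) (k : ℕ) :
    cf (y + y') x k = cf y x k * cf y' (sh y x) (k / 10 ^ y) := by
  unfold cf sh
  rw [sum_range_add, e_add]
  simp_rw [dg_div]

theorem cf_mod (y : ℕ) (x : ℕ → ℝ) (k : ℕ) : cf y x (k % 10 ^ y) = cf y x k := by
  unfold cf
  congr 1
  exact sum_congr rfl fun i hi => by rw [dg_mod (mem_range.1 hi)]

theorem cf_add_pow (y : ℕ) (x : ℕ → ℝ) (j k : ℕ) : cf y x (10 ^ y * j + k) = cf y x k := by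
  rw [← cf_mod, Nat.mul_add_mod, cf_mod]

theorem cf_ph (lam : ℕ) (α : ℝ) (k : ℕ) : cf lam (ph lam α) k = e (α * rv lam k) := by
  unfold cf ph rv
  congr 1
  push_cast
  rw [mul_sum]
  exact sum_congr rfl fun i _ => by ring

theorem Ph_nonneg (t : ℝ) : 0 ≤ Ph t := by unfold Ph; positivity

theorem Ph_le_one (t : ℝ) : Ph t ≤ 1 := by
  unfold Ph
  rw [div_le_one (by norm_num)]
  refine (norm_sum_le _ _).trans ?_
  simp [norm_e]

theorem Ph_int (t : ℝ) (n : ℤ) : Ph (t + n) = Ph t := by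
  unfold Ph
  congr 2
  refine sum_congr rfl fun d _ => ?_
  rw [← e_add_int (d * t) (d * n)]; congr 1; push_cast; ring

theorem Ph_le_far {t δ : ℝ} (h0 : 0 < δ) (h : δ ≤ nn t) : Ph t ≤ 1 / (10 * sin (π * δ)) := by
  have h1 := geo_sin 0 10 t
  have h2 := nn_le_half t
  have h3 : 0 < sin (π * δ) := sin_pos_of_pos_of_lt_pi (by positivity) (by nlinarith [pi_pos])
  have h4 : sin (π * δ) ≤ sin (π * nn t) :=
    sin_le_sin_of_le_of_le_pi_div_two (by nlinarith [pi_pos]) (by nlinarith [pi_pos])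
      (by nlinarith [pi_pos])
  rw [← range_eq_Ico] at h1
  unfold Ph
  rw [le_div_iff₀ (by positivity)]
  nlinarith [mul_le_mul_of_nonneg_left h4 (norm_nonneg (∑ d ∈ range 10, e (d * t)))]

theorem norm_sq_sum (s : Finset ℕ) (c : ℕ → ℂ) :
    ‖∑ k ∈ s, c k‖ ^ 2 = (∑ k ∈ s, ∑ k' ∈ s, c k * (starRingEnd ℂ) (c k')).re := by
  rw [← sum_mul_sum, ← map_sum, Complex.mul_conj, Complex.ofReal_re, Complex.normSq_eq_norm_sq]

theorem Ph_sq (t : ℝ) : Ph t ^ 2 =
    (∑ d ∈ range 10, ∑ d' ∈ range 10, cos (2 * π * (((d : ℝ) - d') * t))) / 100 := by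
  unfold Ph
  rw [div_pow, norm_sq_sum, Complex.re_sum]
  congr 1
  · refine sum_congr rfl fun d _ => ?_
    rw [Complex.re_sum]
    refine sum_congr rfl fun d' _ => ?_
    rw [conj_e, ← e_add, e_re]; congr 2; ring
  · norm_num

theorem pars_gen (K : ℕ) (c : ℕ → ℂ) {m : ℕ} (hm : 0 < m) (v : ℕ) :
    ∑ i ∈ range m, ‖∑ k ∈ range K, c k * e (-(k * (v * (i / m))))‖ ^ 2 ≤
      m * ∑ k ∈ range K, ∑ k' ∈ range K,
        if (m : ℤ) ∣ v * ((k' : ℤ) - k) then ‖c k‖ * ‖c k'‖ else 0 := by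
  simp_rw [norm_sq_sum]
  rw [← Complex.re_sum, sum_comm]
  refine (Complex.re_le_norm _).trans ((norm_sum_le _ _).trans ?_)
  rw [mul_sum]
  refine sum_le_sum fun k _ => ?_
  rw [sum_comm, mul_sum]
  refine (norm_sum_le _ _).trans (sum_le_sum fun k' _ => ?_)
  have h : ∀ i : ℕ, c k * e (-(k * (v * (i / m)))) *
      (starRingEnd ℂ) (c k' * e (-(k' * (v * (i / m))))) =
      c k * (starRingEnd ℂ) (c k') * e (i * ((v * ((k' : ℤ) - k) : ℤ) : ℝ) / m) := fun i => by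
    rw [map_mul, conj_e, mul_mul_mul_comm, ← e_add]; congr 2; push_cast; ring
  simp_rw [h]
  rw [← mul_sum, orth hm]
  split_ifs <;> simp [mul_comm]

theorem sum_Ph_sq (t : ℝ) : ∑ d ∈ range 10, Ph (t - d / 10) ^ 2 ≤ 1 := by
  have h := pars_gen 10 (fun k => e (k * t)) (m := 10) (by norm_num) 1
  have h1 : ∀ d : ℕ, Ph (t - d / 10) ^ 2 =
      ‖∑ k ∈ range 10, e (k * t) * e (-(k * ((1 : ℕ) * (d / (10 : ℕ)))))‖ ^ 2 / 100 := fun d => by
    unfold Ph
    rw [div_pow]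
    congr 3
    · exact sum_congr rfl fun k _ => by rw [← e_add]; congr 1; push_cast; ring
    · norm_num
  simp_rw [h1]
  rw [← sum_div, div_le_one (by norm_num)]
  refine h.trans (le_of_eq ?_)
  simp only [norm_e, sum_range_succ, sum_range_zero]
  norm_num

theorem F_nonneg (y : ℕ) (x : ℕ → ℝ) (t : ℝ) : 0 ≤ F y x t := prod_nonneg fun _ _ => Ph_nonneg _

theorem F_le_one (y : ℕ) (x : ℕ → ℝ) (t : ℝ) : F y x t ≤ 1 :=
  prod_le_one (fun _ _ => Ph_nonneg _) fun _ _ => Ph_le_one _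

theorem F_add (y y' : ℕ) (x : ℕ → ℝ) (t : ℝ) :
    F (y + y') x t = F y x t * F y' (sh y x) (10 ^ y * t) := by
  unfold F sh
  rw [prod_range_add]
  congr 1
  exact prod_congr rfl fun i _ => by congr 1; ring

theorem F_succ (y : ℕ) (x : ℕ → ℝ) (t : ℝ) :
    F (y + 1) x t = Ph (x 0 - t) * F y (sh 1 x) (10 * t) := by
  rw [add_comm, F_add]; simp [F]

theorem F_int (y : ℕ) (x : ℕ → ℝ) (t : ℝ) (n : ℤ) : F y x (t + n) = F y x t := by
  unfold F
  refine prod_congr rfl fun i _ => ?_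
  rw [← Ph_int (x i - 10 ^ i * t) (-(10 ^ i * n))]; congr 1; push_cast; ring

theorem F_mono {y y' : ℕ} (h : y ≤ y') (x : ℕ → ℝ) (t : ℝ) : F y' x t ≤ F y x t := by
  obtain ⟨c, rfl⟩ := Nat.exists_eq_add_of_le h
  rw [F_add]
  exact mul_le_of_le_one_right (F_nonneg _ _ _) (F_le_one _ _ _)

theorem sh_sh (s s' : ℕ) (x : ℕ → ℝ) : sh s' (sh s x) = sh (s + s') x := by
  funext i; simp [sh, add_assoc]

theorem Ph_lip (a b : ℝ) : |Ph a - Ph b| ≤ 29 * |a - b| := by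
  unfold Ph
  rw [← sub_div, abs_div, abs_of_pos (by norm_num : (0 : ℝ) < 10), div_le_iff₀ (by norm_num)]
  refine (abs_norm_sub_norm_le _ _).trans ?_
  rw [← sum_sub_distrib]
  refine (norm_sum_le _ _).trans ?_
  have h : ∀ d ∈ range 10, ‖e (d * a) - e (d * b)‖ ≤ 2 * π * (d * |a - b|) := fun d _ => by
    refine (norm_e_sub _ _).trans (le_of_eq ?_)
    rw [← mul_sub, abs_mul, abs_of_nonneg (Nat.cast_nonneg (α := ℝ) d)]
  refine (sum_le_sum h).trans ?_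
  simp only [sum_range_succ, sum_range_zero]
  push_cast
  nlinarith [pi_lt_d2, abs_nonneg (a - b)]

theorem F_lip (y : ℕ) (x : ℕ → ℝ) (t t' : ℝ) :
    |F y x t - F y x t'| ≤ 4 * 10 ^ y * |t - t'| := by
  induction y with
  | zero => simp [F]
  | succ y ih =>
    have h : ∀ u, F (y + 1) x u = F y x u * Ph (x y - 10 ^ y * u) := fun u => prod_range_succ _ _
    have h1 := Ph_lip (x y - 10 ^ y * t) (x y - 10 ^ y * t')
    rw [show x y - 10 ^ y * t - (x y - 10 ^ y * t') = -(10 ^ y * (t - t')) by ring, abs_neg,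
      abs_mul, abs_of_pos (by positivity : (0 : ℝ) < 10 ^ y)] at h1
    rw [h, h, show F y x t * Ph (x y - 10 ^ y * t) - F y x t' * Ph (x y - 10 ^ y * t') =
      (F y x t - F y x t') * Ph (x y - 10 ^ y * t) +
        F y x t' * (Ph (x y - 10 ^ y * t) - Ph (x y - 10 ^ y * t')) by ring]
    refine (abs_add_le _ _).trans ?_
    rw [abs_mul, abs_mul, abs_of_nonneg (Ph_nonneg _), abs_of_nonneg (F_nonneg _ _ _), pow_succ]
    have h2 := mul_le_of_le_one_right (abs_nonneg (F y x t - F y x t'))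
      (Ph_le_one (x y - 10 ^ y * t))
    have h3 := mul_le_of_le_one_left
      (abs_nonneg (Ph (x y - 10 ^ y * t) - Ph (x y - 10 ^ y * t'))) (F_le_one y x t')
    have h4 : 0 ≤ 10 ^ y * |t - t'| := by positivity
    nlinarith

theorem e_sum (s : Finset ℕ) (f : ℕ → ℝ) : e (∑ i ∈ s, f i) = ∏ i ∈ s, e (f i) := by
  induction s using Finset.induction_on with
  | empty => simp [e_zero]
  | insert a s h ih => rw [sum_insert h, prod_insert h, e_add, ih]

theorem norm_hat (y : ℕ) (x : ℕ → ℝ) (t : ℝ) :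
    ‖∑ k ∈ range (10 ^ y), cf y x k * e (-(k * t))‖ = 10 ^ y * F y x t := by
  have h : ∀ k ∈ range (10 ^ y), cf y x k * e (-(k * t)) =
      ∏ i ∈ range y, e ((dg i k : ℕ) * (x i - 10 ^ i * t)) := fun k hk => by
    have h1 : (k : ℝ) = ∑ i ∈ range y, (dg i k : ℝ) * 10 ^ i := by
      have := sum_dg y k
      rw [Nat.mod_eq_of_lt (mem_range.1 hk)] at this
      exact_mod_cast this.symm
    rw [← e_sum, cf, ← e_add]
    congr 1
    conv_lhs => rw [h1]
    rw [sum_mul, ← sub_eq_add_neg, ← sum_sub_distrib]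
    exact sum_congr rfl fun i _ => by ring
  rw [sum_congr rfl h, sum_digits y (fun i d => e (d * (x i - 10 ^ i * t))), norm_prod, F]
  unfold Ph
  rw [prod_div_distrib, prod_const, card_range, mul_div_cancel₀ _ (by positivity)]

theorem pars (y : ℕ) (x : ℕ → ℝ) {m : ℕ} (hm : 0 < m) (v : ℕ) (τ : ℝ) :
    ∑ i ∈ range m, F y x (v * (i / m) + τ) ^ 2 ≤ Nat.gcd m v + m / 10 ^ y := by
  have h := pars_gen (10 ^ y) (fun k => cf y x k * e (-(k * τ))) hm v
  have h1 : ∀ i : ℕ, ‖∑ k ∈ range (10 ^ y), cf y x k * e (-(k * τ)) * e (-(k * (v * (i / m))))‖ =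
      10 ^ y * F y x (v * (i / m) + τ) := fun i => by
    rw [← norm_hat]
    congr 1
    exact sum_congr rfl fun k _ => by rw [mul_assoc, ← e_add]; congr 2; ring
  simp only [h1, norm_mul, norm_cf, norm_e, mul_one, mul_pow, ← mul_sum] at h
  set g := Nat.gcd m v with hg
  have hg0 : 0 < g := Nat.gcd_pos_of_pos_left _ hm
  obtain ⟨m', hm'⟩ : g ∣ m := Nat.gcd_dvd_left _ _
  obtain ⟨v', hv'⟩ : g ∣ v := Nat.gcd_dvd_right _ _
  have hc : Nat.Coprime m' v' := by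
    have := Nat.coprime_div_gcd_div_gcd (m := m) (n := v) hg0
    rwa [← hg, Nat.div_eq_of_eq_mul_right hg0 hm', Nat.div_eq_of_eq_mul_right hg0 hv'] at this
  have hm0 : 0 < m' := Nat.pos_of_ne_zero fun h0 => by simp [h0] at hm'; omega
  have h2 : ∀ k ∈ range (10 ^ y), (∑ k' ∈ range (10 ^ y),
      if (m : ℤ) ∣ v * ((k' : ℤ) - k) then (1 : ℝ) else 0) ≤ (10 ^ y : ℕ) / m' + 1 := fun k _ => by
    rw [sum_boole]
    refine card_cong _ _ _ hm0 (fun n hn => mem_range.1 (mem_filter.1 hn).1) fun a ha b hb => ?_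
    have h3 : (m : ℤ) ∣ v * ((a : ℤ) - b) := by
      have := dvd_sub (mem_filter.1 ha).2 (mem_filter.1 hb).2
      rwa [← mul_sub, sub_sub_sub_cancel_right] at this
    rw [hm', hv'] at h3
    push_cast at h3
    rw [mul_assoc, mul_dvd_mul_iff_left (by exact_mod_cast hg0.ne')] at h3
    exact (Nat.isCoprime_iff_coprime.2 hc).dvd_of_dvd_mul_left h3
  have h4 := h.trans (mul_le_mul_of_nonneg_left (sum_le_sum h2) (Nat.cast_nonneg m))
  rw [sum_const, card_range, nsmul_eq_mul] at h4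
  have hK : (0 : ℝ) < 10 ^ y := by positivity
  have hm1 : (0 : ℝ) < m' := by exact_mod_cast hm0
  have h5 : (m : ℝ) = g * m' := by exact_mod_cast hm'
  refine le_of_mul_le_mul_left (h4.trans (le_of_eq ?_)) (pow_pos hK 2)
  rw [h5]; push_cast; field_simp

theorem cf_inv (y : ℕ) (x : ℕ → ℝ) : ∃ g : ℕ → ℂ, (∀ h, ‖g h‖ = F y x (h / 10 ^ y)) ∧
    ∀ k, cf y x k = ∑ h ∈ range (10 ^ y), g h * e (h * k / 10 ^ y) := by
  have hY : 0 < 10 ^ y := by positivity
  refine ⟨fun h => (∑ k ∈ range (10 ^ y), cf y x k * e (-(k * (h / 10 ^ y)))) / 10 ^ y,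
    fun h => ?_, fun k => ?_⟩
  · rw [norm_div, norm_hat]; simp
  · have h1 : ∀ h k' : ℕ, cf y x k' * e (-(k' * (h / 10 ^ y))) * e (h * k / 10 ^ y) =
        cf y x k' * e (h * (((k : ℤ) - k' : ℤ) : ℝ) / (10 ^ y : ℕ)) := fun h k' => by
      rw [mul_assoc, ← e_add]; congr 2; push_cast; ring
    simp_rw [div_mul_eq_mul_div, sum_mul, h1]
    rw [← sum_div, sum_comm]
    simp_rw [← mul_sum, orth hY]
    rw [sum_eq_single (k % 10 ^ y), if_pos, cf_mod]
    · push_cast; field_simp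
    · exact Nat.modEq_iff_dvd.1 (Nat.mod_modEq k _)
    · intro b hb hne
      rw [if_neg, mul_zero]
      intro hd
      have : b % 10 ^ y = k % 10 ^ y := Nat.modEq_iff_dvd.2 hd
      rw [Nat.mod_eq_of_lt (mem_range.1 hb)] at this
      exact hne this
    · intro h; exact absurd (mem_range.2 (Nat.mod_lt _ hY)) h

end Pool.Agent.Emirp

end MrgPart1

-- ======== part 2: formerly Pool.Agent.MP_e620c0_nt.Phi
section MrgPart2

/-! Numerical bounds for the normalized Dirichlet kernel in base ten. -/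

set_option autoImplicit false

namespace Pool.Agent.Emirp

open Finset Filter Real

namespace PhiAux

theorem far {t δ β : ℝ} (h0 : 0 < δ) (h : δ ≤ nn t) (hβ0 : 0 < β)
    (hβ : 1 ≤ 10 * β * (3.1415 * δ - (3.1416 * δ) ^ 3 / 6)) : Ph t ≤ β := by
  have h1 := sin_ge_sub_cube (x := π * δ) (by positivity)
  have h2 : 3.1415 * δ ≤ π * δ := by gcongr; exact pi_gt_d4.le
  have h3 : (π * δ) ^ 3 ≤ (3.1416 * δ) ^ 3 := by gcongr; exact pi_lt_d4.le
  have h4 : 1 ≤ 10 * β * sin (π * δ) := hβ.trans (by gcongr; linarith)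
  have h5 : 0 < sin (π * δ) := by
    by_contra hc
    nlinarith [mul_nonneg hβ0.le (neg_nonneg.2 (not_lt.1 hc))]
  refine (Ph_le_far h0 h).trans ?_
  rw [div_le_iff₀ (by positivity)]
  linarith

theorem f05 {t : ℝ} (h : 0.05 ≤ nn t) : Ph t ≤ 0.64 := far (by norm_num) h (by norm_num) (by norm_num)

theorem f10 {t : ℝ} (h : 0.1 ≤ nn t) : Ph t ≤ 0.324 := far (by norm_num) h (by norm_num) (by norm_num)

theorem f25 {t : ℝ} (h : 0.25 ≤ nn t) : Ph t ≤ 0.142 :=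
  far (by norm_num) h (by norm_num) (by norm_num)

theorem g10 {t : ℝ} (h : -0.9 ≤ t) (h' : t ≤ -0.1) : Ph t ≤ 0.324 :=
  f10 (nn_ge_of (-1) (by push_cast; linarith) (by push_cast; linarith))

theorem g15 {t : ℝ} (h : -0.85 ≤ t) (h' : t ≤ -0.15) : Ph t ≤ 0.221 :=
  far (δ := 0.15) (by norm_num) (nn_ge_of (-1) (by push_cast; linarith) (by push_cast; linarith))
    (by norm_num) (by norm_num)

theorem g20 {t : ℝ} (h : -0.8 ≤ t) (h' : t ≤ -0.2) : Ph t ≤ 0.171 :=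
  far (δ := 0.2) (by norm_num) (nn_ge_of (-1) (by push_cast; linarith) (by push_cast; linarith))
    (by norm_num) (by norm_num)

theorem g25 {t : ℝ} (h : -0.75 ≤ t) (h' : t ≤ -0.25) : Ph t ≤ 0.142 :=
  f25 (nn_ge_of (-1) (by push_cast; linarith) (by push_cast; linarith))

theorem g30 {t : ℝ} (h : -0.7 ≤ t) (h' : t ≤ -0.3) : Ph t ≤ 0.125 :=
  far (δ := 0.3) (by norm_num) (nn_ge_of (-1) (by push_cast; linarith) (by push_cast; linarith))
    (by norm_num) (by norm_num)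

theorem g35 {t : ℝ} (h : -0.65 ≤ t) (h' : t ≤ -0.35) : Ph t ≤ 0.114 :=
  far (δ := 0.35) (by norm_num) (nn_ge_of (-1) (by push_cast; linarith) (by push_cast; linarith))
    (by norm_num) (by norm_num)

theorem g40 {t : ℝ} (h : -0.6 ≤ t) (h' : t ≤ -0.4) : Ph t ≤ 0.1081 :=
  far (δ := 0.4) (by norm_num) (nn_ge_of (-1) (by push_cast; linarith) (by push_cast; linarith))
    (by norm_num) (by norm_num)

/-- Sum over the even shifts. -/
noncomputable def ev (t : ℝ) : ℝ :=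
  Ph t + Ph (t - 2 / 10) + Ph (t - 4 / 10) + Ph (t - 6 / 10) + Ph (t - 8 / 10)

theorem ev_add (t : ℝ) : ev (t + 1 / 10) = ev (t - 1 / 10) := by
  have h := Ph_int (t - 1 / 10 - 8 / 10) 1
  simp only [ev]
  rw [← h]
  norm_num
  ring_nf

theorem ev_base {t : ℝ} (h0 : 0 ≤ t) (h1 : t ≤ 1 / 10) :
    ev t ^ 2 + ev (t - 1 / 10) ^ 2 ≤ 4 ∧ ev t + ev (t - 1 / 10) ≤ 2.7275 := by
  have hs : Ph t ^ 2 + Ph (t - 1 / 10) ^ 2 ≤ 1 := by
    have h2 := sum_Ph_sq t
    rw [← Finset.sum_range_add_sum_Ico _ (show 2 ≤ 10 by norm_num)] at h2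
    have h3 : 0 ≤ ∑ d ∈ Ico 2 10, Ph (t - (d : ℕ) / 10) ^ 2 := sum_nonneg fun _ _ => sq_nonneg _
    simp only [sum_range_succ, range_zero, sum_empty, Nat.cast_zero, Nat.cast_one, zero_div,
      sub_zero, zero_add] at h2
    linarith
  have hb : ∃ a b : ℝ, ev t ≤ Ph t + a ∧ ev (t - 1 / 10) ≤ Ph (t - 1 / 10) + b ∧ a ≤ 0.6991 ∧
      b ≤ 0.6991 ∧ a + b ≤ 1.3132 := by
    rcases le_total t (1 / 20) with h | h
    · refine ⟨0.6141, 0.6991, ?_, ?_, by norm_num, by norm_num, by norm_num⟩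
      · have a1 := g15 (t := t - 2 / 10) (by linarith) (by linarith)
        have a2 := g35 (t := t - 4 / 10) (by linarith) (by linarith)
        have a3 := g40 (t := t - 6 / 10) (by linarith) (by linarith)
        have a4 := g20 (t := t - 8 / 10) (by linarith) (by linarith)
        simp only [ev]
        linarith
      · have a1 := g25 (t := t - 1 / 10 - 2 / 10) (by linarith) (by linarith)
        have a2 := g40 (t := t - 1 / 10 - 4 / 10) (by linarith) (by linarith)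
        have a3 := g30 (t := t - 1 / 10 - 6 / 10) (by linarith) (by linarith)
        have a4 := g10 (t := t - 1 / 10 - 8 / 10) (by linarith) (by linarith)
        simp only [ev]
        linarith
    · refine ⟨0.6991, 0.6141, ?_, ?_, by norm_num, by norm_num, by norm_num⟩
      · have a1 := g10 (t := t - 2 / 10) (by linarith) (by linarith)
        have a2 := g30 (t := t - 4 / 10) (by linarith) (by linarith)
        have a3 := g40 (t := t - 6 / 10) (by linarith) (by linarith)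
        have a4 := g25 (t := t - 8 / 10) (by linarith) (by linarith)
        simp only [ev]
        linarith
      · have a1 := g20 (t := t - 1 / 10 - 2 / 10) (by linarith) (by linarith)
        have a2 := g40 (t := t - 1 / 10 - 4 / 10) (by linarith) (by linarith)
        have a3 := g35 (t := t - 1 / 10 - 6 / 10) (by linarith) (by linarith)
        have a4 := g15 (t := t - 1 / 10 - 8 / 10) (by linarith) (by linarith)
        simp only [ev]
        linarith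
  obtain ⟨a, b, ha, hb, ha', hb', hab⟩ := hb
  have hp : ∀ s, 0 ≤ ev s := fun s => by
    simp only [ev]
    linarith [Ph_nonneg s, Ph_nonneg (s - 2 / 10), Ph_nonneg (s - 4 / 10), Ph_nonneg (s - 6 / 10),
      Ph_nonneg (s - 8 / 10)]
  have hsum : Ph t + Ph (t - 1 / 10) ≤ 1.4143 := by
    nlinarith [sq_nonneg (Ph t - Ph (t - 1 / 10))]
  have h2 := pow_le_pow_left₀ (hp t) (ha.trans (add_le_add_right ha' _)) 2
  have h3 := pow_le_pow_left₀ (hp _) (hb.trans (add_le_add_right hb' _)) 2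
  constructor <;> linarith

theorem ev_bound (t : ℝ) :
    ev t ^ 2 + ev (t - 1 / 10) ^ 2 ≤ 4 ∧ ev t + ev (t - 1 / 10) ≤ 2.7275 := by
  have hp : Function.Periodic
      (fun t => (ev t ^ 2 + ev (t - 1 / 10) ^ 2, ev t + ev (t - 1 / 10))) (1 / 10 : ℝ) := fun t => by
    simp only [ev_add, add_sub_cancel_right, add_comm (ev t), add_comm (ev t ^ 2)]
  obtain ⟨y, hy, e⟩ := hp.exists_mem_Ico₀ (by norm_num) t
  obtain ⟨e1, e2⟩ := Prod.mk.inj e
  rw [e1, e2]
  exact ev_base hy.1 hy.2.le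

theorem half_bound (t : ℝ) : Ph t * Ph (t - 5 / 10) ≤ 0.142 * (Ph t + Ph (t - 5 / 10)) := by
  have h0 := Ph_nonneg t
  have h1 := Ph_nonneg (t - 5 / 10)
  rcases le_total 0.25 (nn t) with h | h
  · nlinarith [f25 h]
  · have h2 : 1 / 2 ≤ nn (5 / 10) := nn_ge_of 0 (by norm_num) (by norm_num)
    have h3 := nn_add_le t (-(t - 5 / 10))
    rw [nn_neg, show t + -(t - 5 / 10) = 5 / 10 by ring] at h3
    nlinarith [f25 (t := t - 5 / 10) (by linarith)]

/-- The bounds on the ten shifted kernels that are used below. -/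
structure Good (p : ℕ → ℝ) : Prop where
  pos : ∀ e, 0 ≤ p e
  b1 : p 0 + p 1 + p 2 + p 3 + p 4 + p 5 + p 6 + p 7 + p 8 + p 9 ≤ 2.7275
  b2 : (p 0 + p 2 + p 4 + p 6 + p 8) ^ 2 + (p 1 + p 3 + p 5 + p 7 + p 9) ^ 2 ≤ 4
  b5 : (p 0 + p 5) ^ 2 + (p 1 + p 6) ^ 2 + (p 2 + p 7) ^ 2 + (p 3 + p 8) ^ 2 + (p 4 + p 9) ^ 2 ≤ 1.78
  b10 : p 0 ^ 2 + p 1 ^ 2 + p 2 ^ 2 + p 3 ^ 2 + p 4 ^ 2 + p 5 ^ 2 + p 6 ^ 2 + p 7 ^ 2 + p 8 ^ 2 +
    p 9 ^ 2 ≤ 1

theorem good (t : ℝ) : Good fun e => Ph (t - e / 10) := by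
  obtain ⟨h2, h1⟩ := ev_bound t
  have h10 := sum_Ph_sq t
  have e1 : ev t = Ph (t - (0 : ℕ) / 10) + Ph (t - (2 : ℕ) / 10) + Ph (t - (4 : ℕ) / 10) +
      Ph (t - (6 : ℕ) / 10) + Ph (t - (8 : ℕ) / 10) := by simp [ev]
  have e2 : ev (t - 1 / 10) = Ph (t - (1 : ℕ) / 10) + Ph (t - (3 : ℕ) / 10) +
      Ph (t - (5 : ℕ) / 10) + Ph (t - (7 : ℕ) / 10) + Ph (t - (9 : ℕ) / 10) := by
    simp only [ev]
    norm_num
    ring_nf
  have h5 : ∀ c : ℕ, Ph (t - c / 10) * Ph (t - (c + 5 : ℕ) / 10) ≤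
      0.142 * (Ph (t - c / 10) + Ph (t - (c + 5 : ℕ) / 10)) := fun c => by
    have := half_bound (t - c / 10)
    rwa [show t - c / 10 - 5 / 10 = t - (c + 5 : ℕ) / 10 by push_cast; ring] at this
  simp only [sum_range_succ, range_zero, sum_empty, zero_add] at h10
  rw [e1, e2] at h1 h2
  refine ⟨fun _ => Ph_nonneg _, by linarith, h2, ?_, h10⟩
  have a0 := h5 0
  have a1 := h5 1
  have a2 := h5 2
  have a3 := h5 3
  have a4 := h5 4
  simp only [Nat.reduceAdd] at a0 a1 a2 a3 a4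
  linarith

theorem le_rpow {a : ℝ} {s : ℕ} (h : a ^ 8 ≤ s ^ 7) : a ≤ (s : ℝ) ^ (7 / 8 : ℝ) := by
  refine le_of_pow_le_pow_left₀ (n := 8) (by norm_num) (by positivity) ?_
  rw [← rpow_natCast ((s : ℝ) ^ (7 / 8 : ℝ)), ← rpow_mul (Nat.cast_nonneg s)]
  norm_num
  exact h

theorem form {p q : ℕ → ℝ} (hp : Good p) (hq : Good q) {s n : ℕ} (h : s * n = 10) :
    ∑ a ∈ range 10, ∑ b ∈ range 10, (if (n : ℤ) ∣ (a : ℤ) - b then p a * q b else 0) ≤
      (s : ℝ) ^ (7 / 8 : ℝ) := by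
  have hn : n ∈ Nat.divisors 10 := Nat.mem_divisors.2 ⟨Dvd.intro_left s h, by norm_num⟩
  have hn' : n = 1 ∨ n = 2 ∨ n = 5 ∨ n = 10 :=
    (by decide : ∀ n ∈ Nat.divisors 10, n = 1 ∨ n = 2 ∨ n = 5 ∨ n = 10) n hn
  rcases hn' with rfl | rfl | rfl | rfl
  · obtain rfl : s = 10 := by omega
    refine le_trans ?_ (le_rpow (a := 7.44) (by norm_num))
    have h1 := mul_le_mul hp.b1 hq.b1 (by
      linarith [hq.pos 0, hq.pos 1, hq.pos 2, hq.pos 3, hq.pos 4, hq.pos 5, hq.pos 6, hq.pos 7,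
        hq.pos 8, hq.pos 9]) (by norm_num)
    norm_num [sum_range_succ]
    linarith
  · obtain rfl : s = 5 := by omega
    refine le_trans ?_ (le_rpow (a := 4) (by norm_num))
    norm_num [sum_range_succ]
    linarith [hp.b2, hq.b2, sq_nonneg (p 0 + p 2 + p 4 + p 6 + p 8 - (q 0 + q 2 + q 4 + q 6 + q 8)),
      sq_nonneg (p 1 + p 3 + p 5 + p 7 + p 9 - (q 1 + q 3 + q 5 + q 7 + q 9))]
  · obtain rfl : s = 2 := by omega
    refine le_trans ?_ (le_rpow (a := 1.78) (by norm_num))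
    norm_num [sum_range_succ]
    linarith [hp.b5, hq.b5, sq_nonneg (p 0 + p 5 - (q 0 + q 5)), sq_nonneg (p 1 + p 6 - (q 1 + q 6)),
      sq_nonneg (p 2 + p 7 - (q 2 + q 7)), sq_nonneg (p 3 + p 8 - (q 3 + q 8)),
      sq_nonneg (p 4 + p 9 - (q 4 + q 9))]
  · obtain rfl : s = 1 := by omega
    refine le_trans ?_ (le_rpow (a := 1) (by norm_num))
    norm_num [sum_range_succ]
    linarith [hp.b10, hq.b10, sq_nonneg (p 0 - q 0), sq_nonneg (p 1 - q 1), sq_nonneg (p 2 - q 2),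
      sq_nonneg (p 3 - q 3), sq_nonneg (p 4 - q 4), sq_nonneg (p 5 - q 5), sq_nonneg (p 6 - q 6),
      sq_nonneg (p 7 - q 7), sq_nonneg (p 8 - q 8), sq_nonneg (p 9 - q 9)]

theorem sum_shift {f : ℤ → ℝ} (hf : ∀ e, f (e + 10) = f e) (c : ℤ) :
    ∑ e ∈ range 10, f (e + c) = ∑ e ∈ range 10, f e := by
  have h1 : ∀ c : ℤ, ∑ e ∈ range 10, f (e + (c + 1)) = ∑ e ∈ range 10, f (e + c) := fun c => by
    have a1 := sum_range_succ (fun e : ℕ => f (e + c)) 10
    have a2 := sum_range_succ' (fun e : ℕ => f (e + c)) 10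
    have a3 := hf c
    simp only [Nat.cast_add, Nat.cast_one, Nat.cast_zero, zero_add, Nat.cast_ofNat, add_assoc,
      add_comm (1 : ℤ) c, add_comm (10 : ℤ) c] at a1 a2
    linarith
  induction c using Int.induction_on with
  | zero => simp
  | succ c ih => rw [h1, ih]
  | pred c ih => rw [← h1, sub_add_cancel, ih]

theorem form_shift (t₁ t₂ : ℝ) {s n : ℕ} (h : s * n = 10) (c : ℤ) :
    ∑ a ∈ range 10, ∑ b ∈ range 10, (if (n : ℤ) ∣ c + ((a : ℤ) - b) then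
      Ph (t₁ - a / 10) * Ph (t₂ - b / 10) else 0) ≤ (s : ℝ) ^ (7 / 8 : ℝ) := by
  refine le_trans (le_of_eq (sum_congr rfl fun a _ => ?_)) (form (good t₁) (good (t₂ - c / 10)) h)
  have hn : (n : ℤ) ∣ 10 := by exact_mod_cast Dvd.intro_left s h
  have h1 := sum_shift (f := fun b : ℤ => if (n : ℤ) ∣ c + ((a : ℤ) - b) then
    Ph (t₁ - a / 10) * Ph (t₂ - b / 10) else 0) (fun b => by
      have a1 := Ph_int (t₂ - ((b + 10 : ℤ) : ℝ) / 10) 1
      rw [show t₂ - ((b + 10 : ℤ) : ℝ) / 10 + (1 : ℤ) = t₂ - b / 10 by push_cast; ring] at a1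
      simp only [← a1, show c + ((a : ℤ) - (b + 10)) = c + (a - b) - 10 by ring,
        dvd_sub_left hn]) c
  simp only [Int.cast_natCast] at h1
  rw [← h1]
  refine sum_congr rfl fun b _ => ?_
  rw [show c + ((a : ℤ) - (b + c)) = a - b by ring,
    show t₂ - ((b + c : ℤ) : ℝ) / 10 = t₂ - c / 10 - b / 10 by push_cast; ring]

theorem F_step (y : ℕ) (x : ℕ → ℝ) (a h : ℕ) :
    F (y + 1) x ((10 ^ y * a + h : ℕ) / 10 ^ (y + 1)) =
      Ph (x 0 - h / 10 ^ (y + 1) - a / 10) * F y (sh 1 x) (h / 10 ^ y) := by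
  rw [F_succ, ← F_int y (sh 1 x) (h / 10 ^ y) a]
  congr 2 <;> push_cast <;> field_simp <;> ring

theorem cos_le (y : ℝ) : cos y ≤ 1 - y ^ 2 / 2 + y ^ 4 / 24 := by
  wlog hy : 0 ≤ y generalizing y
  · have h := this (-y) (by linarith)
    rw [cos_neg] at h
    linarith
  rcases le_total y 4 with h | h
  · have h1 := sin_ge_sub_cube (x := y / 2) (by positivity)
    have h2 : 0 ≤ y / 2 - (y / 2) ^ 3 / 6 := by
      linarith [mul_nonneg hy (mul_nonneg hy (sub_nonneg.2 h)), mul_nonneg hy (sub_nonneg.2 h)]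
    have h3 := pow_le_pow_left₀ h2 h1 2
    have h4 := cos_two_mul (y / 2)
    rw [mul_div_cancel₀ _ two_ne_zero, cos_sq'] at h4
    nlinarith [pow_nonneg hy 6]
  · have h1 : 16 ≤ y ^ 2 := by nlinarith
    nlinarith [cos_le_one y]

theorem near {t : ℝ} (h : nn t ≤ 1 / 20) : Ph t ^ 2 ≤ exp (-(300 * nn t ^ 2)) := by
  set δ := t - round t with hδ
  have h0 : nn t ^ 2 = δ ^ 2 := sq_abs _
  have h1 : Ph t = Ph δ := by rw [← Ph_int δ (round t), hδ, sub_add_cancel]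
  have hs : δ ^ 2 ≤ 1 / 400 := by rw [← h0]; nlinarith [nn_nonneg t]
  have hs0 := sq_nonneg δ
  have h2 : Ph δ ^ 2 ≤ 1 - 33 * (π ^ 2 * δ ^ 2) + 433.4 * (π ^ 2 * δ ^ 2) ^ 2 := by
    rw [Ph_sq, div_le_iff₀ (by norm_num)]
    refine (sum_le_sum fun d _ => sum_le_sum fun d' _ => cos_le _).trans (le_of_eq ?_)
    simp only [sum_range_succ, range_zero, sum_empty]
    push_cast
    ring
  have h3 : 9.869 * δ ^ 2 ≤ π ^ 2 * δ ^ 2 := by
    gcongr
    nlinarith [pi_gt_d4]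
  have h4 : π ^ 2 * δ ^ 2 ≤ 9.87 * δ ^ 2 := by
    gcongr
    nlinarith [pi_lt_d4, pi_pos]
  have h5 := pow_le_pow_left₀ (by positivity) h4 2
  have h6 := (abs_le.1 (exp_bound (x := -(300 * δ ^ 2)) (n := 5)
    (by rw [abs_neg, abs_of_nonneg (by positivity)]; linarith) (by norm_num))).1
  rw [abs_neg, abs_of_nonneg (by positivity)] at h6
  simp only [sum_range_succ, range_zero, sum_empty, Nat.factorial] at h6
  push_cast at h6
  rw [h0, h1]
  generalize δ ^ 2 = s at *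
  nlinarith [mul_nonneg (pow_nonneg hs0 4) (sub_nonneg.2 hs), mul_nonneg hs0 (mul_nonneg hs0
    (sub_nonneg.2 hs)), mul_nonneg hs0 (sub_nonneg.2 hs), pow_nonneg hs0 4]

/-- Exponent of decay of the kernel. -/
noncomputable def gg (t : ℝ) : ℝ :=
  if nn t ≤ 1 / 20 then 150 * nn t ^ 2 else if nn t ≤ 1 / 10 then 0.41 else 1

theorem gg_nonneg (t : ℝ) : 0 ≤ gg t := by
  unfold gg
  split_ifs <;> positivity

theorem Ph_sq_le (t : ℝ) : Ph t ^ 2 ≤ exp (-2 * gg t) := by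
  have h0 : ∀ a : ℝ, Ph t ≤ exp (-a) → Ph t ^ 2 ≤ exp (-2 * a) := fun a h => by
    refine (pow_le_pow_left₀ (Ph_nonneg t) h 2).trans (le_of_eq ?_)
    rw [← exp_nat_mul]
    norm_num
  unfold gg
  split_ifs with h1 h2
  · exact (near h1).trans (le_of_eq (by ring_nf))
  · refine h0 _ ((f05 (by linarith [not_le.1 h1])).trans ?_)
    exact le_trans (by norm_num) (one_sub_div_pow_le_exp_neg (n := 4) (by norm_num))
  · exact h0 _ ((f10 (by linarith [not_le.1 h2])).trans (by linarith [exp_neg_one_gt_d9]))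

theorem nn_sq_le (a b : ℝ) : nn (10 * a - b) ^ 2 ≤ 0.74 * gg a + 0.25 * gg b := by
  have h0 := nn_nonneg (10 * a - b)
  have h1 : nn (10 * a - b) ^ 2 ≤ 1 / 4 := by nlinarith [nn_le_half (10 * a - b)]
  have h2 : nn (10 * a - b) ≤ 10 * nn a + nn b := by
    have a1 := nn_add_le (10 * a) (-b)
    have a2 := nn_nat_mul 10 a
    rw [nn_neg, ← sub_eq_add_neg] at a1
    push_cast at a2
    linarith
  have h3 : nn (10 * a - b) ^ 2 ≤ 111 * nn a ^ 2 + 10.1 * nn b ^ 2 := by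
    nlinarith [pow_le_pow_left₀ h0 h2 2, sq_nonneg (11 * nn a - 10 * nn b), sq_nonneg (nn b)]
  have ha := gg_nonneg a
  have hb := gg_nonneg b
  have hb0 := nn_nonneg b
  unfold gg at *
  split_ifs at * <;> nlinarith

end PhiAux

open PhiAux

theorem pair : PairStmt := by
  intro y
  induction y with
  | zero =>
    intro d x hd
    obtain rfl : d = 1 := by simpa using hd
    simp [F]
  | succ y ih =>
    intro d x hd
    have hs : 0 < d.gcd 10 := Nat.gcd_pos_of_pos_right _ (by norm_num)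
    have hc := Nat.coprime_div_gcd_div_gcd hs
    obtain ⟨d', hd'⟩ := Nat.gcd_dvd_left d 10
    obtain ⟨n, hn⟩ := Nat.gcd_dvd_right d 10
    generalize d.gcd 10 = s at *
    subst hd'
    rw [Nat.mul_div_cancel_left _ hs, hn, Nat.mul_div_cancel_left _ hs] at hc
    have h1 : d' ∣ 10 ^ y := by
      rw [pow_succ', hn, mul_assoc, Nat.mul_dvd_mul_iff_left hs, ← hn] at hd
      exact hc.dvd_of_dvd_mul_left hd
    have hz : (10 : ℤ) = s * n := by exact_mod_cast hn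
    have hc' : IsCoprime (d' : ℤ) n := Nat.isCoprime_iff_coprime.2 hc
    rw [show range (10 ^ (y + 1)) = range (10 ^ y * 10) by rw [pow_succ], Nat.cast_mul (α := ℝ),
      mul_rpow s.cast_nonneg d'.cast_nonneg]
    simp only [sum_range_mul, F_step]
    refine le_trans ?_ (mul_le_mul_of_nonneg_left (ih d' (sh 1 x) h1) (by positivity))
    rw [sum_comm, mul_sum]
    refine sum_le_sum fun h₁ _ => ?_
    rw [sum_congr rfl fun a _ => sum_comm, sum_comm, mul_sum]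
    refine sum_le_sum fun h₂ _ => ?_
    have hF := mul_nonneg (F_nonneg y (sh 1 x) (h₁ / 10 ^ y)) (F_nonneg y (sh 1 x) (h₂ / 10 ^ y))
    have h2 : ∀ a b : ℕ, (10 : ℤ) ^ (y + 1) ∣ ((s * d' : ℕ) : ℤ) *
        (((10 ^ y * a + h₁ : ℕ) : ℤ) - (10 ^ y * b + h₂ : ℕ)) →
        10 ^ y * (n : ℤ) ∣ d' * ((h₁ : ℤ) - h₂) + 10 ^ y * (d' * ((a : ℤ) - b)) := fun a b h => by
      refine (mul_dvd_mul_iff_left (a := (s : ℤ)) (by exact_mod_cast hs.ne')).1 ?_
      rw [mul_left_comm, ← hz, ← pow_succ]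
      exact h.trans (dvd_of_eq (by push_cast; ring))
    split_ifs with h3
    · obtain ⟨w, hw⟩ := h3
      obtain ⟨u, v, huv⟩ := id hc'
      refine le_trans ?_ (mul_le_mul_of_nonneg_right (form_shift (x 0 - h₁ / 10 ^ (y + 1))
        (x 0 - h₂ / 10 ^ (y + 1)) hn.symm (u * w)) hF)
      simp only [sum_mul]
      refine sum_le_sum fun a _ => sum_le_sum fun b _ => ?_
      split_ifs with h4 h5 h5
      · exact le_of_eq (by ring)
      · refine (h5 ?_).elim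
        have a1 := h2 a b h4
        rw [hw, ← mul_add, mul_dvd_mul_iff_left (by positivity)] at a1
        refine hc'.symm.dvd_of_dvd_mul_left ?_
        have a2 : (d' : ℤ) * (u * w + (a - b)) = w + d' * (a - b) - n * (v * w) := by
          linear_combination w * huv
        exact a2 ▸ dvd_sub a1 (dvd_mul_right _ _)
      · exact mul_nonneg (mul_nonneg (Ph_nonneg _) (Ph_nonneg _)) hF
      · simp
    · refine le_of_eq ((sum_eq_zero fun a _ => sum_eq_zero fun b _ => if_neg fun h4 => h3 ?_).trans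
        (mul_zero _).symm)
      exact (dvd_add_left (dvd_mul_right _ _)).1 ((dvd_mul_right _ _).trans (h2 a b h4))

theorem decay : DecayStmt := by
  intro l x t
  rw [F, ← prod_pow]
  refine (prod_le_prod (fun _ _ => sq_nonneg _) fun i _ => Ph_sq_le _).trans ?_
  rw [← exp_sum, ← mul_sum, exp_le_exp]
  have h1 : ∑ i ∈ range l, nn (10 * x i - x (i + 1)) ^ 2 ≤ ∑ i ∈ range l,
      (0.74 * gg (x i - 10 ^ i * t) + 0.25 * gg (x (i + 1) - 10 ^ (i + 1) * t)) :=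
    sum_le_sum fun i _ => (le_of_eq (by ring_nf)).trans (nn_sq_le _ _)
  rw [sum_add_distrib, ← mul_sum, ← mul_sum] at h1
  have h2 := sum_range_succ (fun i => gg (x i - 10 ^ i * t)) l
  have h3 := sum_range_succ' (fun i => gg (x i - 10 ^ i * t)) l
  have h4 : 0 ≤ ∑ i ∈ range (l + 1), gg (x i - 10 ^ i * t) := sum_nonneg fun _ _ => gg_nonneg _
  linarith [gg_nonneg (x l - 10 ^ l * t), gg_nonneg (x 0 - 10 ^ 0 * t)]

end Pool.Agent.Emirp

end MrgPart2

-- ======== part 3: formerly Pool.Agent.MP_e620c0_nt.Mass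
section MrgPart3

/-! Module MASS of project EMI: the total mass of the majorant. -/

set_option autoImplicit false

namespace Pool.Agent.Emirp

open Finset Filter Real
open scoped ArithmeticFunction.vonMangoldt

namespace Mass

theorem conv_eq (s : Finset ℕ) (N : ℕ) (hs : ∀ k ∈ s, k < N) (h : ℕ × ℕ → ℝ)
    (h0 : ∀ p : ℕ × ℕ, p.1 * p.2 = 0 → h p = 0) :
    ∑ k ∈ s, ∑ p ∈ k.divisorsAntidiagonal, h p =
      ∑ m ∈ range N, ∑ n ∈ (range N).filter (fun n => m * n ∈ s), h (m, n) := by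
  have e : ∑ m ∈ range N, ∑ n ∈ (range N).filter (fun n => m * n ∈ s), h (m, n) =
      ∑ p ∈ (range N ×ˢ range N).filter (fun p => p.1 * p.2 ∈ s), h p := by
    rw [sum_filter, sum_product]
    exact sum_congr rfl fun m _ => sum_filter _ _
  rw [e, ← sum_fiberwise_of_maps_to (g := fun p : ℕ × ℕ => p.1 * p.2) (t := s)
    fun p hp => (mem_filter.1 hp).2]
  refine sum_congr rfl fun k hk => sum_subset (fun p hp => ?_) fun p hp hp' => ?_
  · obtain ⟨h1, h2⟩ := Nat.mem_divisorsAntidiagonal.1 hp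
    have h3 : p.1 ≤ k := Nat.le_of_dvd (Nat.pos_of_ne_zero h2) (Dvd.intro _ h1)
    have h4 : p.2 ≤ k := Nat.le_of_dvd (Nat.pos_of_ne_zero h2) (Dvd.intro_left _ h1)
    simp only [mem_filter, mem_product, mem_range]
    exact ⟨⟨⟨h3.trans_lt (hs k hk), h4.trans_lt (hs k hk)⟩, h1 ▸ hk⟩, h1⟩
  · have h1 := (mem_filter.1 hp).2
    refine h0 p (by_contra fun h2 => hp' (Nat.mem_divisorsAntidiagonal.2 ⟨h1, h1 ▸ h2⟩))

theorem pow_nonneg' {f : ArithmeticFunction ℝ} (hf : ∀ n, 0 ≤ f n) (j n : ℕ) : 0 ≤ (f ^ j) n := by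
  induction j generalizing n with
  | zero => rw [pow_zero, ArithmeticFunction.one_apply]; split_ifs <;> norm_num
  | succ j ih =>
    rw [pow_succ, ArithmeticFunction.mul_apply]
    exact sum_nonneg fun p _ => mul_nonneg (ih _) (hf _)

/-- the weighted mass of a convolution power -/
theorem pow_mass {f : ArithmeticFunction ℝ} (hf : ∀ n, 0 ≤ f n) (N : ℕ) (s μ : ℝ)
    (h : ∑ p ∈ range N, f p * (p : ℝ) ^ s ≤ μ) (j : ℕ) :
    ∑ m ∈ range N, (f ^ j) m * (m : ℝ) ^ s ≤ μ ^ j := by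
  have hw : ∀ n : ℕ, 0 ≤ (n : ℝ) ^ s := fun n => rpow_nonneg n.cast_nonneg s
  have h0 : 0 ≤ ∑ p ∈ range N, f p * (p : ℝ) ^ s := sum_nonneg fun p _ => mul_nonneg (hf p) (hw p)
  induction j with
  | zero =>
    simp only [pow_zero, ArithmeticFunction.one_apply, ite_mul, one_mul, zero_mul, sum_ite_eq']
    split_ifs <;> simp
  | succ j ih =>
    have e : ∀ m ∈ range N, (f ^ (j + 1)) m * (m : ℝ) ^ s = ∑ p ∈ m.divisorsAntidiagonal,
        (f ^ j) p.1 * (p.1 : ℝ) ^ s * (f p.2 * (p.2 : ℝ) ^ s) := fun m _ => by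
      rw [pow_succ, ArithmeticFunction.mul_apply, sum_mul]
      refine sum_congr rfl fun p hp => ?_
      rw [← (Nat.mem_divisorsAntidiagonal.1 hp).1, Nat.cast_mul,
        mul_rpow p.1.cast_nonneg p.2.cast_nonneg]
      ring
    rw [sum_congr rfl e, conv_eq (range N) N (fun k hk => mem_range.1 hk) _ fun p hp => by
      rcases mul_eq_zero.1 hp with k | k <;> simp [k]]
    calc _ ≤ ∑ m ∈ range N, (f ^ j) m * (m : ℝ) ^ s * ∑ p ∈ range N, f p * (p : ℝ) ^ s := by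
          refine sum_le_sum fun m _ => ?_
          rw [mul_sum]
          exact sum_le_sum_of_subset_of_nonneg (filter_subset _ _) fun n _ _ =>
            mul_nonneg (mul_nonneg (pow_nonneg' hf _ _) (hw _)) (mul_nonneg (hf _) (hw _))
      _ ≤ μ ^ j * μ := by
          rw [← sum_mul]
          exact mul_le_mul ih h h0 (pow_nonneg (h0.trans h) j)
      _ = μ ^ (j + 1) := (pow_succ μ j).symm

/-- multiplication by the logarithm -/
noncomputable def D (f : ArithmeticFunction ℝ) : ArithmeticFunction ℝ :=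
  ⟨fun n => f n * log n, by simp⟩

theorem D_apply (f : ArithmeticFunction ℝ) (n : ℕ) : D f n = f n * log n := rfl

theorem D_mul (u v : ArithmeticFunction ℝ) : D (u * v) = D u * v + u * D v := by
  ext k
  rw [ArithmeticFunction.add_apply, D_apply, ArithmeticFunction.mul_apply,
    ArithmeticFunction.mul_apply, ArithmeticFunction.mul_apply, sum_mul, ← sum_add_distrib]
  refine sum_congr rfl fun p hp => ?_
  obtain ⟨h1, h2⟩ := Nat.mem_divisorsAntidiagonal.1 hp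
  obtain ⟨h3, h4⟩ := mul_ne_zero_iff.1 (h1 ▸ h2 : p.1 * p.2 ≠ 0)
  rw [D_apply, D_apply, ← h1, Nat.cast_mul, log_mul (by exact_mod_cast h3) (by exact_mod_cast h4)]
  ring

theorem D_pow (f : ArithmeticFunction ℝ) (j : ℕ) :
    D (f ^ (j + 1)) = (j + 1) • (f ^ j * D f) := by
  induction j with
  | zero => simp
  | succ j ih =>
    rw [pow_succ, D_mul, ih, succ_nsmul _ (j + 1), smul_mul_assoc, mul_right_comm, ← pow_succ]

theorem D_pow_apply (f : ArithmeticFunction ℝ) (j k : ℕ) :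
    (f ^ (j + 1)) k * log k = (j + 1) * (f ^ j * D f) k := by
  have key : ∀ (n : ℕ) (u : ArithmeticFunction ℝ), (n • u) k = n * u k := fun n u => by
    induction n with
    | zero => simp
    | succ n ih => rw [succ_nsmul, ArithmeticFunction.add_apply, ih]; push_cast; ring
  rw [← D_apply, D_pow, key]
  push_cast
  rfl

theorem tail : ∑ j ∈ Icc 15 751, (251 / 50 : ℝ) ^ j / j.factorial ≤ 3611 / 100000 := by
  have key : ∀ n, ∑ j ∈ Ico 15 (15 + n), (251 / 50 : ℝ) ^ j / j.factorial +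
      800 / 549 * ((251 / 50 : ℝ) ^ (15 + n) / (15 + n).factorial) ≤ 3611 / 100000 := fun n => by
    induction n with
    | zero => norm_num [Nat.factorial]
    | succ n ih =>
      rw [← add_assoc, sum_Ico_succ_top (by omega), pow_succ, Nat.factorial_succ, Nat.cast_mul]
      have h1 : (0 : ℝ) < (15 + n).factorial := by positivity
      have h2 : (16 : ℝ) ≤ ((15 + n + 1 : ℕ) : ℝ) := by exact_mod_cast (by omega)
      have h3 : (251 / 50 : ℝ) ^ (15 + n) * (251 / 50) / ((15 + n + 1 : ℕ) * (15 + n).factorial) ≤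
          251 / 800 * ((251 / 50 : ℝ) ^ (15 + n) / (15 + n).factorial) := by
        rw [mul_comm ((15 + n + 1 : ℕ) : ℝ), ← div_mul_div_comm, mul_comm]
        refine mul_le_mul_of_nonneg_right ?_ (by positivity)
        rw [div_le_iff₀ (by linarith)]
        linarith
      linarith
  have h := key 737
  have h0 : (0 : ℝ) ≤ 800 / 549 * ((251 / 50 : ℝ) ^ (15 + 737) / (15 + 737).factorial) := by
    positivity
  have e : Icc 15 751 = Ico 15 (15 + 737) := rfl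
  rw [e]
  exact (le_add_of_nonneg_right h0).trans h

theorem exp_le : exp (5 / 2) ≤ 1219 / 100 := by
  have h1 : exp (5 / 2) ^ 2 = exp 1 ^ 5 := by rw [← exp_nat_mul, ← exp_nat_mul]; norm_num
  have h2 : exp 1 ^ 5 ≤ 2.7182818286 ^ 5 := pow_le_pow_left₀ (exp_pos 1).le exp_one_lt_d9.le 5
  refine le_of_sq_le_sq ?_ (by norm_num)
  rw [h1]
  exact h2.trans (by norm_num)

theorem le_exp : 302 / 100 ≤ exp (5 / 4) := by
  have h1 : exp (5 / 4) = exp 1 * exp (1 / 4) := by rw [← exp_add]; norm_num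
  have h2 := add_one_le_exp (1 / 4 : ℝ)
  have h3 := exp_one_gt_d9
  rw [h1]
  nlinarith

/-- the two denominators together -/
theorem bracket {lam m : ℕ} (hl : 2000 ≤ lam) (h1 : 1 ≤ m) (h2 : m < 10 ^ lam) :
    (if m ^ 2 ≤ 10 ^ lam then 1 / log (10 ^ (lam - 1) / m) else 0) + 1 / log (10 ^ (lam - 1)) ≤
      1001 / 1000 * (exp (5 / 2) * (m : ℝ) ^ (-(5 / 2 / (lam * log 10)))) / (lam * log 10) := by
  have ht : 0 < log 10 := log_pos (by norm_num)
  have hl' : (2000 : ℝ) ≤ lam := by exact_mod_cast hl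
  have hm : (0 : ℝ) < m := by exact_mod_cast h1
  have hL : 0 < lam * log 10 := by positivity
  have e1 : log (10 ^ (lam - 1)) = (lam - 1) * log 10 := by
    rw [log_pow, Nat.cast_sub (by omega), Nat.cast_one]
  have e2 : exp (5 / 2) * (m : ℝ) ^ (-(5 / 2 / (lam * log 10))) =
      exp (5 / 2 * (1 - log m / (lam * log 10))) := by
    rw [rpow_def_of_pos hm, ← exp_add]
    congr 1
    ring
  have b1 : 1 / log (10 ^ (lam - 1)) ≤ 1001 / 1000 / (lam * log 10) := by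
    rw [e1, div_le_div_iff₀ (mul_pos (by linarith) ht) hL]
    nlinarith
  rw [e2]
  split_ifs with h
  · have c1 : 2 * log m ≤ lam * log 10 := by
      have := log_le_log (by positivity) (show (m : ℝ) ^ 2 ≤ 10 ^ lam by exact_mod_cast h)
      rwa [log_pow, log_pow, Nat.cast_ofNat] at this
    have c2 : 1 / log (10 ^ (lam - 1) / m) ≤ 201 / 100 / (lam * log 10) := by
      rw [log_div (by positivity) hm.ne', e1, div_le_div_iff₀ (by nlinarith) hL]
      nlinarith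
    have c3 : exp (5 / 4) ≤ exp (5 / 2 * (1 - log m / (lam * log 10))) := by
      have : log m / (lam * log 10) ≤ 1 / 2 := by rw [div_le_iff₀ hL]; linarith
      exact exp_le_exp.2 (by linarith)
    refine (add_le_add c2 b1).trans ?_
    rw [← add_div]
    exact div_le_div_of_nonneg_right (by linarith [le_exp]) hL.le
  · have c1 : log m ≤ lam * log 10 := by
      have := log_le_log hm (show (m : ℝ) ≤ 10 ^ lam by exact_mod_cast h2.le)
      rwa [log_pow] at this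
    have c3 : 1 ≤ exp (5 / 2 * (1 - log m / (lam * log 10))) := by
      have : log m / (lam * log 10) ≤ 1 := by rw [div_le_iff₀ hL]; linarith
      exact one_le_exp (by linarith)
    rw [zero_add]
    exact b1.trans (div_le_div_of_nonneg_right (by linarith) hL.le)

/-- the cofactor weight -/
noncomputable def g (lam m : ℕ) : ℝ := ∑ j ∈ Icc 15 751, (fP lam ^ j) m / j.factorial

theorem fP_apply (lam p : ℕ) :
    fP lam p = if p.Prime ∧ zz lam < p ∧ p ^ 2 ≤ 10 ^ lam then 1 else 0 := rfl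

theorem aa_apply (lam m : ℕ) :
    aa lam m = if m ^ 2 ≤ 10 ^ lam then g lam m / log (10 ^ (lam - 1) / m) else 0 := rfl

theorem fP_nonneg (lam p : ℕ) : 0 ≤ fP lam p := by rw [fP_apply]; split_ifs <;> norm_num

theorem g_nonneg (lam m : ℕ) : 0 ≤ g lam m :=
  sum_nonneg fun j _ => div_nonneg (pow_nonneg' (fP_nonneg lam) j m) (Nat.cast_nonneg _)

theorem D_nonneg (lam n : ℕ) : 0 ≤ D (fP lam) n := mul_nonneg (fP_nonneg lam n) (log_natCast_nonneg n)

theorem D_le (lam n : ℕ) : D (fP lam) n ≤ Λ n := by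
  rw [D_apply, fP_apply]
  split_ifs with h
  · rw [one_mul, ArithmeticFunction.vonMangoldt_apply_prime h.1]
  · rw [zero_mul]
    exact ArithmeticFunction.vonMangoldt_nonneg

theorem nu_le {lam k : ℕ} (hl : 2 ≤ lam) (hk : 10 ^ (lam - 1) ≤ k) :
    nu lam k ≤ ∑ p ∈ k.divisorsAntidiagonal,
      (aa lam p.1 * Λ p.2 + g lam p.1 * D (fP lam) p.2 / log (10 ^ (lam - 1))) := by
  have h1 : (1 : ℝ) < 10 ^ (lam - 1) := one_lt_pow₀ (by norm_num) (by omega)
  have h2 : 0 < log (10 ^ (lam - 1)) := log_pos h1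
  have h3 : log (10 ^ (lam - 1)) ≤ log k := log_le_log (by linarith) (by exact_mod_cast hk)
  rw [nu, sum_add_distrib, ArithmeticFunction.mul_apply]
  refine add_le_add le_rfl ?_
  simp only [g, sum_mul, sum_div]
  rw [sum_comm]
  refine sum_le_sum fun j _ => ?_
  have h4 := D_pow_apply (fP lam) j k
  have h5 := mul_le_mul_of_nonneg_left h3 (pow_nonneg' (fP_nonneg lam) (j + 1) k)
  have h6 : ∑ p ∈ k.divisorsAntidiagonal, (fP lam ^ j) p.1 / j.factorial * D (fP lam) p.2 /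
      log (10 ^ (lam - 1)) = (fP lam ^ j * D (fP lam)) k / (j.factorial * log (10 ^ (lam - 1))) := by
    rw [ArithmeticFunction.mul_apply, sum_div]
    exact sum_congr rfl fun p _ => by ring
  have h7 : (0 : ℝ) < j.factorial := by positivity
  rw [h6, Nat.factorial_succ, div_le_div_iff₀ (by positivity) (by positivity)]
  push_cast
  nlinarith [mul_le_mul_of_nonneg_left (h5.trans_eq h4) h7.le]

theorem g_mass {lam : ℕ} {s : ℝ} (h : ∑ p ∈ range (10 ^ lam), fP lam p * (p : ℝ) ^ s ≤ 251 / 50) :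
    ∑ m ∈ range (10 ^ lam), g lam m * (m : ℝ) ^ s ≤ 3611 / 100000 := by
  simp only [g, sum_mul]
  rw [sum_comm]
  refine (sum_le_sum fun j _ => ?_).trans tail
  refine le_trans (le_of_eq ?_) (div_le_div_of_nonneg_right
    (pow_mass (fP_nonneg lam) _ s _ h j) (Nat.cast_nonneg j.factorial))
  rw [sum_div]
  exact sum_congr rfl fun m _ => by ring

end Mass

open Mass in
theorem mass (h1 : PntStmt) (h2 : MuStmt) : MassStmt := by
  obtain ⟨x₀, hx⟩ := h1 (1 / 1000) (by norm_num)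
  filter_upwards [h2, eventually_ge_atTop 2000, eventually_ge_atTop (12000 * ⌈10 * x₀⌉₊)]
    with lam hμ hl hl' d hd1 hd9
  have hz : 10 * x₀ ≤ zz lam := by
    have a1 : ⌈10 * x₀⌉₊ ≤ 16 * kap lam := by unfold kap; omega
    have a2 : 16 * kap lam < zz lam := Nat.lt_pow_self (by norm_num)
    exact (Nat.le_ceil _).trans (by exact_mod_cast a1.trans a2.le)
  have hz2 : zz lam ^ 2 ≤ 10 ^ lam := by
    rw [zz, ← pow_mul]
    exact Nat.pow_le_pow_right (by norm_num) (by unfold kap; omega)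
  have hX : 10 ^ lam = 10 * 10 ^ (lam - 1) := by rw [← pow_succ']; congr 1; omega
  have hg := g_mass hμ
  have hlog : 0 < log (10 ^ (lam - 1)) := log_pos (one_lt_pow₀ (by norm_num) (by omega))
  have hL : 0 < lam * log 10 :=
    mul_pos (by exact_mod_cast (by omega : 0 < lam)) (log_pos (by norm_num))
  obtain ⟨Dl, hD⟩ : ∃ Dl : ℕ, Dl = 10 ^ (lam - 1) := ⟨_, rfl⟩
  have hD' : (10 : ℝ) ^ (lam - 1) = Dl := by rw [hD]; push_cast; rfl
  have hD0 : (0 : ℝ) < Dl := by rw [← hD']; positivity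
  have hD10 : 10 ≤ Dl := hD ▸ Nat.le_self_pow (by omega) 10
  rw [← hD] at hX ⊢
  have t1 : (d + 1) * Dl ≤ 10 * (d * Dl) := by nlinarith
  have t2 : (d + 1) * Dl ≤ 10 ^ lam := by rw [hX]; exact Nat.mul_le_mul_right _ (by omega)
  have t3 : Dl ≤ d * Dl := Nat.le_mul_of_pos_left _ hd1
  have hd9' : (d : ℝ) ≤ 9 := by exact_mod_cast hd9
  have IL : ∀ m : ℕ, 1 ≤ m → x₀ * m ≤ (d * Dl : ℕ) →
      ∑ n ∈ (range ((d + 1) * Dl)).filter (fun n => m * n ∈ Ico (d * Dl) ((d + 1) * Dl)), Λ n ≤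
        1009 / 1000 * Dl / m := fun m hm h => by
    have a1 := (abs_le.1 (hx m (d * Dl) ((d + 1) * Dl) hm (by nlinarith) t1 h)).2
    have hm' : (0 : ℝ) < m := by exact_mod_cast hm
    simp only [mem_Ico]
    refine (sub_le_iff_le_add.1 a1).trans ?_
    rw [← add_div]
    refine div_le_div_of_nonneg_right ?_ hm'.le
    push_cast
    nlinarith
  have ID : ∀ m : ℕ, 1 ≤ m → ∑ n ∈ (range ((d + 1) * Dl)).filter
      (fun n => m * n ∈ Ico (d * Dl) ((d + 1) * Dl)), D (fP lam) n ≤ 1009 / 1000 * Dl / m :=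
    fun m hm => by
      rcases le_or_gt (x₀ * m) (d * Dl : ℕ) with h | h
      · exact (sum_le_sum fun n _ => D_le lam n).trans (IL m hm h)
      refine (sum_eq_zero fun n hn => ?_).trans_le (by positivity)
      have hm' : (0 : ℝ) < m := by exact_mod_cast hm
      have a1 : ((m * n : ℕ) : ℝ) < (10 * (d * Dl) : ℕ) := by
        exact_mod_cast (mem_Ico.1 (mem_filter.1 hn).2).2.trans_le t1
      have a2 : (n : ℝ) < zz lam := by
        rw [Nat.cast_mul, Nat.cast_mul, Nat.cast_ofNat] at a1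
        refine lt_of_mul_lt_mul_left ?_ hm'.le
        nlinarith
      rw [D_apply, fP_apply, if_neg fun k => k.2.1.not_gt (by exact_mod_cast a2), zero_mul]
  have g0 : g lam 0 = 0 := by simp [g]
  refine (sum_le_sum fun k hk => nu_le (by omega) (hD ▸ t3.trans (mem_Ico.1 hk).1)).trans ?_
  rw [conv_eq _ ((d + 1) * Dl) (fun k hk => (mem_Ico.1 hk).2) _ fun p hp => by
    rcases mul_eq_zero.1 hp with k | k <;> simp [k, g0]]
  set c : ℝ := 1009 / 1000 * Dl * (1001 / 1000 * exp (5 / 2) / (lam * log 10)) with hc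
  have hc0 : 0 ≤ c := by positivity
  calc _ ≤ ∑ m ∈ range ((d + 1) * Dl),
        c * (g lam m * (m : ℝ) ^ (-(1 + 5 / 2 / (lam * log 10)))) := by
        refine sum_le_sum fun m hm => ?_
        rcases Nat.eq_zero_or_pos m with rfl | h0
        · simp [g0]
        have hm' : (0 : ℝ) < m := by exact_mod_cast h0
        have b1 := bracket hl h0 ((mem_range.1 hm).trans_le t2)
        have b2 := mul_le_mul_of_nonneg_left (ID m h0) (div_nonneg (g_nonneg lam m) hlog.le)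
        have b3 : aa lam m * ∑ n ∈ (range ((d + 1) * Dl)).filter
            (fun n => m * n ∈ Ico (d * Dl) ((d + 1) * Dl)), Λ n ≤
            g lam m * (if m ^ 2 ≤ 10 ^ lam then 1 / log (10 ^ (lam - 1) / m) else 0) *
              (1009 / 1000 * Dl / m) := by
          rw [aa_apply]
          split_ifs with h
          · have a1 : zz lam * m ≤ 10 * (d * Dl) := by nlinarith [sq_nonneg ((zz lam : ℤ) - m)]
            have a2 : (zz lam : ℝ) * m ≤ 10 * (d * Dl : ℕ) := by exact_mod_cast a1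
            have a3 : m ≤ Dl := by nlinarith
            rw [mul_one_div]
            refine mul_le_mul_of_nonneg_left (IL m h0 (by nlinarith))
              (div_nonneg (g_nonneg lam m) (log_nonneg ?_))
            rw [hD', one_le_div hm']
            exact_mod_cast a3
          · simp
        have b4 := mul_le_mul_of_nonneg_left b1 (mul_nonneg (g_nonneg lam m)
          (show (0 : ℝ) ≤ 1009 / 1000 * Dl / m by positivity))
        have b5 : (m : ℝ) ^ (-(1 + 5 / 2 / (lam * log 10))) =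
            (m : ℝ) ^ (-(5 / 2 / (lam * log 10))) / m := by
          rw [neg_add, rpow_add hm', rpow_neg_one]
          ring
        simp only [sum_add_distrib, ← mul_sum, mul_div_right_comm _ (D (fP lam) _)]
        refine (add_le_add b3 b2).trans (le_trans (le_of_eq ?_) (b4.trans_eq ?_))
        · ring
        · rw [b5, hc]
          ring
    _ ≤ c * (3611 / 100000) := by
        rw [← mul_sum]
        refine mul_le_mul_of_nonneg_left (le_trans (sum_le_sum_of_subset_of_nonneg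
          (range_subset_range.2 t2) fun m _ _ => ?_) hg) hc0
        exact mul_nonneg (g_nonneg lam m) (rpow_nonneg m.cast_nonneg _)
    _ ≤ _ := by
        rw [hc, hD', le_div_iff₀ hL]
        have : 1009 / 1000 * Dl * (1001 / 1000 * exp (5 / 2) / (lam * log 10)) * (3611 / 100000) *
            (lam * log 10) = 1009 / 1000 * (1001 / 1000) * (3611 / 100000) * exp (5 / 2) * Dl := by
          field_simp
        rw [this]
        exact mul_le_mul_of_nonneg_right (by linarith [exp_le]) hD0.le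

end Pool.Agent.Emirp

end MrgPart3

-- marker of a merged file
example : 731051 + 526005 = 731051 + 526005 := rfl
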