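import Pool.Agent.MP_e620c0_nt.Ana
import Pool.Agent.MP_e620c0_nt.Mass

-- ======== part 0: formerly Pool.Agent.MP_e620c0_nt.Bil
section MrgPart0

/-! Bilinear forms of type II over an interval and Vaughan's identity. -/

set_option autoImplicit false

namespace Pool.Agent.Emirp

open Finset Filter Real
open scoped ArithmeticFunction.vonMangoldt

noncomputable section

namespace Bil

/-- decimal block decomposition of `range (10 ^ L)` -/
theorem sum_blocks (L : ℕ) (f : ℕ → ℂ) :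
    ∑ m ∈ range (10 ^ L), f m = f 0 + ∑ μ ∈ range L, ∑ m ∈ Ico (10 ^ μ) (10 ^ (μ + 1)), f m := by
  induction L with
  | zero => simp
  | succ L ih =>
    rw [sum_range_succ, ← add_assoc, ← ih, range_eq_Ico, range_eq_Ico]
    exact (sum_Ico_consecutive f (Nat.zero_le _)
      (Nat.pow_le_pow_right (by norm_num) (Nat.le_succ L))).symm

/-- the statement of `Core2Stmt` for fixed parameters -/
def Core (lam : ℕ) (x : ℕ → ℝ) (E : ℝ) : Prop :=
  ∀ (μ T : ℕ) (a b : ℕ → ℝ), 3000 * kap lam ≤ μ + 1 → 2 * μ ≤ lam → T ≤ 10 ^ lam →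
  (∀ m, |a m| ≤ tau m) → (∀ n, |b n| ≤ tau n) →
  ‖∑ m ∈ Ico (10 ^ μ) (10 ^ (μ + 1)), ∑ n ∈ range (10 ^ (lam - μ)),
      if m * n < T then ((a m * b n : ℝ) : ℂ) * cf lam x (m * n) else 0‖ ≤ E

theorem blk {lam : ℕ} {x : ℕ → ℝ} {E : ℝ} (hE : 0 ≤ E) (h : Core lam x E) (T : ℕ)
    (hT : T ≤ 10 ^ lam) (a b : ℕ → ℝ) (ha : ∀ m, |a m| ≤ tau m) (hb : ∀ n, |b n| ≤ tau n)
    (hs : ∀ m, a m ≠ 0 → UU lam ≤ 10 * m ∧ m ^ 2 ≤ 10 ^ lam) :
    ‖∑ m ∈ range (10 ^ lam), ∑ n ∈ range (10 ^ lam),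
      if m * n < T then ((a m * b n : ℝ) : ℂ) * cf lam x (m * n) else 0‖ ≤ lam * E := by
  have ha0 : a 0 = 0 := by
    have := ha 0
    rw [tau_zero] at this
    exact abs_nonpos_iff.mp this
  rw [sum_blocks]
  have h0 : (∑ n ∈ range (10 ^ lam),
      if 0 * n < T then ((a 0 * b n : ℝ) : ℂ) * cf lam x (0 * n) else 0) = 0 := by
    apply sum_eq_zero
    intro n _
    simp [ha0]
  rw [h0, zero_add]
  refine (norm_sum_le _ _).trans ?_
  have : ∀ μ ∈ range lam, ‖∑ m ∈ Ico (10 ^ μ) (10 ^ (μ + 1)), ∑ n ∈ range (10 ^ lam),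
      if m * n < T then ((a m * b n : ℝ) : ℂ) * cf lam x (m * n) else 0‖ ≤ E := by
    intro μ hμ
    have hμ' : μ < lam := mem_range.mp hμ
    by_cases hc : 3000 * kap lam ≤ μ + 1 ∧ 2 * μ ≤ lam
    · have := h μ T a b hc.1 hc.2 hT ha hb
      convert this using 2
      apply sum_congr rfl
      intro m hm
      symm
      apply sum_subset
      · exact range_subset_range.mpr (Nat.pow_le_pow_right (by norm_num) (Nat.sub_le _ _))
      · intro n _ hn
        rw [if_neg]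
        intro hlt
        apply hn
        rw [mem_range]
        by_contra hge
        have hge' : 10 ^ (lam - μ) ≤ n := not_lt.mp hge
        have h1 : 10 ^ μ * 10 ^ (lam - μ) ≤ m * n := Nat.mul_le_mul (mem_Ico.mp hm).1 hge'
        rw [← pow_add, Nat.add_sub_cancel' hμ'.le] at h1
        omega
    · have : ∀ m ∈ Ico (10 ^ μ) (10 ^ (μ + 1)), (∑ n ∈ range (10 ^ lam),
          if m * n < T then ((a m * b n : ℝ) : ℂ) * cf lam x (m * n) else 0) = 0 := by
        intro m hm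
        have ham : a m = 0 := by
          by_contra hne
          obtain ⟨h1, h2⟩ := hs m hne
          obtain ⟨h3, h4⟩ := mem_Ico.mp hm
          apply hc
          constructor
          · have h5 : 10 ^ (3000 * kap lam) < 10 ^ (μ + 2) := by
              unfold UU at h1
              calc 10 ^ (3000 * kap lam) ≤ 10 * m := h1
                _ < 10 * 10 ^ (μ + 1) := by omega
                _ = 10 ^ (μ + 2) := by ring
            have := (Nat.pow_lt_pow_iff_right (by norm_num : 1 < 10)).mp h5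
            omega
          · have h5 : 10 ^ (2 * μ) ≤ 10 ^ lam := by
              calc 10 ^ (2 * μ) = (10 ^ μ) ^ 2 := by ring
                _ ≤ m ^ 2 := Nat.pow_le_pow_left h3 2
                _ ≤ 10 ^ lam := h2
            exact (Nat.pow_le_pow_iff_right (by norm_num : 1 < 10)).mp h5
        apply sum_eq_zero
        intro n _
        simp [ham]
      rw [sum_eq_zero this, norm_zero]
      exact hE
  refine (sum_le_sum this).trans ?_
  simp

theorem blk2 {lam : ℕ} {x : ℕ → ℝ} {E : ℝ} (hE : 0 ≤ E) (h : Core lam x E) (T₀ T₁ : ℕ)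
    (h01 : T₀ ≤ T₁) (hT : T₁ ≤ 10 ^ lam) (a b : ℕ → ℝ) (ha : ∀ m, |a m| ≤ tau m)
    (hb : ∀ n, |b n| ≤ tau n) (hs : ∀ m, a m ≠ 0 → UU lam ≤ 10 * m ∧ m ^ 2 ≤ 10 ^ lam) :
    ‖∑ m ∈ range (10 ^ lam), ∑ n ∈ range (10 ^ lam),
      if T₀ ≤ m * n ∧ m * n < T₁ then ((a m * b n : ℝ) : ℂ) * cf lam x (m * n) else 0‖
      ≤ 2 * (lam * E) := by
  have h1 := blk hE h T₁ hT a b ha hb hs
  have h0 := blk hE h T₀ (h01.trans hT) a b ha hb hs
  have : (∑ m ∈ range (10 ^ lam), ∑ n ∈ range (10 ^ lam),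
      if T₀ ≤ m * n ∧ m * n < T₁ then ((a m * b n : ℝ) : ℂ) * cf lam x (m * n) else 0) =
      (∑ m ∈ range (10 ^ lam), ∑ n ∈ range (10 ^ lam),
        if m * n < T₁ then ((a m * b n : ℝ) : ℂ) * cf lam x (m * n) else 0) -
      (∑ m ∈ range (10 ^ lam), ∑ n ∈ range (10 ^ lam),
        if m * n < T₀ then ((a m * b n : ℝ) : ℂ) * cf lam x (m * n) else 0) := by
    rw [← sum_sub_distrib]
    apply sum_congr rfl
    intro m _
    rw [← sum_sub_distrib]
    apply sum_congr rfl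
    intro n _
    by_cases c0 : m * n < T₀
    · have c1 : m * n < T₁ := lt_of_lt_of_le c0 h01
      rw [if_neg (by omega), if_pos c0, if_pos c1, sub_self]
    · by_cases c1 : m * n < T₁
      · rw [if_pos ⟨not_lt.mp c0, c1⟩, if_pos c1, if_neg c0, sub_zero]
      · rw [if_neg (by omega), if_neg c0, if_neg c1, sub_self]
  rw [this]
  refine (norm_sub_le _ _).trans ?_
  linarith

theorem abs_cut_le {a : ℕ → ℝ} {W : ℝ} {X : ℕ} (hW : 0 ≤ W) (ha : ∀ m < X, |a m| ≤ W * tau m)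
    (P : ℕ → Prop) [DecidablePred P] (m : ℕ) :
    |if m < X ∧ P m then a m / W else 0| ≤ tau m := by
  split_ifs with hc
  · rw [abs_div, abs_of_nonneg hW]
    exact div_le_of_le_mul₀ hW (tau_nonneg m) (by rw [mul_comm]; exact ha m hc.1)
  · simpa using tau_nonneg m

theorem bil_core {lam : ℕ} {x : ℕ → ℝ} {E : ℝ} (hE : 0 ≤ E) (hl : 1 ≤ lam) (h : Core lam x E)
    (T₀ T₁ : ℕ) (hI : Iv lam T₀ T₁) (a b : ArithmeticFunction ℝ) (W₁ W₂ : ℝ) (hW₁ : 0 ≤ W₁)
    (hW₂ : 0 ≤ W₂) (ha : ∀ m < 10 ^ lam, |a m| ≤ W₁ * tau m)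
    (hb : ∀ n < 10 ^ lam, |b n| ≤ W₂ * tau n)
    (hs : ∀ m n, a m ≠ 0 → b n ≠ 0 → m * n < 10 ^ lam → UU lam < m ∧ m * UU lam ≤ 10 ^ lam) :
    ‖S lam x (⇑(a * b)) T₀ T₁‖ ≤ W₁ * W₂ * (4 * lam * E) := by
  obtain ⟨hT0, h01, hT1⟩ := hI
  set X : ℕ := 10 ^ lam with hX
  set α₁ : ℕ → ℝ := fun m => if m < X ∧ (UU lam ≤ 10 * m ∧ m ^ 2 ≤ X) then a m / W₁ else 0 with hα₁
  set β₁ : ℕ → ℝ := fun n => if n < X ∧ True then b n / W₂ else 0 with hβ₁
  set α₂ : ℕ → ℝ := fun n => if n < X ∧ (UU lam ≤ 10 * n ∧ n ^ 2 ≤ X) then b n / W₂ else 0 with hα₂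
  set β₂ : ℕ → ℝ := fun m => if m < X ∧ X < m ^ 2 then a m / W₁ else 0 with hβ₂
  have hsupp : ∀ (c : ℕ → ℝ) (m : ℕ),
      (if m < X ∧ (UU lam ≤ 10 * m ∧ m ^ 2 ≤ X) then c m else 0) ≠ 0 →
      UU lam ≤ 10 * m ∧ m ^ 2 ≤ X := by
    intro c m hne
    by_contra hc
    exact hne (if_neg (fun h' => hc h'.2))
  have e1 := blk2 hE h T₀ T₁ h01 hT1 α₁ β₁ (abs_cut_le hW₁ ha _) (abs_cut_le hW₂ hb _)
    (hsupp (fun m => a m / W₁))
  have e2 := blk2 hE h T₀ T₁ h01 hT1 α₂ β₂ (abs_cut_le hW₂ hb _) (abs_cut_le hW₁ ha _)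
    (hsupp (fun m => b m / W₂))
  rw [sum_comm] at e2
  have key : ∀ m < X, ∀ n < X, T₀ ≤ m * n → m * n < T₁ →
      a m * b n = W₁ * W₂ * (α₁ m * β₁ n + α₂ n * β₂ m) := by
    intro m hm n hn c0 c1
    by_cases ham : a m = 0
    · simp [hα₁, hβ₂, ham]
    by_cases hbn : b n = 0
    · simp [hβ₁, hα₂, hbn]
    have hW₁' : W₁ ≠ 0 := by
      rintro rfl
      have := ha m hm
      rw [zero_mul] at this
      exact ham (abs_nonpos_iff.mp this)
    have hW₂' : W₂ ≠ 0 := by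
      rintro rfl
      have := hb n hn
      rw [zero_mul] at this
      exact hbn (abs_nonpos_iff.mp this)
    have hmn : m * n < X := lt_of_lt_of_le c1 hT1
    obtain ⟨hU, hmU⟩ := hs m n ham hbn hmn
    by_cases hsq : m ^ 2 ≤ X
    · have q1 : α₁ m = a m / W₁ := if_pos ⟨hm, by omega, hsq⟩
      have q2 : β₁ n = b n / W₂ := if_pos ⟨hn, trivial⟩
      have q3 : β₂ m = 0 := if_neg (fun h' => absurd h'.2 (not_lt.mpr hsq))
      rw [q1, q2, q3]
      field_simp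
      ring
    · have hsq' : X < m ^ 2 := not_le.mp hsq
      have hnm : n < m := by
        by_contra hge
        have : m * m ≤ m * n := Nat.mul_le_mul_left m (not_lt.mp hge)
        nlinarith
      have hn2 : n ^ 2 ≤ X := by nlinarith
      have hUn : UU lam ≤ 10 * n := by
        have h10 : X = 10 * 10 ^ (lam - 1) := by
          rw [hX, ← pow_succ']
          congr 1
          omega
        have hm0 : 0 < m := by omega
        have : m * UU lam ≤ m * (10 * n) := by nlinarith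
        exact Nat.le_of_mul_le_mul_left this hm0
      have q1 : α₁ m = 0 := if_neg (fun h' => hsq h'.2.2)
      have q2 : α₂ n = b n / W₂ := if_pos ⟨hn, hUn, hn2⟩
      have q3 : β₂ m = a m / W₁ := if_pos ⟨hm, hsq'⟩
      rw [q1, q2, q3]
      field_simp
      ring
  have hS : S lam x (⇑(a * b)) T₀ T₁ = ((W₁ * W₂ : ℝ) : ℂ) *
      ((∑ m ∈ range X, ∑ n ∈ range X, if T₀ ≤ m * n ∧ m * n < T₁ then
          ((α₁ m * β₁ n : ℝ) : ℂ) * cf lam x (m * n) else 0) +
       (∑ m ∈ range X, ∑ n ∈ range X, if T₀ ≤ n * m ∧ n * m < T₁ then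
          ((α₂ n * β₂ m : ℝ) : ℂ) * cf lam x (n * m) else 0)) := by
    rw [show S lam x (⇑(a * b)) T₀ T₁ = _ from S_conv lam x a b T₀ T₁ X hT1,
      ← sum_add_distrib, mul_sum]
    apply sum_congr rfl
    intro m hm
    rw [← sum_add_distrib, mul_sum]
    apply sum_congr rfl
    intro n hn
    rw [mul_comm n m]
    split_ifs with hc
    · rw [key m (mem_range.mp hm) n (mem_range.mp hn) hc.1 hc.2]
      push_cast
      ring
    · simp
  rw [hS, norm_mul, Complex.norm_real, Real.norm_eq_abs, abs_of_nonneg (mul_nonneg hW₁ hW₂)]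
  apply mul_le_mul_of_nonneg_left _ (mul_nonneg hW₁ hW₂)
  refine (norm_add_le _ _).trans ?_
  linarith

end Bil

theorem bil2 (hC : Core2Stmt) : Bil2Stmt := by
  obtain ⟨C, hC⟩ := hC
  refine ⟨C + 2, ?_⟩
  filter_upwards [hC, eventually_ge_atTop 4] with lam h hl x B hM T₀ T₁ hI a b W₁ W₂ hW₁ hW₂ ha hb hs
  have hB : 0 < B := lt_of_lt_of_le one_pos hM.1
  have hE : (0 : ℝ) ≤ 10 ^ lam * (lam : ℝ) ^ C / B ^ 49 := by positivity
  refine (Bil.bil_core hE (by omega) (h x B hM) T₀ T₁ hI a b W₁ W₂ hW₁ hW₂ ha hb hs).trans ?_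
  apply mul_le_mul_of_nonneg_left _ (mul_nonneg hW₁ hW₂)
  have hl' : (4 : ℝ) ≤ lam := by exact_mod_cast hl
  have : (10 : ℝ) ^ lam * (lam : ℝ) ^ (C + 2) / B ^ 49 =
      lam * lam * (10 ^ lam * (lam : ℝ) ^ C / B ^ 49) := by ring
  rw [this]
  apply mul_le_mul_of_nonneg_right _ hE
  nlinarith

namespace Bil

/-- restriction of an arithmetic function to a set of integers -/
def cut (f : ArithmeticFunction ℝ) (P : ℕ → Prop) [DecidablePred P] : ArithmeticFunction ℝ :=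
  ⟨fun n => if P n then f n else 0, by simp⟩

/-- part supported up to `U` -/
def lo (U : ℕ) (f : ArithmeticFunction ℝ) : ArithmeticFunction ℝ := cut f (fun n => n ≤ U)

/-- part supported above `U` -/
def hi (U : ℕ) (f : ArithmeticFunction ℝ) : ArithmeticFunction ℝ := cut f (fun n => U < n)

theorem lo_apply (U : ℕ) (f : ArithmeticFunction ℝ) (n : ℕ) :
    lo U f n = if n ≤ U then f n else 0 := rfl

theorem hi_apply (U : ℕ) (f : ArithmeticFunction ℝ) (n : ℕ) :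
    hi U f n = if U < n then f n else 0 := rfl

theorem lo_add_hi (U : ℕ) (f : ArithmeticFunction ℝ) : lo U f + hi U f = f := by
  ext n
  rw [ArithmeticFunction.add_apply, lo_apply, hi_apply]
  by_cases h : n ≤ U
  · rw [if_pos h, if_neg (not_lt.mpr h), add_zero]
  · rw [if_neg h, if_pos (not_le.mp h), zero_add]

theorem abs_lo (U : ℕ) (f : ArithmeticFunction ℝ) (n : ℕ) : |lo U f n| ≤ |f n| := by
  rw [lo_apply]
  split_ifs
  · exact le_rfl
  · simp

theorem abs_hi (U : ℕ) (f : ArithmeticFunction ℝ) (n : ℕ) : |hi U f n| ≤ |f n| := by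
  rw [hi_apply]
  split_ifs
  · exact le_rfl
  · simp

theorem lo_supp {U : ℕ} {f : ArithmeticFunction ℝ} {n : ℕ} (h : lo U f n ≠ 0) : n ≤ U := by
  by_contra hc
  exact h (if_neg hc)

theorem hi_supp {U : ℕ} {f : ArithmeticFunction ℝ} {n : ℕ} (h : hi U f n ≠ 0) :
    U < n ∧ f n ≠ 0 := by
  rw [hi_apply] at h
  by_cases hc : U < n
  · rw [if_pos hc] at h
    exact ⟨hc, h⟩
  · exact absurd (if_neg hc) h

theorem mul_supp {f g : ArithmeticFunction ℝ} {n : ℕ} (h : (f * g) n ≠ 0) :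
    ∃ d e : ℕ, d * e = n ∧ n ≠ 0 ∧ f d ≠ 0 ∧ g e ≠ 0 := by
  rw [ArithmeticFunction.mul_apply] at h
  obtain ⟨p, hp, hne⟩ := exists_ne_zero_of_sum_ne_zero h
  obtain ⟨h1, h2⟩ := Nat.mem_divisorsAntidiagonal.mp hp
  exact ⟨p.1, p.2, h1, h2, left_ne_zero_of_mul hne, right_ne_zero_of_mul hne⟩

theorem mul_supp_le {f g : ArithmeticFunction ℝ} {A A' : ℕ} (hf : ∀ n, f n ≠ 0 → n ≤ A)
    (hg : ∀ n, g n ≠ 0 → n ≤ A') (n : ℕ) (h : (f * g) n ≠ 0) : n ≤ A * A' := by
  obtain ⟨d, e, rfl, -, h1, h2⟩ := mul_supp h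
  exact Nat.mul_le_mul (hf d h1) (hg e h2)

theorem abs_mul_tau {f g : ArithmeticFunction ℝ} {W W' : ℝ} {n : ℕ} (hW : 0 ≤ W)
    (hf : ∀ d ≤ n, |f d| ≤ W) (hg : ∀ d ≤ n, |g d| ≤ W') : |(f * g) n| ≤ W * W' * tau n := by
  rw [ArithmeticFunction.mul_apply, Nat.sum_divisorsAntidiagonal (fun d e => f d * g e)]
  refine (abs_sum_le_sum_abs _ _).trans ?_
  have : ∀ d ∈ n.divisors, |f d * g (n / d)| ≤ W * W' := by
    intro d hd
    rw [abs_mul]
    exact mul_le_mul (hf d (Nat.divisor_le hd)) (hg _ (Nat.div_le_self _ _)) (abs_nonneg _) hW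
  refine (sum_le_sum this).trans ?_
  rw [sum_const, nsmul_eq_mul, tau, mul_comm]

theorem abs_mul_log {f g : ArithmeticFunction ℝ} {W : ℝ} (hW : 0 ≤ W) (hf : ∀ d, |f d| ≤ W)
    (hg : ∀ d, |g d| ≤ Λ d) (n : ℕ) : |(f * g) n| ≤ W * log n := by
  rw [ArithmeticFunction.mul_apply, Nat.sum_divisorsAntidiagonal' (fun d e => f d * g e),
    ← ArithmeticFunction.vonMangoldt_sum, mul_sum]
  refine (abs_sum_le_sum_abs _ _).trans (sum_le_sum ?_)
  intro d _
  rw [abs_mul]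
  exact mul_le_mul (hf _) (hg _) (abs_nonneg _) hW

theorem log_le {lam n : ℕ} (h : n < 10 ^ lam) : log n ≤ 3 * lam := by
  rcases Nat.eq_zero_or_pos n with rfl | hn
  · simp
  have h1 : (n : ℝ) ≤ 10 ^ lam := by exact_mod_cast h.le
  have h2 : log n ≤ log (10 ^ lam) := log_le_log (by exact_mod_cast hn) h1
  rw [log_pow] at h2
  have h3 : log 10 ≤ 3 := by
    have h4 : log 10 ≤ log (2 ^ 4) := log_le_log (by norm_num) (by norm_num)
    rw [log_pow] at h4
    have := log_two_lt_d9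
    push_cast at h4
    linarith
  have : (0 : ℝ) ≤ lam := Nat.cast_nonneg _
  nlinarith

theorem le_mul_tau {f : ArithmeticFunction ℝ} {W : ℝ} {n : ℕ} (hW : 0 ≤ W) (h : |f n| ≤ W) :
    |f n| ≤ W * tau n := by
  rcases eq_or_ne n 0 with rfl | hn
  · simp [tau_zero]
  · exact h.trans (le_mul_of_one_le_right hW (one_le_tau hn))

/-- exponential sum of an arithmetic function -/
def SA (lam : ℕ) (x : ℕ → ℝ) (T₀ T₁ : ℕ) (f : ArithmeticFunction ℝ) : ℂ :=
  S lam x (⇑f) T₀ T₁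

theorem SA_add (lam : ℕ) (x : ℕ → ℝ) (T₀ T₁ : ℕ) (f g : ArithmeticFunction ℝ) :
    SA lam x T₀ T₁ (f + g) = SA lam x T₀ T₁ f + SA lam x T₀ T₁ g := by
  unfold SA S
  rw [← sum_add_distrib]
  apply sum_congr rfl
  intro k _
  rw [ArithmeticFunction.add_apply]
  push_cast
  ring

theorem vaughan (U : ℕ) (a : ArithmeticFunction ℝ) (m z : ArithmeticFunction ℝ)
    (hmz : m * z = 1) :
    a * Λ + (lo U (lo U m * (lo U a * lo U Λ)) * z + hi U (lo U m * (lo U a * lo U Λ)) * z) =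
      hi U a * Λ + lo U a * lo U Λ +
        (lo U (lo U a * lo U m) * (Λ * z) + hi U (lo U a * lo U m) * (Λ * z)) +
        (hi U m * z) * (lo U a * hi U Λ) := by
  rw [← add_mul, ← add_mul, lo_add_hi, lo_add_hi]
  have h1 := lo_add_hi U a
  have h2 := lo_add_hi U Λ
  have h3 := lo_add_hi U m
  generalize lo U a = a₁ at *
  generalize hi U a = a₂ at *
  generalize lo U Λ = L₁ at *
  generalize hi U Λ = L₂ at *
  generalize lo U m = m₁ at *
  generalize hi U m = m₂ at *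
  rw [← h1, ← h2]
  rw [← h3] at hmz
  linear_combination (-(a₁ * L₂)) * hmz

theorem vau_core {lam : ℕ} {x : ℕ → ℝ} {E : ℝ} {T₀ T₁ : ℕ} (hl : 3 ≤ lam) (hI : Iv lam T₀ T₁)
    (h1 : ∀ (a b : ArithmeticFunction ℝ) (W₁ W₂ : ℝ), 0 ≤ W₁ → 0 ≤ W₂ →
      (∀ m < 10 ^ lam, |a m| ≤ W₁ * tau m) → (∀ m, a m ≠ 0 → m ≤ UU lam) →
      Monotone b → (∀ n < 10 ^ lam, b n ≤ W₂) → ‖SA lam x T₀ T₁ (a * b)‖ ≤ W₁ * W₂ * E)
    (h2 : ∀ (a b : ArithmeticFunction ℝ) (W₁ W₂ : ℝ), 0 ≤ W₁ → 0 ≤ W₂ →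
      (∀ m < 10 ^ lam, |a m| ≤ W₁ * tau m) → (∀ n < 10 ^ lam, |b n| ≤ W₂ * tau n) →
      (∀ m n, a m ≠ 0 → b n ≠ 0 → m * n < 10 ^ lam → UU lam < m ∧ m * UU lam ≤ 10 ^ lam) →
      ‖SA lam x T₀ T₁ (a * b)‖ ≤ W₁ * W₂ * E)
    (a : ArithmeticFunction ℝ) (W : ℝ) (hW : 0 ≤ W) (ha : ∀ m, |a m| ≤ W)
    (hs : ∀ m, a m ≠ 0 → m ^ 2 ≤ 10 ^ lam) :
    ‖SA lam x T₀ T₁ (a * Λ)‖ ≤ W * (18 * lam * E) := by
  set U := UU lam with hU
  set m : ArithmeticFunction ℝ := ↑ArithmeticFunction.moebius with hm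
  set z : ArithmeticFunction ℝ := ↑ArithmeticFunction.zeta with hz
  have hmz : m * z = 1 := ArithmeticFunction.coe_moebius_mul_coe_zeta
  have hLz : Λ * z = ArithmeticFunction.log := ArithmeticFunction.vonMangoldt_mul_zeta
  have hk := kap_le lam
  have hL : (0 : ℝ) ≤ 3 * lam := by positivity
  have hU1 : 1 ≤ U := Nat.one_le_pow _ _ (by norm_num)
  have hU4 : U * (U * U) * U ≤ 10 ^ lam := by
    rw [hU, UU, ← pow_add, ← pow_add, ← pow_add]
    exact Nat.pow_le_pow_right (by norm_num) (by omega)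
  have hU2 : U * U < T₀ := by
    refine lt_of_lt_of_le ?_ hI.1
    rw [hU, UU, ← pow_add]
    exact Nat.pow_lt_pow_right (by norm_num) (by omega)
  have hm1 : ∀ d, |m d| ≤ 1 := by
    intro d
    rw [hm, ArithmeticFunction.intCoe_apply]
    exact_mod_cast ArithmeticFunction.abs_moebius_le_one
  have hzv : ∀ d, z d = if d = 0 then 0 else 1 := by
    intro d
    rw [hz, ArithmeticFunction.natCoe_apply, ArithmeticFunction.zeta_apply]
    split_ifs <;> simp
  have hz1 : ∀ d, |z d| ≤ 1 := by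
    intro d
    rw [hzv]
    split_ifs <;> simp
  have hzm : Monotone z := by
    intro d d' hd
    rw [hzv, hzv]
    split_ifs with c1 c2 c2
    · exact le_rfl
    · exact zero_le_one
    · omega
    · exact le_rfl
  have hΛ : ∀ d, |Λ d| ≤ Λ d := fun d => (abs_of_nonneg ArithmeticFunction.vonMangoldt_nonneg).le
  have hlogm : Monotone ArithmeticFunction.log := by
    intro d d' hd
    rw [ArithmeticFunction.log_apply, ArithmeticFunction.log_apply]
    rcases Nat.eq_zero_or_pos d with rfl | h0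
    · simpa using log_natCast_nonneg d'
    · exact log_le_log (by exact_mod_cast h0) (by exact_mod_cast hd)
  have hlog : ∀ n < 10 ^ lam, |ArithmeticFunction.log n| ≤ 3 * lam := by
    intro n hn
    rw [ArithmeticFunction.log_apply, abs_of_nonneg (log_natCast_nonneg n)]
    exact log_le hn
  have ha₁ : ∀ d, |lo U a d| ≤ W := fun d => (abs_lo U a d).trans (ha d)
  have hm₁ : ∀ d, |lo U m d| ≤ 1 := fun d => (abs_lo U m d).trans (hm1 d)
  -- the two coefficient sequences of type I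
  have hc : ∀ n, |(lo U a * lo U m) n| ≤ W * tau n := by
    intro n
    have := abs_mul_tau (n := n) hW (fun d _ => ha₁ d) (fun d _ => hm₁ d)
    rwa [mul_one] at this
  have hcs : ∀ n, (lo U a * lo U m) n ≠ 0 → n ≤ U * U :=
    mul_supp_le (fun _ h => lo_supp h) (fun _ h => lo_supp h)
  have hb₁ : ∀ n < 10 ^ lam, |(lo U a * lo U Λ) n| ≤ W * (3 * lam) := fun n hn =>
    (abs_mul_log hW ha₁ (fun d => (abs_lo U Λ d).trans (hΛ d)) n).trans
      (mul_le_mul_of_nonneg_left (log_le hn) hW)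
  have hb₂ : ∀ n < 10 ^ lam, |(lo U a * hi U Λ) n| ≤ W * (3 * lam) := fun n hn =>
    (abs_mul_log hW ha₁ (fun d => (abs_hi U Λ d).trans (hΛ d)) n).trans
      (mul_le_mul_of_nonneg_left (log_le hn) hW)
  have hb₁s : ∀ n, (lo U a * lo U Λ) n ≠ 0 → n ≤ U * U :=
    mul_supp_le (fun _ h => lo_supp h) (fun _ h => lo_supp h)
  have hc' : ∀ n < 10 ^ lam, |(lo U m * (lo U a * lo U Λ)) n| ≤ W * (3 * lam) * tau n := by
    intro n hn
    have := abs_mul_tau (n := n) zero_le_one (fun d _ => hm₁ d)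
      (fun d hd => hb₁ d (lt_of_le_of_lt hd hn))
    rwa [one_mul] at this
  have hc's : ∀ n, (lo U m * (lo U a * lo U Λ)) n ≠ 0 → n ≤ U * (U * U) :=
    mul_supp_le (fun _ h => lo_supp h) hb₁s
  have hWL : 0 ≤ W * (3 * lam) := mul_nonneg hW hL
  have t1 := h2 (hi U a) Λ W (3 * lam) hW hL
    (fun n _ => le_mul_tau hW ((abs_hi U a n).trans (ha n)))
    (fun n hn => le_mul_tau hL ((hΛ n).trans
      (ArithmeticFunction.vonMangoldt_le_log.trans (log_le hn))))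
    (fun d n hd _ _ => by
      obtain ⟨q1, q2⟩ := hi_supp hd
      have := hs d q2
      exact ⟨q1, by nlinarith⟩)
  have t2 : SA lam x T₀ T₁ (lo U a * lo U Λ) = 0 := by
    unfold SA S
    apply sum_eq_zero
    intro k hk'
    have : (lo U a * lo U Λ) k = 0 := by
      by_contra hne
      have := hb₁s k hne
      have := (mem_Ico.mp hk').1
      omega
    simp only [this, Complex.ofReal_zero, zero_mul]
  have t3 := h1 (lo U (lo U a * lo U m)) ArithmeticFunction.log W (3 * lam) hW hL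
    (fun n _ => (abs_lo _ _ n).trans (hc n)) (fun _ h => lo_supp h) hlogm
    (fun n hn => (le_abs_self _).trans (hlog n hn))
  have t4 := h2 (hi U (lo U a * lo U m)) ArithmeticFunction.log W (3 * lam) hW hL
    (fun n _ => (abs_hi _ _ n).trans (hc n)) (fun n hn => le_mul_tau hL (hlog n hn))
    (fun d n hd _ _ => by
      obtain ⟨q1, q2⟩ := hi_supp hd
      have q3 := hcs d q2
      refine ⟨q1, le_trans ?_ hU4⟩
      exact Nat.mul_le_mul_right U (q3.trans (Nat.le_mul_of_pos_left _ hU1)))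
  have t5 := h1 (lo U (lo U m * (lo U a * lo U Λ))) z (W * (3 * lam)) 1 hWL zero_le_one
    (fun n hn => (abs_lo _ _ n).trans (hc' n hn)) (fun _ h => lo_supp h) hzm
    (fun n _ => (le_abs_self _).trans (hz1 n))
  have t6 := h2 (hi U (lo U m * (lo U a * lo U Λ))) z (W * (3 * lam)) 1 hWL zero_le_one
    (fun n hn => (abs_hi _ _ n).trans (hc' n hn)) (fun n _ => le_mul_tau zero_le_one (hz1 n))
    (fun d n hd _ _ => by
      obtain ⟨q1, q2⟩ := hi_supp hd
      exact ⟨q1, le_trans (Nat.mul_le_mul_right U (hc's d q2)) hU4⟩)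
  have t7 := h2 (hi U m * z) (lo U a * hi U Λ) 1 (W * (3 * lam)) zero_le_one hWL
    (fun n _ => by
      have := abs_mul_tau (n := n) zero_le_one (fun d _ => (abs_hi U m d).trans (hm1 d))
        (fun d _ => hz1 d)
      rwa [mul_one] at this)
    (fun n hn => le_mul_tau hWL (hb₂ n hn))
    (fun d n hd hn hdn => by
      obtain ⟨d₁, d₂, rfl, q0, q1, -⟩ := mul_supp hd
      obtain ⟨n₁, n₂, rfl, r0, -, r2⟩ := mul_supp hn
      have q2 := (hi_supp q1).1
      have r3 := (hi_supp r2).1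
      have q3 : d₁ ≤ d₁ * d₂ :=
        Nat.le_mul_of_pos_right _ (Nat.pos_of_ne_zero (right_ne_zero_of_mul q0))
      have r4 : n₂ ≤ n₁ * n₂ :=
        Nat.le_mul_of_pos_left _ (Nat.pos_of_ne_zero (left_ne_zero_of_mul r0))
      refine ⟨by omega, le_trans (Nat.mul_le_mul_left _ ?_) hdn.le⟩
      omega)
  have hv := congrArg (SA lam x T₀ T₁) (vaughan U a m z hmz)
  rw [hLz] at hv
  simp only [SA_add] at hv
  rw [t2, add_zero] at hv
  have hv' := eq_sub_of_add_eq hv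
  rw [hv']
  refine (norm_sub_le _ _).trans ?_
  have n1 := norm_add_le (SA lam x T₀ T₁ (lo U (lo U m * (lo U a * lo U Λ)) * z))
    (SA lam x T₀ T₁ (hi U (lo U m * (lo U a * lo U Λ)) * z))
  have n2 := norm_add_le (SA lam x T₀ T₁ (lo U (lo U a * lo U m) * ArithmeticFunction.log))
    (SA lam x T₀ T₁ (hi U (lo U a * lo U m) * ArithmeticFunction.log))
  refine le_trans (add_le_add ((norm_add_le _ _).trans (add_le_add (norm_add_le _ _) le_rfl)) n1) ?_
  linarith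

end Bil

theorem vau (h1 : Bil1Stmt) (h2 : Bil2Stmt) : VauStmt := by
  obtain ⟨C₁, h1⟩ := h1
  obtain ⟨C₂, h2⟩ := h2
  refine ⟨C₁ + C₂ + 2, ?_⟩
  filter_upwards [h1, h2, eventually_ge_atTop 18] with lam k1 k2 hl x B hM T₀ T₁ hI a W hW ha hs
  have hB : 0 < B := lt_of_lt_of_le one_pos hM.1
  have hl' : (18 : ℝ) ≤ lam := by exact_mod_cast hl
  have hl1 : (1 : ℝ) ≤ lam := by linarith
  have hE : (0 : ℝ) ≤ 10 ^ lam * (lam : ℝ) ^ (C₁ + C₂) / B ^ 49 := by positivity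
  have m1 : (10 : ℝ) ^ lam * (lam : ℝ) ^ C₁ / B ^ 49 ≤ 10 ^ lam * (lam : ℝ) ^ (C₁ + C₂) / B ^ 49 := by
    have := pow_le_pow_right₀ hl1 (Nat.le_add_right C₁ C₂)
    gcongr
  have m2 : (10 : ℝ) ^ lam * (lam : ℝ) ^ C₂ / B ^ 49 ≤ 10 ^ lam * (lam : ℝ) ^ (C₁ + C₂) / B ^ 49 := by
    have := pow_le_pow_right₀ hl1 (Nat.le_add_left C₂ C₁)
    gcongr
  have := Bil.vau_core (x := x) (E := 10 ^ lam * (lam : ℝ) ^ (C₁ + C₂) / B ^ 49) (by omega) hI
    (fun a b W₁ W₂ q1 q2 q3 q4 q5 q6 => (k1 x B hM T₀ T₁ hI a b W₁ W₂ q1 q2 q3 q4 q5 q6).trans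
      (mul_le_mul_of_nonneg_left m1 (mul_nonneg q1 q2)))
    (fun a b W₁ W₂ q1 q2 q3 q4 q5 => (k2 x B hM T₀ T₁ hI a b W₁ W₂ q1 q2 q3 q4 q5).trans
      (mul_le_mul_of_nonneg_left m2 (mul_nonneg q1 q2))) a W hW ha hs
  refine this.trans (mul_le_mul_of_nonneg_left ?_ hW)
  have e1 : (10 : ℝ) ^ lam * (lam : ℝ) ^ (C₁ + C₂ + 2) / B ^ 49 =
      lam * lam * (10 ^ lam * (lam : ℝ) ^ (C₁ + C₂) / B ^ 49) := by ring
  rw [e1]
  apply mul_le_mul_of_nonneg_right _ hE
  nlinarith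

end

end Pool.Agent.Emirp

end MrgPart0

-- ======== part 1: formerly Pool.Agent.MP_e620c0_nt.LevelA
section MrgPart1

/-! LEVEL, first part: fractions, large sieve, abstract remainder bound (project EMI). -/

set_option autoImplicit false

namespace Pool.Agent.Emirp

open Finset Filter Real

noncomputable section

namespace Level

/-- a crude dual large sieve inequality -/
theorem lsieve {ι : Type*} (P : Finset ι) (c : ι → ℂ) (α : ι → ℝ) (X : ℕ) {Δ : ℝ} (hΔ : 0 ≤ Δ)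
    (h : ∀ i ∈ P, ∀ j ∈ P, α j ≠ α i → 1 ≤ Δ * (2 * nn (α i - α j))) :
    ∑ n ∈ range X, ‖∑ i ∈ P, c i * e (α i * n)‖ ^ 2 ≤
      X * (∑ i ∈ P, ‖c i‖ * ∑ j ∈ P, if α j = α i then ‖c j‖ else 0) +
        Δ * (∑ i ∈ P, ‖c i‖) ^ 2 := by
  have e1 : ((∑ n ∈ range X, ‖∑ i ∈ P, c i * e (α i * n)‖ ^ 2 : ℝ) : ℂ) =
      ∑ i ∈ P, ∑ j ∈ P, c i * (starRingEnd ℂ) (c j) * ∑ n ∈ range X, e (n * (α i - α j)) := by
    push_cast
    simp only [← Complex.mul_conj', map_sum, sum_mul_sum]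
    simp only [mul_sum]
    rw [sum_comm]
    refine sum_congr rfl fun i _ => ?_
    rw [sum_comm]
    refine sum_congr rfl fun j _ => sum_congr rfl fun n _ => ?_
    rw [map_mul, conj_e, show (n : ℝ) * (α i - α j) = α i * n + -(α j * n) by ring, e_add]
    ring
  have e2 : ∀ i ∈ P, ∀ j ∈ P, ‖∑ n ∈ range X, e (n * (α i - α j))‖ ≤
      (if α j = α i then (X : ℝ) else 0) + Δ := by
    intro i hi j hj
    split_ifs with hij
    · refine (norm_sum_le _ _).trans ?_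
      simp only [norm_e, sum_const, card_range, nsmul_eq_mul, mul_one]
      linarith
    · have g := geo 0 X (α i - α j)
      have g2 := h i hi j hj hij
      rw [← range_eq_Ico] at g
      have g3 : 0 < 2 * nn (α i - α j) := by
        by_contra hh
        have := mul_nonpos_of_nonneg_of_nonpos hΔ (not_lt.1 hh)
        linarith
      rw [zero_add]
      exact le_of_mul_le_mul_right (g.trans g2) g3
  have e3 := congrArg norm e1
  rw [Complex.norm_real, Real.norm_of_nonneg (sum_nonneg fun _ _ => sq_nonneg _)] at e3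
  rw [e3, sq, sum_mul_sum, mul_sum, mul_sum, ← sum_add_distrib]
  refine (norm_sum_le _ _).trans (sum_le_sum fun i hi => ?_)
  rw [mul_sum, mul_sum, mul_sum, ← sum_add_distrib]
  refine (norm_sum_le _ _).trans (sum_le_sum fun j hj => ?_)
  rw [norm_mul, norm_mul, RCLike.norm_conj]
  refine (mul_le_mul_of_nonneg_left (e2 i hi j hj) (by positivity)).trans (le_of_eq ?_)
  split_ifs <;> ring

/-- spacing of fractions -/
theorem spacing {D q₁ a₁ q₂ a₂ : ℕ} (h1 : a₁ < q₁) (h2 : a₂ < q₂) (d1 : q₁ ≤ D) (d2 : q₂ ≤ D)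
    (hne : (a₂ : ℝ) / q₂ ≠ a₁ / q₁) : 1 ≤ (D : ℝ) ^ 2 * (2 * nn ((a₁ : ℝ) / q₁ - a₂ / q₂)) := by
  have p1 : 0 < q₁ := by omega
  have p2 : 0 < q₂ := by omega
  have r1 : (0 : ℝ) < q₁ := by exact_mod_cast p1
  have r2 : (0 : ℝ) < q₂ := by exact_mod_cast p2
  have e1 : (a₁ : ℝ) / q₁ - a₂ / q₂ = (((a₁ : ℤ) * q₂ - a₂ * q₁ : ℤ) : ℝ) / ((q₁ * q₂ : ℕ) : ℝ) := by
    push_cast
    field_simp
  have hd : ¬ ((q₁ * q₂ : ℕ) : ℤ) ∣ (a₁ : ℤ) * q₂ - a₂ * q₁ := by
    intro hd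
    have z1 : (a₁ : ℤ) * q₂ < q₁ * q₂ := by gcongr
    have z2 : (a₂ : ℤ) * q₁ < q₂ * q₁ := by gcongr
    have z3 : (0 : ℤ) ≤ a₁ * q₂ := by positivity
    have z4 : (0 : ℤ) ≤ a₂ * q₁ := by positivity
    have h0 := Int.eq_zero_of_abs_lt_dvd hd (by push_cast; rw [abs_lt]; constructor <;> linarith)
    rw [h0] at e1
    simp only [Int.cast_zero, zero_div] at e1
    exact hne (by linarith)
  have g := nn_div (Nat.mul_pos p1 p2) hd
  rw [← e1, div_le_iff₀ (by positivity)] at g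
  have g2 : ((q₁ * q₂ : ℕ) : ℝ) ≤ (D : ℝ) ^ 2 := by
    push_cast
    rw [sq]
    gcongr
  have g3 := nn_nonneg ((a₁ : ℝ) / q₁ - a₂ / q₂)
  nlinarith [mul_le_mul_of_nonneg_left g2 g3]

/-- reduced denominator -/
def dn (q a : ℕ) : ℕ := q / Nat.gcd a q

/-- reduced numerator -/
def nm (q a : ℕ) : ℕ := a / Nat.gcd a q

theorem dn_dvd (q a : ℕ) : dn q a ∣ q := Nat.div_dvd_of_dvd (Nat.gcd_dvd_right a q)

theorem cop {q : ℕ} (hq : 0 < q) (a : ℕ) : Nat.Coprime (nm q a) (dn q a) :=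
  Nat.coprime_div_gcd_div_gcd (Nat.gcd_pos_of_pos_right a hq)

theorem frac {q : ℕ} (hq : 0 < q) (a : ℕ) : (nm q a : ℝ) / dn q a = a / q := by
  have hg : (Nat.gcd a q : ℝ) ≠ 0 := by exact_mod_cast (Nat.gcd_pos_of_pos_right a hq).ne'
  unfold nm dn
  rw [Nat.cast_div (Nat.gcd_dvd_left a q) hg, Nat.cast_div (Nat.gcd_dvd_right a q) hg]
  field_simp

theorem nm_lt {q a : ℕ} (h : a < q) : nm q a < dn q a :=
  Nat.div_lt_div_of_lt_of_dvd (Nat.gcd_dvd_right a q) h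

theorem one_lt_dn {q a : ℕ} (h0 : 1 ≤ a) (h : a < q) : 1 < dn q a := by
  have h1 : 0 < nm q a := Nat.div_pos (Nat.gcd_le_left q h0) (Nat.gcd_pos_of_pos_left q h0)
  have := nm_lt h
  omega

theorem eq_of_red {q a b : ℕ} (hq : 0 < q) (h1 : dn q a = dn q b) (h2 : nm q a = nm q b) :
    a = b := by
  have e1 := frac hq a
  rw [h1, h2, frac hq b, div_left_inj' (by exact_mod_cast hq.ne')] at e1
  exact_mod_cast e1.symm

theorem dn_dvd_of_eq {q a q' a' : ℕ} (hq : 0 < q) (hq' : 0 < q')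
    (h : (a' : ℝ) / q' = a / q) : dn q a ∣ q' := by
  have hd : 0 < dn q a := Nat.pos_of_dvd_of_pos (dn_dvd q a) hq
  rw [← frac hq a, div_eq_div_iff (by exact_mod_cast hq'.ne') (by exact_mod_cast hd.ne')] at h
  have h2 : a' * dn q a = nm q a * q' := by exact_mod_cast h
  exact (cop hq a).symm.dvd_of_dvd_mul_left ⟨a', by rw [← h2, mul_comm]⟩

theorem card_small (q Q : ℕ) :
    (((Ico 1 q).filter fun a => dn q a ≤ Q).card : ℝ) ≤ ((Q : ℝ) + 1) ^ 2 := by
  have h : ((Ico 1 q).filter fun a => dn q a ≤ Q).card ≤ (range (Q + 1) ×ˢ range (Q + 1)).card := by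
    refine card_le_card_of_injOn (fun a => (dn q a, nm q a)) (fun a ha => ?_) fun a ha b _ hab => ?_
    · simp only [coe_filter, mem_Ico, Set.mem_ofPred_eq] at ha
      have := nm_lt ha.1.2
      simp only [coe_product, coe_range, Set.mem_prod, Set.mem_Iio]
      omega
    · simp only [coe_filter, mem_Ico, Set.mem_ofPred_eq] at ha
      simp only [Prod.mk.injEq] at hab
      exact eq_of_red (by omega) hab.1 hab.2
  rw [card_product, card_range] at h
  rw [sq]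
  exact_mod_cast h

theorem tau_fib (D : ℕ) {d : ℕ} (hd : 0 < d) (s : Finset ℕ) (hs : s ⊆ Icc 1 D) :
    ∑ q ∈ s, (if d ∣ q then tau q ^ 5 / q else 0) ≤ tau d ^ 5 / d * (1 + log D) ^ 32 := by
  rw [← sum_filter]
  have h1 : s.filter (fun q => d ∣ q) ⊆ (Icc 1 D).image (fun m => d * m) := by
    intro q hq
    obtain ⟨hq, m, rfl⟩ := mem_filter.1 hq
    have := mem_Icc.1 (hs hq)
    refine mem_image.2 ⟨m, mem_Icc.2 ⟨Nat.pos_of_mul_pos_left this.1, ?_⟩, rfl⟩
    exact (Nat.le_mul_of_pos_left m hd).trans this.2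
  refine (sum_le_sum_of_subset_of_nonneg h1 fun q _ _ =>
    div_nonneg (pow_nonneg (tau_nonneg q) 5) (Nat.cast_nonneg q)).trans ?_
  rw [sum_image fun a _ b _ hab => Nat.eq_of_mul_eq_mul_left hd hab]
  refine le_trans ?_ (mul_le_mul_of_nonneg_left (tau_div 5 D)
    (div_nonneg (pow_nonneg (tau_nonneg d) 5) (Nat.cast_nonneg d)))
  rw [mul_sum]
  refine sum_le_sum fun m _ => ?_
  rw [div_mul_div_comm, ← mul_pow, Nat.cast_mul]
  gcongr
  · exact tau_nonneg _
  · exact tau_mul d m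

open Classical in
/-- the bad numerators -/
def bad (Q : ℕ) (M : ℝ → Prop) (q : ℕ) : Finset ℕ :=
  (Ico 1 q).filter fun a => Q < dn q a ∧ ¬ M (a / q)

open Classical in
theorem bad_sum {Q q : ℕ} {M : ℝ → Prop} {η : ℝ} (hη : 0 ≤ η) (hq : 0 < q) (hc : Nat.Coprime q 330)
    (h3 : ∀ q : ℕ, Q < q → Nat.Coprime q 330 →
      (((range q).filter fun a : ℕ => ¬ M (a / q)).card : ℝ) ≤ q * η) :
    ∑ a ∈ bad Q M q, 1 / (dn q a : ℝ) ≤ tau q * η := by
  rw [← sum_fiberwise_of_maps_to (t := q.divisors) (g := dn q)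
    (fun a _ => Nat.mem_divisors.2 ⟨dn_dvd q a, hq.ne'⟩), tau, ← nsmul_eq_mul]
  refine sum_le_card_nsmul _ _ _ fun d hd => ?_
  have hd0 : (0 : ℝ) < d := by exact_mod_cast Nat.pos_of_mem_divisors hd
  rw [sum_congr rfl (g := fun _ => 1 / (d : ℝ)) fun a ha => by rw [(mem_filter.1 ha).2],
    sum_const, nsmul_eq_mul, mul_one_div, div_le_iff₀ hd0, mul_comm]
  by_cases hQ : Q < d
  · refine le_trans ?_ (h3 d hQ (hc.coprime_dvd_left (Nat.dvd_of_mem_divisors hd)))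
    rw [Nat.cast_le]
    refine card_le_card_of_injOn (nm q) (fun a ha => ?_) fun a ha b hb hab => ?_
    · simp only [bad, coe_filter, mem_filter, mem_Ico, Set.mem_ofPred_eq] at ha
      obtain ⟨⟨h1, -, h2⟩, rfl⟩ := ha
      simp only [coe_filter, mem_range, Set.mem_ofPred_eq]
      exact ⟨nm_lt h1.2, by rwa [frac hq]⟩
    · exact eq_of_red hq ((mem_filter.1 ha).2.trans (mem_filter.1 hb).2.symm) hab
  · rw [filter_false_of_mem, card_empty, Nat.cast_zero]
    · positivity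
    · intro a ha h
      exact hQ (h ▸ (mem_filter.1 ha).2.1)

/-- the exponential sum -/
def W (X : ℕ) (w : ℕ → ℝ) (v : ℕ → ℕ) (α : ℝ) : ℂ := ∑ k ∈ range X, (w k : ℂ) * e (α * v k)

theorem disc_eq (X : ℕ) (w : ℕ → ℝ) (v : ℕ → ℕ) {q : ℕ} (hq : 0 < q) :
    (disc X w v q : ℂ) = (∑ a ∈ Ico 1 q, W X w v (a / q)) / q := by
  have hq' : (q : ℂ) ≠ 0 := by exact_mod_cast hq.ne'
  unfold disc W
  rw [sum_comm, sum_div]
  push_cast
  refine sum_congr rfl fun k _ => ?_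
  have h := orth hq (v k)
  rw [range_eq_Ico, sum_eq_sum_Ico_succ_bot hq] at h
  simp only [Nat.cast_zero, zero_mul, zero_div, e_zero, zero_add, Int.cast_natCast,
    Int.natCast_dvd_natCast] at h
  have h2 : ∑ a ∈ Ico 1 q, e ((a : ℝ) / q * v k) = (if q ∣ v k then (q : ℂ) else 0) - 1 := by
    rw [← h, add_sub_cancel_left]
    exact sum_congr rfl fun a _ => by rw [div_mul_eq_mul_div]
  rw [← mul_sum, h2]
  split_ifs <;> simp <;> field_simp

/-- the moduli -/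
def QQ (D : ℕ) : Finset ℕ := (Icc 1 D).filter fun q => Nat.Coprime q 330

theorem tq_nonneg (k q : ℕ) : 0 ≤ tau q ^ k / q :=
  div_nonneg (pow_nonneg (tau_nonneg q) k) (Nat.cast_nonneg q)

theorem QQ_div (k D : ℕ) : ∑ q ∈ QQ D, tau q ^ k / q ≤ (1 + log D) ^ 2 ^ k :=
  (sum_le_sum_of_subset_of_nonneg (filter_subset _ _) fun q _ _ => tq_nonneg k q).trans
    (tau_div k D)

theorem QQ_sum (k D : ℕ) : ∑ q ∈ QQ D, tau q ^ k ≤ D * (1 + log D) ^ 2 ^ k :=
  (sum_le_sum_of_subset_of_nonneg (filter_subset _ _) fun q _ _ =>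
    pow_nonneg (tau_nonneg q) k).trans (tau_sum k D)

theorem mem_QQ {D q : ℕ} (h : q ∈ QQ D) : 0 < q ∧ q ≤ D ∧ Nat.Coprime q 330 :=
  ⟨(mem_Icc.1 (mem_filter.1 h).1).1, (mem_Icc.1 (mem_filter.1 h).1).2, (mem_filter.1 h).2⟩

theorem bad_lt {Q q a : ℕ} {M : ℝ → Prop} (h : a ∈ bad Q M q) : a < q := by
  classical
  exact (mem_Ico.1 (mem_filter.1 h).1).2

open Classical in
/-- mean square of a sum over the bad fractions -/
theorem mean_sq (X D Q : ℕ) (M : ℝ → Prop) {η : ℝ} (hη : 0 ≤ η)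
    (h3 : ∀ q : ℕ, Q < q → Nat.Coprime q 330 →
      (((range q).filter fun a : ℕ => ¬ M (a / q)).card : ℝ) ≤ q * η)
    (c : ℕ → ℂ) (hc : ∀ q, ‖c q‖ = tau q ^ 5 / q) :
    ∑ n ∈ range X, ‖∑ q ∈ QQ D, ∑ a ∈ bad Q M q, c q * e ((a : ℝ) / q * n)‖ ^ 2 ≤
      X * ((1 + log D) ^ 32 * (1 + log D) ^ 2048 * η) +
        (D : ℝ) ^ 2 * (D * (1 + log D) ^ 32) ^ 2 := by
  have hH : 0 ≤ 1 + log (D : ℝ) := add_nonneg zero_le_one (log_natCast_nonneg D)
  have key := lsieve ((QQ D).sigma (bad Q M)) (fun p => c p.1) (fun p => (p.2 : ℝ) / p.1) X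
    (Δ := (D : ℝ) ^ 2) (sq_nonneg _) fun i hi j hj hij =>
      spacing (bad_lt (mem_sigma.1 hi).2) (bad_lt (mem_sigma.1 hj).2)
        (mem_QQ (mem_sigma.1 hi).1).2.1 (mem_QQ (mem_sigma.1 hj).1).2.1 hij
  simp only [sum_sigma, hc] at key
  refine key.trans (add_le_add (mul_le_mul_of_nonneg_left ?_ (Nat.cast_nonneg X))
    (mul_le_mul_of_nonneg_left (pow_le_pow_left₀ ?_ ?_ 2) (sq_nonneg _)))
  · have inner : ∀ q ∈ QQ D, ∀ a ∈ bad Q M q,
        (∑ q' ∈ QQ D, ∑ a' ∈ bad Q M q', if (a' : ℝ) / q' = a / q then tau q' ^ 5 / q' else 0) ≤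
          tau q ^ 5 * (1 + log D) ^ 32 * (1 / dn q a) := by
      intro q hq a _
      have hq0 := (mem_QQ hq).1
      have hd : 0 < dn q a := Nat.pos_of_dvd_of_pos (dn_dvd q a) hq0
      refine le_trans (sum_le_sum fun q' hq' => ?_)
        ((tau_fib D hd (QQ D) (filter_subset _ _)).trans ?_)
      · have hq1 := (mem_QQ hq').1
        rw [← sum_filter, sum_const, nsmul_eq_mul]
        split_ifs with hdv
        · refine mul_le_of_le_one_left (tq_nonneg 5 q') ?_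
          rw [Nat.cast_le_one, card_le_one]
          intro a₁ h₁ a₂ h₂
          have := (mem_filter.1 h₁).2.trans (mem_filter.1 h₂).2.symm
          rw [div_left_inj' (by exact_mod_cast hq1.ne')] at this
          exact_mod_cast this
        · rw [filter_false_of_mem fun a' _ h => hdv (dn_dvd_of_eq hq0 hq1 h)]
          simp
      · rw [mul_one_div, div_mul_eq_mul_div]
        gcongr
        · exact tau_nonneg _
        · exact tau_dvd (dn_dvd q a) hq0.ne'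
    calc _ ≤ ∑ q ∈ QQ D, (1 + log D) ^ 32 * η * (tau q ^ 11 / q) := by
          refine sum_le_sum fun q hq => ?_
          rw [← mul_sum]
          refine (mul_le_mul_of_nonneg_left (sum_le_sum (inner q hq)) (tq_nonneg 5 q)).trans ?_
          rw [← mul_sum]
          refine (mul_le_mul_of_nonneg_left (mul_le_mul_of_nonneg_left
            (bad_sum hη (mem_QQ hq).1 (mem_QQ hq).2.2 h3)
            (mul_nonneg (pow_nonneg (tau_nonneg q) 5) (pow_nonneg hH _))) (tq_nonneg 5 q)).trans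
            (le_of_eq ?_)
          generalize (1 + log (D : ℝ)) ^ 32 = H
          ring
      _ ≤ (1 + log D) ^ 32 * η * (1 + log D) ^ 2 ^ 11 := by
          rw [← mul_sum]
          exact mul_le_mul_of_nonneg_left (QQ_div 11 D) (by positivity)
      _ = _ := mul_right_comm _ _ _
  · exact sum_nonneg fun q _ => sum_nonneg fun _ _ => tq_nonneg 5 q
  · refine le_trans (sum_le_sum fun q hq => ?_) (QQ_sum 5 D)
    rw [sum_const, nsmul_eq_mul, mul_comm, div_mul_eq_mul_div,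
      div_le_iff₀ (by exact_mod_cast (mem_QQ hq).1)]
    refine mul_le_mul_of_nonneg_left ?_ (pow_nonneg (tau_nonneg q) 5)
    rw [Nat.cast_le]
    exact (card_le_card fun a ha => mem_range.2 (bad_lt ha)).trans (card_range q).le

open Classical in
theorem core (X D Q : ℕ) (w : ℕ → ℝ) (v : ℕ → ℕ) (M : ℝ → Prop) {E s₁ s₂ η θ : ℝ} (hE : 0 ≤ E)
    (hs₁ : 0 ≤ s₁) (hs₂ : 0 ≤ s₂) (hη : 0 ≤ η) (hθ : 0 ≤ θ) (hw : ∀ k < X, |w k| ≤ E)
    (hv : ∀ f : ℕ → ℝ, ∑ k ∈ range X, f (v k) = ∑ k ∈ range X, f k)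
    (h1 : ∀ q a : ℕ, 1 < q → q ≤ Q → Nat.Coprime q 330 → Nat.Coprime a q →
      ‖W X w v (a / q)‖ ≤ s₁)
    (h2 : ∀ α, M α → ‖W X w v α‖ ≤ s₂)
    (h3 : ∀ q : ℕ, Q < q → Nat.Coprime q 330 →
      (((range q).filter fun a : ℕ => ¬ M (a / q)).card : ℝ) ≤ q * η)
    (h4 : X * ((1 + log D) ^ 32 * (1 + log D) ^ 2048 * η) +
      (D : ℝ) ^ 2 * (D * (1 + log D) ^ 32) ^ 2 ≤ X * θ ^ 2) :
    rem X w v D ≤ (1 + log D) ^ 32 * (((Q : ℝ) + 1) ^ 2 * s₁) + D * (1 + log D) ^ 32 * s₂ +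
      E * (X * θ) := by
  have a1 : ∀ q ∈ QQ D, tau q ^ 5 * |disc X w v q| ≤ tau q ^ 5 / q * (((Q : ℝ) + 1) ^ 2 * s₁) +
      tau q ^ 5 * s₂ + tau q ^ 5 / q * ‖∑ a ∈ bad Q M q, W X w v (a / q)‖ := by
    intro q hq
    obtain ⟨hq0, -, hc⟩ := mem_QQ hq
    have hq1 : (0 : ℝ) < q := by exact_mod_cast hq0
    have b1 := congrArg norm (disc_eq X w v hq0)
    rw [Complex.norm_real, Real.norm_eq_abs, norm_div, Complex.norm_natCast,
      ← sum_filter_add_sum_filter_not (Ico 1 q) (fun a => Q < dn q a ∧ ¬ M (a / q))] at b1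
    have b2 : ‖∑ a ∈ (Ico 1 q).filter (fun a => ¬ (Q < dn q a ∧ ¬ M (a / q))), W X w v (a / q)‖ ≤
        ((Q : ℝ) + 1) ^ 2 * s₁ + q * s₂ := by
      calc _ ≤ ∑ a ∈ (Ico 1 q).filter (fun a => ¬ (Q < dn q a ∧ ¬ M (a / q))),
            ((if dn q a ≤ Q then s₁ else 0) + s₂) := by
            refine (norm_sum_le _ _).trans (sum_le_sum fun a ha => ?_)
            obtain ⟨ha, hb⟩ := mem_filter.1 ha
            obtain ⟨ha1, ha2⟩ := mem_Ico.1 ha
            split_ifs with h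
            · have := h1 _ _ (one_lt_dn ha1 ha2) h (hc.coprime_dvd_left (dn_dvd q a)) (cop hq0 a)
              rw [frac hq0] at this
              exact this.trans (le_add_of_nonneg_right hs₂)
            · rw [zero_add]
              exact h2 _ (by_contra fun hM => hb ⟨not_le.1 h, hM⟩)
        _ ≤ ∑ a ∈ Ico 1 q, ((if dn q a ≤ Q then s₁ else 0) + s₂) :=
            sum_le_sum_of_subset_of_nonneg (filter_subset _ _) fun a _ _ => by positivity
        _ ≤ _ := by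
            rw [sum_add_distrib, ← sum_filter, sum_const, sum_const, nsmul_eq_mul, nsmul_eq_mul,
              Nat.card_Ico]
            gcongr
            · exact card_small q Q
            · omega
    have b3 : |disc X w v q| ≤ (‖∑ a ∈ bad Q M q, W X w v (a / q)‖ +
        (((Q : ℝ) + 1) ^ 2 * s₁ + q * s₂)) / q := by
      rw [b1]
      gcongr
      exact (norm_add_le _ _).trans (add_le_add le_rfl b2)
    refine (mul_le_mul_of_nonneg_left b3 (pow_nonneg (tau_nonneg q) 5)).trans (le_of_eq ?_)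
    field_simp
    ring
  choose u hu hu' using fun q : ℕ =>
    Complex.exists_norm_eq_mul_self (∑ a ∈ bad Q M q, W X w v (a / q))
  set c : ℕ → ℂ := fun q => ((tau q ^ 5 / q : ℝ) : ℂ) * u q with hc
  set g : ℕ → ℂ := fun n => ∑ q ∈ QQ D, ∑ a ∈ bad Q M q, c q * e ((a : ℝ) / q * n) with hg
  have a2 : ((∑ q ∈ QQ D, tau q ^ 5 / q * ‖∑ a ∈ bad Q M q, W X w v (a / q)‖ : ℝ) : ℂ) =
      ∑ k ∈ range X, (w k : ℂ) * g (v k) := by
    rw [Complex.ofReal_sum]
    simp only [hg, mul_sum]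
    rw [sum_comm]
    refine sum_congr rfl fun q _ => ?_
    rw [Complex.ofReal_mul, hu', sum_comm, mul_sum, mul_sum]
    refine sum_congr rfl fun a _ => ?_
    rw [W, mul_sum, mul_sum]
    exact sum_congr rfl fun k _ => by rw [hc]; ring
  have a3 : ∑ n ∈ range X, ‖g n‖ ≤ X * θ := by
    have b1 := sq_sum_le_card_mul_sum_sq (s := range X) (f := fun n => ‖g n‖)
    have b2 := (mean_sq X D Q M hη h3 c fun q => by
      rw [hc, norm_mul, hu, mul_one, Complex.norm_real, Real.norm_of_nonneg (tq_nonneg 5 q)]).trans h4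
    rw [card_range] at b1
    refine le_of_sq_le_sq (b1.trans ((mul_le_mul_of_nonneg_left b2 (Nat.cast_nonneg X)).trans
      (le_of_eq (by ring)))) (by positivity)
  have a4 : ∑ q ∈ QQ D, tau q ^ 5 / q * ‖∑ a ∈ bad Q M q, W X w v (a / q)‖ ≤ E * (X * θ) := by
    have b1 := congrArg norm a2
    rw [Complex.norm_real, Real.norm_of_nonneg
      (sum_nonneg fun q _ => mul_nonneg (tq_nonneg 5 q) (norm_nonneg _))] at b1
    rw [b1]
    refine (norm_sum_le _ _).trans (le_trans ?_ (mul_le_mul_of_nonneg_left a3 hE))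
    rw [← hv fun n => ‖g n‖, mul_sum]
    refine sum_le_sum fun k hk => ?_
    rw [norm_mul, Complex.norm_real, Real.norm_eq_abs]
    exact mul_le_mul_of_nonneg_right (hw k (mem_range.1 hk)) (norm_nonneg _)
  refine (sum_le_sum a1).trans ?_
  rw [sum_add_distrib, sum_add_distrib, ← sum_mul, ← sum_mul]
  exact add_le_add (add_le_add (mul_le_mul_of_nonneg_right (QQ_div 5 D) (by positivity))
    (mul_le_mul_of_nonneg_right (QQ_sum 5 D) hs₂)) a4

end Level

end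

end Pool.Agent.Emirp

end MrgPart1

-- ======== part 2: formerly Pool.Agent.MP_e620c0_nt.Level
section MrgPart2

/-! LEVEL: level of distribution of the reversal (project EMI). -/

set_option autoImplicit false

namespace Pool.Agent.Emirp

open Finset Filter Real

noncomputable section

namespace Level

theorem num1 {h l Z T Y P C : ℝ} (hh : h ≤ l) (h1 : Z * T ≤ 4 * Y) (h2 : l * (16 * P) ≤ T)
    (hY : 0 < Y) (hP : 0 < P) (hZ : 0 ≤ Z) (hC : 0 ≤ C) : h * (Z * (C / Y)) ≤ C / P / 4 := by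
  have a1 : Z * (h * (16 * P)) ≤ 4 * Y := le_trans (by gcongr; exact le_trans (by gcongr) h2) h1
  calc h * (Z * (C / Y)) = C * (Z * (h * (16 * P)) / (4 * Y)) / P / 4 := by field_simp; norm_num
    _ ≤ C * 1 / P / 4 := by
        gcongr
        rwa [div_le_one (by positivity)]
    _ = _ := by rw [mul_one]

theorem num2 {h l K P C : ℝ} (hh : h ≤ l) (h2 : l * (16 * P) ≤ K)
    (hK : 0 < K) (hP : 0 < P) (hC : 0 ≤ C) : K ^ 48 * h * (C / K ^ 49) ≤ C / P / 4 := by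
  have := num1 (Z := 1) (Y := K) hh (by linarith) h2 hK hP zero_le_one hC
  refine le_trans (le_of_eq ?_) this
  field_simp

theorem num3 {a b l K T P X G : ℝ} (hK : 0 < K) (hT : 0 < T) (hP : 0 < P)
    (h1 : a * b * l ≤ G) (h2 : a ^ 2 ≤ G) (h3 : G * (16 * P ^ 2) ≤ T) (h4 : T ≤ K)
    (h5 : K ^ 193 ≤ X) :
    X * (a * b * (2 * l * T⁻¹)) + (K ^ 48) ^ 2 * (K ^ 48 * a) ^ 2 ≤ X * (1 / (2 * P)) ^ 2 := by
  have hX : 0 < X := (pow_pos hK _).trans_le h5
  have a0 : G / T ≤ 1 / (16 * P ^ 2) := by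
    rw [div_le_div_iff₀ hT (by positivity)]
    linarith
  have a1 : a * b * (2 * l * T⁻¹) ≤ 2 * (1 / (16 * P ^ 2)) := by
    calc a * b * (2 * l * T⁻¹) = 2 * (a * b * l / T) := by ring
      _ ≤ _ := mul_le_mul_of_nonneg_left (le_trans (by gcongr) a0) (by norm_num)
  have a2 : (K ^ 48) ^ 2 * (K ^ 48 * a) ^ 2 ≤ X * (1 / (16 * P ^ 2)) := by
    calc (K ^ 48) ^ 2 * (K ^ 48 * a) ^ 2 = K ^ 193 * (a ^ 2 / K) := by field_simp
      _ ≤ _ := mul_le_mul h5 (le_trans (div_le_div₀ ((sq_nonneg a).trans h2) h2 hT h4) a0)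
          (by positivity) hX.le
  have a3 : X * (1 / (2 * P)) ^ 2 = 4 * (X * (1 / (16 * P ^ 2))) := by field_simp; norm_num
  have a4 := mul_le_mul_of_nonneg_left a1 hX.le
  have a5 : 0 ≤ X * (1 / (16 * P ^ 2)) := by positivity
  rw [a3]
  linarith

end Level

open Level in
theorem level (h1 : SmallStmt) (h2 : BadStmt) : LevelStmt := by
  intro A
  filter_upwards [h1, h2, pow_le_exp_L0 (2 * A + 2082) (c := 1 / 5000) (by norm_num),
    eventually_ge_atTop 12000] with lam hS hB hN hl w E hw hM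
  have hE : 0 ≤ E := (abs_nonneg _).trans (hw 0 (by positivity))
  have hk1 := kap_le lam
  have hk3 := L0_sq lam
  have hLk : L0 lam ≤ kap lam := by nlinarith
  have hl' : (12000 : ℝ) ≤ lam := by exact_mod_cast hl
  have hl1 : (1 : ℝ) ≤ lam := by linarith
  have hl16 : (16 : ℝ) ≤ lam := by linarith
  have hW : ∀ α, W (10 ^ lam) w (rv lam) α = S lam (ph lam α) w 0 (10 ^ lam) := fun α => by
    simp only [W, S, cf_ph, range_eq_Ico]
  have hD : ((zz lam ^ 3 : ℕ) : ℝ) = (10 ^ kap lam) ^ 48 := by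
    rw [zz]
    push_cast
    rw [← pow_mul, ← pow_mul]
    congr 1
    ring
  have h10 : exp 1 ≤ 10 := by linarith [exp_one_lt_d9]
  have h10' : log 10 ≤ 3 := by
    rw [log_le_iff_le_exp (by norm_num), show (3 : ℝ) = (3 : ℕ) * 1 by norm_num, exp_nat_mul]
    exact le_trans (by norm_num) (pow_le_pow_left₀ (by norm_num) exp_one_gt_d9.le 3)
  have hH0 : 0 ≤ 1 + log ((zz lam ^ 3 : ℕ) : ℝ) := add_nonneg zero_le_one (log_natCast_nonneg _)
  have hH : 1 + log ((zz lam ^ 3 : ℕ) : ℝ) ≤ lam := by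
    rw [hD, log_pow, log_pow]
    have c1 : (12000 : ℝ) * kap lam ≤ lam := by exact_mod_cast hk1
    have c2 := mul_le_mul_of_nonneg_left h10' (Nat.cast_nonneg (α := ℝ) (kap lam))
    push_cast
    linarith
  have hX : (10 ^ kap lam : ℝ) ^ 193 ≤ 10 ^ lam := by
    rw [← pow_mul]
    exact pow_le_pow_right₀ (by norm_num) (by omega)
  have hL0 : (0 : ℝ) ≤ L0 lam := Nat.cast_nonneg _
  have hT : exp (1 / 5000 * L0 lam) ≤ exp (L0 lam) := exp_le_exp.2 (by linarith)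
  have hK : exp (L0 lam) ≤ 10 ^ kap lam := by
    rw [← mul_one (L0 lam : ℝ), exp_nat_mul]
    exact (pow_le_pow_left₀ (exp_pos 1).le h10 _).trans (pow_le_pow_right₀ (by norm_num) hLk)
  have hQ : (((10 ^ L0 lam : ℕ) : ℝ) + 1) ^ 2 * exp (L0 lam) ≤ 4 * exp (2 / 5 * L0 lam) ^ 49 := by
    have c1 : ((10 ^ L0 lam : ℕ) : ℝ) ≤ exp (3 * L0 lam) := by
      push_cast
      rw [mul_comm, exp_nat_mul]
      exact pow_le_pow_left₀ (by norm_num) ((log_le_iff_le_exp (by norm_num)).1 h10') _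
    have c2 : 1 ≤ exp (3 * (L0 lam : ℝ)) := one_le_exp (by positivity)
    calc _ ≤ (2 * exp (3 * L0 lam)) ^ 2 * exp (L0 lam) := by gcongr; linarith
      _ = 4 * exp (7 * L0 lam) := by
        rw [mul_pow, mul_assoc, ← exp_nat_mul, ← exp_add]
        congr 1
        · norm_num
        · congr 1
          push_cast
          ring
      _ ≤ _ := by
        rw [← exp_nat_mul (2 / 5 * L0 lam) 49]
        refine mul_le_mul_of_nonneg_left (exp_le_exp.2 ?_) (by norm_num)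
        push_cast
        linarith
  have hη : exp (-((L0 lam : ℝ) / 5000)) = (exp (1 / 5000 * L0 lam))⁻¹ := by
    rw [← exp_neg]
    congr 1
    ring
  have hA : (0 : ℝ) < (lam : ℝ) ^ A := by positivity
  have hp : ∀ n, (1 + log ((zz lam ^ 3 : ℕ) : ℝ)) ^ n ≤ (lam : ℝ) ^ n :=
    pow_le_pow_left₀ hH0 hH
  have hcast : ((10 ^ lam : ℕ) : ℝ) = 10 ^ lam := by push_cast; rfl
  have c0 : (lam : ℝ) ^ 32 * (16 * (lam : ℝ) ^ A) ≤ exp (L0 lam) := by
    calc _ ≤ (lam : ℝ) ^ 32 * (lam * (lam : ℝ) ^ A) := by gcongr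
      _ = (lam : ℝ) ^ (A + 33) := by ring
      _ ≤ _ := ((pow_le_pow_right₀ hl1 (by omega)).trans hN).trans hT
  have key := core (10 ^ lam) (zz lam ^ 3) (10 ^ L0 lam) w (rv lam)
    (fun α => Mix lam (ph lam α) (10 ^ kap lam)) (E := E)
    (s₁ := E * 10 ^ lam / exp (2 / 5 * L0 lam) ^ 49) (s₂ := E * 10 ^ lam / (10 ^ kap lam) ^ 49)
    (η := 2 * lam * exp (-(L0 lam / 5000))) (θ := 1 / (2 * (lam : ℝ) ^ A)) hE (by positivity)
    (by positivity) (by positivity) (by positivity) hw (sum_rv lam)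
    (fun q a a1 a2 a3 a4 => by rw [hW]; exact hM _ _ (hS q a a1 a2 a3 a4))
    (fun α h => by rw [hW]; exact hM _ _ h)
    (fun q a1 a2 => (hB q a1 a2).trans (le_of_eq (by ring))) ?_
  · have c1 := num1 (C := E * 10 ^ lam) (hp 32) hQ c0 (by positivity) hA (sq_nonneg _)
      (by positivity)
    have c2 := num2 (C := E * 10 ^ lam) (hp 32) (c0.trans hK) (by positivity) hA (by positivity)
    have c3 : E * (10 ^ lam * (1 / (2 * (lam : ℝ) ^ A))) = E * 10 ^ lam / (lam : ℝ) ^ A / 2 := by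
      field_simp
    generalize (1 + log ((zz lam ^ 3 : ℕ) : ℝ)) ^ 32 = H at key c1 c2
    rw [hD, hcast, c3] at key
    refine key.trans ((add_le_add (add_le_add c1 c2) le_rfl).trans (le_of_eq ?_))
    ring
  · have c1 := num3 (a := (1 + log ((zz lam ^ 3 : ℕ) : ℝ)) ^ 32)
      (b := (1 + log ((zz lam ^ 3 : ℕ) : ℝ)) ^ 2048) (l := lam) (G := (lam : ℝ) ^ 2081)
      (by positivity) (exp_pos _) hA ?_ ?_ ?_ (hT.trans hK) hX
    · rw [hη, hcast]
      generalize (1 + log ((zz lam ^ 3 : ℕ) : ℝ)) = H at c1 ⊢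
      rw [hD]
      exact c1
    · rw [← pow_add, pow_succ (lam : ℝ) 2080]
      exact mul_le_mul_of_nonneg_right (hp _) (Nat.cast_nonneg lam)
    · rw [← pow_mul]
      exact (hp _).trans (pow_le_pow_right₀ hl1 (by norm_num))
    · refine le_trans ?_ hN
      calc _ ≤ (lam : ℝ) ^ 2081 * (lam * ((lam : ℝ) ^ A) ^ 2) := by gcongr
        _ = _ := by rw [← pow_mul, ← pow_succ', ← pow_add]; congr 1; omega

end

end Pool.Agent.Emirp

end MrgPart2

-- ======== part 3: formerly Pool.Agent.MP_e620c0_nt.Sel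
section MrgPart3

/-! Selberg diagonalization: upper and lower bound for the sifted sum. -/

set_option autoImplicit false

namespace Pool.Agent.Emirp

open Finset

namespace Sel

noncomputable section

/-- real valued Moebius function -/
def mo (n : ℕ) : ℝ := ((ArithmeticFunction.moebius n : ℤ) : ℝ)

theorem mem_DD {ξ r : ℕ} : r ∈ DD ξ ↔ (1 ≤ r ∧ r ≤ ξ) ∧ Squarefree r ∧ Nat.Coprime r 330 := by
  simp only [DD, mem_filter, mem_Icc]

theorem DD_ne {ξ r : ℕ} (h : r ∈ DD ξ) : r ≠ 0 := by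
  have := (mem_DD.1 h).1.1; omega

theorem DD_dvd {ξ r d : ℕ} (h : r ∈ DD ξ) (hd : d ∣ r) : d ∈ DD ξ := by
  have h0 := DD_ne h
  obtain ⟨⟨_, h2⟩, h3, h4⟩ := mem_DD.1 h
  have hd0 : 0 < d := Nat.pos_of_dvd_of_pos hd (Nat.pos_of_ne_zero h0)
  exact mem_DD.2 ⟨⟨hd0, (Nat.le_of_dvd (Nat.pos_of_ne_zero h0) hd).trans h2⟩,
    h3.squarefree_of_dvd hd, Nat.Coprime.coprime_dvd_left hd h4⟩

theorem one_mem {ξ : ℕ} (h : 1 ≤ ξ) : 1 ∈ DD ξ :=
  mem_DD.2 ⟨⟨le_rfl, h⟩, squarefree_one, by simp⟩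

theorem filter_dvd {ξ r : ℕ} (h : r ∈ DD ξ) : (DD ξ).filter (fun d => d ∣ r) = r.divisors := by
  ext d
  simp only [mem_filter, Nat.mem_divisors]
  exact ⟨fun x => ⟨x.2, DD_ne h⟩, fun x => ⟨DD_dvd h x.1, x.1⟩⟩

theorem mo_one : mo 1 = 1 := by simp [mo]

theorem abs_mo (n : ℕ) : |mo n| ≤ 1 := by
  have := @ArithmeticFunction.abs_moebius_le_one n
  unfold mo
  exact_mod_cast this

theorem mo_sq {n : ℕ} (h : Squarefree n) : mo n ^ 2 = 1 := by
  have := ArithmeticFunction.moebius_sq_eq_one_of_squarefree h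
  unfold mo
  exact_mod_cast this

theorem mo_mul {a b : ℕ} (h : Nat.Coprime a b) : mo (a * b) = mo a * mo b := by
  have := ArithmeticFunction.isMultiplicative_moebius.map_mul_of_coprime h
  unfold mo
  rw [this]; push_cast; ring

theorem mo_prime {p : ℕ} (h : p.Prime) : mo p = -1 := by
  unfold mo
  rw [ArithmeticFunction.moebius_apply_prime h]; simp

theorem sum_mo (n : ℕ) : ∑ d ∈ n.divisors, mo d = if n = 1 then 1 else 0 := by
  have h := congrArg (fun f : ArithmeticFunction ℤ => f n) ArithmeticFunction.moebius_mul_coe_zeta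
  simp only [ArithmeticFunction.coe_mul_zeta_apply, ArithmeticFunction.one_apply] at h
  unfold mo
  rw [← Int.cast_sum, h]
  split_ifs <;> simp

theorem sum_mo_between {r e : ℕ} (hr : Squarefree r) :
    ∑ d ∈ r.divisors, (if e ∣ d then mo d else 0) = if r = e then mo e else 0 := by
  have hr0 : r ≠ 0 := hr.ne_zero
  by_cases her : e ∣ r
  · obtain ⟨r', rfl⟩ := her
    have he0 : e ≠ 0 := fun h => hr0 (by simp [h])
    have hr' : r' ≠ 0 := fun h => hr0 (by simp [h])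
    have hc : Nat.Coprime e r' := Nat.coprime_of_squarefree_mul hr
    rw [← sum_filter]
    have : (e * r').divisors.filter (fun d => e ∣ d) = r'.divisors.image (fun d => e * d) := by
      ext d
      simp only [mem_filter, Nat.mem_divisors, mem_image]
      constructor
      · rintro ⟨⟨h1, _⟩, d', rfl⟩
        exact ⟨d', ⟨Nat.dvd_of_mul_dvd_mul_left (Nat.pos_of_ne_zero he0) h1, hr'⟩, rfl⟩
      · rintro ⟨d', ⟨h1, _⟩, rfl⟩
        exact ⟨⟨Nat.mul_dvd_mul_left e h1, hr0⟩, Dvd.intro _ rfl⟩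
    rw [this, sum_image (fun a _ b _ h => Nat.eq_of_mul_eq_mul_left (Nat.pos_of_ne_zero he0) h)]
    have h2 : ∀ d ∈ r'.divisors, mo (e * d) = mo e * mo d := fun d hd =>
      mo_mul (Nat.Coprime.coprime_dvd_right (Nat.dvd_of_mem_divisors hd) hc)
    rw [sum_congr rfl h2, ← mul_sum, sum_mo]
    by_cases h1 : r' = 1
    · simp [h1]
    · have : e * r' ≠ e := fun h => h1 (by
        have : e * r' = e * 1 := by simpa using h
        exact Nat.eq_of_mul_eq_mul_left (Nat.pos_of_ne_zero he0) this)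
      simp [h1, this]
  · have h1 : r ≠ e := fun h => her (h ▸ dvd_rfl)
    rw [if_neg h1]
    refine sum_eq_zero fun d hd => if_neg fun h => her (h.trans (Nat.dvd_of_mem_divisors hd))

/-- the sieve weights -/
def la (ξ : ℕ) (y : ℕ → ℝ) (d : ℕ) : ℝ :=
  mo d * d * ∑ r ∈ DD ξ, if d ∣ r then y r / r.totient else 0

theorem la_one (ξ : ℕ) (y : ℕ → ℝ) : la ξ y 1 = ∑ r ∈ DD ξ, y r / r.totient := by
  simp [la, mo_one]

theorem diag (ξ : ℕ) (y : ℕ → ℝ) (hy : ∀ r, r ∉ DD ξ → y r = 0) (e : ℕ) :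
    ∑ d ∈ DD ξ, (if e ∣ d then la ξ y d / d else 0) = mo e * y e / e.totient := by
  have h1 : ∀ d ∈ DD ξ, (if e ∣ d then la ξ y d / d else 0) =
      ∑ r ∈ DD ξ, y r / r.totient * (if d ∣ r then (if e ∣ d then mo d else 0) else 0) := by
    intro d hd
    have hd0 : (d : ℝ) ≠ 0 := by exact_mod_cast DD_ne hd
    by_cases h : e ∣ d
    · simp only [h, if_true, la]
      rw [mul_right_comm, mul_div_assoc, div_self hd0, mul_one, mul_sum]
      refine sum_congr rfl fun r _ => ?_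
      split_ifs <;> ring
    · simp [h]
  rw [sum_congr rfl h1, sum_comm]
  have h2 : ∀ r ∈ DD ξ, ∑ d ∈ DD ξ, y r / r.totient *
      (if d ∣ r then (if e ∣ d then mo d else 0) else 0) =
      if r = e then mo e * y e / e.totient else 0 := by
    intro r hr
    rw [← mul_sum, ← sum_filter, filter_dvd hr, sum_mo_between (mem_DD.1 hr).2.1]
    split_ifs with h
    · rw [h]; ring
    · simp
  rw [sum_congr rfl h2, sum_ite_eq']
  split_ifs with h
  · rfl
  · simp [hy e h]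

theorem le_tau_tot (d : ℕ) : (d : ℝ) ≤ tau d * d.totient := by
  rcases Nat.eq_zero_or_pos d with rfl | hd
  · simp
  have h1 : d ≤ d.divisors.card * d.totient := by
    calc d = ∑ e ∈ d.divisors, e.totient := (Nat.sum_totient d).symm
      _ ≤ ∑ _e ∈ d.divisors, d.totient := sum_le_sum fun e he =>
          Nat.le_of_dvd (Nat.totient_pos.2 hd)
            (Nat.totient_dvd_of_dvd (Nat.dvd_of_mem_divisors he))
      _ = d.divisors.card * d.totient := by simp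
  unfold tau
  exact_mod_cast h1

theorem tau_nn (n : ℕ) : 0 ≤ tau n := by unfold tau; positivity

theorem tau_mono {d n : ℕ} (h : d ∣ n) (hn : n ≠ 0) : tau d ≤ tau n := by
  unfold tau
  exact_mod_cast card_le_card (Nat.divisors_subset_of_dvd hn h)

theorem GG_nn (ξ : ℕ) : 0 ≤ GG ξ := sum_nonneg fun _ _ => by positivity

theorem sum_mult_le {ξ d : ℕ} (hd : d ∈ DD ξ) :
    ∑ r ∈ DD ξ, (if d ∣ r then 1 / (r.totient : ℝ) else 0) ≤ GG ξ / d.totient := by
  have hd0 : 0 < d := Nat.pos_of_ne_zero (DD_ne hd)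
  have hφ : (0 : ℝ) < d.totient := by exact_mod_cast Nat.totient_pos.2 hd0
  rw [← sum_filter]
  calc ∑ r ∈ (DD ξ).filter (fun r => d ∣ r), 1 / (r.totient : ℝ)
      ≤ ∑ r ∈ (DD ξ).filter (fun r => d ∣ r), 1 / ((r / d).totient : ℝ) / d.totient := by
        refine sum_le_sum fun r hr => ?_
        obtain ⟨hr, r', rfl⟩ := mem_filter.1 hr
        have hr' : 0 < r' := Nat.pos_of_ne_zero fun h => DD_ne hr (by simp [h])
        have hφ' : (0 : ℝ) < r'.totient := by exact_mod_cast Nat.totient_pos.2 hr'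
        rw [Nat.mul_div_cancel_left _ hd0, div_div]
        refine one_div_le_one_div_of_le (by positivity) ?_
        have := Nat.totient_super_multiplicative d r'
        rw [mul_comm]
        exact_mod_cast this
    _ = (∑ r ∈ ((DD ξ).filter (fun r => d ∣ r)).image (fun r => r / d),
          1 / (r.totient : ℝ)) / d.totient := by
        rw [sum_image, sum_div]
        intro a ha b hb h
        obtain ⟨a', rfl⟩ := (mem_filter.1 ha).2
        obtain ⟨b', rfl⟩ := (mem_filter.1 hb).2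
        simp only [Nat.mul_div_cancel_left _ hd0] at h
        rw [h]
    _ ≤ GG ξ / d.totient := by
        refine div_le_div_of_nonneg_right ?_ hφ.le
        refine sum_le_sum_of_subset_of_nonneg ?_ fun _ _ _ => by positivity
        intro r hr
        obtain ⟨a, ha, rfl⟩ := mem_image.1 hr
        exact DD_dvd (mem_filter.1 ha).1 (Nat.div_dvd_of_dvd (mem_filter.1 ha).2)

theorem abs_la {ξ d : ℕ} (y : ℕ → ℝ) (Y : ℝ) (hY : ∀ r, |y r| ≤ Y) (hd : d ∈ DD ξ) :
    |la ξ y d| ≤ tau d * (Y * GG ξ) := by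
  have hY0 : 0 ≤ Y := (abs_nonneg _).trans (hY 0)
  have hd0 : 0 < d := Nat.pos_of_ne_zero (DD_ne hd)
  have hφ : (0 : ℝ) < d.totient := by exact_mod_cast Nat.totient_pos.2 hd0
  have h1 : |∑ r ∈ DD ξ, if d ∣ r then y r / r.totient else 0| ≤ Y * (GG ξ / d.totient) := by
    refine (abs_sum_le_sum_abs _ _).trans (le_trans ?_
      (mul_le_mul_of_nonneg_left (sum_mult_le hd) hY0))
    rw [mul_sum]
    refine sum_le_sum fun r _ => ?_
    split_ifs
    · rw [abs_div, Nat.abs_cast, mul_one_div]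
      exact div_le_div_of_nonneg_right (hY r) (by positivity)
    · simp
  have h2 : (d : ℝ) / d.totient ≤ tau d := by
    rw [div_le_iff₀ hφ]; exact le_tau_tot d
  have hG := GG_nn ξ
  unfold la
  rw [abs_mul, abs_mul, Nat.abs_cast]
  calc |mo d| * d * |∑ r ∈ DD ξ, if d ∣ r then y r / r.totient else 0|
      ≤ 1 * d * (Y * (GG ξ / d.totient)) := by
        gcongr
        exact abs_mo d
    _ = (d : ℝ) / d.totient * (Y * GG ξ) := by ring
    _ ≤ tau d * (Y * GG ξ) := by gcongr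

/-- the sieve polynomial -/
def PP (ξ : ℕ) (y : ℕ → ℝ) (n : ℕ) : ℝ := ∑ d ∈ DD ξ, if d ∣ n then la ξ y d else 0

theorem PP_rough {ξ n : ℕ} (y : ℕ → ℝ) (hξ : 1 ≤ ξ) (h : Rough ξ n) : PP ξ y n = la ξ y 1 := by
  unfold PP
  rw [sum_eq_single_of_mem 1 (one_mem hξ)]
  · simp
  · intro d hd hd1
    refine if_neg fun hdn => ?_
    exact h d.minFac (DD_dvd hd (Nat.minFac_dvd d)) (Nat.minFac_prime hd1)
      ((Nat.minFac_dvd d).trans hdn)

/-- common multiple -/
def LL (q d₁ d₂ : ℕ) : ℕ := Nat.lcm q (Nat.lcm d₁ d₂)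

theorem expand (X ξ : ℕ) (w : ℕ → ℝ) (v : ℕ → ℕ) (y : ℕ → ℝ) (q : ℕ) :
    ∑ k ∈ range X, w k * ((if q ∣ v k then 1 else 0) * PP ξ y (v k) ^ 2) =
      (∑ k ∈ range X, w k) *
          (∑ d₁ ∈ DD ξ, ∑ d₂ ∈ DD ξ, la ξ y d₁ * la ξ y d₂ / LL q d₁ d₂) +
        ∑ d₁ ∈ DD ξ, ∑ d₂ ∈ DD ξ, la ξ y d₁ * la ξ y d₂ * disc X w v (LL q d₁ d₂) := by
  have h1 : ∀ k, w k * ((if q ∣ v k then 1 else 0) * PP ξ y (v k) ^ 2) =
      ∑ d₁ ∈ DD ξ, ∑ d₂ ∈ DD ξ, la ξ y d₁ * la ξ y d₂ *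
        (w k * if LL q d₁ d₂ ∣ v k then 1 else 0) := by
    intro k
    rw [sq, PP, sum_mul_sum, mul_sum, mul_sum]
    refine sum_congr rfl fun d₁ _ => ?_
    rw [mul_sum, mul_sum]
    refine sum_congr rfl fun d₂ _ => ?_
    simp only [LL, Nat.lcm_dvd_iff]
    by_cases h0 : q ∣ v k <;> by_cases h1 : d₁ ∣ v k <;> by_cases h2 : d₂ ∣ v k <;>
      simp [h0, h1, h2]
    ring
  rw [sum_congr rfl fun k _ => h1 k, sum_comm, mul_sum, ← sum_add_distrib]
  refine sum_congr rfl fun d₁ _ => ?_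
  rw [sum_comm, mul_sum, ← sum_add_distrib]
  refine sum_congr rfl fun d₂ _ => ?_
  rw [← mul_sum, disc, sum_mul, mul_sum, mul_sum, ← sum_add_distrib]
  refine sum_congr rfl fun k _ => ?_
  ring

theorem inv_LL {ξ q d₁ d₂ : ℕ} (hq : q ≠ 0) (h₁ : d₁ ∈ DD ξ) (h₂ : d₂ ∈ DD ξ) :
    1 / (LL q d₁ d₂ : ℝ) = 1 / q * ((Nat.gcd d₁ q : ℝ) / d₁ * ((Nat.gcd d₂ q : ℝ) / d₂) *
      ∑ e ∈ DD ξ, if Nat.Coprime e q ∧ e ∣ d₁ ∧ e ∣ d₂ then (e.totient : ℝ) else 0) := by
  have c₁ := Nat.coprime_div_gcd_of_squarefree (mem_DD.1 h₁).2.1 hq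
  have c₂ := Nat.coprime_div_gcd_of_squarefree (mem_DD.1 h₂).2.1 hq
  have g₁ : Nat.gcd d₁ q ∣ q := Nat.gcd_dvd_right _ _
  have g₂ : Nat.gcd d₂ q ∣ q := Nat.gcd_dvd_right _ _
  obtain ⟨a, ha⟩ : Nat.gcd d₁ q ∣ d₁ := Nat.gcd_dvd_left _ _
  obtain ⟨b, hb⟩ : Nat.gcd d₂ q ∣ d₂ := Nat.gcd_dvd_left _ _
  have p₁ : 0 < Nat.gcd d₁ q := Nat.gcd_pos_of_pos_right _ (Nat.pos_of_ne_zero hq)
  have p₂ : 0 < Nat.gcd d₂ q := Nat.gcd_pos_of_pos_right _ (Nat.pos_of_ne_zero hq)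
  generalize Nat.gcd d₁ q = s at *
  generalize Nat.gcd d₂ q = t at *
  subst ha hb
  rw [Nat.mul_div_cancel_left _ p₁] at c₁
  rw [Nat.mul_div_cancel_left _ p₂] at c₂
  have a0 : a ≠ 0 := fun h => DD_ne h₁ (by simp [h])
  have b0 : b ≠ 0 := fun h => DD_ne h₂ (by simp [h])
  have hL : LL q (s * a) (t * b) = q * Nat.lcm a b := by
    apply Nat.dvd_antisymm
    · refine Nat.lcm_dvd (Dvd.intro _ rfl) (Nat.lcm_dvd ?_ ?_)
      · exact mul_dvd_mul g₁ (Nat.dvd_lcm_left _ _)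
      · exact mul_dvd_mul g₂ (Nat.dvd_lcm_right _ _)
    · refine Nat.Coprime.mul_dvd_of_dvd_of_dvd ?_ (Nat.dvd_lcm_left _ _) ?_
      · exact Nat.Coprime.coprime_dvd_right (Nat.lcm_dvd_mul a b)
          (Nat.Coprime.mul_right c₁.symm c₂.symm)
      · refine Dvd.dvd.trans ?_ (Nat.dvd_lcm_right _ _)
        exact Nat.lcm_dvd ((Dvd.intro_left _ rfl).trans (Nat.dvd_lcm_left _ _))
          ((Dvd.intro_left _ rfl).trans (Nat.dvd_lcm_right _ _))
  have hS : (DD ξ).filter (fun e => Nat.Coprime e q ∧ e ∣ s * a ∧ e ∣ t * b) =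
      (Nat.gcd a b).divisors := by
    ext e
    simp only [mem_filter, Nat.mem_divisors, Nat.dvd_gcd_iff]
    constructor
    · rintro ⟨_, h0, h1, h2⟩
      exact ⟨⟨(Nat.Coprime.coprime_dvd_right g₁ h0).dvd_of_dvd_mul_left h1,
        (Nat.Coprime.coprime_dvd_right g₂ h0).dvd_of_dvd_mul_left h2⟩,
        Nat.gcd_ne_zero_left a0⟩
    · rintro ⟨⟨h1, h2⟩, _⟩
      exact ⟨DD_dvd h₁ (h1.mul_left s), Nat.Coprime.coprime_dvd_left h1 c₁, h1.mul_left s,
        h2.mul_left t⟩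
  rw [← sum_filter, hS, ← Nat.cast_sum, Nat.sum_totient, hL]
  have hgl : ((Nat.gcd a b : ℕ) : ℝ) * (Nat.lcm a b : ℕ) = a * b := by
    exact_mod_cast Nat.gcd_mul_lcm a b
  have l0 : ((Nat.lcm a b : ℕ) : ℝ) ≠ 0 := by exact_mod_cast Nat.lcm_ne_zero a0 b0
  have q0 : (q : ℝ) ≠ 0 := by exact_mod_cast hq
  have s0 : (s : ℝ) ≠ 0 := by exact_mod_cast p₁.ne'
  have t0 : (t : ℝ) ≠ 0 := by exact_mod_cast p₂.ne'
  have a0' : (a : ℝ) ≠ 0 := by exact_mod_cast a0
  have b0' : (b : ℝ) ≠ 0 := by exact_mod_cast b0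
  push_cast
  field_simp
  linarith

theorem main_gen (ξ : ℕ) (y : ℕ → ℝ) {q : ℕ} (hq : q ≠ 0) :
    ∑ d₁ ∈ DD ξ, ∑ d₂ ∈ DD ξ, la ξ y d₁ * la ξ y d₂ / LL q d₁ d₂ =
      1 / q * ∑ e ∈ DD ξ, if Nat.Coprime e q then (e.totient : ℝ) *
        (∑ d ∈ DD ξ, if e ∣ d then la ξ y d * ((Nat.gcd d q : ℝ) / d) else 0) ^ 2 else 0 := by
  have h1 : ∀ d₁ ∈ DD ξ, ∀ d₂ ∈ DD ξ, la ξ y d₁ * la ξ y d₂ / LL q d₁ d₂ =
      ∑ e ∈ DD ξ, 1 / q * (if Nat.Coprime e q then (e.totient : ℝ) *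
        ((if e ∣ d₁ then la ξ y d₁ * ((Nat.gcd d₁ q : ℝ) / d₁) else 0) *
          (if e ∣ d₂ then la ξ y d₂ * ((Nat.gcd d₂ q : ℝ) / d₂) else 0)) else 0) := by
    intro d₁ h₁ d₂ h₂
    rw [div_eq_mul_one_div, inv_LL hq h₁ h₂, mul_sum, mul_sum, mul_sum]
    refine sum_congr rfl fun e _ => ?_
    by_cases c0 : Nat.Coprime e q
    · rw [if_pos c0]
      by_cases c1 : e ∣ d₁
      · by_cases c2 : e ∣ d₂
        · rw [if_pos ⟨c0, c1, c2⟩, if_pos c1, if_pos c2]; ring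
        · rw [if_neg fun h => c2 h.2.2, if_neg c2]; ring
      · rw [if_neg fun h => c1 h.2.1, if_neg c1]; ring
    · rw [if_neg c0, if_neg fun h => c0 h.1]; ring
  rw [sum_congr rfl fun d₁ h₁ => sum_congr rfl fun d₂ h₂ => h1 d₁ h₁ d₂ h₂]
  rw [sum_congr rfl fun d₁ _ => sum_comm, sum_comm, mul_sum]
  refine sum_congr rfl fun e _ => ?_
  by_cases c0 : Nat.Coprime e q
  · simp only [if_pos c0]
    rw [sq, sum_mul_sum, mul_sum, mul_sum]
    refine sum_congr rfl fun d₁ _ => ?_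
    rw [mul_sum, mul_sum]
  · simp only [if_neg c0, mul_zero, sum_const_zero]

theorem main_one (ξ : ℕ) (y : ℕ → ℝ) (hy : ∀ r, r ∉ DD ξ → y r = 0) :
    ∑ d₁ ∈ DD ξ, ∑ d₂ ∈ DD ξ, la ξ y d₁ * la ξ y d₂ / LL 1 d₁ d₂ =
      ∑ r ∈ DD ξ, y r ^ 2 / r.totient := by
  rw [main_gen ξ y one_ne_zero]
  simp only [Nat.cast_one, div_one, one_mul, Nat.coprime_one_right_eq_true, if_true,
    Nat.gcd_one_right, mul_one_div]
  refine sum_congr rfl fun e he => ?_
  have hφ : (e.totient : ℝ) ≠ 0 := by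
    exact_mod_cast (Nat.totient_pos.2 (Nat.pos_of_ne_zero (DD_ne he))).ne'
  rw [diag ξ y hy e, div_pow, mul_pow, mo_sq (mem_DD.1 he).2.1]
  field_simp

theorem main_prime (ξ : ℕ) (y : ℕ → ℝ) (hy : ∀ r, r ∉ DD ξ → y r = 0) {q : ℕ} (hq : q.Prime) :
    ∑ d₁ ∈ DD ξ, ∑ d₂ ∈ DD ξ, la ξ y d₁ * la ξ y d₂ / LL q d₁ d₂ =
      1 / q * ∑ r ∈ (DD ξ).filter (fun r => ¬ q ∣ r), (y r - y (r * q)) ^ 2 / r.totient := by
  rw [main_gen ξ y hq.ne_zero, sum_filter]
  congr 1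
  refine sum_congr rfl fun e he => ?_
  have hiff : Nat.Coprime e q ↔ ¬ q ∣ e := by
    rw [Nat.coprime_comm]; exact hq.coprime_iff_not_dvd
  by_cases c0 : Nat.Coprime e q
  · rw [if_pos c0, if_pos (hiff.1 c0)]
    have hφ : (e.totient : ℝ) ≠ 0 := by
      exact_mod_cast (Nat.totient_pos.2 (Nat.pos_of_ne_zero (DD_ne he))).ne'
    have hq1 : (q : ℝ) - 1 ≠ 0 := by
      have : (1 : ℝ) < q := by exact_mod_cast hq.one_lt
      linarith
    have h1 : ∀ d ∈ DD ξ, (if e ∣ d then la ξ y d * ((Nat.gcd d q : ℝ) / d) else 0) =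
        (if e ∣ d then la ξ y d / d else 0) +
          ((q : ℝ) - 1) * (if e * q ∣ d then la ξ y d / d else 0) := by
      intro d _
      by_cases c1 : e ∣ d
      · by_cases c2 : q ∣ d
        · rw [if_pos c1, if_pos c1, if_pos (c0.mul_dvd_of_dvd_of_dvd c1 c2),
            Nat.gcd_eq_right c2]
          ring
        · have : Nat.gcd d q = 1 := (hq.coprime_iff_not_dvd.2 c2).symm
          rw [if_pos c1, if_pos c1, if_neg fun h => c2 ((Dvd.intro_left _ rfl).trans h), this]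
          ring
      · rw [if_neg c1, if_neg c1, if_neg fun h => c1 ((Dvd.intro _ rfl).trans h)]
        ring
    have h2 : ((e * q).totient : ℝ) = e.totient * ((q : ℝ) - 1) := by
      rw [Nat.totient_mul c0, Nat.totient_prime hq]
      push_cast [Nat.cast_sub hq.one_le]
      ring
    rw [sum_congr rfl h1, sum_add_distrib, ← mul_sum, diag ξ y hy, diag ξ y hy, h2, mo_mul c0,
      mo_prime hq]
    have h3 : mo e * y e / e.totient + ((q : ℝ) - 1) *
        (mo e * -1 * y (e * q) / (e.totient * ((q : ℝ) - 1))) =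
        mo e * (y e - y (e * q)) / e.totient := by
      field_simp
      ring
    rw [h3, div_pow, mul_pow, mo_sq (mem_DD.1 he).2.1]
    field_simp
  · rw [if_neg c0, if_neg fun h => c0 (hiff.2 h)]

theorem err_le (X ξ : ℕ) (w : ℕ → ℝ) (v : ℕ → ℕ) (y : ℕ → ℝ) (Y : ℝ) (hY : ∀ r, |y r| ≤ Y)
    (Q : Finset ℕ) (b : ℕ) (hQ : ∀ q ∈ Q, q ∈ DD ξ ∧ q ≤ b) :
    ∑ q ∈ Q, |∑ d₁ ∈ DD ξ, ∑ d₂ ∈ DD ξ, la ξ y d₁ * la ξ y d₂ * disc X w v (LL q d₁ d₂)| ≤
      (Y * GG ξ) ^ 2 * rem X w v (b * ξ ^ 2) := by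
  have hY0 : 0 ≤ Y := (abs_nonneg _).trans (hY 0)
  have hE : 0 ≤ Y * GG ξ := mul_nonneg hY0 (GG_nn ξ)
  set T := Q ×ˢ (DD ξ ×ˢ DD ξ) with hT
  have hdv : ∀ q d₁ d₂, q ∣ LL q d₁ d₂ ∧ d₁ ∣ LL q d₁ d₂ ∧ d₂ ∣ LL q d₁ d₂ := fun q d₁ d₂ =>
    ⟨Nat.dvd_lcm_left _ _, (Nat.dvd_lcm_left _ _).trans (Nat.dvd_lcm_right _ _),
      (Nat.dvd_lcm_right _ _).trans (Nat.dvd_lcm_right _ _)⟩
  have hmap : ∀ t ∈ T, LL t.1 t.2.1 t.2.2 ∈
      (Icc 1 (b * ξ ^ 2)).filter (fun q => Nat.Coprime q 330) := by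
    intro t ht
    obtain ⟨h0, h12⟩ := mem_product.1 ht
    obtain ⟨h1, h2⟩ := mem_product.1 h12
    obtain ⟨h0, hb⟩ := hQ _ h0
    have hd : LL t.1 t.2.1 t.2.2 ∣ t.1 * (t.2.1 * t.2.2) :=
      (Nat.lcm_dvd_mul _ _).trans (Nat.mul_dvd_mul_left _ (Nat.lcm_dvd_mul _ _))
    have hp : 0 < t.1 * (t.2.1 * t.2.2) := Nat.pos_of_ne_zero
      (mul_ne_zero (DD_ne h0) (mul_ne_zero (DD_ne h1) (DD_ne h2)))
    refine mem_filter.2 ⟨mem_Icc.2 ⟨Nat.pos_of_dvd_of_pos hd hp, (Nat.le_of_dvd hp hd).trans ?_⟩,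
      Nat.Coprime.coprime_dvd_left hd ?_⟩
    · rw [sq]
      exact Nat.mul_le_mul hb (Nat.mul_le_mul (mem_DD.1 h1).1.2 (mem_DD.1 h2).1.2)
    · exact Nat.Coprime.mul_left (mem_DD.1 h0).2.2
        (Nat.Coprime.mul_left (mem_DD.1 h1).2.2 (mem_DD.1 h2).2.2)
  calc ∑ q ∈ Q, |∑ d₁ ∈ DD ξ, ∑ d₂ ∈ DD ξ, la ξ y d₁ * la ξ y d₂ * disc X w v (LL q d₁ d₂)|
      ≤ ∑ q ∈ Q, ∑ d₁ ∈ DD ξ, ∑ d₂ ∈ DD ξ,
          |la ξ y d₁ * la ξ y d₂ * disc X w v (LL q d₁ d₂)| :=
        sum_le_sum fun q _ => (abs_sum_le_sum_abs _ _).trans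
          (sum_le_sum fun d₁ _ => abs_sum_le_sum_abs _ _)
    _ = ∑ t ∈ T, |la ξ y t.2.1 * la ξ y t.2.2 * disc X w v (LL t.1 t.2.1 t.2.2)| := by
        rw [hT, sum_product]
        refine sum_congr rfl fun q _ => ?_
        rw [sum_product]
    _ = ∑ l ∈ (Icc 1 (b * ξ ^ 2)).filter (fun q => Nat.Coprime q 330),
          ∑ t ∈ T.filter (fun t => LL t.1 t.2.1 t.2.2 = l),
            |la ξ y t.2.1 * la ξ y t.2.2 * disc X w v (LL t.1 t.2.1 t.2.2)| :=
        (sum_fiberwise_of_maps_to hmap _).symm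
    _ ≤ (Y * GG ξ) ^ 2 * rem X w v (b * ξ ^ 2) := by
        rw [rem, mul_sum]
        refine sum_le_sum fun l hl => ?_
        have l0 : l ≠ 0 := by
          have := (mem_Icc.1 (mem_filter.1 hl).1).1; omega
        have hc : ((T.filter (fun t => LL t.1 t.2.1 t.2.2 = l)).card : ℝ) ≤ tau l ^ 3 := by
          have : T.filter (fun t => LL t.1 t.2.1 t.2.2 = l) ⊆
              l.divisors ×ˢ (l.divisors ×ˢ l.divisors) := by
            intro t ht
            have h := hdv t.1 t.2.1 t.2.2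
            rw [(mem_filter.1 ht).2] at h
            simp only [mem_product, Nat.mem_divisors]
            exact ⟨⟨h.1, l0⟩, ⟨h.2.1, l0⟩, h.2.2, l0⟩
          have h2 := card_le_card this
          rw [card_product, card_product] at h2
          have h3 : ((T.filter (fun t => LL t.1 t.2.1 t.2.2 = l)).card : ℝ) ≤
              (l.divisors.card : ℝ) * ((l.divisors.card : ℝ) * l.divisors.card) := by
            exact_mod_cast h2
          unfold tau
          linarith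
        have hb : ∀ t ∈ T.filter (fun t => LL t.1 t.2.1 t.2.2 = l),
            |la ξ y t.2.1 * la ξ y t.2.2 * disc X w v (LL t.1 t.2.1 t.2.2)| ≤
              (tau l * (Y * GG ξ)) * (tau l * (Y * GG ξ)) * |disc X w v l| := by
          intro t ht
          have h := hdv t.1 t.2.1 t.2.2
          obtain ⟨ht, hl'⟩ := mem_filter.1 ht
          rw [hl'] at h ⊢
          obtain ⟨h1, h2⟩ := mem_product.1 (mem_product.1 ht).2
          have e1 := (abs_la y Y hY h1).trans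
            (mul_le_mul_of_nonneg_right (tau_mono h.2.1 l0) hE)
          have e2 := (abs_la y Y hY h2).trans
            (mul_le_mul_of_nonneg_right (tau_mono h.2.2 l0) hE)
          have := tau_nn l
          rw [abs_mul, abs_mul]
          gcongr
        refine (sum_le_card_nsmul _ _ _ hb).trans ?_
        rw [nsmul_eq_mul]
        have := tau_nn l
        calc _ ≤ tau l ^ 3 * ((tau l * (Y * GG ξ)) * (tau l * (Y * GG ξ)) * |disc X w v l|) := by
              gcongr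
          _ = _ := by ring

end

end Sel

open Sel in
theorem sel : SelStmt := by
  intro X ξ w v y Y hξ hw hY hy
  have hs : (∑ r ∈ DD ξ, y r / r.totient) ^ 2 * sift X w v ξ =
      ∑ k ∈ range X, w k * (if Rough ξ (v k) then la ξ y 1 ^ 2 else 0) := by
    rw [← la_one, sift, sum_filter, mul_sum]
    refine sum_congr rfl fun k _ => ?_
    split_ifs <;> ring
  have e1 := expand X ξ w v y 1
  rw [main_one ξ y hy] at e1
  simp only [one_dvd, if_true, one_mul] at e1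
  constructor
  · have h1 := err_le X ξ w v y Y hY {1} 1 (by
      intro q hq
      rw [mem_singleton.1 hq]
      exact ⟨one_mem hξ, le_rfl⟩)
    rw [sum_singleton, one_mul] at h1
    have h2 : ∑ k ∈ range X, w k * (if Rough ξ (v k) then la ξ y 1 ^ 2 else 0) ≤
        ∑ k ∈ range X, w k * PP ξ y (v k) ^ 2 := by
      refine sum_le_sum fun k hk => mul_le_mul_of_nonneg_left ?_ (hw k (mem_range.1 hk))
      split_ifs with h
      · rw [PP_rough y hξ h]
      · positivity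
    rw [hs]
    linarith [le_abs_self (∑ d₁ ∈ DD ξ, ∑ d₂ ∈ DD ξ,
      la ξ y d₁ * la ξ y d₂ * disc X w v (LL 1 d₁ d₂))]
  · have n1 : 1 ∉ (DD ξ).filter Nat.Prime := fun h => Nat.not_prime_one (mem_filter.1 h).2
    have h1 := err_le X ξ w v y Y hY (insert 1 ((DD ξ).filter Nat.Prime)) ξ (by
      intro q hq
      rcases mem_insert.1 hq with rfl | hq
      · exact ⟨one_mem hξ, hξ⟩
      · exact ⟨(mem_filter.1 hq).1, (mem_DD.1 (mem_filter.1 hq).1).1.2⟩)
    rw [sum_insert n1, ← pow_succ'] at h1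
    have h2 : ∑ k ∈ range X, w k * PP ξ y (v k) ^ 2 -
        ∑ q ∈ (DD ξ).filter Nat.Prime, ∑ k ∈ range X,
          w k * ((if q ∣ v k then 1 else 0) * PP ξ y (v k) ^ 2) ≤
        ∑ k ∈ range X, w k * (if Rough ξ (v k) then la ξ y 1 ^ 2 else 0) := by
      rw [sum_comm, ← sum_sub_distrib]
      refine sum_le_sum fun k hk => ?_
      rw [← mul_sum, ← mul_sub, ← sum_mul]
      refine mul_le_mul_of_nonneg_left ?_ (hw k (mem_range.1 hk))
      have hn : ∀ q ∈ (DD ξ).filter Nat.Prime, (0 : ℝ) ≤ if q ∣ v k then 1 else 0 :=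
        fun q _ => by split_ifs <;> norm_num
      split_ifs with h
      · rw [PP_rough y hξ h]
        have := mul_nonneg (sum_nonneg hn) (sq_nonneg (la ξ y 1))
        linarith
      · simp only [Rough, not_forall, not_not] at h
        obtain ⟨q, hq, hp, hd⟩ := h
        have h3 := single_le_sum hn (mem_filter.2 ⟨hq, hp⟩)
        rw [if_pos hd] at h3
        have := mul_le_mul_of_nonneg_right h3 (sq_nonneg (PP ξ y (v k)))
        linarith
    have h3 : ∑ q ∈ (DD ξ).filter Nat.Prime, ∑ k ∈ range X,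
        w k * ((if q ∣ v k then 1 else 0) * PP ξ y (v k) ^ 2) ≤
        (∑ k ∈ range X, w k) * (∑ q ∈ (DD ξ).filter Nat.Prime, (1 / q) *
          ∑ r ∈ (DD ξ).filter (fun r => ¬ q ∣ r), (y r - y (r * q)) ^ 2 / r.totient) +
        ∑ q ∈ (DD ξ).filter Nat.Prime, |∑ d₁ ∈ DD ξ, ∑ d₂ ∈ DD ξ,
          la ξ y d₁ * la ξ y d₂ * disc X w v (LL q d₁ d₂)| := by
      rw [mul_sum, ← sum_add_distrib]
      refine sum_le_sum fun q hq => ?_
      rw [expand, main_prime ξ y hy (mem_filter.1 hq).2]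
      gcongr
      exact le_abs_self _
    rw [hs, mul_sub]
    linarith [neg_abs_le (∑ d₁ ∈ DD ξ, ∑ d₂ ∈ DD ξ,
      la ξ y d₁ * la ξ y d₂ * disc X w v (LL 1 d₁ d₂))]

end Pool.Agent.Emirp

end MrgPart3

-- ======== part 4: formerly Pool.Agent.MP_e620c0_nt.Sieve
section MrgPart4

/-! Upper and lower bound sieve with explicit constants, and the prime sum for the majorant. -/

set_option autoImplicit false

namespace Pool.Agent.Emirp

open Finset Filter Real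

namespace SieveAux

theorem le_floor_exp_iff {r : ℕ} (hr : 1 ≤ r) (v : ℝ) : r ≤ ⌊exp v⌋₊ ↔ log r ≤ v := by
  have h0 : (0 : ℝ) < r := by exact_mod_cast hr
  rw [Nat.le_floor_iff (exp_pos _).le, log_le_iff_le_exp h0]

theorem filter_DD {z : ℕ} (hz : 2 ≤ z) {u : ℝ} (hu1 : u ≤ 1) :
    (DD z).filter (fun r : ℕ => log r / log z ≤ u) = DD ⌊exp (u * log z)⌋₊ := by
  have hz' : (1 : ℝ) < z := by exact_mod_cast hz
  have hL : 0 < log (z : ℝ) := log_pos hz'
  ext r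
  simp only [DD, mem_filter, mem_Icc, div_le_iff₀ hL]
  constructor
  · rintro ⟨⟨⟨h1, _⟩, h3⟩, h4⟩
    exact ⟨⟨h1, (le_floor_exp_iff h1 _).2 h4⟩, h3⟩
  · rintro ⟨⟨h1, h2⟩, h3⟩
    have h5 := (le_floor_exp_iff h1 _).1 h2
    refine ⟨⟨⟨h1, ?_⟩, h3⟩, h5⟩
    have hr : (0 : ℝ) < r := by exact_mod_cast h1
    have h6 : log (r : ℝ) ≤ log z := by nlinarith
    have := (log_le_log_iff hr (by linarith)).1 h6
    exact_mod_cast this

theorem t_mem {z r : ℕ} (hz : 2 ≤ z) (h1 : 1 ≤ r) (h2 : r ≤ z) :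
    0 ≤ log (r : ℝ) / log z ∧ log (r : ℝ) / log z ≤ 1 := by
  have hz' : (1 : ℝ) < z := by exact_mod_cast hz
  have hL : 0 < log (z : ℝ) := log_pos hz'
  have hr : (1 : ℝ) ≤ r := by exact_mod_cast h1
  refine ⟨div_nonneg (log_nonneg hr) hL.le, ?_⟩
  rw [div_le_one hL]
  exact log_le_log (by linarith) (by exact_mod_cast h2)

theorem quad {α β γ : ℝ} (hα : |α| ≤ 3) (hβ : |β| ≤ 3) (hγ : |γ| ≤ 3) {u : ℝ} (h0 : 0 ≤ u)
    (h1 : u ≤ 1) :
    HasDerivAt (fun t : ℝ => α + β * t + γ * t ^ 2) (β + 2 * γ * u) u ∧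
    HasDerivAt (fun t : ℝ => α * t + β * t ^ 2 / 2 + γ * t ^ 3 / 3) (α + β * u + γ * u ^ 2) u ∧
    |α + β * u + γ * u ^ 2| ≤ 9 ∧ |β + 2 * γ * u| ≤ 9 := by
  have d1 : HasDerivAt (fun t : ℝ => t) 1 u := hasDerivAt_id u
  have d2 : HasDerivAt (fun t : ℝ => t ^ 2) (2 * u) u := by simpa using hasDerivAt_pow 2 u
  have d3 : HasDerivAt (fun t : ℝ => t ^ 3) (3 * u ^ 2) u := by simpa using hasDerivAt_pow 3 u
  rw [abs_le] at hα hβ hγ
  have hu2 : 0 ≤ u ^ 2 ∧ u ^ 2 ≤ 1 := ⟨by positivity, by nlinarith⟩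
  refine ⟨?_, ?_, ?_, ?_⟩
  · exact (((d1.const_mul β).const_add α).fun_add (d2.const_mul γ)).congr_deriv (by ring)
  · exact (((d1.const_mul α).fun_add ((d2.const_mul β).div_const 2)).fun_add
      ((d3.const_mul γ).div_const 3)).congr_deriv (by ring)
  · rw [abs_le]; constructor <;> nlinarith [hu2.1, hu2.2]
  · rw [abs_le]; constructor <;> nlinarith

/-- Abel summation against the Selberg weights -/
theorem gq (hA : AbelStmt) {c C : ℝ} (hG : ∀ y : ℝ, 1 ≤ y → |GG ⌊y⌋₊ - c * log y| ≤ C)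
    {z : ℕ} (hz : 2 ≤ z) {b : ℝ} (hb0 : 0 ≤ b) (hb1 : b ≤ 1) {α β γ : ℝ} (hα : |α| ≤ 3)
    (hβ : |β| ≤ 3) (hγ : |γ| ≤ 3) :
    |∑ r ∈ (DD z).filter (fun r : ℕ => log r / log z ≤ b),
        (α + β * (log r / log z) + γ * (log r / log z) ^ 2) / r.totient
      - c * log z * (α * b + β * b ^ 2 / 2 + γ * b ^ 3 / 3)| ≤ 18 * C := by
  have hz' : (1 : ℝ) < z := by exact_mod_cast hz
  have hL : 0 < log (z : ℝ) := log_pos hz'
  have key := hA ((DD z).filter (fun r : ℕ => log r / log z ≤ b)) (fun r => 1 / (r.totient : ℝ))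
    (fun r => log r / log z) (fun t : ℝ => α + β * t + γ * t ^ 2) (fun u => β + 2 * γ * u)
    (fun t : ℝ => α * t + β * t ^ 2 / 2 + γ * t ^ 3 / 3) 0 b (c * log z) C 9 hb0 (by linarith)
    (fun i hi => by
      simp only [DD, mem_filter, mem_Icc] at hi
      exact ⟨(t_mem hz hi.1.1.1 hi.1.1.2).1, hi.2⟩)
    (fun u hu => by
      have e1 : ((DD z).filter (fun r : ℕ => log r / log z ≤ b)).filter
          (fun r : ℕ => log r / log z ≤ u) = (DD z).filter (fun r : ℕ => log r / log z ≤ u) := by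
        rw [filter_filter]
        exact filter_congr fun r _ => ⟨fun h => h.2, fun h => ⟨h.trans hu.2, h⟩⟩
      rw [e1, filter_DD hz (hu.2.trans hb1)]
      have := hG (exp (u * log z)) (one_le_exp (mul_nonneg hu.1 hL.le))
      rw [log_exp] at this
      have e2 : c * log z * (u - 0) = c * (u * log z) := by ring
      rw [e2]
      exact this)
    (fun u hu => quad hα hβ hγ hu.1 (hu.2.trans hb1)) (by fun_prop)
  have e3 : ∀ r : ℕ, 1 / (r.totient : ℝ) * (α + β * (log r / log z) + γ * (log r / log z) ^ 2)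
      = (α + β * (log r / log z) + γ * (log r / log z) ^ 2) / r.totient := fun r => by ring
  simp only [e3] at key
  convert key using 1
  · congr 2
    ring
  · ring

/-- Abel summation against `log p / p` -/
theorem mab (hA : AbelStmt) {C : ℝ}
    (hM : ∀ y : ℝ, 1 ≤ y → |∑ p ∈ (Icc 1 ⌊y⌋₊).filter Nat.Prime, log p / p - log y| ≤ C)
    {L a b : ℝ} (hL : 0 < L) (ha : 0 ≤ a) (hab : a ≤ b) (hb : b ≤ a + 1) (s : Finset ℕ)
    (hs : ∀ p, p ∈ s ↔ p.Prime ∧ a * L < log p ∧ log p ≤ b * L) (h h' J : ℝ → ℝ) (H : ℝ)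
    (hh : ∀ u ∈ Set.Icc a b,
      HasDerivAt h (h' u) u ∧ HasDerivAt J (h u) u ∧ |h u| ≤ H ∧ |h' u| ≤ H)
    (hc : ContinuousOn h' (Set.Icc a b)) :
    |∑ p ∈ s, log p / p * h (log p / L) - L * (J b - J a)| ≤ 4 * C * H := by
  have key := hA s (fun p => log p / p) (fun p => log p / L) h h' J a b L (2 * C) H hab hb
    (fun i hi => by
      obtain ⟨-, h1, h2⟩ := (hs i).1 hi
      exact ⟨(le_div_iff₀ hL).2 h1.le, (div_le_iff₀ hL).2 h2⟩)
    (fun u hu => by
      have m1 := hM (exp (u * L)) (one_le_exp (mul_nonneg (ha.trans hu.1) hL.le))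
      have m2 := hM (exp (a * L)) (one_le_exp (mul_nonneg ha hL.le))
      rw [log_exp] at m1 m2
      have hsub : (Icc 1 ⌊exp (a * L)⌋₊).filter Nat.Prime ⊆
          (Icc 1 ⌊exp (u * L)⌋₊).filter Nat.Prime := by
        apply filter_subset_filter
        apply Icc_subset_Icc le_rfl
        exact Nat.floor_le_floor (exp_le_exp.2 (mul_le_mul_of_nonneg_right hu.1 hL.le))
      have e1 : s.filter (fun p : ℕ => log p / L ≤ u) =
          (Icc 1 ⌊exp (u * L)⌋₊).filter Nat.Prime \ (Icc 1 ⌊exp (a * L)⌋₊).filter Nat.Prime := by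
        ext p
        simp only [mem_filter, Finset.mem_sdiff, mem_Icc, hs, div_le_iff₀ hL]
        constructor
        · rintro ⟨⟨hp, h1, -⟩, h3⟩
          refine ⟨⟨⟨hp.one_le, (le_floor_exp_iff hp.one_le _).2 h3⟩, hp⟩, ?_⟩
          rintro ⟨⟨-, h4⟩, -⟩
          exact absurd ((le_floor_exp_iff hp.one_le _).1 h4) (not_le.2 h1)
        · rintro ⟨⟨⟨h1, h2⟩, hp⟩, h3⟩
          have h4 := (le_floor_exp_iff h1 _).1 h2
          refine ⟨⟨hp, ?_, h4.trans (mul_le_mul_of_nonneg_right hu.2 hL.le)⟩, h4⟩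
          by_contra h5
          exact h3 ⟨⟨h1, (le_floor_exp_iff h1 _).2 (not_lt.1 h5)⟩, hp⟩
      rw [e1, sum_sdiff_eq_sub hsub]
      rw [abs_le] at m1 m2 ⊢
      constructor <;> nlinarith [m1.1, m1.2, m2.1, m2.2])
    hh hc
  convert key using 1
  ring

theorem primes_iff {z : ℕ} (hz : 2 ≤ z) (p : ℕ) : p ∈ (Icc 1 z).filter Nat.Prime ↔
    p.Prime ∧ 0 * log (z : ℝ) < log p ∧ log (p : ℝ) ≤ 1 * log z := by
  have hz' : (0 : ℝ) < z := by exact_mod_cast (by omega : 0 < z)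
  simp only [mem_filter, mem_Icc, zero_mul, one_mul]
  constructor
  · rintro ⟨⟨h1, h2⟩, hp⟩
    exact ⟨hp, log_pos (by exact_mod_cast hp.one_lt),
      log_le_log (by exact_mod_cast hp.pos) (by exact_mod_cast h2)⟩
  · rintro ⟨hp, -, h2⟩
    have := (log_le_log_iff (by exact_mod_cast hp.pos) hz').1 h2
    exact ⟨⟨hp.one_le, by exact_mod_cast this⟩, hp⟩

/-- the sum of `1 / q` over primes is small compared with `log z` -/
theorem inv_sum {C : ℝ}
    (hM : ∀ y : ℝ, 1 ≤ y → |∑ p ∈ (Icc 1 ⌊y⌋₊).filter Nat.Prime, log p / p - log y| ≤ C)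
    {ε : ℝ} (hε : 0 < ε) : ∃ K : ℝ, ∀ z : ℕ, 1 ≤ z →
      ∑ q ∈ (Icc 1 z).filter Nat.Prime, (1 / q : ℝ) ≤ ε * log z + K := by
  refine ⟨ε * C + (⌊exp (1 / ε)⌋₊ + 1), fun z hz => ?_⟩
  have m := hM z (by exact_mod_cast hz)
  rw [Nat.floor_natCast, abs_le] at m
  have h1 : ∀ q ∈ (Icc 1 z).filter Nat.Prime, (1 / q : ℝ) ≤
      ε * (log q / q) + if q ∈ range (⌊exp (1 / ε)⌋₊ + 1) then 1 else 0 := by
    intro q hq
    have hp := (mem_filter.1 hq).2
    have hq1 : (1 : ℝ) ≤ q := by exact_mod_cast hp.one_le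
    have hl : 0 ≤ log (q : ℝ) := log_nonneg hq1
    split_ifs with h
    · have : (1 / q : ℝ) ≤ 1 := by rw [div_le_one (by linarith)]; exact hq1
      have : 0 ≤ ε * (log q / q) := by positivity
      linarith
    · rw [mem_range, Nat.lt_succ_iff, le_floor_exp_iff hp.one_le, not_le, div_lt_iff₀ hε] at h
      rw [add_zero, ← mul_div_assoc]
      exact div_le_div_of_nonneg_right (by linarith) (by linarith)
  refine (sum_le_sum h1).trans ?_
  rw [sum_add_distrib, ← mul_sum, sum_boole]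
  have h2 : ((((Icc 1 z).filter Nat.Prime).filter
      (fun q => q ∈ range (⌊exp (1 / ε)⌋₊ + 1))).card : ℝ) ≤ ⌊exp (1 / ε)⌋₊ + 1 := by
    have := card_le_card (s := ((Icc 1 z).filter Nat.Prime).filter
      (fun q => q ∈ range (⌊exp (1 / ε)⌋₊ + 1))) (t := range (⌊exp (1 / ε)⌋₊ + 1))
      (fun q hq => (mem_filter.1 hq).2)
    rw [card_range] at this
    exact_mod_cast this
  nlinarith [m.2]

/-- the lower bound weights -/
noncomputable def yy (z r : ℕ) : ℝ := if r ∈ DD z then 32 / 25 - log r / log z else 0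

theorem full {z : ℕ} (hz : 2 ≤ z) :
    (DD z).filter (fun r : ℕ => log r / log z ≤ 1) = DD z := by
  apply filter_true_of_mem
  intro r hr
  simp only [DD, mem_filter, mem_Icc] at hr
  exact (t_mem hz hr.1.1 hr.1.2).2

theorem yy_le {z : ℕ} (hz : 2 ≤ z) (r : ℕ) : |yy z r| ≤ 32 / 25 := by
  unfold yy
  split_ifs with hr
  · simp only [DD, mem_filter, mem_Icc] at hr
    have := t_mem hz hr.1.1 hr.1.2
    rw [abs_le]; constructor <;> linarith [this.1, this.2]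
  · norm_num

theorem inner (hA : AbelStmt) {c C : ℝ} (hG : ∀ y : ℝ, 1 ≤ y → |GG ⌊y⌋₊ - c * log y| ≤ C)
    {z : ℕ} (hz : 2 ≤ z) {q : ℕ} (hq : q ∈ DD z) (hp : q.Prime) :
    ∑ r ∈ (DD z).filter (fun r => ¬ q ∣ r), (yy z r - yy z (r * q)) ^ 2 / r.totient ≤
      c * log q * (49 / 625 + 32 / 25 * (log q / log z) + -(2 / 3) * (log q / log z) ^ 2)
        + 36 * C := by
  have hz' : (1 : ℝ) < z := by exact_mod_cast hz
  have hL : 0 < log (z : ℝ) := log_pos hz'
  have hq' := hq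
  simp only [DD, mem_filter, mem_Icc] at hq'
  obtain ⟨hs0, hs1⟩ := t_mem hz hq'.1.1 hq'.1.2
  set s := log (q : ℝ) / log z with hs
  have hq0 : (0 : ℝ) < q := by exact_mod_cast hp.pos
  have g1 := gq hA hG hz (b := 1) zero_le_one le_rfl (α := 1024 / 625) (β := -(64 / 25)) (γ := 1)
    (by rw [abs_le]; constructor <;> norm_num) (by rw [abs_le]; constructor <;> norm_num)
    (by norm_num)
  have g2 := gq hA hG hz (b := 1 - s) (by linarith) (by linarith) (α := s ^ 2 - 1024 / 625)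
    (β := 64 / 25) (γ := -1) (by rw [abs_le]; constructor <;> nlinarith)
    (by rw [abs_le]; constructor <;> norm_num) (by norm_num)
  rw [full hz] at g1
  have h1 : ∀ r ∈ (DD z).filter (fun r => ¬ q ∣ r), (yy z r - yy z (r * q)) ^ 2 / r.totient =
      (1024 / 625 + -(64 / 25) * (log r / log z) + 1 * (log r / log z) ^ 2) / r.totient +
      if log r / log z ≤ 1 - s then (s ^ 2 - 1024 / 625 + 64 / 25 * (log r / log z)
        + -1 * (log r / log z) ^ 2) / r.totient else 0 := by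
    intro r hr
    obtain ⟨hr, hqr⟩ := mem_filter.1 hr
    have hr' := hr
    simp only [DD, mem_filter, mem_Icc] at hr'
    have hr0 : (0 : ℝ) < r := by exact_mod_cast hr'.1.1
    have hlog : log ((r * q : ℕ) : ℝ) / log z = log r / log z + s := by
      rw [Nat.cast_mul, log_mul hr0.ne' hq0.ne', add_div]
    have hiff : r * q ∈ DD z ↔ log r / log z ≤ 1 - s := by
      constructor
      · intro h
        simp only [DD, mem_filter, mem_Icc] at h
        have := (t_mem hz h.1.1 h.1.2).2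
        linarith
      · intro h
        have hc : Nat.Coprime r q := ((Nat.Prime.coprime_iff_not_dvd hp).2 hqr).symm
        simp only [DD, mem_filter, mem_Icc]
        refine ⟨⟨Nat.mul_pos hr'.1.1 hp.pos, ?_⟩, (Nat.squarefree_mul hc).2 ⟨hr'.2.1, hq'.2.1⟩,
          Nat.Coprime.mul_left hr'.2.2 hq'.2.2⟩
        have h2 : log ((r * q : ℕ) : ℝ) / log z ≤ 1 := by linarith
        rw [div_le_one hL] at h2
        have := (log_le_log_iff (by rw [Nat.cast_mul]; positivity) (by linarith)).1 h2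
        exact_mod_cast this
    simp only [yy, if_pos hr, hiff, hlog]
    split_ifs <;> ring
  rw [sum_congr rfl h1]
  have h2 : ∀ r ∈ DD z, r ∉ (DD z).filter (fun r => ¬ q ∣ r) → 0 ≤
      (1024 / 625 + -(64 / 25) * (log r / log z) + 1 * (log r / log z) ^ 2) / (r.totient : ℝ) +
      if log r / log z ≤ 1 - s then (s ^ 2 - 1024 / 625 + 64 / 25 * (log r / log z)
        + -1 * (log r / log z) ^ 2) / r.totient else 0 := by
    intro r _ _
    split_ifs
    · rw [← add_div]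
      exact div_nonneg (by nlinarith [sq_nonneg s]) (Nat.cast_nonneg _)
    · rw [add_zero]
      exact div_nonneg (by nlinarith [sq_nonneg (log (r : ℝ) / log z - 32 / 25)])
        (Nat.cast_nonneg _)
  refine (sum_le_sum_of_subset_of_nonneg (filter_subset _ _) h2).trans ?_
  rw [sum_add_distrib, ← sum_filter]
  have e1 : log (q : ℝ) = log z * s := by rw [hs]; field_simp
  rw [abs_le] at g1 g2
  have e2 : c * log q * (49 / 625 + 32 / 25 * s + -(2 / 3) * s ^ 2) =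
      c * log z * (1024 / 625 * 1 + -(64 / 25) * 1 ^ 2 / 2 + 1 * 1 ^ 3 / 3) +
      c * log z * ((s ^ 2 - 1024 / 625) * (1 - s) + 64 / 25 * (1 - s) ^ 2 / 2
        + -1 * (1 - s) ^ 3 / 3) := by
    rw [e1]; ring
  rw [e2]
  linarith [g1.2, g2.2]

theorem qsum (hA : AbelStmt) {c C C' : ℝ} (hc : 0 < c) (hC : 0 ≤ C)
    (hG : ∀ y : ℝ, 1 ≤ y → |GG ⌊y⌋₊ - c * log y| ≤ C)
    (hM : ∀ y : ℝ, 1 ≤ y → |∑ p ∈ (Icc 1 ⌊y⌋₊).filter Nat.Prime, log p / p - log y| ≤ C')
    {z : ℕ} (hz : 2 ≤ z) :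
    ∑ q ∈ (DD z).filter Nat.Prime, (1 / q : ℝ) *
        ∑ r ∈ (DD z).filter (fun r => ¬ q ∣ r), (yy z r - yy z (r * q)) ^ 2 / r.totient ≤
      c * log z * (2791 / 5625) + 36 * c * C' +
        36 * C * ∑ q ∈ (Icc 1 z).filter Nat.Prime, (1 / q : ℝ) := by
  have hz' : (1 : ℝ) < z := by exact_mod_cast hz
  have hL : 0 < log (z : ℝ) := log_pos hz'
  have m := mab hA hM hL le_rfl zero_le_one (by norm_num) _ (primes_iff hz)
    (fun t : ℝ => 49 / 625 + 32 / 25 * t + -(2 / 3) * t ^ 2) (fun u => 32 / 25 + 2 * -(2 / 3) * u)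
    (fun t : ℝ => 49 / 625 * t + 32 / 25 * t ^ 2 / 2 + -(2 / 3) * t ^ 3 / 3) 9
    (fun u hu => quad (by rw [abs_le]; constructor <;> norm_num)
      (by rw [abs_le]; constructor <;> norm_num) (by rw [abs_le]; constructor <;> norm_num)
      hu.1 hu.2) (by fun_prop)
  have h1 : ∀ q ∈ (DD z).filter Nat.Prime, (1 / q : ℝ) *
      ∑ r ∈ (DD z).filter (fun r => ¬ q ∣ r), (yy z r - yy z (r * q)) ^ 2 / r.totient ≤
      c * (log q / q * (49 / 625 + 32 / 25 * (log q / log z) + -(2 / 3) * (log q / log z) ^ 2))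
        + 36 * C * (1 / q) := by
    intro q hq
    obtain ⟨hq, hp⟩ := mem_filter.1 hq
    refine (mul_le_mul_of_nonneg_left (inner hA hG hz hq hp) (by positivity)).trans_eq ?_
    ring
  refine (sum_le_sum h1).trans ?_
  have hsub : (DD z).filter Nat.Prime ⊆ (Icc 1 z).filter Nat.Prime :=
    filter_subset_filter _ (filter_subset _ _)
  refine (sum_le_sum_of_subset_of_nonneg hsub fun q hq _ => ?_).trans ?_
  · simp only [mem_filter, mem_Icc] at hq
    obtain ⟨h0, h1⟩ := t_mem hz hq.1.1 hq.1.2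
    have hl : 0 ≤ log (q : ℝ) := log_nonneg (by exact_mod_cast hq.1.1)
    have : 0 ≤ 49 / 625 + 32 / 25 * (log (q : ℝ) / log z) + -(2 / 3) * (log q / log z) ^ 2 := by
      nlinarith
    positivity
  · rw [sum_add_distrib, ← mul_sum, ← mul_sum]
    have := mul_le_mul_of_nonneg_left (abs_le.1 m).2 hc.le
    nlinarith

theorem rem_nonneg (X : ℕ) (w : ℕ → ℝ) (v : ℕ → ℕ) (D : ℕ) : 0 ≤ rem X w v D :=
  sum_nonneg fun _ _ => mul_nonneg (pow_nonneg (Nat.cast_nonneg _) _) (abs_nonneg _)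

theorem lower_alg {κ W R S l A Q G : ℝ} (hκ : 0 < κ) (hW : 0 ≤ W) (hR : 0 ≤ R)
    (hl1 : 7799 / 10000 * κ ≤ l) (hl2 : l ≤ 7801 / 10000 * κ) (hA : 6916 / 10000 * κ ≤ A)
    (hQ : Q ≤ 4965 / 10000 * κ) (hG0 : 0 ≤ G) (hG : G ≤ 10001 / 10000 * κ)
    (h : W * (A - Q) - (32 / 25 * G) ^ 2 * R ≤ l ^ 2 * S) :
    W * (8 / 25) / κ - 3 * R ≤ S := by
  have hl0 : 0 < l := by linarith
  have a1 : l ^ 2 ≤ (7801 / 10000 * κ) ^ 2 := pow_le_pow_left₀ hl0.le hl2 2
  have a2 : (7799 / 10000 * κ) ^ 2 ≤ l ^ 2 := pow_le_pow_left₀ (by positivity) hl1 2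
  have a3 : (32 / 25 * G) ^ 2 ≤ (32 / 25 * (10001 / 10000 * κ)) ^ 2 :=
    pow_le_pow_left₀ (by positivity) (by linarith) 2
  have a4 : (32 / 25 * G) ^ 2 ≤ 3 * l ^ 2 := by nlinarith [sq_nonneg κ]
  have a5 : l ^ 2 * (8 / 25) / κ ≤ A - Q := by
    rw [div_le_iff₀ hκ]
    nlinarith [sq_nonneg κ]
  have a6 := mul_le_mul_of_nonneg_left a5 hW
  have a7 := mul_le_mul_of_nonneg_right a4 hR
  refine le_of_mul_le_mul_left ?_ (pow_pos hl0 2)
  have e : l ^ 2 * (W * (8 / 25) / κ - 3 * R) = W * (l ^ 2 * (8 / 25) / κ) - 3 * l ^ 2 * R := by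
    ring
  rw [e]
  linarith

theorem exp_neg_le {v : ℝ} (hv : 0 ≤ v) :
    exp (-v) ≤ 1 - v + v ^ 2 / 2 - v ^ 3 / 6 + v ^ 4 / 24 := by
  have h := Real.sum_le_exp_of_nonneg hv 5
  simp only [sum_range_succ, range_zero, sum_empty, Nat.factorial] at h
  norm_num at h
  have hT : 0 < 1 + v + v ^ 2 / 2 + v ^ 3 / 6 + v ^ 4 / 24 := by positivity
  rw [exp_neg]
  refine (inv_anti₀ hT h).trans ?_
  rw [inv_eq_one_div, div_le_iff₀ hT]
  have : (1 - v + v ^ 2 / 2 - v ^ 3 / 6 + v ^ 4 / 24) * (1 + v + v ^ 2 / 2 + v ^ 3 / 6 + v ^ 4 / 24)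
      = 1 + v ^ 6 / 72 + v ^ 8 / 576 := by ring
  rw [this]
  have : 0 ≤ v ^ 6 / 72 + v ^ 8 / 576 := by positivity
  linarith

theorem mu_deriv {u : ℝ} (h0 : 1 / 751 ≤ u) (h1 : u ≤ 1 / 2) :
    HasDerivAt (fun t : ℝ => t⁻¹ - 5 / 2 + 25 / 8 * t - 125 / 48 * t ^ 2 + 625 / 384 * t ^ 3)
      (-(u ^ 2)⁻¹ + 25 / 8 - 125 / 24 * u + 625 / 128 * u ^ 2) u ∧
    HasDerivAt (fun t : ℝ => log t - 5 / 2 * t + 25 / 16 * t ^ 2 - 125 / 144 * t ^ 3
      + 625 / 1536 * t ^ 4) (u⁻¹ - 5 / 2 + 25 / 8 * u - 125 / 48 * u ^ 2 + 625 / 384 * u ^ 3) u ∧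
    |u⁻¹ - 5 / 2 + 25 / 8 * u - 125 / 48 * u ^ 2 + 625 / 384 * u ^ 3| ≤ 10 ^ 6 ∧
    |-(u ^ 2)⁻¹ + 25 / 8 - 125 / 24 * u + 625 / 128 * u ^ 2| ≤ 10 ^ 6 := by
  have hu : 0 < u := by linarith
  have d1 : HasDerivAt (fun t : ℝ => t) 1 u := hasDerivAt_id u
  have d2 : HasDerivAt (fun t : ℝ => t ^ 2) (2 * u) u := by simpa using hasDerivAt_pow 2 u
  have d3 : HasDerivAt (fun t : ℝ => t ^ 3) (3 * u ^ 2) u := by simpa using hasDerivAt_pow 3 u
  have d4 : HasDerivAt (fun t : ℝ => t ^ 4) (4 * u ^ 3) u := by simpa using hasDerivAt_pow 4 u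
  have di : HasDerivAt (fun t : ℝ => t⁻¹) (-(u ^ 2)⁻¹) u := hasDerivAt_inv hu.ne'
  have dl : HasDerivAt log u⁻¹ u := hasDerivAt_log hu.ne'
  have i1 : u⁻¹ ≤ 751 := by rw [inv_le_comm₀ hu (by norm_num)]; linarith
  have i0 : 0 < u⁻¹ := inv_pos.2 hu
  have i2 : (u ^ 2)⁻¹ ≤ 751 ^ 2 := by rw [← inv_pow]; exact pow_le_pow_left₀ i0.le i1 2
  have i3 : 0 < (u ^ 2)⁻¹ := by positivity
  have p2 : 0 ≤ u ^ 2 ∧ u ^ 2 ≤ 1 := ⟨by positivity, pow_le_one₀ hu.le (by linarith)⟩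
  have p3 : 0 ≤ u ^ 3 ∧ u ^ 3 ≤ 1 := ⟨by positivity, pow_le_one₀ hu.le (by linarith)⟩
  refine ⟨?_, ?_, ?_, ?_⟩
  · exact ((((di.sub_const (5 / 2)).fun_add (d1.const_mul (25 / 8))).fun_sub
      (d2.const_mul (125 / 48))).fun_add (d3.const_mul (625 / 384))).congr_deriv (by ring)
  · exact ((((dl.fun_sub (d1.const_mul (5 / 2))).fun_add (d2.const_mul (25 / 16))).fun_sub
      (d3.const_mul (125 / 144))).fun_add (d4.const_mul (625 / 1536))).congr_deriv (by ring)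
  · rw [abs_le]; constructor <;> linarith [p2.1, p2.2, p3.1, p3.2]
  · rw [abs_le]; constructor <;> linarith [p2.1, p2.2, p3.1, p3.2]

theorem log_ratio {a : ℝ} (h0 : 1 / 751 ≤ a) : log (1 / 2) - log a ≤ 594 / 100 := by
  have ha : 0 < a := by linarith
  have he : (403 : ℝ) ≤ exp 6 := by
    have h1 := Real.exp_one_gt_d9
    have h2 : exp 6 = exp 1 ^ 6 := by rw [← exp_nat_mul]; norm_num
    rw [h2]
    refine le_trans (by norm_num) (pow_le_pow_left₀ (by norm_num) h1.le 6)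
  have h3 : log (1 / 2 / a / exp 6) ≤ 1 / 2 / a / exp 6 - 1 := log_le_sub_one_of_pos (by positivity)
  rw [log_div (by positivity) (exp_pos _).ne', log_exp, log_div (by norm_num) ha.ne'] at h3
  have h4 : 1 / 2 / a ≤ 751 / 2 := by rw [div_le_iff₀ ha]; linarith
  have h5 : 1 / 2 / a / exp 6 ≤ 751 / 2 / 403 := div_le_div₀ (by norm_num) h4 (by norm_num) he
  linarith

end SieveAux

open SieveAux in
theorem sieve (hA : AbelStmt) (hM : MertStmt) (hG : GasyStmt) (hS : SelStmt) : SieveStmt := by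
  obtain ⟨c, C, hc, hG⟩ := hG
  obtain ⟨C', hM⟩ := hM
  have hC : 0 ≤ C := (abs_nonneg _).trans (hG 1 le_rfl)
  obtain ⟨K, hK⟩ := inv_sum hM (ε := c / (360000 * (C + 1))) (by positivity)
  refine ⟨c, hc, ?_⟩
  have hT : Tendsto (fun z : ℕ => c * log z) atTop atTop :=
    (tendsto_log_atTop.comp tendsto_natCast_atTop_atTop).const_mul_atTop hc
  filter_upwards [eventually_ge_atTop 2, hT.eventually_ge_atTop (180000 * C),
    hT.eventually_ge_atTop (10000 * (36 * c * C' + 36 * C * K))] with z hz hE1 hE2 X w v hw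
  have hz' : (1 : ℝ) < z := by exact_mod_cast hz
  have hL : 0 < log (z : ℝ) := log_pos hz'
  have hκ : 0 < c * log z := by positivity
  have hW : 0 ≤ ∑ k ∈ range X, w k := sum_nonneg fun k hk => hw k (mem_range.1 hk)
  have hGz := hG z hz'.le
  rw [Nat.floor_natCast, abs_le] at hGz
  have hG0 : 0 < GG z := by linarith [hGz.1]
  constructor
  · have h := (hS X z w v (fun r => if r ∈ DD z then 1 else 0) 1 (by omega) hw
      (fun r => by split_ifs <;> norm_num) (fun r hr => if_neg hr)).1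
    have e1 : ∑ r ∈ DD z, (if r ∈ DD z then (1 : ℝ) else 0) / r.totient = GG z :=
      sum_congr rfl fun r hr => by rw [if_pos hr]
    have e2 : ∑ r ∈ DD z, (if r ∈ DD z then (1 : ℝ) else 0) ^ 2 / r.totient = GG z :=
      sum_congr rfl fun r hr => by rw [if_pos hr, one_pow]
    simp only [e1, e2, one_mul] at h
    have h1 : GG z ≤ GG z ^ 2 * ((1001 / 1000) / (c * log z)) := by
      rw [← mul_div_assoc, le_div_iff₀ hκ]
      nlinarith [hGz.1]
    have h2 := mul_le_mul_of_nonneg_left h1 hW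
    refine le_of_mul_le_mul_left ?_ (pow_pos hG0 2)
    have e3 : GG z ^ 2 * ((∑ k ∈ range X, w k) * (1001 / 1000) / (c * log z) + rem X w v (z ^ 2))
        = (∑ k ∈ range X, w k) * (GG z ^ 2 * ((1001 / 1000) / (c * log z)))
          + GG z ^ 2 * rem X w v (z ^ 2) := by ring
    rw [e3]
    linarith
  · have h := (hS X z w v (yy z) (32 / 25) (by omega) hw (yy_le hz) (fun r hr => if_neg hr)).2
    have g1 := gq hA hG hz (b := 1) zero_le_one le_rfl (α := 32 / 25) (β := -1) (γ := 0)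
      (by rw [abs_le]; constructor <;> norm_num) (by norm_num) (by norm_num)
    have g2 := gq hA hG hz (b := 1) zero_le_one le_rfl (α := 1024 / 625) (β := -(64 / 25))
      (γ := 1) (by rw [abs_le]; constructor <;> norm_num)
      (by rw [abs_le]; constructor <;> norm_num) (by norm_num)
    rw [full hz, abs_le] at g1 g2
    have e1 : ∑ r ∈ DD z, yy z r / r.totient = ∑ r ∈ DD z,
        (32 / 25 + -1 * (log r / log z) + 0 * (log r / log z) ^ 2) / (r.totient : ℝ) :=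
      sum_congr rfl fun r hr => by rw [yy, if_pos hr]; ring
    have e2 : ∑ r ∈ DD z, yy z r ^ 2 / r.totient = ∑ r ∈ DD z,
        (1024 / 625 + -(64 / 25) * (log r / log z) + 1 * (log r / log z) ^ 2) / (r.totient : ℝ) :=
      sum_congr rfl fun r hr => by rw [yy, if_pos hr]; ring
    rw [← e1] at g1
    rw [← e2] at g2
    have q1 := qsum hA hc hC hG hM hz
    have q2 := mul_le_mul_of_nonneg_left (hK z (by omega)) (show 0 ≤ 36 * C by positivity)
    have q3 : 36 * C * (c / (360000 * (C + 1)) * log z) ≤ c * log z / 10000 := by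
      have : 36 * C * (c / (360000 * (C + 1)) * log z) = c * log z / 10000 * (C / (C + 1)) := by
        field_simp
        ring
      rw [this]
      exact mul_le_of_le_one_right (by positivity) ((div_le_one (by positivity)).2 (by linarith))
    exact lower_alg hκ hW (rem_nonneg _ _ _ _) (by linarith [g1.1]) (by linarith [g1.2])
      (by linarith [g2.1]) (by linarith) hG0.le (by linarith [hGz.2]) h

open SieveAux in
theorem mu_stmt (hA : AbelStmt) (hM : MertStmt) : MuStmt := by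
  obtain ⟨C, hM⟩ := hM
  have h10 : 0 < log (10 : ℝ) := log_pos (by norm_num)
  have hT : Tendsto (fun lam : ℕ => (lam : ℝ) * log 10) atTop atTop :=
    tendsto_natCast_atTop_atTop.atTop_mul_const h10
  filter_upwards [eventually_ge_atTop 9000000, hT.eventually_ge_atTop (4 * C * 10 ^ 8)]
    with lam hl hE
  have hl0 : (0 : ℝ) < lam := by exact_mod_cast (by omega : 0 < lam)
  set L := (lam : ℝ) * log 10 with hLdef
  have hL : 0 < L := by positivity
  have k1 : (12000 * kap lam : ℝ) ≤ lam := by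
    have : 12000 * kap lam ≤ lam := by unfold kap; omega
    exact_mod_cast this
  have k2 : (lam : ℝ) ≤ 12016 * kap lam := by
    have : lam ≤ 12016 * kap lam := by unfold kap; omega
    exact_mod_cast this
  set a : ℝ := 16 * kap lam / lam with ha
  have a1 : 1 / 751 ≤ a := by rw [ha, le_div_iff₀ hl0]; linarith
  have a2 : a ≤ 1 / 750 := by rw [ha, div_le_iff₀ hl0]; linarith
  have aL : a * L = log (zz lam) := by
    rw [ha, hLdef, zz]
    push_cast
    rw [log_pow]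
    push_cast
    field_simp
  set s := (range (10 ^ lam)).filter (fun p => p.Prime ∧ zz lam < p ∧ p ^ 2 ≤ 10 ^ lam) with hs
  have hz0 : (0 : ℝ) < zz lam := by unfold zz; positivity
  have hmem : ∀ p, p ∈ s ↔ p.Prime ∧ a * L < log p ∧ log p ≤ 1 / 2 * L := by
    intro p
    rw [hs, mem_filter, mem_range, aL]
    have key : p.Prime → (zz lam < p ↔ log (zz lam) < log p) ∧
        (p ^ 2 ≤ 10 ^ lam ↔ log p ≤ 1 / 2 * L) := by
      intro hp
      have hp0 : (0 : ℝ) < p := by exact_mod_cast hp.pos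
      refine ⟨by rw [log_lt_log_iff hz0 hp0, Nat.cast_lt], ?_⟩
      rw [← Nat.cast_le (α := ℝ)]
      push_cast
      rw [← log_le_log_iff (by positivity) (by positivity), log_pow, log_pow, ← hLdef]
      push_cast
      constructor <;> intro h <;> linarith
    constructor
    · rintro ⟨-, hp, h1, h2⟩
      exact ⟨hp, (key hp).1.1 h1, (key hp).2.1 h2⟩
    · rintro ⟨hp, h1, h2⟩
      have h3 := (key hp).2.2 h2
      refine ⟨?_, hp, (key hp).1.2 h1, h3⟩
      have := hp.two_le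
      nlinarith
  have m := mab hA hM hL (by linarith) (by linarith : a ≤ 1 / 2) (by linarith) s hmem _ _ _ _
    (fun u hu => mu_deriv (a1.trans hu.1) hu.2) (by
      refine ContinuousOn.add (ContinuousOn.sub (ContinuousOn.add (ContinuousOn.neg
        (ContinuousOn.inv₀ (by fun_prop) fun u hu => ?_)) (by fun_prop)) (by fun_prop))
        (by fun_prop)
      have : 0 < u := by linarith [hu.1]
      positivity)
  have e1 : ∑ p ∈ range (10 ^ lam), fP lam p * (p : ℝ) ^ (-(1 + 5 / 2 / L)) =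
      ∑ p ∈ s, (p : ℝ) ^ (-(1 + 5 / 2 / L)) := by
    rw [hs, sum_filter]
    refine sum_congr rfl fun p _ => ?_
    simp only [fP, ArithmeticFunction.coe_mk]
    split_ifs <;> simp
  rw [e1]
  have h1 : ∀ p ∈ s, (p : ℝ) ^ (-(1 + 5 / 2 / L)) ≤ L⁻¹ * (log p / p * ((log p / L)⁻¹ - 5 / 2
      + 25 / 8 * (log p / L) - 125 / 48 * (log p / L) ^ 2 + 625 / 384 * (log p / L) ^ 3)) := by
    intro p hp
    have hp := ((hmem p).1 hp).1
    have hp1 : (1 : ℝ) < p := by exact_mod_cast hp.one_lt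
    have hlp : 0 < log (p : ℝ) := log_pos hp1
    have hp0 : (0 : ℝ) < p := by linarith
    have x1 := exp_neg_le (v := 5 / 2 * (log p / L)) (by positivity)
    have x2 : (p : ℝ) ^ (-(1 + 5 / 2 / L)) = (p : ℝ)⁻¹ * exp (-(5 / 2 * (log p / L))) := by
      rw [rpow_def_of_pos hp0]
      conv_rhs => rw [← exp_log hp0, ← exp_neg, ← exp_add, log_exp]
      congr 1
      ring
    rw [x2]
    refine (mul_le_mul_of_nonneg_left x1 (by positivity)).trans_eq ?_
    field_simp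
    ring
  refine (sum_le_sum h1).trans ?_
  rw [← mul_sum, inv_mul_le_iff₀ hL]
  have lr := log_ratio a1
  have ha0 : 0 < a := by linarith
  have b1 : 0 ≤ 25 / 16 * a ^ 2 - 125 / 144 * a ^ 3 + 625 / 1536 * a ^ 4 := by
    have : 0 ≤ a ^ 2 * (25 / 16 - 125 / 144 * a) := mul_nonneg (by positivity) (by linarith)
    have : 0 ≤ a ^ 4 := by positivity
    nlinarith
  have b2 : (log (1 / 2) - 5 / 2 * (1 / 2) + 25 / 16 * (1 / 2) ^ 2 - 125 / 144 * (1 / 2) ^ 3
      + 625 / 1536 * (1 / 2) ^ 4 : ℝ) - (log a - 5 / 2 * a + 25 / 16 * a ^ 2 - 125 / 144 * a ^ 3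
      + 625 / 1536 * a ^ 4) ≤ 501 / 100 := by linarith
  have b3 := mul_le_mul_of_nonneg_left b2 hL.le
  linarith [(abs_le.1 m).2]

end Pool.Agent.Emirp

end MrgPart4

-- marker of a merged file
example : 731051 + 397681 = 731051 + 397681 := rfl
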