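import Pool.Agent.MP_e620c0_nt.Ana

-- ======== part 0: formerly Pool.Agent.MP_e620c0_nt.Tools
section MrgPart0

/-! Tools for the type II estimate: van der Corput, kernel sums, carries, diagonal terms. -/

set_option autoImplicit false

namespace Pool.Agent.Emirp

open Finset Filter Real

namespace Tools

theorem shift_sum (g : ℕ → ℂ) (N R r : ℕ) (hr : r ≤ R) (hg : ∀ n, N ≤ n → g n = 0) :
    ∑ n ∈ range (N + R), (if r ≤ n then g (n - r) else 0) = ∑ n ∈ range N, g n := by
  obtain ⟨K, rfl⟩ := Nat.exists_eq_add_of_le hr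
  have h1 : N + (r + K) = r + (N + K) := by ring
  rw [h1, sum_range_add, sum_range_add]
  have h2 : ∑ n ∈ range r, (if r ≤ n then g (n - r) else 0) = 0 :=
    sum_eq_zero fun n hn => if_neg (by have := mem_range.1 hn; omega)
  have h3 : ∑ n ∈ range N, (if r ≤ r + n then g (r + n - r) else 0) = ∑ n ∈ range N, g n :=
    sum_congr rfl fun n _ => by rw [if_pos (by omega), Nat.add_sub_cancel_left]
  have h4 : ∑ n ∈ range K, (if r ≤ r + (N + n) then g (r + (N + n) - r) else 0) = 0 :=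
    sum_eq_zero fun n _ => by
      rw [if_pos (by omega), Nat.add_sub_cancel_left]
      exact hg _ (by omega)
  rw [h2, h3, h4, zero_add, add_zero]

theorem normsq_sum (s : Finset ℕ) (u : ℕ → ℂ) :
    ((‖∑ r ∈ s, u r‖ ^ 2 : ℝ) : ℂ) = ∑ r ∈ s, ∑ r' ∈ s, u r * (starRingEnd ℂ) (u r') := by
  rw [← sum_mul_sum, ← map_sum, Complex.mul_conj, Complex.normSq_eq_norm_sq]

theorem harm (n : ℕ) : ∑ i ∈ Icc 1 n, (1 / (i : ℝ)) ≤ 1 + log n := by
  have h := harmonic_le_one_add_log n
  rw [harmonic_eq_sum_Icc] at h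
  simpa [one_div] using h

theorem sum_inv_abs (M : ℕ) :
    ∑ k ∈ Icc (-M : ℤ) M, 1 / (1 + |(k : ℝ)|) ≤ 2 * (1 + log (M + 1 : ℕ)) := by
  rw [sum_Icc_of_even_eq_range (f := fun k : ℤ => 1 / (1 + |(k : ℝ)|))
    (fun k => by simp) M]
  have h1 := harm (M + 1)
  have h2 : ∑ i ∈ Icc 1 (M + 1), (1 / (i : ℝ)) =
      ∑ i ∈ range (M + 1), 1 / (1 + |(((i : ℕ) : ℤ) : ℝ)|) := by
    rw [range_eq_Ico, ← Finset.Ico_add_one_right_eq_Icc,
      ← sum_Ico_add' (fun i : ℕ => (1 / (i : ℝ))) 0 (M + 1) 1]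
    refine sum_congr rfl fun i _ => ?_
    push_cast
    rw [abs_of_nonneg (Nat.cast_nonneg i), add_comm]
  rw [← h2, two_smul]
  have h3 : (0 : ℝ) ≤ 1 / (1 + |((0 : ℤ) : ℝ)|) := by positivity
  linarith

theorem KK_le_shift {M δ k : ℝ} (hM : 0 < M) (hδ : 0 ≤ δ) (hk : |k| - 1 ≤ M * δ) :
    KK (20 * M) δ ≤ 40 * M * (1 / (1 + |k|)) := by
  have h0 := abs_nonneg k
  have h1 := mul_nonneg hM.le hδ
  unfold KK
  rw [mul_one_div, div_le_div_iff₀ (by positivity) (by positivity)]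
  have h2 : 1 + |k| ≤ 2 * (1 + 20 * M * δ) := by nlinarith
  nlinarith

end Tools

open Tools

theorem vdc : VdcStmt := by
  intro s z N R c hR hc hz hcor
  set u : ℕ → ℕ → ℕ → ℂ := fun m r n => if r ≤ n then z m (n - r) else 0 with hu
  set D : ℝ := ∑ m ∈ s, ∑ n ∈ range N, ‖z m n‖ ^ 2 with hD
  set P : ℕ → ℕ → ℂ := fun r r' =>
    ∑ m ∈ s, ∑ n ∈ range (N + R), u m r n * (starRingEnd ℂ) (u m r' n) with hP
  have hR0 : (0 : ℝ) < R := by exact_mod_cast hR
  have hD0 : 0 ≤ D := sum_nonneg fun _ _ => sum_nonneg fun _ _ => by positivity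
  have hPle : ∀ r r', r ≤ r' → r' < R →
      P r r' = ∑ m ∈ s, ∑ n ∈ range N, z m (n + (r' - r)) * (starRingEnd ℂ) (z m n) := by
    intro r r' h1 h2
    refine sum_congr rfl fun m _ => ?_
    rw [← shift_sum (fun n => z m (n + (r' - r)) * (starRingEnd ℂ) (z m n)) N R r' h2.le
      (fun n hn => by simp [hz m n hn])]
    refine sum_congr rfl fun n _ => ?_
    by_cases h : r' ≤ n
    · have h3 : r ≤ n := h1.trans h
      have h4 : n - r' + (r' - r) = n - r := by omega
      simp only [hu, if_pos h, if_pos h3, h4]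
    · simp only [hu, if_neg h, map_zero, mul_zero]
  have hPc : ∀ r r', P r' r = (starRingEnd ℂ) (P r r') := by
    intro r r'
    simp only [hP, map_sum, map_mul, Complex.conj_conj]
    exact sum_congr rfl fun m _ => sum_congr rfl fun n _ => mul_comm _ _
  have hPb : ∀ r ∈ range R, ∀ r' ∈ range R, ‖P r r'‖ ≤ (if r = r' then D else 0) + c := by
    intro r hr r' hr'
    have hr := mem_range.1 hr
    have hr' := mem_range.1 hr'
    rcases lt_trichotomy r r' with h | h | h
    · rw [if_neg h.ne, zero_add, hPle r r' h.le hr']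
      exact hcor _ (by omega) (by omega)
    · subst h
      rw [if_pos rfl, hPle r r le_rfl hr]
      have h1 : ∑ m ∈ s, ∑ n ∈ range N, z m (n + (r - r)) * (starRingEnd ℂ) (z m n) = (D : ℂ) := by
        rw [hD]
        push_cast
        refine sum_congr rfl fun m _ => sum_congr rfl fun n _ => ?_
        rw [Nat.sub_self, add_zero, Complex.mul_conj, Complex.normSq_eq_norm_sq]
        push_cast
        rfl
      rw [h1, Complex.norm_real, Real.norm_of_nonneg hD0]
      linarith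
    · rw [if_neg h.ne', zero_add, hPc r' r, Complex.norm_conj, hPle r' r h.le hr]
      exact hcor _ (by omega) (by omega)
  have hcs : ∀ m, (R : ℝ) ^ 2 * ‖∑ n ∈ range N, z m n‖ ^ 2 ≤
      (N + R) * ∑ n ∈ range (N + R), ‖∑ r ∈ range R, u m r n‖ ^ 2 := by
    intro m
    have h1 : (R : ℂ) * ∑ n ∈ range N, z m n = ∑ n ∈ range (N + R), ∑ r ∈ range R, u m r n := by
      rw [sum_comm]
      rw [sum_congr rfl fun r hr => shift_sum (z m) N R r (mem_range.1 hr).le (hz m)]
      simp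
    have h2 : (R : ℝ) * ‖∑ n ∈ range N, z m n‖ ≤
        ∑ n ∈ range (N + R), ‖∑ r ∈ range R, u m r n‖ := by
      have h3 := norm_sum_le (range (N + R)) (fun n => ∑ r ∈ range R, u m r n)
      rw [← h1, norm_mul, Complex.norm_natCast] at h3
      exact h3
    have h4 := sq_sum_le_card_mul_sum_sq (s := range (N + R))
      (f := fun n => ‖∑ r ∈ range R, u m r n‖)
    rw [card_range] at h4
    push_cast at h4
    rw [← mul_pow]
    exact (pow_le_pow_left₀ (by positivity) h2 2).trans h4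
  have hexp : ∑ m ∈ s, ∑ n ∈ range (N + R), ‖∑ r ∈ range R, u m r n‖ ^ 2 ≤ R * D + R ^ 2 * c := by
    have h1 : ((∑ m ∈ s, ∑ n ∈ range (N + R), ‖∑ r ∈ range R, u m r n‖ ^ 2 : ℝ) : ℂ) =
        ∑ r ∈ range R, ∑ r' ∈ range R, P r r' := by
      rw [Complex.ofReal_sum]
      simp only [Complex.ofReal_sum, normsq_sum, hP]
      rw [sum_congr rfl fun m _ => sum_comm, sum_comm]
      refine sum_congr rfl fun r _ => ?_
      rw [sum_congr rfl fun m _ => sum_comm, sum_comm]
    have h2 : ‖∑ r ∈ range R, ∑ r' ∈ range R, P r r'‖ ≤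
        ∑ r ∈ range R, ∑ r' ∈ range R, ((if r = r' then D else 0) + c) :=
      (norm_sum_le _ _).trans (sum_le_sum fun r hr =>
        (norm_sum_le _ _).trans (sum_le_sum fun r' hr' => hPb r hr r' hr'))
    have h3 : ∑ r ∈ range R, ∑ r' ∈ range R, ((if r = r' then D else 0) + c) =
        R * D + R ^ 2 * c := by
      rw [sum_congr rfl fun r hr => by rw [sum_add_distrib, sum_ite_eq, if_pos hr]]
      simp
      ring
    rw [← h1, Complex.norm_real, h3] at h2
    exact (le_abs_self _).trans h2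
  have hfin : (R : ℝ) ^ 2 * ∑ m ∈ s, ‖∑ n ∈ range N, z m n‖ ^ 2 ≤
      (N + R) * (R * D + R ^ 2 * c) := by
    rw [mul_sum]
    refine (sum_le_sum fun m _ => hcs m).trans ?_
    rw [← mul_sum]
    exact mul_le_mul_of_nonneg_left hexp (by positivity)
  have h5 : (N + R) * (R * D + R ^ 2 * c) = (R : ℝ) ^ 2 * ((N + R) * (D / R + c)) := by
    field_simp
  rw [h5] at hfin
  exact le_of_mul_le_mul_left hfin (by positivity)

theorem ksum : KsumStmt := by
  intro N d a A β hd hco hA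
  have hd0 : (0 : ℝ) < d := by exact_mod_cast hd
  have hdz : (0 : ℤ) < d := by exact_mod_cast hd
  set n0 : ℤ := round (d * β) with hn0
  set θ : ℝ := d * β - n0 with hθ
  have hθ1 : |θ| ≤ 1 / 2 := abs_sub_round _
  have hθ2 := abs_le.1 hθ1
  set ι : ℕ → ℕ := fun n => ((a * n + n0) % d).toNat with hι
  have hιc : ∀ n, (ι n : ℤ) = (a * n + n0) % d := fun n =>
    Int.toNat_of_nonneg (Int.emod_nonneg _ hdz.ne')
  have hιl : ∀ n, ι n < d := fun n => by
    have h1 := Int.emod_lt_of_pos (a * n + n0) hdz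
    have h2 := hιc n
    omega
  set φ : ℕ → ℝ := fun i => KK A (nn ((i + θ) / d)) with hφ
  have hφ0 : ∀ i, 0 ≤ φ i := fun i => KK_nonneg hA (nn_nonneg _)
  have hterm : ∀ n : ℕ, KK A (nn (a * n / d + β)) = φ (ι n) := by
    intro n
    have h1 : (a * n + n0 : ℤ) = ι n + d * ((a * n + n0) / d) := by
      rw [hιc, Int.emod_add_mul_ediv]
    have h2 : (a * n + n0 : ℝ) = ι n + d * (((a * n + n0) / d : ℤ) : ℝ) := by exact_mod_cast h1
    have h3 : (a * n / d + β : ℝ) = (ι n + θ) / d + (((a * n + n0) / d : ℤ) : ℝ) := by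
      rw [hθ]
      field_simp
      linarith
    rw [h3, nn_add_int]
  have hfib : ∀ i, (((range N).filter (fun n => ι n = i)).card : ℝ) ≤ N / d + 1 := by
    intro i
    refine card_cong _ N d hd (fun n hn => mem_range.1 (mem_filter.1 hn).1) ?_
    intro n hn n' hn'
    have h1 := (mem_filter.1 hn).2
    have h2 := (mem_filter.1 hn').2
    have h3 : (a * n + n0) % d = (a * n' + n0) % d := by rw [← hιc, ← hιc, h1, h2]
    have h4 : (d : ℤ) ∣ (a * n + n0) - (a * n' + n0) :=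
      Int.dvd_of_emod_eq_zero (Int.emod_eq_emod_iff_emod_sub_eq_zero.1 h3)
    have h5 : (a * n + n0) - (a * n' + n0) = a * ((n : ℤ) - n') := by ring
    rw [h5] at h4
    exact hco.symm.dvd_of_dvd_mul_left h4
  have hsum : ∑ i ∈ range d, φ i ≤ KK A (nn (d * β) / d) + 4 * d * (1 + log d) := by
    obtain ⟨k, hk⟩ : ∃ k, d = k + 1 := ⟨d - 1, by omega⟩
    have hk' : (d : ℝ) = k + 1 := by exact_mod_cast hk
    have e1 : ∑ i ∈ range d, φ i = ∑ i ∈ range k, φ (i + 1) + φ 0 := by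
      rw [hk, sum_range_succ']
    have e2 : φ 0 ≤ KK A (nn (d * β) / d) := by
      refine KK_anti hA (div_nonneg (nn_nonneg _) hd0.le) ?_
      have h1 := nn_nat_mul d ((((0 : ℕ) : ℝ) + θ) / d)
      have h2 : (d : ℝ) * ((((0 : ℕ) : ℝ) + θ) / d) = d * β + ((-n0 : ℤ) : ℝ) := by
        rw [hθ]
        push_cast
        field_simp
        ring
      rw [h2, nn_add_int] at h1
      rw [div_le_iff₀ hd0]
      linarith
    have e3 : ∀ i ∈ range k, φ (i + 1) ≤ 2 * d * (1 / ((i + 1 : ℕ) : ℝ)) +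
        2 * d * (1 / ((k - 1 - i + 1 : ℕ) : ℝ)) := by
      intro i hi
      have hi := mem_range.1 hi
      have hc : ((k - 1 - i + 1 : ℕ) : ℝ) = k - i := by
        have : k - 1 - i + 1 = k - i := by omega
        rw [this, Nat.cast_sub hi.le]
      have hik : (i : ℝ) + 1 ≤ k := by exact_mod_cast hi
      have hi0 : (0 : ℝ) ≤ i := Nat.cast_nonneg i
      rw [hc]
      push_cast
      set p : ℝ := min (i + 1) (k - i) with hp
      have hp1 : p ≤ i + 1 := min_le_left _ _
      have hp2 : p ≤ k - i := min_le_right _ _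
      have hp0 : 0 < p := lt_min (by linarith) (by linarith)
      have h1 : p / (2 * d) ≤ nn ((((i + 1 : ℕ) : ℝ) + θ) / d) := by
        refine nn_ge_of 0 ?_ ?_
        · push_cast
          rw [sub_zero, div_le_div_iff₀ (by positivity) hd0]
          nlinarith
        · push_cast
          rw [sub_zero, le_sub_iff_add_le, div_add_div _ _ hd0.ne' (by positivity),
            div_le_one (by positivity)]
          nlinarith
      have h2 : φ (i + 1) ≤ 1 / (p / (2 * d)) :=
        (KK_anti hA (by positivity) h1).trans (KK_le_inv hA (by positivity))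
      have h3 : 1 / (p / (2 * d)) = 2 * d * (1 / p) := by field_simp
      rw [h3] at h2
      have h4 : (0 : ℝ) ≤ 2 * d * (1 / (i + 1)) := by positivity
      have h5 : (0 : ℝ) ≤ 2 * d * (1 / (k - i)) :=
        mul_nonneg (by positivity) (div_nonneg zero_le_one (by linarith))
      rcases min_choice ((i : ℝ) + 1) (k - i) with h | h
      · rw [hp, h] at h2
        linarith
      · rw [hp, h] at h2
        linarith
    have e4 : ∑ i ∈ range k, (1 / ((i + 1 : ℕ) : ℝ)) ≤ 1 + log d := by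
      have h1 := harm d
      have h2 : ∑ i ∈ Icc 1 d, (1 / (i : ℝ)) = ∑ i ∈ range d, (1 / ((i + 1 : ℕ) : ℝ)) := by
        rw [range_eq_Ico, sum_Ico_add' (fun i : ℕ => (1 / (i : ℝ))) 0 d 1]
        rfl
      rw [h2] at h1
      refine le_trans (sum_le_sum_of_subset_of_nonneg (range_mono (by omega)) ?_) h1
      intro i _ _
      positivity
    have e5 : ∑ i ∈ range k, (1 / ((k - 1 - i + 1 : ℕ) : ℝ)) =
        ∑ i ∈ range k, (1 / ((i + 1 : ℕ) : ℝ)) :=
      sum_range_reflect (fun i => (1 / ((i + 1 : ℕ) : ℝ))) k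
    have e6 := sum_le_sum e3
    rw [sum_add_distrib, ← mul_sum, ← mul_sum, e5] at e6
    have e7 := mul_le_mul_of_nonneg_left e4 (show (0 : ℝ) ≤ 2 * d by positivity)
    rw [e1]
    linarith
  rw [sum_congr rfl fun n _ => hterm n,
    ← sum_fiberwise_of_maps_to' (t := range d) (fun n _ => mem_range.2 (hιl n)) φ]
  refine le_trans (sum_le_sum fun i _ => ?_) ((mul_sum _ φ _).symm.le.trans
    (mul_le_mul_of_nonneg_left hsum (by positivity)))
  rw [sum_const, nsmul_eq_mul]
  exact mul_le_mul_of_nonneg_right (hfib i) (hφ0 i)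

theorem carry : CarryStmt := by
  intro m N Y H hm hY
  have h1 : ((range N).filter (fun n => Y ≤ m * n % Y + H)).card ≤
      (range (m * N / Y + 1) ×ˢ range (H / m + 1)).card := by
    refine card_le_card_of_injOn (fun n => (m * n / Y, (Y - 1 - m * n % Y) / m)) ?_ ?_
    · intro n hn
      have hn := mem_filter.1 (mem_coe.1 hn)
      have h2 := mem_range.1 hn.1
      refine mem_coe.2 (mem_product.2 ⟨mem_range.2 (Nat.lt_succ_of_le ?_),
        mem_range.2 (Nat.lt_succ_of_le ?_)⟩)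
      · exact Nat.div_le_div_right (Nat.mul_le_mul_left _ h2.le)
      · exact Nat.div_le_div_right (by have := hn.2; omega)
    · intro n _ n' _ h
      have h2 : m * n / Y = m * n' / Y := congrArg Prod.fst h
      have h3 : (Y - 1 - m * n % Y) / m = (Y - 1 - m * n' % Y) / m := congrArg Prod.snd h
      have h4 := Nat.div_add_mod (m * n) Y
      have h5 := Nat.div_add_mod (m * n') Y
      have h6 := Nat.mod_lt (m * n) hY
      have h7 := Nat.mod_lt (m * n') hY
      have h8 := Nat.div_add_mod (Y - 1 - m * n % Y) m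
      have h9 := Nat.div_add_mod (Y - 1 - m * n' % Y) m
      have h10 := Nat.mod_lt (Y - 1 - m * n % Y) hm
      have h11 := Nat.mod_lt (Y - 1 - m * n' % Y) hm
      rw [h2] at h4
      rw [h3] at h8
      have h12 : m * n < m * (n' + 1) := by rw [mul_add, mul_one]; omega
      have h13 : m * n' < m * (n + 1) := by rw [mul_add, mul_one]; omega
      have h14 := Nat.lt_of_mul_lt_mul_left h12
      have h15 := Nat.lt_of_mul_lt_mul_left h13
      omega
  rw [card_product, card_range, card_range] at h1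
  have h2 : ((m * N / Y : ℕ) : ℝ) ≤ m * N / Y := by
    have := Nat.cast_div_le (α := ℝ) (m := m * N) (n := Y)
    push_cast at this
    exact this
  have h3 : ((H / m : ℕ) : ℝ) ≤ H / m := Nat.cast_div_le
  calc _ ≤ (((m * N / Y + 1) * (H / m + 1) : ℕ) : ℝ) := by exact_mod_cast h1
    _ = (((m * N / Y : ℕ) : ℝ) + 1) * (((H / m : ℕ) : ℝ) + 1) := by push_cast; rfl
    _ ≤ _ := mul_le_mul (by linarith) (by linarith) (by positivity) (by positivity)

theorem diag : DiagStmt := by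
  intro s μ w ϱ x G hs hs3 hϱ hϱs hG
  have hG0 : 0 ≤ G := (sq_nonneg _).trans (hG 0)
  have hϱ0 : (0 : ℝ) < ϱ := by exact_mod_cast hϱ
  set M : ℕ := 10 ^ μ with hM
  set Z : ℕ := 10 ^ w with hZ
  have hMr : (M : ℝ) = 10 ^ μ := by rw [hM]; push_cast; rfl
  have hZr : (Z : ℝ) = 10 ^ w := by rw [hZ]; push_cast; rfl
  have hM0 : (0 : ℝ) < M := by rw [hMr]; positivity
  have hZ0 : (0 : ℝ) < Z := by rw [hZr]; positivity
  have hZn : 0 < Z := by exact_mod_cast hZ0
  set c : ℕ → ℕ := fun i => M * i / ϱ with hc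
  set om : ℕ → ℤ → ℝ := fun i k =>
    2 * F s x (i / ϱ + k / M) ^ 2 + 2 * (4 * 10 ^ s / M) ^ 2 with hom
  set ψ : ℕ → ℤ → ℝ := fun i k => om i k * (40 * M * (1 / (1 + |(k : ℝ)|))) with hψ
  have hψ0 : ∀ i k, 0 ≤ ψ i k := fun i k => by simp only [hψ, hom]; positivity
  set top : ℕ → ℝ := fun h => F w (sh μ x) (h / Z) ^ 2 with htop
  have hterm : ∀ j ∈ range M, ∀ h ∈ range Z,
      F (μ + w) x (((Z * j + h : ℕ) : ℝ) / 10 ^ (μ + w)) ^ 2 *
        KK (20 * 10 ^ μ) (nn (ϱ * (((Z * j + h : ℕ) : ℝ) / 10 ^ (μ + w))) / ϱ) ≤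
      G * top h * ∑ i ∈ range (ϱ + 1), ψ i (j - c i) := by
    intro j hj h hh
    have hj' : (j : ℝ) + 1 ≤ M := by exact_mod_cast mem_range.1 hj
    have hh' : (h : ℝ) < Z := by exact_mod_cast mem_range.1 hh
    have hj0 : (0 : ℝ) ≤ j := Nat.cast_nonneg j
    set t : ℝ := ((Z * j + h : ℕ) : ℝ) / 10 ^ (μ + w) with ht
    set v : ℝ := h / Z with hv
    have hv0 : 0 ≤ v := by positivity
    have hv1 : v < 1 := (div_lt_one hZ0).2 hh'
    have hMt : M * t = v + j := by
      rw [ht, hv, pow_add, ← hMr, ← hZr]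
      push_cast
      field_simp
      ring
    have ht0 : 0 ≤ t := by positivity
    have ht1 : t < 1 := by nlinarith
    have hF : F (μ + w) x t = F s x t * F (μ - s) (sh s x) (10 ^ s * t) * F w (sh μ x) v := by
      have h1 := F_add s (μ - s) x t
      rw [Nat.add_sub_cancel' hs] at h1
      have h2 := F_int w (sh μ x) v j
      rw [F_add, h1, ← hMr, hMt, ← h2]
      rfl
    obtain ⟨i, hi⟩ : ∃ i : ℕ, (i : ℤ) = round (ϱ * t) := by
      refine ⟨(round (ϱ * t)).toNat, Int.toNat_of_nonneg ?_⟩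
      rw [round_eq]
      exact Int.floor_nonneg.2 (by positivity)
    have hir : (i : ℝ) = (round (ϱ * t) : ℤ) := by exact_mod_cast hi
    have hiϱ : i < ϱ + 1 := by
      have h1 := abs_le.1 (abs_sub_round (ϱ * t))
      rw [← hir] at h1
      have h2 : (i : ℝ) < ϱ + 1 := by nlinarith
      exact_mod_cast h2
    have hnn : nn (ϱ * t) / ϱ = |t - i / ϱ| := by
      unfold nn
      rw [← hir, ← abs_of_pos hϱ0, ← abs_div, abs_of_pos hϱ0]
      congr 1
      field_simp
    have hc1 : (c i : ℝ) ≤ M * (i / ϱ) := by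
      have h1 : (c i : ℝ) ≤ ((M * i : ℕ) : ℝ) / ϱ := Nat.cast_div_le
      push_cast at h1
      rwa [mul_div_assoc] at h1
    have hc2 : M * ((i : ℝ) / ϱ) < c i + 1 := by
      have h1 : M * i < ϱ * (M * i / ϱ + 1) := Nat.lt_mul_div_succ _ hϱ
      have h2 : (M : ℝ) * i < ϱ * (c i + 1) := by exact_mod_cast h1
      rw [← mul_div_assoc, div_lt_iff₀ hϱ0]
      linarith
    set k : ℤ := j - c i with hk
    have hkr : (k : ℝ) = j - c i := by rw [hk]; push_cast; rfl
    have hd : |M * (t - i / ϱ) - k| ≤ 1 := by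
      rw [abs_le, mul_sub, hMt, hkr]
      constructor <;> linarith
    have hKK : KK (20 * 10 ^ μ) (nn (ϱ * t) / ϱ) ≤ 40 * M * (1 / (1 + |(k : ℝ)|)) := by
      rw [hnn, ← hMr]
      refine KK_le_shift hM0 (abs_nonneg _) ?_
      have h1 := abs_sub_abs_le_abs_sub (k : ℝ) (M * (t - i / ϱ))
      rw [abs_sub_comm, abs_mul, abs_of_pos hM0] at h1
      linarith
    have hlip : F s x t ^ 2 ≤ om i k := by
      have h1 := F_lip s x t (i / ϱ + k / M)
      have h2 : |t - (i / ϱ + k / M)| ≤ 1 / M := by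
        have h3 : t - (i / ϱ + k / M) = (M * (t - i / ϱ) - k) / M := by
          field_simp
          ring
        rw [h3, abs_div, abs_of_pos hM0]
        exact div_le_div_of_nonneg_right hd hM0.le
      have h4 : |F s x t - F s x (i / ϱ + k / M)| ≤ 4 * 10 ^ s / M :=
        h1.trans ((mul_le_mul_of_nonneg_left h2 (by positivity)).trans (mul_one_div _ _).le)
      have h5 := pow_le_pow_left₀ (abs_nonneg _) h4 2
      rw [sq_abs] at h5
      simp only [hom]
      nlinarith [sq_nonneg (F s x t - 2 * F s x (i / ϱ + k / M))]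
    have hK0 : 0 ≤ KK (20 * 10 ^ μ) (nn (ϱ * t) / ϱ) :=
      KK_nonneg (by positivity) (div_nonneg (nn_nonneg _) hϱ0.le)
    have h6 : F s x t ^ 2 * KK (20 * 10 ^ μ) (nn (ϱ * t) / ϱ) ≤
        ∑ i ∈ range (ϱ + 1), ψ i (j - c i) :=
      (mul_le_mul hlip hKK hK0 ((sq_nonneg _).trans hlip)).trans
        (single_le_sum (f := fun i => ψ i (j - c i)) (fun i _ => hψ0 _ _) (mem_range.2 hiϱ))
    have h7 : F (μ - s) (sh s x) (10 ^ s * t) ^ 2 * top h ≤ G * top h :=
      mul_le_mul_of_nonneg_right (hG _) (sq_nonneg _)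
    calc _ = (F (μ - s) (sh s x) (10 ^ s * t) ^ 2 * top h) *
          (F s x t ^ 2 * KK (20 * 10 ^ μ) (nn (ϱ * t) / ϱ)) := by
          rw [hF]
          simp only [htop, hv]
          ring
      _ ≤ _ := mul_le_mul h7 h6 (mul_nonneg (sq_nonneg _) hK0)
          (mul_nonneg hG0 (sq_nonneg _))
  have htsum : ∑ h ∈ range Z, top h ≤ 2 := by
    have h1 := pars w (sh μ x) hZn 1 0
    rw [Nat.gcd_one_right, ← hZr, div_self hZ0.ne'] at h1
    simp only [Nat.cast_one, one_mul, add_zero] at h1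
    simp only [htop]
    linarith
  have hj : ∀ i ∈ range (ϱ + 1), ∑ j ∈ range M, ψ i (j - c i) ≤ ∑ k ∈ Icc (-M : ℤ) M, ψ i k := by
    intro i hi
    have h1 : c i ≤ M := by
      have h2 := Nat.lt_succ_iff.1 (mem_range.1 hi)
      exact Nat.div_le_of_le_mul (by rw [mul_comm ϱ M]; exact Nat.mul_le_mul_left _ h2)
    rw [← sum_image (s := range M) (g := fun j : ℕ => (j : ℤ) - c i) (f := ψ i)
      (fun a _ b _ hab => by simpa using hab)]
    refine sum_le_sum_of_subset_of_nonneg ?_ fun k _ _ => hψ0 _ _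
    intro k hk
    obtain ⟨j, hj, rfl⟩ := mem_image.1 hk
    have h3 := mem_range.1 hj
    exact mem_Icc.2 ⟨by omega, by omega⟩
  have hom70 : ∀ k, ∑ i ∈ range (ϱ + 1), om i k ≤ 70 := by
    intro k
    have h1 := pars s x hϱ 1 (k / M)
    rw [Nat.gcd_one_right] at h1
    simp only [Nat.cast_one, one_mul] at h1
    have hϱr : (ϱ : ℝ) ≤ 10 ^ s := by exact_mod_cast hϱs
    have h2 : (ϱ : ℝ) / 10 ^ s ≤ 1 := (div_le_one (by positivity)).2 hϱr
    have h3 : F s x (ϱ / ϱ + k / M) ^ 2 ≤ 1 :=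
      pow_le_one₀ (F_nonneg _ _ _) (F_le_one _ _ _)
    have h4 : ((ϱ : ℝ) + 1) * (4 * 10 ^ s / M) ^ 2 ≤ 32 := by
      have h5 : (10 : ℝ) ^ (3 * s) ≤ 10 ^ (2 * μ) := pow_le_pow_right₀ (by norm_num) hs3
      rw [mul_comm 3, mul_comm 2, pow_mul, pow_mul, ← hMr] at h5
      have h6 : (1 : ℝ) ≤ ϱ := by exact_mod_cast hϱ
      rw [div_pow, ← mul_div_assoc, div_le_iff₀ (by positivity)]
      have h7 : ((ϱ : ℝ) + 1) * (4 * 10 ^ s) ^ 2 ≤ (2 * 10 ^ s) * (4 * 10 ^ s) ^ 2 :=
        mul_le_mul_of_nonneg_right (by linarith) (by positivity)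
      nlinarith
    simp only [hom]
    rw [sum_add_distrib, ← mul_sum, sum_range_succ, sum_const, card_range, nsmul_eq_mul]
    push_cast
    nlinarith
  have hlog : 2 * (1 + log (M + 1 : ℕ)) ≤ 8 * ((μ : ℝ) + 1) := by
    have h1 : ((M + 1 : ℕ) : ℝ) ≤ 2 ^ (4 * (μ + 1)) := by
      have h2 : (10 : ℝ) ^ μ ≤ 16 ^ μ := pow_le_pow_left₀ (by norm_num) (by norm_num) μ
      have h3 : (1 : ℝ) ≤ 16 ^ μ := one_le_pow₀ (by norm_num)
      rw [pow_mul, pow_succ]
      push_cast
      rw [hMr]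
      norm_num
      linarith
    have h4 := log_le_log (by positivity) h1
    rw [log_pow] at h4
    have h5 := log_two_lt_d9
    have h6 : (0 : ℝ) ≤ μ := Nat.cast_nonneg μ
    push_cast at h4 ⊢
    nlinarith
  have hall : ∑ j ∈ range M, ∑ i ∈ range (ϱ + 1), ψ i (j - c i) ≤ 70 * (40 * M) * (8 * (μ + 1)) := by
    rw [sum_comm]
    refine (sum_le_sum hj).trans ?_
    rw [sum_comm]
    have h1 : ∀ k ∈ Icc (-M : ℤ) M, ∑ i ∈ range (ϱ + 1), ψ i k ≤
        70 * (40 * M) * (1 / (1 + |(k : ℝ)|)) := by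
      intro k _
      simp only [hψ]
      rw [← sum_mul, mul_assoc 70]
      exact mul_le_mul_of_nonneg_right (hom70 k) (by positivity)
    refine (sum_le_sum h1).trans ?_
    rw [← mul_sum]
    exact mul_le_mul_of_nonneg_left ((sum_inv_abs M).trans hlog) (by positivity)
  have hMZ : 10 ^ (μ + w) = Z * M := by rw [pow_add, mul_comm]
  rw [hMZ, sum_range_mul]
  refine (sum_le_sum fun j hj => sum_le_sum (hterm j hj)).trans ?_
  have h8 : ∀ j ∈ range M, ∑ h ∈ range Z, G * top h * ∑ i ∈ range (ϱ + 1), ψ i (j - c i) ≤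
      G * 2 * ∑ i ∈ range (ϱ + 1), ψ i (j - c i) := by
    intro j _
    rw [← sum_mul, ← mul_sum]
    exact mul_le_mul_of_nonneg_right (mul_le_mul_of_nonneg_left htsum hG0)
      (sum_nonneg fun i _ => hψ0 _ _)
  refine (sum_le_sum h8).trans ?_
  rw [← mul_sum, ← hMr]
  have h9 := mul_le_mul_of_nonneg_left hall (show 0 ≤ G * 2 by positivity)
  have h10 : 0 ≤ (M : ℝ) * (μ + 1) * G := by positivity
  nlinarith

end Pool.Agent.Emirp

end MrgPart0

-- ======== part 1: formerly Pool.Agent.MP_e620c0_nt.Nu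
section MrgPart1

/-! The majorant for integers with many prime factors: size, exponential sums, majorization. -/

set_option autoImplicit false

namespace Pool.Agent.Emirp

open Finset Filter Real
open scoped ArithmeticFunction.vonMangoldt

namespace Nu

theorem mul_nonneg' {a b : ArithmeticFunction ℝ} (ha : ∀ n, 0 ≤ a n) (hb : ∀ n, 0 ≤ b n) (n : ℕ) :
    0 ≤ (a * b) n := by
  rw [ArithmeticFunction.mul_apply]
  exact sum_nonneg fun p _ => mul_nonneg (ha _) (hb _)

theorem fP_nonneg (lam n : ℕ) : 0 ≤ fP lam n := by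
  show 0 ≤ if _ then (1 : ℝ) else 0
  split_ifs <;> norm_num

theorem one_apply_le (n : ℕ) :
    0 ≤ (1 : ArithmeticFunction ℝ) n ∧ (1 : ArithmeticFunction ℝ) n ≤ 1 := by
  rw [ArithmeticFunction.one_apply]
  split_ifs <;> norm_num

theorem pow_nonneg' (lam j n : ℕ) : 0 ≤ (fP lam ^ j) n := by
  induction j generalizing n with
  | zero => rw [pow_zero]; exact (one_apply_le n).1
  | succ j ih => rw [pow_succ]; exact mul_nonneg' ih (fP_nonneg lam) n

theorem lt_two_pow {lam n : ℕ} (h : n < 10 ^ lam) : n ≤ 2 ^ (4 * lam) := by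
  rw [pow_mul]
  exact h.le.trans (Nat.pow_le_pow_left (by norm_num) _)

theorem card_pf_le {lam n : ℕ} (h : n < 10 ^ lam) : n.primeFactors.card ≤ 4 * lam := by
  rcases Nat.eq_zero_or_pos n with rfl | h0
  · simp
  have h1 : 2 ^ n.primeFactors.card ≤ ∏ p ∈ n.primeFactors, p :=
    pow_card_le_prod _ _ _ fun p hp => (Nat.prime_of_mem_primeFactors hp).two_le
  have h2 := Nat.le_of_dvd h0 (Nat.prod_primeFactors_dvd n)
  exact (Nat.pow_le_pow_iff_right (by norm_num)).1 (h1.trans (h2.trans (lt_two_pow h)))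

theorem log_le {lam n : ℕ} (h : n < 10 ^ lam) : log n ≤ 4 * lam := by
  rcases Nat.eq_zero_or_pos n with rfl | h0
  · simp
  have h1 := log_le_log (Nat.cast_pos.2 h0) (Nat.cast_le.2 (lt_two_pow h))
  rw [Nat.cast_pow, log_pow] at h1
  have h2 : log ((2 : ℕ) : ℝ) ≤ 1 := by
    have := log_two_lt_d9
    push_cast
    linarith
  have h3 : (0 : ℝ) ≤ ((4 * lam : ℕ) : ℝ) := Nat.cast_nonneg _
  calc log n ≤ ((4 * lam : ℕ) : ℝ) * 1 := h1.trans (mul_le_mul_of_nonneg_left h2 h3)
    _ = _ := by push_cast; ring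

/-- one more prime factor costs at most the number of prime divisors -/
theorem conv_le {lam : ℕ} {s : ArithmeticFunction ℝ} {W : ℝ} (hW : 0 ≤ W)
    (hs : ∀ n < 10 ^ lam, |s n| ≤ W) (n : ℕ) (hn : n < 10 ^ lam) :
    |(s * fP lam) n| ≤ W * (4 * lam) := by
  rw [ArithmeticFunction.mul_apply]
  refine (abs_sum_le_sum_abs _ _).trans ?_
  have h1 : ∀ p ∈ n.divisorsAntidiagonal, |s p.1 * fP lam p.2| ≤
      W * if p.2.Prime then (1 : ℝ) else 0 := by
    intro p hp
    have h2 : p.1 ≤ n := Nat.divisor_le (Nat.fst_mem_divisors_of_mem_antidiagonal hp)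
    rw [abs_mul, abs_of_nonneg (fP_nonneg _ _)]
    refine mul_le_mul (hs _ (h2.trans_lt hn)) ?_ (fP_nonneg _ _) hW
    show (if _ then (1 : ℝ) else 0) ≤ _
    split_ifs with k1 k2
    · rfl
    · exact absurd k1.1 k2
    · norm_num
    · rfl
  refine (sum_le_sum h1).trans ?_
  rw [← mul_sum, Nat.sum_divisorsAntidiagonal' fun _ b => if b.Prime then (1 : ℝ) else 0,
    sum_boole, ← Nat.primeFactors_eq_to_filter_divisors_prime]
  refine mul_le_mul_of_nonneg_left ?_ hW
  exact_mod_cast card_pf_le hn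

theorem pow_le (lam j n : ℕ) (hn : n < 10 ^ lam) : |(fP lam ^ j) n| ≤ (4 * (lam : ℝ)) ^ j := by
  induction j generalizing n with
  | zero =>
    rw [pow_zero, pow_zero, abs_of_nonneg (one_apply_le n).1]
    exact (one_apply_le n).2
  | succ j ih =>
    rw [pow_succ, pow_succ]
    exact conv_le (by positivity) ih n hn

theorem le_mul_tau {a : ArithmeticFunction ℝ} {W : ℝ} (hW : 0 ≤ W) {n : ℕ} (h : |a n| ≤ W) :
    |a n| ≤ W * tau n := by
  rcases eq_or_ne n 0 with rfl | h0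
  · simp [tau_zero]
  · exact h.trans (le_mul_of_one_le_right hW (one_le_tau h0))

theorem S_add (lam : ℕ) (x : ℕ → ℝ) (a b : ArithmeticFunction ℝ) (T₀ T₁ : ℕ) :
    S lam x ⇑(a + b) T₀ T₁ = S lam x a T₀ T₁ + S lam x b T₀ T₁ := by
  unfold S
  rw [← sum_add_distrib]
  refine sum_congr rfl fun k _ => ?_
  rw [ArithmeticFunction.add_apply]
  push_cast
  ring

/-- restriction of an arithmetic function -/
def cut (s : ArithmeticFunction ℝ) (P : ℕ → Prop) [DecidablePred P] : ArithmeticFunction ℝ :=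
  ⟨fun n => if P n then s n else 0, by simp⟩

theorem cut_apply (s : ArithmeticFunction ℝ) (P : ℕ → Prop) [DecidablePred P] (n : ℕ) :
    cut s P n = if P n then s n else 0 := rfl

theorem abs_cut_le (s : ArithmeticFunction ℝ) (P : ℕ → Prop) [DecidablePred P] (n : ℕ) :
    |cut s P n| ≤ |s n| := by
  rw [cut_apply]
  split_ifs <;> simp

theorem cut_ne {s : ArithmeticFunction ℝ} {P : ℕ → Prop} [DecidablePred P] {n : ℕ}
    (h : cut s P n ≠ 0) : P n ∧ s n ≠ 0 := by
  rw [cut_apply] at h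
  by_cases k : P n
  · exact ⟨k, by rwa [if_pos k] at h⟩
  · exact absurd (if_neg k) h

/-- first passage above the Vaughan parameter -/
theorem passage {lam T₀ T₁ : ℕ} {x : ℕ → ℝ} {E : ℝ} (hU : UU lam < T₀)
    (hb : ∀ (a b : ArithmeticFunction ℝ) (W₁ W₂ : ℝ), 0 ≤ W₁ → 0 ≤ W₂ →
      (∀ m < 10 ^ lam, |a m| ≤ W₁ * tau m) → (∀ n < 10 ^ lam, |b n| ≤ W₂ * tau n) →
      (∀ m n, a m ≠ 0 → b n ≠ 0 → m * n < 10 ^ lam → UU lam < m ∧ m * UU lam ≤ 10 ^ lam) →
      ‖S lam x ⇑(a * b) T₀ T₁‖ ≤ W₁ * W₂ * E) (r : ℕ) :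
    ∀ (s : ArithmeticFunction ℝ) (W : ℝ), 0 ≤ W → (∀ m, s m ≠ 0 → m ≤ UU lam) →
      (∀ n < 10 ^ lam, |s n| ≤ W) →
      ‖S lam x ⇑(s * fP lam ^ r) T₀ T₁‖ ≤ r * (W * (4 * (lam : ℝ)) ^ r * E) := by
  induction r with
  | zero =>
    intro s W _ hs _
    have : S lam x ⇑(s * fP lam ^ 0) T₀ T₁ = 0 := by
      rw [pow_zero, mul_one]
      refine sum_eq_zero fun k hk => ?_
      have : s k = 0 := by
        by_contra h
        have := hs k h
        have := (mem_Ico.1 hk).1
        omega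
      simp [this]
    rw [this]
    simp
  | succ r ih =>
    intro s W hW hs hsW
    have hc := conv_le hW hsW
    have e1 : s * fP lam ^ (r + 1) = cut (s * fP lam) (· ≤ UU lam) * fP lam ^ r +
        cut (s * fP lam) (UU lam < ·) * fP lam ^ r := by
      rw [← add_mul, pow_succ', ← mul_assoc]
      congr 1
      ext n
      rw [ArithmeticFunction.add_apply, cut_apply, cut_apply]
      by_cases h : n ≤ UU lam
      · rw [if_pos h, if_neg (not_lt.2 h), add_zero]
      · rw [if_neg h, if_pos (not_le.1 h), zero_add]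
    have h1 := ih (cut (s * fP lam) (· ≤ UU lam)) (W * (4 * lam)) (by positivity)
      (fun m hm => (cut_ne hm).1) fun n hn => (abs_cut_le _ _ _).trans (hc n hn)
    have h2 := hb (cut (s * fP lam) (UU lam < ·)) (fP lam ^ r) (W * (4 * lam)) ((4 * (lam : ℝ)) ^ r)
      (by positivity) (by positivity)
      (fun m hm => le_mul_tau (by positivity) ((abs_cut_le _ _ _).trans (hc m hm)))
      (fun n hn => le_mul_tau (by positivity) (pow_le lam r n hn))
      (fun m n hm _ _ => by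
        obtain ⟨k1, k2⟩ := cut_ne hm
        refine ⟨k1, ?_⟩
        rw [ArithmeticFunction.mul_apply] at k2
        obtain ⟨p, hp, k3⟩ := exists_ne_zero_of_sum_ne_zero k2
        have k4 := hs _ (left_ne_zero_of_mul k3)
        have k5 : p.2 ^ 2 ≤ 10 ^ lam := by
          by_contra k
          exact right_ne_zero_of_mul k3 (if_neg fun h => k h.2.2)
        have k6 : UU lam ^ 4 ≤ 10 ^ lam := by
          rw [UU, ← pow_mul]
          exact Nat.pow_le_pow_right (by norm_num) (by have := kap_le lam; omega)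
        rw [← (Nat.mem_divisorsAntidiagonal.1 hp).1]
        refine (Nat.pow_le_pow_iff_left (n := 2) (by norm_num)).1 ?_
        calc (p.1 * p.2 * UU lam) ^ 2 = p.1 ^ 2 * p.2 ^ 2 * UU lam ^ 2 := by ring
          _ ≤ UU lam ^ 2 * 10 ^ lam * UU lam ^ 2 := by gcongr
          _ = UU lam ^ 4 * 10 ^ lam := by ring
          _ ≤ 10 ^ lam * 10 ^ lam := by gcongr
          _ = _ := by ring)
    rw [e1, S_add]
    refine (norm_add_le _ _).trans ((add_le_add h1 h2).trans (le_of_eq ?_))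
    push_cast
    ring

theorem one_le_log {lam m : ℕ} (hl : 4 ≤ lam) (h0 : m ≠ 0) (hm : m ^ 2 ≤ 10 ^ lam) :
    1 ≤ log ((10 : ℝ) ^ (lam - 1) / m) := by
  have hm0 : (0 : ℝ) < m := Nat.cast_pos.2 (Nat.pos_of_ne_zero h0)
  have h1 : 10 * m ≤ 10 ^ (lam - 1) := by
    refine (Nat.pow_le_pow_iff_left (n := 2) (by norm_num)).1 ?_
    calc (10 * m) ^ 2 = 10 ^ 2 * m ^ 2 := by ring
      _ ≤ 10 ^ 2 * 10 ^ lam := by gcongr
      _ = 10 ^ (2 + lam) := by rw [pow_add]
      _ ≤ 10 ^ ((lam - 1) * 2) := Nat.pow_le_pow_right (by norm_num) (by omega)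
      _ = _ := by rw [pow_mul]
  rw [le_log_iff_exp_le (by positivity), le_div_iff₀ hm0]
  have h2 : ((10 * m : ℕ) : ℝ) ≤ ((10 ^ (lam - 1) : ℕ) : ℝ) := Nat.cast_le.2 h1
  push_cast at h2
  have := exp_one_lt_three
  nlinarith

theorem aa_apply (lam m : ℕ) : aa lam m = if m ^ 2 ≤ 10 ^ lam then
    (∑ j ∈ Icc 15 751, (fP lam ^ j) m / j.factorial) / log (10 ^ (lam - 1) / m) else 0 := rfl

theorem sum_nonneg' (lam m : ℕ) : 0 ≤ ∑ j ∈ Icc 15 751, (fP lam ^ j) m / (j.factorial : ℝ) :=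
  sum_nonneg fun _ _ => div_nonneg (pow_nonneg' _ _ _) (Nat.cast_nonneg _)

theorem term_le {lam j n N : ℕ} (hl : 4 ≤ lam) (hn : n < 10 ^ lam) (hj : j ≤ N) :
    (fP lam ^ j) n / (j.factorial : ℝ) ≤ (4 * (lam : ℝ)) ^ N := by
  have h1 : (4 : ℝ) ≤ lam := by exact_mod_cast hl
  have h2 : (1 : ℝ) ≤ j.factorial := by exact_mod_cast j.factorial_pos
  calc (fP lam ^ j) n / (j.factorial : ℝ) ≤ (fP lam ^ j) n := div_le_self (pow_nonneg' _ _ _) h2
    _ ≤ (4 * (lam : ℝ)) ^ j := (le_abs_self _).trans (pow_le lam j n hn)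
    _ ≤ _ := pow_le_pow_right₀ (by linarith) hj

theorem aa_bound {lam : ℕ} (hl : 4 ≤ lam) (m : ℕ) :
    0 ≤ aa lam m ∧ aa lam m ≤ 737 * (4 * (lam : ℝ)) ^ 751 := by
  rcases eq_or_ne m 0 with rfl | h0
  · rw [ArithmeticFunction.map_zero]
    exact ⟨le_rfl, by positivity⟩
  rw [aa_apply]
  split_ifs with h
  · have h1 := one_le_log hl h0 h
    refine ⟨div_nonneg (sum_nonneg' _ _) (by linarith), (div_le_self (sum_nonneg' _ _) h1).trans ?_⟩
    have hm : m < 10 ^ lam := by
      by_contra k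
      have k1 : 10 ^ lam * 10 ^ lam ≤ m * m := Nat.mul_le_mul (not_lt.1 k) (not_lt.1 k)
      have k2 : 1 < 10 ^ lam := Nat.one_lt_pow (by omega) (by norm_num)
      nlinarith
    refine (sum_le_card_nsmul _ _ _ fun j hj => term_le hl hm (mem_Icc.1 hj).2).trans ?_
    rw [Nat.card_Icc, nsmul_eq_mul]
    norm_num
  · exact ⟨le_rfl, by positivity⟩

theorem card_pf {n : ℕ} (h : Squarefree n) :
    n.primeFactors.card = ArithmeticFunction.cardFactors n := by
  rw [← (ArithmeticFunction.cardDistinctFactors_eq_cardFactors_iff_squarefree h.ne_zero).2 h,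
    ArithmeticFunction.cardDistinctFactors_apply, ← Nat.toFinset_factors, List.card_toFinset]

theorem cardFactors_div {n p : ℕ} (h0 : n ≠ 0) (hp : p.Prime) (hd : p ∣ n) :
    ArithmeticFunction.cardFactors n = ArithmeticFunction.cardFactors (n / p) + 1 := by
  conv_lhs => rw [← Nat.div_mul_cancel hd]
  rw [ArithmeticFunction.cardFactors_mul (Nat.div_pos (Nat.le_of_dvd (Nat.pos_of_ne_zero h0) hd)
    hp.pos).ne' hp.ne_zero, ArithmeticFunction.cardFactors_apply_prime hp]

/-- a squarefree number is counted once for every ordering of its prime factors -/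
theorem factorial_le (lam r : ℕ) : ∀ n, Squarefree n →
    (∀ p, p.Prime → p ∣ n → zz lam < p ∧ p ^ 2 ≤ 10 ^ lam) →
    ArithmeticFunction.cardFactors n = r → (r.factorial : ℝ) ≤ (fP lam ^ r) n := by
  induction r with
  | zero =>
    intro n hn _ h
    obtain rfl := (ArithmeticFunction.cardFactors_eq_zero_iff_eq_zero_or_one.1 h).resolve_left
      hn.ne_zero
    simp
  | succ r ih =>
    intro n hn hp h
    rw [pow_succ, ArithmeticFunction.mul_apply,
      Nat.sum_divisorsAntidiagonal' fun a b => (fP lam ^ r) a * fP lam b]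
    have h1 : n.primeFactors ⊆ n.divisors := by
      rw [Nat.primeFactors_eq_to_filter_divisors_prime]
      exact filter_subset _ _
    refine le_trans ?_ (sum_le_sum_of_subset_of_nonneg h1 fun b _ _ =>
      mul_nonneg (pow_nonneg' _ _ _) (fP_nonneg _ _))
    refine le_trans ?_ (card_nsmul_le_sum _ _ (r.factorial : ℝ) fun p hpn => ?_)
    · rw [card_pf hn, h, nsmul_eq_mul, Nat.factorial_succ]
      push_cast
      rfl
    · have k1 := Nat.prime_of_mem_primeFactors hpn
      have k2 := Nat.dvd_of_mem_primeFactors hpn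
      have k3 : fP lam p = 1 := if_pos ⟨k1, hp p k1 k2⟩
      rw [k3, mul_one]
      have k4 := cardFactors_div hn.ne_zero k1 k2
      exact ih _ (hn.squarefree_of_dvd (Nat.div_dvd_of_dvd k2))
        (fun q hq hd => hp q hq (hd.trans (Nat.div_dvd_of_dvd k2))) (by omega)

end Nu

open Nu in
theorem nu_stmt (hB : Bil2Stmt) (hV : VauStmt) : NuStmt := by
  obtain ⟨C₁, h₁⟩ := hB
  obtain ⟨C₂, h₂⟩ := hV
  refine ⟨C₁ + C₂ + 1505, ?_⟩
  filter_upwards [h₁, h₂, eventually_ge_atTop 12000] with lam h₁ h₂ hl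
  have hl4 : 4 ≤ lam := by omega
  have hl' : (12000 : ℝ) ≤ lam := by exact_mod_cast hl
  have hl1 : (1 : ℝ) ≤ lam := by linarith
  have haa := aa_bound hl4
  have hbig : 2 * (737 * (4 * (lam : ℝ)) ^ 752) ≤ (lam : ℝ) ^ 1505 := by
    calc 2 * (737 * (4 * (lam : ℝ)) ^ 752) = 1474 * (4 * (lam : ℝ)) ^ 752 := by
          rw [← mul_assoc]; norm_num
      _ ≤ lam * ((lam : ℝ) ^ 2) ^ 752 := by
          gcongr
          · linarith
          · nlinarith
      _ = _ := by rw [← pow_mul, ← pow_succ']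
  refine ⟨fun k hk => ⟨?_, ?_⟩, fun x B hx T₀ T₁ hT => ?_⟩
  · exact add_nonneg (mul_nonneg' (fun n => (haa n).1) (fun _ => ArithmeticFunction.vonMangoldt_nonneg) k)
      (sum_nonneg fun j _ => div_nonneg (pow_nonneg' _ _ _) (Nat.cast_nonneg _))
  · have k1 : (aa lam * Λ) k ≤ 737 * (4 * (lam : ℝ)) ^ 752 := by
      rw [ArithmeticFunction.mul_apply]
      calc ∑ p ∈ k.divisorsAntidiagonal, aa lam p.1 * Λ p.2
          ≤ ∑ p ∈ k.divisorsAntidiagonal, 737 * (4 * (lam : ℝ)) ^ 751 * Λ p.2 :=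
            sum_le_sum fun p _ =>
              mul_le_mul_of_nonneg_right (haa _).2 ArithmeticFunction.vonMangoldt_nonneg
        _ = 737 * (4 * (lam : ℝ)) ^ 751 * log k := by
            rw [← mul_sum, Nat.sum_divisorsAntidiagonal' fun _ b => Λ b,
              ArithmeticFunction.vonMangoldt_sum]
        _ ≤ 737 * (4 * (lam : ℝ)) ^ 751 * (4 * lam) := by
            gcongr
            exact log_le hk
        _ = _ := by rw [mul_assoc, ← pow_succ]
    have k2 : ∑ j ∈ Icc 15 751, (fP lam ^ (j + 1)) k / ((j + 1).factorial : ℝ) ≤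
        737 * (4 * (lam : ℝ)) ^ 752 := by
      refine (sum_le_card_nsmul _ _ _ fun j hj =>
        term_le (N := 752) hl4 hk (by have := (mem_Icc.1 hj).2; omega)).trans ?_
      rw [Nat.card_Icc, nsmul_eq_mul]
      norm_num
    calc nu lam k ≤ (lam : ℝ) ^ 1505 := by rw [nu]; linarith
      _ ≤ _ := pow_le_pow_right₀ hl1 (by omega)
  · have hB0 : 0 < B := by linarith [hx.1]
    set E : ℝ := 10 ^ lam * (lam : ℝ) ^ (C₁ + C₂) / B ^ 49 with hE
    have hE0 : 0 ≤ E := by positivity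
    have hE1 : 10 ^ lam * (lam : ℝ) ^ C₁ / B ^ 49 ≤ E := by
      rw [hE]
      gcongr
      omega
    have hE2 : 10 ^ lam * (lam : ℝ) ^ C₂ / B ^ 49 ≤ E := by
      rw [hE]
      gcongr
      omega
    have hU : UU lam < T₀ := by
      refine lt_of_lt_of_le ?_ hT.1
      exact Nat.pow_lt_pow_right (by norm_num) (by have := kap_le lam; omega)
    have k1 : ‖S lam x ⇑(aa lam * Λ) T₀ T₁‖ ≤ 737 * (4 * (lam : ℝ)) ^ 752 * E := by
      refine (h₂ x B hx T₀ T₁ hT (aa lam) _ (by positivity)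
        (fun m => (abs_of_nonneg (haa m).1).trans_le (haa m).2) fun m hm => ?_).trans ?_
      · by_contra k
        exact hm (if_neg k)
      · gcongr
        · linarith
        · norm_num
    have k2 : ∀ j ∈ Icc 15 751, ‖S lam x ⇑(fP lam ^ (j + 1)) T₀ T₁ / ((j + 1).factorial : ℂ)‖ ≤
        (4 * (lam : ℝ)) ^ 752 * E := by
      intro j hj
      have k3 := passage (x := x) (E := E) hU (fun a b W₁ W₂ p1 p2 p3 p4 p5 =>
        (h₁ x B hx T₀ T₁ hT a b W₁ W₂ p1 p2 p3 p4 p5).trans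
          (mul_le_mul_of_nonneg_left hE1 (by positivity))) (j + 1) 1 1 zero_le_one
        (fun m hm => by
          rw [ArithmeticFunction.one_apply] at hm
          have : m = 1 := by
            by_contra k
            exact hm (if_neg k)
          rw [this]
          exact Nat.one_le_pow _ _ (by norm_num))
        fun n _ => (abs_of_nonneg (one_apply_le n).1).trans_le (one_apply_le n).2
      rw [one_mul, one_mul] at k3
      have k4 : ((j + 1 : ℕ) : ℝ) ≤ (j + 1).factorial := by exact_mod_cast Nat.self_le_factorial _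
      rw [norm_div, Complex.norm_natCast, div_le_iff₀ (Nat.cast_pos.2 (Nat.factorial_pos _)),
        mul_comm]
      refine k3.trans ?_
      gcongr
      · linarith
      · have := (mem_Icc.1 hj).2
        omega
    have e1 : S lam x (nu lam) T₀ T₁ = S lam x ⇑(aa lam * Λ) T₀ T₁ +
        ∑ j ∈ Icc 15 751, S lam x ⇑(fP lam ^ (j + 1)) T₀ T₁ / ((j + 1).factorial : ℂ) := by
      unfold S
      simp only [sum_div]
      rw [sum_comm, ← sum_add_distrib]
      refine sum_congr rfl fun k _ => ?_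
      rw [nu]
      push_cast
      rw [add_mul, sum_mul]
      congr 1
      exact sum_congr rfl fun j _ => by ring
    rw [e1]
    refine (norm_add_le _ _).trans ?_
    have k5 := (norm_sum_le _ _).trans (sum_le_card_nsmul _ _ _ k2)
    rw [Nat.card_Icc, nsmul_eq_mul, show ((751 + 1 - 15 : ℕ) : ℝ) = 737 by norm_num] at k5
    calc _ ≤ 2 * (737 * (4 * (lam : ℝ)) ^ 752) * E := by linarith
      _ ≤ (lam : ℝ) ^ 1505 * E := by gcongr
      _ = _ := by rw [hE, pow_add _ (C₁ + C₂)]; ring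

open Nu in
theorem maj : MajStmt := by
  filter_upwards [kap_tendsto.eventually_ge_atTop 750] with lam hk k hk0 hk1 hsq hp h16
  have hl := kap_le lam
  have hl' := lt_kap lam
  have hl4 : 4 ≤ lam := by omega
  have haa := aa_bound hl4
  have hr : ArithmeticFunction.cardFactors k ≤ 750 := by
    have h1 : zz lam ^ k.primeFactors.card ≤ ∏ p ∈ k.primeFactors, p :=
      pow_card_le_prod _ _ _ fun p h =>
        (hp p (Nat.prime_of_mem_primeFactors h) (Nat.dvd_of_mem_primeFactors h)).le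
    rw [Nat.prod_primeFactors_of_squarefree hsq, card_pf hsq, zz, ← pow_mul] at h1
    have h2 := (Nat.pow_lt_pow_iff_right (by norm_num : 1 < 10)).1 (h1.trans_lt hk1)
    by_contra h3
    have h4 : 16 * kap lam * 751 ≤ 16 * kap lam * ArithmeticFunction.cardFactors k :=
      Nat.mul_le_mul_left _ (by omega)
    omega
  have hA : 0 ≤ (aa lam * Λ) k :=
    mul_nonneg' (fun n => (haa n).1) (fun _ => ArithmeticFunction.vonMangoldt_nonneg) k
  have hB : ∀ j ∈ Icc 15 751, 0 ≤ (fP lam ^ (j + 1)) k / ((j + 1).factorial : ℝ) :=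
    fun j _ => div_nonneg (pow_nonneg' _ _ _) (Nat.cast_nonneg _)
  rw [nu]
  by_cases hall : ∀ p, p.Prime → p ∣ k → p ^ 2 ≤ 10 ^ lam
  · obtain ⟨j, hj⟩ : ∃ j, ArithmeticFunction.cardFactors k = j + 1 :=
      ⟨ArithmeticFunction.cardFactors k - 1, by omega⟩
    have h1 := factorial_le lam (j + 1) k hsq (fun p h hd => ⟨hp p h hd, hall p h hd⟩) hj
    have h2 := single_le_sum hB (mem_Icc.2 ⟨by omega, by omega⟩ : j ∈ Icc 15 751)
    have h3 : 1 ≤ (fP lam ^ (j + 1)) k / ((j + 1).factorial : ℝ) :=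
      (one_le_div (Nat.cast_pos.2 (Nat.factorial_pos _))).2 h1
    linarith
  · push Not at hall
    obtain ⟨p, hpp, hd, hbig⟩ := hall
    have hc := cardFactors_div hsq.ne_zero hpp hd
    obtain ⟨m, rfl⟩ := hd
    rw [Nat.mul_div_cancel_left _ hpp.pos] at hc
    have hm0 : m ≠ 0 := right_ne_zero_of_mul hsq.ne_zero
    have hm : m ^ 2 ≤ 10 ^ lam := by
      by_contra h
      have k1 : 10 ^ lam * 10 ^ lam ≤ p ^ 2 * m ^ 2 := Nat.mul_le_mul hbig.le (not_le.1 h).le
      have k2 : p * m * (p * m) < 10 ^ lam * 10 ^ lam := Nat.mul_lt_mul'' hk1 hk1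
      nlinarith
    have h1 := factorial_le lam _ m (hsq.squarefree_of_dvd (dvd_mul_left _ _))
      (fun q hq hqd => ⟨hp q hq (hqd.mul_left _),
        (Nat.pow_le_pow_left (Nat.le_of_dvd (Nat.pos_of_ne_zero hm0) hqd) 2).trans hm⟩) rfl
    have h2 : 1 ≤ ∑ j ∈ Icc 15 751, (fP lam ^ j) m / (j.factorial : ℝ) :=
      ((one_le_div (Nat.cast_pos.2 (Nat.factorial_pos _))).2 h1).trans
        (single_le_sum (f := fun j => (fP lam ^ j) m / (j.factorial : ℝ))
          (fun j _ => div_nonneg (pow_nonneg' _ _ _) (Nat.cast_nonneg _))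
          (mem_Icc.2 ⟨by omega, by omega⟩))
    have h3 := one_le_log hl4 hm0 hm
    have hm0' : (0 : ℝ) < m := Nat.cast_pos.2 (Nat.pos_of_ne_zero hm0)
    have h4 : log ((10 : ℝ) ^ (lam - 1) / m) ≤ Λ p := by
      rw [ArithmeticFunction.vonMangoldt_apply_prime hpp]
      refine log_le_log (by positivity) ?_
      rw [div_le_iff₀ hm0']
      exact_mod_cast hk0
    have h5 : 1 ≤ aa lam m * Λ p := by
      rw [aa_apply, if_pos hm, div_mul_eq_mul_div, le_div_iff₀ (by linarith)]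
      exact mul_le_mul h2 h4 (by linarith) (by linarith)
    have h6 : aa lam m * Λ p ≤ (aa lam * Λ) (p * m) := by
      rw [ArithmeticFunction.mul_apply]
      exact single_le_sum (f := fun q : ℕ × ℕ => aa lam q.1 * Λ q.2)
        (fun q _ => mul_nonneg (haa _).1 ArithmeticFunction.vonMangoldt_nonneg)
        (Nat.mem_divisorsAntidiagonal.2 ⟨mul_comm m p, hsq.ne_zero⟩ : (m, p) ∈ _)
    linarith [sum_nonneg hB]

end Pool.Agent.Emirp

end MrgPart1

-- ======== part 2: formerly Pool.Agent.MP_e620c0_nt.Good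
section MrgPart2

/-! Typical fractions: small denominators and the count of bad numerators. -/

set_option autoImplicit false

namespace Pool.Agent.Emirp

open Finset Filter Real

namespace Good

/-- cutting a long sum into runs -/
theorem runs (g : ℕ → ℝ) (hg : ∀ j, 0 ≤ g j) (lam L l j₀ : ℕ) (c : ℝ) (hL : 0 < L)
    (hl : j₀ + l ≤ lam) (h : ∀ j₁ < lam, c ≤ ∑ j ∈ range L, g (j₁ + j)) :
    ((l / L : ℕ) : ℝ) * c ≤ ∑ j ∈ range l, g (j₀ + j) := by
  have h1 : L * (l / L) ≤ l := Nat.mul_div_le l L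
  calc ((l / L : ℕ) : ℝ) * c = ∑ _i ∈ range (l / L), c := by simp
    _ ≤ ∑ i ∈ range (l / L), ∑ j ∈ range L, g (j₀ + (L * i + j)) := by
        refine sum_le_sum fun i hi => ?_
        have hi' : i + 1 ≤ l / L := mem_range.1 hi
        have h2 : L * (i + 1) ≤ L * (l / L) := Nat.mul_le_mul_left L hi'
        have h3 : j₀ + L * i < lam := by nlinarith
        simpa [add_assoc] using h _ h3
    _ = ∑ j ∈ range (L * (l / L)), g (j₀ + j) := (sum_range_mul L (l / L) fun j => g (j₀ + j)).symm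
    _ ≤ ∑ j ∈ range l, g (j₀ + j) :=
        sum_le_sum_of_subset_of_nonneg (range_mono h1) fun j _ _ => hg _

/-- the decay bound for the phases of the reversal -/
theorem decay_ph (hD : DecayStmt) (lam s l : ℕ) (α t : ℝ) (h : s + (l + 1) ≤ lam) :
    F (l + 1) (sh s (ph lam α)) t ^ 2 ≤
      exp (-2 * ∑ j ∈ range l, nn (99 * α * 10 ^ (lam - s - (l + 1) + j)) ^ 2) := by
  refine (hD l _ t).trans (le_of_eq ?_)
  congr 2
  rw [← sum_range_reflect]
  refine sum_congr rfl fun i hi => ?_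
  have hi' : i < l := mem_range.1 hi
  have e1 : lam - 1 - (s + (l - 1 - i)) = (lam - s - (l + 1) + i) + 1 := by omega
  have e2 : lam - 1 - (s + (l - 1 - i + 1)) = lam - s - (l + 1) + i := by omega
  simp only [sh, ph]
  rw [e1, e2]
  congr 2
  ring

/-- mixing from a lower bound on all runs -/
theorem mix_of_runs (hD : DecayStmt) (lam : ℕ) (α B c : ℝ) (hL : 0 < L0 lam) (hk : 0 < kap lam)
    (hB1 : 1 ≤ B) (hB2 : B ≤ 10 ^ kap lam)
    (hc : 50 * log B ≤ (((2050 * kap lam - 1) / L0 lam : ℕ) : ℝ) * c)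
    (h : ∀ j₁ < lam, c ≤ ∑ j ∈ range (L0 lam), nn (99 * α * 10 ^ (j₁ + j)) ^ 2) :
    Mix lam (ph lam α) B := by
  refine ⟨hB1, hB2, fun s t hs => ?_⟩
  obtain ⟨l, hl⟩ : ∃ l, 2050 * kap lam = l + 1 := ⟨2050 * kap lam - 1, by omega⟩
  rw [hl] at hs hc ⊢
  refine (decay_ph hD lam s l α t hs).trans ?_
  have h1 := runs (fun j => nn (99 * α * 10 ^ j) ^ 2) (fun j => sq_nonneg _) lam (L0 lam) l
    (lam - s - (l + 1)) c hL (by omega) h
  simp only [Nat.add_sub_cancel] at hc
  have hB0 : 0 < B := by linarith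
  have h2 : 1 / B ^ 100 = exp (-(100 * log B)) := by
    rw [exp_neg, one_div]
    congr 1
    rw [show (100 : ℝ) * log B = ((100 : ℕ) : ℝ) * log B by norm_num, ← log_pow,
      exp_log (by positivity)]
  rw [h2]
  exact exp_le_exp.2 (by linarith)

theorem nn_ten {y : ℝ} (h : nn y ≤ 1 / 20) : 10 * nn y ≤ nn (10 * y) := by
  refine le_nn fun n => ?_
  unfold nn at h ⊢
  set u := y - round y with hu
  have e1 : 10 * y - n = 10 * u - ((n - 10 * round y : ℤ) : ℝ) := by
    rw [hu]; push_cast; ring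
  rw [e1]
  generalize n - 10 * round y = m
  rcases lt_trichotomy m 0 with hm | hm | hm
  · have h1 : (m : ℝ) ≤ -1 := by exact_mod_cast (by omega : m ≤ -1)
    have h2 := abs_le.1 h
    have h3 := le_abs_self (10 * u - m)
    linarith [h2.1]
  · subst hm
    simp [abs_mul]
  · have h1 : (1 : ℝ) ≤ m := by exact_mod_cast (by omega : 1 ≤ m)
    have h2 := abs_le.1 h
    have h3 := neg_le_abs (10 * u - m)
    linarith [h2.2]

theorem run_small (L : ℕ) (y : ℝ) (h : 1 / (10 : ℝ) ^ L ≤ nn y) :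
    1 / 400 ≤ ∑ j ∈ range L, nn (y * 10 ^ j) ^ 2 := by
  by_contra hcon
  push Not at hcon
  have hs : ∀ j < L, nn (y * 10 ^ j) ≤ 1 / 20 := by
    intro j hj
    have h1 : nn (y * 10 ^ j) ^ 2 ≤ ∑ j ∈ range L, nn (y * 10 ^ j) ^ 2 :=
      single_le_sum (f := fun j => nn (y * 10 ^ j) ^ 2) (fun j _ => sq_nonneg _) (mem_range.2 hj)
    have h2 := nn_nonneg (y * 10 ^ j)
    nlinarith
  have key : ∀ j ≤ L, 10 ^ j * nn y ≤ nn (y * 10 ^ j) := by
    intro j
    induction j with
    | zero => intro _; simp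
    | succ j ih =>
      intro hj
      have h1 := ih (by omega)
      have h2 := nn_ten (hs j (by omega))
      have e1 : 10 * (y * 10 ^ j) = y * 10 ^ (j + 1) := by ring
      rw [e1] at h2
      calc (10 : ℝ) ^ (j + 1) * nn y = 10 * (10 ^ j * nn y) := by ring
        _ ≤ 10 * nn (y * 10 ^ j) := by linarith
        _ ≤ _ := h2
  have h1 := key L le_rfl
  have h2 := nn_le_half (y * 10 ^ L)
  have h3 : (0 : ℝ) < 10 ^ L := by positivity
  rw [div_le_iff₀ h3] at h
  linarith

theorem cop {q : ℕ} (hq : Nat.Coprime q 330) (j : ℕ) : Nat.Coprime q (99 * 10 ^ j) := by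
  have h3 : Nat.Coprime q 33 := Nat.Coprime.coprime_dvd_right (by norm_num) hq
  have h10 : Nat.Coprime q 10 := Nat.Coprime.coprime_dvd_right (by norm_num) hq
  have h99 : Nat.Coprime q 99 :=
    Nat.Coprime.coprime_dvd_right (by norm_num : 99 ∣ 33 ^ 2) (Nat.Coprime.pow_right 2 h3)
  exact Nat.Coprime.mul_right h99 (Nat.Coprime.pow_right j h10)

theorem L0_le (lam : ℕ) : L0 lam ≤ kap lam := by
  have := L0_sq lam
  nlinarith [Nat.zero_le (L0 lam)]

theorem log_ten_ge : 1 ≤ log 10 := by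
  rw [le_log_iff_exp_le (by norm_num)]
  have := exp_one_lt_d9
  linarith

theorem log_ten_le : log 10 ≤ 58 / 25 := by
  have h1 : log ((10 : ℝ) ^ 3) ≤ log ((2 : ℝ) ^ 10) := log_le_log (by norm_num) (by norm_num)
  rw [log_pow, log_pow] at h1
  have := log_two_lt_d9
  push_cast at h1
  linarith

/-- lower bound for the distance to the integers in terms of the first decimal -/
noncomputable def del (d : ℕ) : ℝ := min (d : ℝ) (9 - d) / 10

theorem del_le (q a L j : ℕ) (hq : 0 < q) (hj : j < L) :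
    del (dg (L - 1 - j) (10 ^ L * a / q)) ^ 2 ≤ nn ((a : ℝ) / q * 10 ^ j) ^ 2 := by
  have e1 : dg (L - 1 - j) (10 ^ L * a / q) = (10 ^ (j + 1) * a / q) % 10 := by
    unfold dg
    rw [Nat.div_div_eq_div_mul]
    have : 10 ^ L * a = 10 ^ (j + 1) * a * 10 ^ (L - 1 - j) := by
      rw [mul_right_comm, ← pow_add]
      congr 2
      omega
    rw [this, Nat.mul_div_mul_right _ _ (by positivity)]
  rw [e1]
  set m := 10 ^ (j + 1) * a / q with hm
  have h1 : m * q ≤ 10 ^ (j + 1) * a := Nat.div_mul_le_self _ _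
  have h2 : 10 ^ (j + 1) * a < (m + 1) * q := by
    rw [hm]
    exact (Nat.div_lt_iff_lt_mul hq).1 (Nat.lt_succ_self _)
  have hq' : (0 : ℝ) < q := by exact_mod_cast hq
  have h1' : (m : ℝ) ≤ 10 * ((a : ℝ) / q * 10 ^ j) := by
    have : (m : ℝ) * q ≤ 10 ^ (j + 1) * a := by exact_mod_cast h1
    rw [show 10 * ((a : ℝ) / q * 10 ^ j) = 10 ^ (j + 1) * a / q by ring, le_div_iff₀ hq']
    exact this
  have h2' : 10 * ((a : ℝ) / q * 10 ^ j) ≤ m + 1 := by
    have : (10 : ℝ) ^ (j + 1) * a < (m + 1) * q := by exact_mod_cast h2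
    rw [show 10 * ((a : ℝ) / q * 10 ^ j) = 10 ^ (j + 1) * a / q by ring, div_le_iff₀ hq']
    exact this.le
  have h3 : (m : ℝ) = 10 * ((m / 10 : ℕ) : ℝ) + ((m % 10 : ℕ) : ℝ) := by
    exact_mod_cast (Nat.div_add_mod m 10).symm
  have h4 : ((m % 10 : ℕ) : ℝ) ≤ 9 := by
    exact_mod_cast (by omega : m % 10 ≤ 9)
  have h5 : (0 : ℝ) ≤ ((m % 10 : ℕ) : ℝ) := Nat.cast_nonneg _
  have h0 : 0 ≤ del (m % 10) := by
    unfold del
    exact div_nonneg (le_min h5 (by linarith)) (by norm_num)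
  refine pow_le_pow_left₀ h0 ?_ 2
  have h6 := min_le_left ((m % 10 : ℕ) : ℝ) (9 - ((m % 10 : ℕ) : ℝ))
  have h7 := min_le_right ((m % 10 : ℕ) : ℝ) (9 - ((m % 10 : ℕ) : ℝ))
  refine nn_ge_of ((m / 10 : ℕ) : ℤ) ?_ ?_
  · unfold del
    rw [Int.cast_natCast]
    linarith
  · unfold del
    rw [Int.cast_natCast]
    linarith

theorem exp_neg_le {v : ℝ} (hv : 0 ≤ v) : exp (-v) ≤ 1 / (1 + v + v ^ 2 / 2) := by
  rw [exp_neg, one_div]
  exact inv_anti₀ (by positivity) (quadratic_le_exp_of_nonneg hv)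

theorem mean_le : ∑ d ∈ range 10, exp (-(del d ^ 2 / 4)) ≤ 10 * exp (-(147 / 10000)) := by
  have h1 : ∑ d ∈ range 10, exp (-(del d ^ 2 / 4)) ≤
      ∑ d ∈ range 10, 1 / (1 + del d ^ 2 / 4 + (del d ^ 2 / 4) ^ 2 / 2) :=
    sum_le_sum fun d _ => exp_neg_le (by positivity)
  have h2 : (1 : ℝ) - 147 / 10000 ≤ exp (-(147 / 10000)) := by
    have := add_one_le_exp (-(147 / 10000) : ℝ)
    linarith
  refine h1.trans (le_trans ?_ (mul_le_mul_of_nonneg_left h2 (by norm_num)))
  simp only [sum_range_succ, sum_range_zero, del]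
  norm_num

theorem fibre (q P kk : ℕ) (hq : 0 < q) (hP : 0 < P) :
    (((range q).filter (fun a => P * a / q = kk)).card : ℝ) ≤ q / P + 1 := by
  have hP' : (0 : ℝ) < P := by exact_mod_cast hP
  have hsub : (range q).filter (fun a => P * a / q = kk) ⊆
      Ico ⌈(kk : ℝ) * q / P⌉₊ ⌈((kk : ℝ) + 1) * q / P⌉₊ := by
    intro a ha
    have h := (mem_filter.1 ha).2
    have h1 : kk * q ≤ P * a := h ▸ Nat.div_mul_le_self _ _
    have h2 : P * a < (kk + 1) * q := (Nat.div_lt_iff_lt_mul hq).1 (by omega)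
    rw [mem_Ico, Nat.ceil_le, Nat.lt_ceil, div_le_iff₀ hP', lt_div_iff₀ hP']
    constructor
    · have : (kk : ℝ) * q ≤ P * a := by exact_mod_cast h1
      linarith
    · have : (P : ℝ) * a < (kk + 1) * q := by exact_mod_cast h2
      linarith
  have h1 : (((range q).filter (fun a => P * a / q = kk)).card : ℝ) ≤
      ((⌈((kk : ℝ) + 1) * q / P⌉₊ - ⌈(kk : ℝ) * q / P⌉₊ : ℕ) : ℝ) := by
    have := card_le_card hsub
    rw [Nat.card_Ico] at this
    exact_mod_cast this
  refine h1.trans ?_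
  have h2 : (⌈((kk : ℝ) + 1) * q / P⌉₊ : ℝ) < ((kk : ℝ) + 1) * q / P + 1 :=
    Nat.ceil_lt_add_one (by positivity)
  have h3 : (kk : ℝ) * q / P ≤ ⌈(kk : ℝ) * q / P⌉₊ := Nat.le_ceil _
  have h4 : ((kk : ℝ) + 1) * q / P = (kk : ℝ) * q / P + q / P := by ring
  rcases le_total ⌈(kk : ℝ) * q / P⌉₊ ⌈((kk : ℝ) + 1) * q / P⌉₊ with h5 | h5
  · rw [Nat.cast_sub h5]
    linarith
  · rw [Nat.sub_eq_zero_of_le h5]
    have : (0 : ℝ) ≤ q / P := by positivity
    simp only [Nat.cast_zero]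
    linarith

theorem count (q L : ℕ) (hq : 10 ^ L < q) :
    (((range q).filter (fun a : ℕ =>
      ∑ j ∈ range L, nn ((a : ℝ) / q * 10 ^ j) ^ 2 < 29 / 500 * L)).card : ℝ)
      ≤ 2 * q * exp (-(L / 5000)) := by
  have hq0 : 0 < q := lt_of_le_of_lt (Nat.zero_le _) hq
  have hP : 0 < 10 ^ L := by positivity
  set Φ : ℕ → ℝ := fun kk => ∏ i ∈ range L, exp (-(del (dg i kk) ^ 2 / 4)) with hΦ
  have hΦ0 : ∀ kk, 0 ≤ Φ kk := fun kk => prod_nonneg fun i _ => (exp_pos _).le
  have h1 : (((range q).filter (fun a : ℕ =>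
      ∑ j ∈ range L, nn ((a : ℝ) / q * 10 ^ j) ^ 2 < 29 / 500 * L)).card : ℝ) ≤
      ∑ a ∈ range q, exp (29 / 2000 * L) * Φ (10 ^ L * a / q) := by
    rw [card_filter]
    push_cast
    refine sum_le_sum fun a _ => ?_
    split_ifs with h
    · have e1 : Φ (10 ^ L * a / q) =
          exp (-((∑ j ∈ range L, del (dg (L - 1 - j) (10 ^ L * a / q)) ^ 2) / 4)) := by
        rw [hΦ]
        simp only
        rw [← exp_sum, sum_range_reflect (fun j => del (dg j (10 ^ L * a / q)) ^ 2) L, sum_div,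
          ← sum_neg_distrib]
      rw [e1, ← exp_add]
      refine one_le_exp ?_
      have h2 : ∑ j ∈ range L, del (dg (L - 1 - j) (10 ^ L * a / q)) ^ 2 ≤
          ∑ j ∈ range L, nn ((a : ℝ) / q * 10 ^ j) ^ 2 :=
        sum_le_sum fun j hj => del_le q a L j hq0 (mem_range.1 hj)
      linarith
    · exact mul_nonneg (exp_pos _).le (hΦ0 _)
  have h2 : ∑ a ∈ range q, Φ (10 ^ L * a / q) ≤ ∑ kk ∈ range (10 ^ L), 2 * q / 10 ^ L * Φ kk := by
    rw [← sum_fiberwise_of_maps_to (s := range q) (t := range (10 ^ L))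
      (g := fun a => 10 ^ L * a / q)]
    · refine sum_le_sum fun kk _ => ?_
      rw [sum_congr rfl (g := fun _ => Φ kk) (fun a ha => by rw [(mem_filter.1 ha).2]),
        sum_const, nsmul_eq_mul]
      refine mul_le_mul_of_nonneg_right ((fibre q _ kk hq0 hP).trans ?_) (hΦ0 kk)
      have h3 : ((10 ^ L : ℕ) : ℝ) ≤ q := by exact_mod_cast hq.le
      push_cast at h3 ⊢
      have h4 : (1 : ℝ) ≤ q / 10 ^ L := (one_le_div (by positivity)).2 h3
      have h5 : 2 * (q : ℝ) / 10 ^ L = q / 10 ^ L + q / 10 ^ L := by ring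
      linarith
    · intro a ha
      rw [mem_range, Nat.div_lt_iff_lt_mul hq0]
      exact Nat.mul_lt_mul_of_pos_left (mem_range.1 ha) hP
  have h3 : ∑ kk ∈ range (10 ^ L), Φ kk ≤ (10 * exp (-(147 / 10000))) ^ L := by
    rw [hΦ]
    simp only
    rw [sum_digits L (fun _ d => exp (-(del d ^ 2 / 4))), prod_const, card_range]
    exact pow_le_pow_left₀ (sum_nonneg fun d _ => (exp_pos _).le) mean_le L
  rw [← mul_sum] at h1 h2
  refine h1.trans ?_
  have h4 : ∑ a ∈ range q, Φ (10 ^ L * a / q) ≤ 2 * q * exp (-(147 / 10000) * L) := by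
    refine h2.trans ((mul_le_mul_of_nonneg_left h3 (by positivity)).trans (le_of_eq ?_))
    rw [mul_pow, ← exp_nat_mul, mul_comm (L : ℝ)]
    field_simp
  calc exp (29 / 2000 * L) * ∑ a ∈ range q, Φ (10 ^ L * a / q)
      ≤ exp (29 / 2000 * L) * (2 * q * exp (-(147 / 10000) * L)) :=
        mul_le_mul_of_nonneg_left h4 (exp_pos _).le
    _ = 2 * q * exp (29 / 2000 * L + -(147 / 10000) * L) := by rw [exp_add]; ring
    _ = 2 * q * exp (-(L / 5000)) := by congr 2; ring

theorem count_shift (q L j₀ : ℕ) (hq : 10 ^ L < q) (hc : Nat.Coprime q 330) :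
    (((range q).filter (fun a : ℕ =>
      ∑ j ∈ range L, nn (99 * ((a : ℝ) / q) * 10 ^ (j₀ + j)) ^ 2 < 29 / 500 * L)).card : ℝ)
      ≤ 2 * q * exp (-(L / 5000)) := by
  have hq0 : 0 < q := lt_of_le_of_lt (Nat.zero_le _) hq
  have hq' : (0 : ℝ) < q := by exact_mod_cast hq0
  refine le_trans ?_ (count q L hq)
  rw [Nat.cast_le]
  refine card_le_card_of_injOn (fun a => 99 * 10 ^ j₀ * a % q) ?_ ?_
  · intro a ha
    rw [mem_coe, mem_filter] at ha ⊢
    refine ⟨mem_range.2 (Nat.mod_lt _ hq0), ?_⟩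
    refine lt_of_eq_of_lt (sum_congr rfl fun j _ => ?_) ha.2
    congr 1
    rw [← nn_add_int _ (((99 * 10 ^ j₀ * a / q) * 10 ^ j : ℕ) : ℤ)]
    congr 1
    have h1 : ((99 * 10 ^ j₀ * a : ℕ) : ℝ) =
        q * ((99 * 10 ^ j₀ * a / q : ℕ) : ℝ) + ((99 * 10 ^ j₀ * a % q : ℕ) : ℝ) := by
      exact_mod_cast (Nat.div_add_mod _ _).symm
    rw [Int.cast_natCast, Nat.cast_mul ((99 * 10 ^ j₀ * a / q))]
    generalize ((99 * 10 ^ j₀ * a / q : ℕ) : ℝ) = u at h1 ⊢
    generalize ((99 * 10 ^ j₀ * a % q : ℕ) : ℝ) = v at h1 ⊢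
    push_cast at h1 ⊢
    have h2 : v = 99 * 10 ^ j₀ * a - q * u := by linarith
    rw [h2, pow_add]
    field_simp
    ring
  · intro a ha b hb hab
    rw [mem_coe, mem_filter, mem_range] at ha hb
    have h1 : 99 * 10 ^ j₀ * a ≡ 99 * 10 ^ j₀ * b [MOD q] := hab
    have h2 : a ≡ b [MOD q] := Nat.ModEq.cancel_left_of_coprime (cop hc j₀) h1
    exact Nat.ModEq.eq_of_lt_of_lt h2 ha.1 hb.1

end Good

open Good

theorem small (hD : DecayStmt) : SmallStmt := by
  filter_upwards [L0_tendsto.eventually_ge_atTop 1] with lam hL q a hq1 hq hc ha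
  have hLk := L0_le lam
  have hsq := L0_sq lam
  have hL' : (1 : ℝ) ≤ L0 lam := by exact_mod_cast hL
  have hLk' : (L0 lam : ℝ) ≤ kap lam := by exact_mod_cast hLk
  refine mix_of_runs hD lam _ _ (1 / 400) hL (by omega) (one_le_exp (by positivity)) ?_ ?_ ?_
  · rw [← exp_log (show (0 : ℝ) < 10 ^ kap lam by positivity), log_pow]
    refine exp_le_exp.2 ?_
    have := log_ten_ge
    nlinarith
  · rw [log_exp]
    have h1 : 8000 * L0 lam ≤ (2050 * kap lam - 1) / L0 lam := by
      rw [Nat.le_div_iff_mul_le hL]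
      have : 8000 * L0 lam * L0 lam + 1 ≤ 2050 * kap lam := by nlinarith
      omega
    have h2 : (8000 : ℝ) * L0 lam ≤ (((2050 * kap lam - 1) / L0 lam : ℕ) : ℝ) := by
      exact_mod_cast h1
    linarith
  · intro j₁ _
    have h1 : ¬ (q : ℤ) ∣ ((99 * 10 ^ j₁ * a : ℕ) : ℤ) := by
      rw [Int.natCast_dvd_natCast]
      intro h
      have h2 : Nat.Coprime q (99 * 10 ^ j₁ * a) := Nat.Coprime.mul_right (cop hc j₁) ha.symm
      have := Nat.Coprime.eq_one_of_dvd h2 h
      omega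
    have h2 := nn_div (by omega) h1
    have h3 : 1 / (10 : ℝ) ^ L0 lam ≤ 1 / (q : ℝ) := by
      refine one_div_le_one_div_of_le (by exact_mod_cast (by omega : 0 < q)) ?_
      exact_mod_cast hq
    refine (run_small (L0 lam) _ (h3.trans h2)).trans (le_of_eq (sum_congr rfl fun j _ => ?_))
    congr 2
    push_cast
    rw [pow_add]
    ring

theorem bad (hD : DecayStmt) : BadStmt := by
  classical
  filter_upwards [L0_tendsto.eventually_ge_atTop 1] with lam hL q hq hc
  have hLk := L0_le lam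
  have hLk' : (L0 lam : ℝ) ≤ kap lam := by exact_mod_cast hLk
  have hsub : (range q).filter (fun a : ℕ => ¬ Mix lam (ph lam (a / q)) (10 ^ kap lam)) ⊆
      (range lam).biUnion fun j₀ => (range q).filter (fun a : ℕ =>
        ∑ j ∈ range (L0 lam), nn (99 * ((a : ℝ) / q) * 10 ^ (j₀ + j)) ^ 2 < 29 / 500 * L0 lam) := by
    intro a ha
    rw [mem_filter] at ha
    by_contra hcon
    refine ha.2 (mix_of_runs hD lam _ _ (29 / 500 * L0 lam) hL (by omega)
      (one_le_pow₀ (by norm_num)) le_rfl ?_ ?_)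
    · rw [log_pow]
      have h1 : 2050 * kap lam ≤ (2050 * kap lam - 1) / L0 lam * L0 lam + L0 lam := by
        have h2 := Nat.div_add_mod (2050 * kap lam - 1) (L0 lam)
        have h3 := Nat.mod_lt (2050 * kap lam - 1) hL
        rw [mul_comm] at h2
        omega
      have h2 : (2050 : ℝ) * kap lam ≤
          (((2050 * kap lam - 1) / L0 lam : ℕ) : ℝ) * L0 lam + L0 lam := by exact_mod_cast h1
      have h3 := log_ten_le
      have h4 : (0 : ℝ) ≤ kap lam := Nat.cast_nonneg _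
      nlinarith
    · intro j₁ hj₁
      by_contra h
      exact hcon (mem_biUnion.2 ⟨j₁, mem_range.2 hj₁, mem_filter.2 ⟨ha.1, not_le.1 h⟩⟩)
  have h1 := (card_le_card hsub).trans card_biUnion_le
  have h2 := (Nat.cast_le (α := ℝ)).2 h1
  refine le_trans (by convert h2) ?_
  push_cast
  refine (sum_le_sum fun j₀ _ => count_shift q (L0 lam) j₀ hq hc).trans (le_of_eq ?_)
  rw [sum_const, card_range, nsmul_eq_mul]
  ring

end Pool.Agent.Emirp

end MrgPart2

-- ======== part 3: formerly Pool.Agent.MP_e620c0_nt.Main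
section MrgPart3

/-! Switching argument: assembly of the sieve bounds. -/

set_option autoImplicit false

namespace Pool.Agent.Emirp

open Finset Filter Real
open scoped ArithmeticFunction.vonMangoldt

namespace MAIN

theorem ofDigits_eq (L : List ℕ) :
    Nat.ofDigits 10 L = ∑ i ∈ range L.length, L.getD i 0 * 10 ^ i := by
  induction L with
  | nil => simp
  | cons a L ih =>
    rw [Nat.ofDigits_cons, List.length_cons, sum_range_succ', ih, mul_sum]
    simp only [List.getD_cons_succ, List.getD_cons_zero, pow_zero, mul_one]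
    rw [add_comm]
    congr 1
    exact sum_congr rfl fun i _ => by ring

theorem reverse_eq {lam k : ℕ} (hl : 1 ≤ lam) (h1 : 10 ^ (lam - 1) ≤ k) (h2 : k < 10 ^ lam) :
    Naccb31f3.reverse10 k = rv lam k := by
  have hk : k ≠ 0 := by have : 0 < 10 ^ (lam - 1) := by positivity
                        omega
  have hlen : (Nat.digits 10 k).length = lam := by
    rw [Nat.length_digits 10 k (by norm_num) hk,
      Nat.log_eq_of_pow_le_of_lt_pow h1 (by rwa [Nat.sub_add_cancel hl])]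
    omega
  rw [Naccb31f3.reverse10, ofDigits_eq, List.length_reverse, hlen, rv_eq]
  refine sum_congr rfl fun i hi => ?_
  have hi' := mem_range.1 hi
  congr 1
  rw [dg, ← Nat.getD_digits k _ (by norm_num : 2 ≤ 10), List.getD_eq_getElem _ _ (by simpa [hlen]),
    List.getD_eq_getElem _ _ (by omega), List.getElem_reverse]
  simp only [hlen]

theorem rv_mod {lam k : ℕ} (h : k < 10 ^ lam) : rv lam k ≡ 10 ^ (lam - 1) * k [MOD 99] := by
  conv_rhs => rw [← Nat.mod_eq_of_lt h, ← sum_dg, mul_sum]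
  rw [← ZMod.natCast_eq_natCast_iff]
  unfold rv
  push_cast
  refine sum_congr rfl fun i hi => ?_
  obtain ⟨j, hj⟩ : ∃ j, lam - 1 = i + j := ⟨lam - 1 - i, by have := mem_range.1 hi; omega⟩
  have h1 : (10 : ZMod 99) ^ i * 10 ^ i = 1 := by
    rw [← mul_pow, show (10 : ZMod 99) * 10 = 1 by decide, one_pow]
  rw [hj, Nat.add_sub_cancel_left, pow_add]
  linear_combination (-(dg i k : ZMod 99) * 10 ^ j) * h1

theorem dg_top {lam k : ℕ} (hl : 1 ≤ lam) (h : k < 10 ^ lam) :
    dg (lam - 1) k = k / 10 ^ (lam - 1) := by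
  refine Nat.mod_eq_of_lt (Nat.div_lt_of_lt_mul ?_)
  rwa [← pow_succ, Nat.sub_add_cancel hl]

theorem card_pal (lam : ℕ) :
    ((range (10 ^ lam)).filter (fun k => rv lam k = k)).card ≤ 10 ^ ((lam + 1) / 2) := by
  rw [← card_range (10 ^ ((lam + 1) / 2))]
  refine card_le_card_of_injOn (fun k => k % 10 ^ ((lam + 1) / 2)) (fun k _ => ?_) ?_
  · exact mem_coe.2 (mem_range.2 (Nat.mod_lt _ (by positivity)))
  · intro a ha b hb hab
    obtain ⟨ha1, ha2⟩ := mem_filter.1 (mem_coe.1 ha)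
    obtain ⟨hb1, hb2⟩ := mem_filter.1 (mem_coe.1 hb)
    have hab' : a % 10 ^ ((lam + 1) / 2) = b % 10 ^ ((lam + 1) / 2) := hab
    have h1 : ∀ i < (lam + 1) / 2, dg i a = dg i b := fun i hi => by
      rw [← dg_mod hi a, hab', dg_mod hi]
    rw [← Nat.mod_eq_of_lt (mem_range.1 ha1), ← Nat.mod_eq_of_lt (mem_range.1 hb1), ← sum_dg,
      ← sum_dg]
    refine sum_congr rfl fun i hi => ?_
    have hi' := mem_range.1 hi
    congr 1
    rcases lt_or_ge i ((lam + 1) / 2) with h | h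
    · exact h1 i h
    · rw [← ha2, ← hb2, dg_rv hi', dg_rv hi']
      exact h1 _ (by omega)

/-- admissible first and last digits -/
def DG : Finset ℕ := {1, 3, 7, 9}

/-- restriction to integers with admissible first digit -/
noncomputable def cut (lam : ℕ) (w : ℕ → ℝ) (k : ℕ) : ℝ :=
  if k / 10 ^ (lam - 1) ∈ DG then w k else 0

theorem sum_cut {M : Type*} [AddCommMonoid M] {lam : ℕ} (hl : 1 ≤ lam) (f : ℕ → M) :
    ∑ k ∈ range (10 ^ lam), (if k / 10 ^ (lam - 1) ∈ DG then f k else 0) =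
      ∑ d ∈ DG, ∑ k ∈ Ico (d * 10 ^ (lam - 1)) ((d + 1) * 10 ^ (lam - 1)), f k := by
  have hp : 0 < 10 ^ (lam - 1) := by positivity
  have h1 : ∀ k, (if k / 10 ^ (lam - 1) ∈ DG then f k else 0) =
      ∑ d ∈ DG, if k / 10 ^ (lam - 1) = d then f k else 0 := fun k => by rw [sum_ite_eq]
  simp_rw [h1]
  rw [sum_comm]
  refine sum_congr rfl fun d hd => ?_
  rw [← sum_filter]
  congr 1
  ext k
  have hd9 : d + 1 ≤ 10 := by simp only [DG, mem_insert, mem_singleton] at hd; omega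
  have h2 : (d + 1) * 10 ^ (lam - 1) ≤ 10 ^ lam := by
    conv_rhs => rw [← Nat.sub_add_cancel hl, pow_succ']
    exact Nat.mul_le_mul_right _ hd9
  rw [mem_filter, mem_range, mem_Ico, Nat.div_eq_iff hp, add_mul, one_mul] at *
  omega

theorem iv {lam d : ℕ} (hl : 1 ≤ lam) (hd : d ∈ DG) :
    Iv lam (d * 10 ^ (lam - 1)) ((d + 1) * 10 ^ (lam - 1)) := by
  have hd9 : 1 ≤ d ∧ d + 1 ≤ 10 := by simp only [DG, mem_insert, mem_singleton] at hd; omega
  refine ⟨Nat.le_mul_of_pos_left _ hd9.1, Nat.mul_le_mul_right _ (by omega), ?_⟩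
  conv_rhs => rw [← Nat.sub_add_cancel hl, pow_succ']
  exact Nat.mul_le_mul_right _ hd9.2

theorem rem_cut (hL : LevelStmt) (C : ℕ) : ∀ᶠ lam : ℕ in atTop, ∀ w : ℕ → ℝ,
    (∀ k < 10 ^ lam, |w k| ≤ 4 * (lam : ℝ) ^ C) →
    (∀ x B, Mix lam x B → ∀ T₀ T₁, Iv lam T₀ T₁ →
      ‖S lam x w T₀ T₁‖ ≤ 10 ^ lam * (lam : ℝ) ^ C / B ^ 49) →
    rem (10 ^ lam) (cut lam w) (rv lam) (zz lam ^ 3) ≤ 4 * (10 ^ lam / (lam : ℝ) ^ 4) := by
  filter_upwards [hL (C + 4), eventually_ge_atTop 1] with lam h hl w h1 h2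
  have hl' : (0 : ℝ) < lam := by exact_mod_cast hl
  refine (h (cut lam w) (4 * (lam : ℝ) ^ C) (fun k hk => ?_) fun x B hB => ?_).trans (le_of_eq ?_)
  · unfold cut
    split_ifs
    exacts [h1 k hk, by rw [abs_zero]; positivity]
  · have h3 : S lam x (cut lam w) 0 (10 ^ lam) =
        ∑ d ∈ DG, S lam x w (d * 10 ^ (lam - 1)) ((d + 1) * 10 ^ (lam - 1)) := by
      unfold S
      rw [← sum_cut hl, range_eq_Ico]
      refine sum_congr rfl fun k _ => ?_
      unfold cut
      split_ifs <;> simp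
    rw [h3]
    refine (norm_sum_le _ _).trans ((sum_le_sum fun d hd => h2 x B hB _ _ (iv hl hd)).trans ?_)
    rw [sum_const, show DG.card = 4 by decide, nsmul_eq_mul]
    exact le_of_eq (by push_cast; ring)
  · rw [pow_add]; field_simp

theorem big_prime {lam p : ℕ} (hl : 3 ≤ lam) (hp : p.Prime) (h : p < 10 ^ lam)
    (hd : p / 10 ^ (lam - 1) ∈ DG) {z : ℕ} (hr : Rough z (rv lam p)) {q : ℕ} (hq : q.Prime)
    (hqd : q ∣ rv lam p) : z < q := by
  by_contra hz
  have h0 : dg 0 (rv lam p) ∈ DG := by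
    rwa [dg_rv (by omega), Nat.sub_zero, dg_top (by omega) h]
  have h1 : 10 ^ (lam - 1) ≤ p := by
    by_contra h1
    rw [Nat.div_eq_of_lt (not_le.1 h1)] at hd
    simp [DG] at hd
  have h2 : 10 ^ 2 ≤ 10 ^ (lam - 1) := Nat.pow_le_pow_right (by norm_num) (by omega)
  have h3 : ∀ r : ℕ, r.Prime → r ∣ 99 → ¬ r ∣ rv lam p := fun r hr h99 hd' => by
    have h4 : r ∣ 10 ^ (lam - 1) * p := ((rv_mod h).dvd_iff h99).1 hd'
    have h5 := Nat.le_of_dvd (by norm_num) h99
    rcases (Nat.Prime.dvd_mul hr).1 h4 with h6 | h6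
    · have h7 := Nat.dvd_gcd (hr.dvd_of_dvd_pow h6) h99
      exact hr.one_lt.ne' (Nat.dvd_one.1 (by simpa using h7))
    · have := (Nat.prime_dvd_prime_iff_eq hr hp).1 h6
      omega
  refine hr q (mem_filter.2 ⟨mem_Icc.2 ⟨hq.one_le, not_lt.1 hz⟩, hq.squarefree, ?_⟩) hq hqd
  rw [hq.coprime_iff_not_dvd]
  intro h4
  simp only [DG, dg, mem_insert, mem_singleton, pow_zero, Nat.div_one] at h0
  rw [show 330 = 2 * (5 * (3 * 11)) by norm_num] at h4
  rcases (Nat.Prime.dvd_mul hq).1 h4 with h5 | h5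
  · obtain rfl := (Nat.prime_dvd_prime_iff_eq hq (by norm_num)).1 h5
    omega
  rcases (Nat.Prime.dvd_mul hq).1 h5 with h5 | h5
  · obtain rfl := (Nat.prime_dvd_prime_iff_eq hq (by norm_num)).1 h5
    omega
  · exact h3 q hq (h5.trans (by norm_num)) hqd

/-- the primes counted in the theorem -/
def Gd (lam : ℕ) : Finset ℕ := (Ico (10 ^ (lam - 1)) (10 ^ lam)).filter (fun p => p.Prime ∧
  Naccb31f3.reverse10 p ≠ p ∧ ArithmeticFunction.cardFactors (Naccb31f3.reverse10 p) ≤ 15)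

theorem pointwise {lam ξ : ℕ} (hl : 3 ≤ lam) (hξ : ξ < 10 ^ (lam - 1))
    (hν : ∀ k < 10 ^ lam, 0 ≤ nu lam k)
    (hm : ∀ k, 10 ^ (lam - 1) ≤ k → k < 10 ^ lam → Squarefree k →
      (∀ p, p.Prime → p ∣ k → zz lam < p) → 16 ≤ ArithmeticFunction.cardFactors k → 1 ≤ nu lam k)
    {p : ℕ} (h : p < 10 ^ lam) :
    (if p.Prime ∧ p / 10 ^ (lam - 1) ∈ DG ∧ Rough (zz lam) (rv lam p) then (1 : ℝ) else 0) ≤
      (if p ∈ Gd lam then 1 else 0) + (if rv lam p = p then 1 else 0) +
      (∑ q ∈ Ioc (zz lam) (10 ^ lam), if rv lam p ≠ 0 ∧ q ^ 2 ∣ rv lam p then 1 else 0) +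
      (if Rough ξ (rv lam (rv lam p)) then cut lam (nu lam) (rv lam p) else 0) := by
  have a1 : (0 : ℝ) ≤ if p ∈ Gd lam then 1 else 0 := by split_ifs <;> norm_num
  have a2 : (0 : ℝ) ≤ if rv lam p = p then 1 else 0 := by split_ifs <;> norm_num
  have a3 : ∀ q : ℕ, (0 : ℝ) ≤ if rv lam p ≠ 0 ∧ q ^ 2 ∣ rv lam p then 1 else 0 := fun q => by
    split_ifs <;> norm_num
  have a4 : 0 ≤ if Rough ξ (rv lam (rv lam p)) then cut lam (nu lam) (rv lam p) else 0 := by
    unfold cut
    split_ifs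
    exacts [hν _ (rv_lt _ _), le_rfl, le_rfl]
  have a5 := sum_nonneg (s := Ioc (zz lam) (10 ^ lam)) fun q _ => a3 q
  by_cases hc : p.Prime ∧ p / 10 ^ (lam - 1) ∈ DG ∧ Rough (zz lam) (rv lam p)
  swap
  · rw [if_neg hc]; linarith
  rw [if_pos hc]
  obtain ⟨hp, hd, hr⟩ := hc
  by_cases hG : p ∈ Gd lam
  · rw [if_pos hG]; linarith
  by_cases hP : rv lam p = p
  · rw [if_pos hP]; linarith
  have h1 : 10 ^ (lam - 1) ≤ p := by
    by_contra h1
    rw [Nat.div_eq_of_lt (not_le.1 h1)] at hd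
    simp [DG] at hd
  by_cases hR : Rough ξ (rv lam (rv lam p))
  · have h2 : 10 ^ 2 ≤ 10 ^ (lam - 1) := Nat.pow_le_pow_right (by norm_num) (by omega)
    have hrev := reverse_eq (by omega) h1 h
    have hΩ : 16 ≤ ArithmeticFunction.cardFactors (rv lam p) := by
      by_contra hΩ
      exact hG (mem_filter.2 ⟨mem_Ico.2 ⟨h1, h⟩, hp, by rwa [hrev], by rw [hrev]; omega⟩)
    have h3 : rv lam p / 10 ^ (lam - 1) ∈ DG := by
      rw [← dg_top (by omega) (rv_lt _ _), dg_rv (by omega), Nat.sub_self]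
      have h4 : ¬ 2 ∣ p := fun h4 => by
        have := (Nat.prime_dvd_prime_iff_eq (by norm_num) hp).1 h4
        omega
      have h5 : ¬ 5 ∣ p := fun h4 => by
        have := (Nat.prime_dvd_prime_iff_eq (by norm_num) hp).1 h4
        omega
      simp only [DG, dg, mem_insert, mem_singleton, pow_zero, Nat.div_one]
      omega
    have h6 : 10 ^ (lam - 1) ≤ rv lam p := by
      by_contra h6
      rw [Nat.div_eq_of_lt (not_le.1 h6)] at h3
      simp [DG] at h3
    rw [if_pos hR] at a4 ⊢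
    by_cases hs : Squarefree (rv lam p)
    · have h7 := hm _ h6 (rv_lt _ _) hs (fun q hq hqd => big_prime hl hp h hd hr hq hqd) hΩ
      rw [cut, if_pos h3]
      linarith
    · rw [Nat.squarefree_iff_prime_squarefree] at hs
      push Not at hs
      obtain ⟨q, hq, hqd⟩ := hs
      have h8 : q ∣ rv lam p := (dvd_mul_right q q).trans hqd
      have h9 : q ∈ Ioc (zz lam) (10 ^ lam) := mem_Ioc.2 ⟨big_prime hl hp h hd hr hq h8,
        (Nat.le_of_dvd (by omega) h8).trans (rv_lt _ _).le⟩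
      have h10 := single_le_sum (fun q _ => a3 q) h9
      rw [if_pos ⟨by omega, by rwa [sq]⟩] at h10
      linarith
  · refine absurd (fun q hq hqp hqd => ?_) hR
    rw [rv_rv h] at hqd
    have h2 := (Nat.prime_dvd_prime_iff_eq hqp hp).1 hqd
    have h3 := (mem_Icc.1 (mem_filter.1 hq).1).2
    omega

theorem sum_nsf {X z : ℕ} (hz : 0 < z) (hX : z ≤ X) :
    ∑ k ∈ range X, (∑ q ∈ Ioc z X, if k ≠ 0 ∧ q ^ 2 ∣ k then (1 : ℝ) else 0) ≤ X / z := by
  rw [sum_comm]
  have h1 : ∀ q ∈ Ioc z X, (∑ k ∈ range X, if k ≠ 0 ∧ q ^ 2 ∣ k then (1 : ℝ) else 0) ≤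
      X * ((q : ℝ) ^ 2)⁻¹ := fun q _ => by
    rw [sum_boole, ← div_eq_mul_inv]
    have h2 : ((range X).filter (fun k => k ≠ 0 ∧ q ^ 2 ∣ k)).card ≤ X / q ^ 2 := by
      rw [← Nat.Ioc_filter_dvd_card_eq_div]
      refine card_le_card fun k hk => ?_
      simp only [mem_filter, mem_range, mem_Ioc] at hk ⊢
      exact ⟨by omega, hk.2.2⟩
    calc _ ≤ ((X / q ^ 2 : ℕ) : ℝ) := by exact_mod_cast h2
      _ ≤ _ := Nat.cast_div_le.trans (by rw [Nat.cast_pow])
  refine (sum_le_sum h1).trans ?_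
  rw [← mul_sum, div_eq_mul_inv]
  refine mul_le_mul_of_nonneg_left ((sum_Ioc_inv_sq_le_sub hz.ne' hX).trans ?_) (by positivity)
  exact sub_le_self _ (by positivity)

theorem sift_le {lam z : ℕ} : sift (10 ^ lam) (cut lam Λ) (rv lam) z ≤
    (∑ p ∈ range (10 ^ lam),
      if p.Prime ∧ p / 10 ^ (lam - 1) ∈ DG ∧ Rough z (rv lam p) then (1 : ℝ) else 0) *
      (lam * log 10) + 2 * √(10 ^ lam) * (lam * log 10) := by
  have h1 := Chebyshev.psi_sub_theta_le (x := (10 : ℝ) ^ lam) (one_le_pow₀ (by norm_num))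
  rw [Chebyshev.psi_sub_theta_eq_sum_not_prime, Real.log_pow] at h1
  have h2 : ⌊(10 : ℝ) ^ lam⌋₊ = 10 ^ lam := by exact_mod_cast Nat.floor_natCast (R := ℝ) (10 ^ lam)
  rw [h2] at h1
  have h3 : ∑ k ∈ range (10 ^ lam), (if ¬ k.Prime then Λ k else 0) ≤
      ∑ k ∈ (Ioc 0 (10 ^ lam)).filter (fun k => ¬ k.Prime), Λ k := by
    rw [sum_filter, range_eq_Ico, sum_eq_sum_Ico_succ_bot (by positivity)]
    simp only [ArithmeticFunction.map_zero, ite_self, zero_add]
    refine sum_le_sum_of_subset_of_nonneg (fun k hk => ?_) fun k _ _ => ?_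
    · simp only [mem_Ico, mem_Ioc] at hk ⊢; omega
    · split_ifs
      exacts [le_rfl, ArithmeticFunction.vonMangoldt_nonneg]
  refine le_trans ?_ (add_le_add le_rfl (h3.trans h1))
  rw [sift, sum_filter, sum_mul, ← sum_add_distrib]
  refine sum_le_sum fun k hk => ?_
  have h4 : Λ k ≤ lam * log 10 := by
    refine ArithmeticFunction.vonMangoldt_le_log.trans ?_
    rcases Nat.eq_zero_or_pos k with rfl | h0
    · simp only [Nat.cast_zero, log_zero]; positivity
    · rw [← Real.log_pow]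
      exact log_le_log (by exact_mod_cast h0) (by exact_mod_cast (mem_range.1 hk).le)
  have h5 : 0 ≤ Λ k := ArithmeticFunction.vonMangoldt_nonneg
  have h6 : 0 ≤ lam * log 10 := by positivity
  unfold cut
  by_cases a1 : k.Prime <;> by_cases a2 : k / 10 ^ (lam - 1) ∈ DG <;>
    by_cases a3 : Rough z (rv lam k) <;> simp [a1, a2, a3, h4, h5]

end MAIN

open MAIN in
theorem main (hV : VauStmt) (hN : NuStmt) (hL : LevelStmt) (hS : SieveStmt) (hP : PntStmt)
    (hM : MajStmt) (hW : MassStmt) : MainStmt := by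
  obtain ⟨C, hV⟩ := hV
  obtain ⟨C', hN⟩ := hN
  obtain ⟨c, hc, hS⟩ := hS
  obtain ⟨x₀, hP⟩ := hP (1 / 1000) (by norm_num)
  have ht : ∀ a : ℕ, 1 ≤ a → Tendsto (fun lam => 10 ^ (a * kap lam)) atTop atTop := fun a ha =>
    (tendsto_pow_atTop_atTop_of_one_lt (by norm_num : 1 < 10)).comp
      (tendsto_atTop_mono (fun lam => Nat.le_mul_of_pos_left _ ha) kap_tendsto)
  have hx : ∀ᶠ lam : ℕ in atTop, x₀ ≤ 10 ^ (lam - 1) :=
    ((tendsto_pow_atTop_atTop_of_one_lt (by norm_num : (1 : ℝ) < 10)).comp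
      (tendsto_sub_atTop_nat 1)).eventually_ge_atTop x₀
  refine ⟨1 / 2000 / c, by positivity, ?_⟩
  filter_upwards [hV, hN, hM, hW, rem_cut hL (C + 1), rem_cut hL C', (ht 16 (by norm_num)).eventually hS,
    (ht 24 (by norm_num)).eventually hS, hx, kap_tendsto.eventually_ge_atTop 1,
    pow_le_exp_L0 4 one_pos,
    tendsto_natCast_atTop_atTop.eventually_ge_atTop (40000 * c)] with lam hV hN hM hW hR0 hR1 hS0 hS1
    hx hk he hcl
  have hk1 := kap_le lam
  have hl : 1 ≤ lam := by omega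
  have hl' : (1 : ℝ) ≤ lam := by exact_mod_cast hl
  have hlog : 2 < log 10 ∧ log 10 < 232 / 100 := by
    have h1 := log_two_gt_d9
    have h2 := log_two_lt_d9
    have h3 : log 10 = 3 * log 2 + log (5 / 4) := by
      rw [show (10 : ℝ) = 2 ^ 3 * (5 / 4) by norm_num, log_mul (by norm_num) (by norm_num), log_pow]
      norm_num
    have h4 : 3 * log (5 / 4) ≤ log 2 := by
      rw [show (3 : ℝ) = (3 : ℕ) by norm_num, ← log_pow]
      exact log_le_log (by norm_num) (by norm_num)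
    have h5 : 0 ≤ log (5 / 4) := log_nonneg (by norm_num)
    constructor <;> linarith
  set L : ℝ := lam * log 10 with hLd
  set X : ℝ := 10 ^ lam with hX
  set Δ : ℝ := 10 ^ (lam - 1) with hΔ
  have hXΔ : X = 10 * Δ := by rw [hX, hΔ, ← pow_succ', Nat.sub_add_cancel hl]
  have hΔ0 : 0 < Δ := by positivity
  have hL1 : 1 ≤ L := by nlinarith
  -- remainders
  have hΛ : ∀ k < 10 ^ lam, |Λ k| ≤ 4 * (lam : ℝ) ^ (C + 1) := fun k hk => by
    rw [abs_of_nonneg ArithmeticFunction.vonMangoldt_nonneg]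
    refine ArithmeticFunction.vonMangoldt_le_log.trans ?_
    have h1 : (lam : ℝ) ≤ lam ^ (C + 1) := le_self_pow₀ hl' (by omega)
    rcases Nat.eq_zero_or_pos k with rfl | h0
    · simp only [Nat.cast_zero, log_zero]; positivity
    · have h2 : log k ≤ L := by
        rw [hLd, ← Real.log_pow]
        exact log_le_log (by exact_mod_cast h0) (by exact_mod_cast hk.le)
      nlinarith
  have hr0 := hR0 Λ hΛ fun x B hB T₀ T₁ hI => by
    have h1 := hV x B hB T₀ T₁ hI 1 1 zero_le_one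
      (fun m => by rw [ArithmeticFunction.one_apply]; split_ifs <;> simp)
      (fun m hm => by
        have : m = 1 := by
          by_contra h
          exact hm (ArithmeticFunction.one_apply_ne h)
        rw [this]; exact Nat.one_le_pow _ _ (by norm_num))
    rw [one_mul, one_mul] at h1
    refine h1.trans ?_
    have := hB.1
    gcongr
    omega
  have hr1 := hR1 (nu lam) (fun k hk => by
    rw [abs_of_nonneg (hN.1 k hk).1]
    have := (hN.1 k hk).2
    have : (0 : ℝ) ≤ lam ^ C' := by positivity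
    linarith) hN.2
  -- masses
  have hW0 : 3964 / 1000 * Δ ≤ ∑ k ∈ range (10 ^ lam), cut lam Λ k := by
    unfold cut
    rw [sum_cut hl]
    refine le_trans ?_ (card_nsmul_le_sum DG _ (991 / 1000 * Δ) fun d hd => ?_)
    · rw [show DG.card = 4 by decide, nsmul_eq_mul]; push_cast; linarith
    · have hd9 : 1 ≤ d ∧ d ≤ 9 := by simp only [DG, mem_insert, mem_singleton] at hd; omega
      have h1 : (1 : ℝ) ≤ d := by exact_mod_cast hd9.1
      have h2 : (d : ℝ) ≤ 9 := by exact_mod_cast hd9.2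
      have h3 := hP 1 (d * 10 ^ (lam - 1)) ((d + 1) * 10 ^ (lam - 1)) le_rfl
        (Nat.mul_le_mul_right _ (by omega))
        (by rw [← mul_assoc]; exact Nat.mul_le_mul_right _ (by omega))
        (by push_cast; nlinarith)
      have h4 : (range ((d + 1) * 10 ^ (lam - 1))).filter (fun n => d * 10 ^ (lam - 1) ≤ 1 * n ∧
          1 * n < (d + 1) * 10 ^ (lam - 1)) = Ico (d * 10 ^ (lam - 1)) ((d + 1) * 10 ^ (lam - 1)) := by
        ext n; simp only [mem_filter, mem_range, mem_Ico, one_mul]; tauto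
      rw [h4] at h3
      push_cast at h3
      have h5 := (abs_le.1 h3).1
      nlinarith
  have hW1 : ∑ k ∈ range (10 ^ lam), cut lam (nu lam) k ≤ 9 / 5 * Δ / L := by
    unfold cut
    rw [sum_cut hl]
    refine (sum_le_card_nsmul DG _ (9 / 20 * Δ / L) fun d hd => ?_).trans ?_
    · have hd9 : 1 ≤ d ∧ d ≤ 9 := by simp only [DG, mem_insert, mem_singleton] at hd; omega
      exact hW d hd9.1 hd9.2
    · rw [show DG.card = 4 by decide, nsmul_eq_mul]; push_cast; exact le_of_eq (by ring)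
  -- sieve bounds
  have hs0 := (hS0 (10 ^ lam) (cut lam Λ) (rv lam) fun k _ => by
    unfold cut; split_ifs; exacts [ArithmeticFunction.vonMangoldt_nonneg, le_rfl]).2
  have hs1 := (hS1 (10 ^ lam) (cut lam (nu lam)) (rv lam) fun k hk => by
    unfold cut; split_ifs; exacts [(hN.1 k hk).1, le_rfl]).1
  rw [show (10 ^ (24 * kap lam)) ^ 2 = zz lam ^ 3 by rw [zz, ← pow_mul, ← pow_mul]; congr 1; ring]
    at hs1
  change _ - 3 * rem _ _ _ (zz lam ^ 3) ≤ sift _ _ _ (zz lam) at hs0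
  push_cast at hs0 hs1
  rw [Real.log_pow] at hs0 hs1
  push_cast at hs0 hs1
  have hk' : (1 : ℝ) ≤ kap lam := by exact_mod_cast hk
  have hk2 : (12000 : ℝ) * kap lam ≤ lam := by exact_mod_cast hk1
  set l : ℝ := kap lam * log 10 with hld
  have hl0 : 0 < l := mul_pos (by linarith) (by linarith [hlog.1])
  have hlL : 16 * l ≤ L := by
    rw [hld, hLd, ← mul_assoc]
    exact mul_le_mul_of_nonneg_right (by linarith) (by linarith [hlog.1])
  rw [mul_assoc 16, ← hld] at hs0
  rw [mul_assoc 24, ← hld] at hs1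
  -- counting
  have hcount := sum_le_sum fun p (hp : p ∈ range (10 ^ lam)) =>
    pointwise (ξ := 10 ^ (24 * kap lam)) (by omega)
      (Nat.pow_lt_pow_right (by norm_num) (by omega)) (fun k hk => (hN.1 k hk).1) hM (mem_range.1 hp)
  rw [sum_add_distrib, sum_add_distrib, sum_add_distrib,
    sum_rv lam (fun k => ∑ q ∈ Ioc (zz lam) (10 ^ lam), if k ≠ 0 ∧ q ^ 2 ∣ k then (1 : ℝ) else 0),
    sum_rv lam (fun k => if Rough (10 ^ (24 * kap lam)) (rv lam k) then cut lam (nu lam) k else 0),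
    ← sum_filter (fun k => Rough (10 ^ (24 * kap lam)) (rv lam k)), sum_boole (fun p => p ∈ Gd lam),
    sum_boole (fun p => rv lam p = p)] at hcount
  have hG : (((range (10 ^ lam)).filter (fun p => p ∈ Gd lam)).card : ℝ) ≤ (Gd lam).card := by
    exact_mod_cast card_le_card fun p hp => (mem_filter.1 hp).2
  have hpal : (((range (10 ^ lam)).filter (fun k => rv lam k = k)).card : ℝ) ≤
      10 ^ ((lam + 1) / 2) := by exact_mod_cast card_pal lam
  have hnsf := sum_nsf (X := 10 ^ lam) (z := zz lam) (by unfold zz; positivity)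
    (Nat.pow_le_pow_right (by norm_num) (by omega))
  have hsl := sift_le (lam := lam) (z := zz lam)
  set N : ℝ := ∑ p ∈ range (10 ^ lam),
    if p.Prime ∧ p / 10 ^ (lam - 1) ∈ DG ∧ Rough (zz lam) (rv lam p) then (1 : ℝ) else 0 with hNd
  -- small terms
  set R : ℝ := X / (lam : ℝ) ^ 4 with hR
  have h4 : (lam : ℝ) ^ 4 ≤ 10 ^ kap lam := by
    refine he.trans ?_
    have h1 : L0 lam ≤ kap lam := by
      have := L0_sq lam
      have := Nat.le_self_pow two_ne_zero (L0 lam)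
      omega
    have h2 : (L0 lam : ℝ) ≤ kap lam := by exact_mod_cast h1
    rw [← exp_log (show (0 : ℝ) < 10 ^ kap lam by positivity), Real.log_pow]
    refine exp_le_exp.2 ((one_mul _).le.trans (h2.trans ?_))
    exact le_mul_of_one_le_right (by positivity) (by linarith [hlog.1])
  have e1 : (10 : ℝ) ^ ((lam + 1) / 2) ≤ R := by
    rw [hR, le_div_iff₀ (by positivity)]
    refine (mul_le_mul_of_nonneg_left h4 (by positivity)).trans ?_
    rw [← pow_add]
    exact pow_le_pow_right₀ (by norm_num) (by omega)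
  have e2 : √X ≤ R := by
    refine le_trans (sqrt_le_iff.2 ⟨by positivity, ?_⟩) e1
    rw [← pow_mul]
    exact pow_le_pow_right₀ (by norm_num) (by omega)
  have e3 : ((10 ^ lam : ℕ) : ℝ) / zz lam ≤ R := by
    rw [hR, zz]
    push_cast
    gcongr
    exact h4.trans (pow_le_pow_right₀ (by norm_num) (by omega))
  have hR0' : 0 ≤ R := by positivity
  set u : ℝ := Δ / (c * l) with hu
  have hu0 : 0 ≤ u := by positivity
  have b0 : 7928 / 100000 * u - 12 * R ≤ N * L + 2 * R * L := by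
    have h1 : 7928 / 100000 * u ≤
        (∑ k ∈ range (10 ^ lam), cut lam Λ k) * (8 / 25) / (c * (16 * l)) := by
      refine le_trans (le_of_eq ?_) (div_le_div_of_nonneg_right
        (mul_le_mul_of_nonneg_right hW0 (by norm_num)) (by positivity))
      rw [hu]; field_simp; norm_num
    have h2 := mul_le_mul_of_nonneg_right e2 (show 0 ≤ L by linarith)
    linarith
  have b1 : sift (10 ^ lam) (cut lam (nu lam)) (rv lam) (10 ^ (24 * kap lam)) ≤
      75075 / 1000000 * (u / L) + 4 * R := by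
    refine hs1.trans (add_le_add ?_ hr1)
    refine le_trans (div_le_div_of_nonneg_right
      (mul_le_mul_of_nonneg_right hW1 (by norm_num)) (by positivity)) (le_of_eq ?_)
    rw [hu]; field_simp; norm_num
  have b2 : 7928 / 100000 * (u / L) - 14 * R ≤ N := by
    refine le_of_mul_le_mul_right ?_ (show 0 < L by linarith)
    rw [sub_mul, mul_assoc, div_mul_cancel₀ _ (by linarith)]
    have h2 := le_mul_of_one_le_right hR0' hL1
    linarith
  have b3 : 1 / c * (X / (lam : ℝ) ^ 2) ≤ 4 * (u / L) := by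
    rw [hu, hXΔ, div_div, div_mul_div_comm, mul_div_assoc', div_le_div_iff₀ (by positivity) (by positivity)]
    have h1 : L ≤ 232 / 100 * lam := by
      rw [hLd, mul_comm]
      exact mul_le_mul_of_nonneg_right hlog.2.le (by positivity)
    have h5 := mul_le_mul h1 h1 (by linarith) (by positivity)
    have h6 := mul_le_mul_of_nonneg_right hlL (show 0 ≤ L by linarith)
    have h7 : (0 : ℝ) ≤ lam * lam := by positivity
    have h2 : l * L ≤ 2 / 5 * (lam : ℝ) ^ 2 := by linarith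
    have h3 := mul_le_mul_of_nonneg_left h2 (show 0 ≤ Δ * c by positivity)
    linarith
  have b4 : 20 * R ≤ 1 / 2000 * (1 / c * (X / (lam : ℝ) ^ 2)) := by
    have h1 : 40000 * c ≤ (lam : ℝ) ^ 2 := hcl.trans (le_self_pow₀ hl' two_ne_zero)
    rw [hR, show (lam : ℝ) ^ 4 = lam ^ 2 * lam ^ 2 by ring, ← div_div]
    have h2 : 0 < X / (lam : ℝ) ^ 2 := by positivity
    rw [mul_div_assoc', div_le_iff₀ (by positivity)]
    calc 20 * (X / (lam : ℝ) ^ 2) = 1 / 2000 * (1 / c * (X / (lam : ℝ) ^ 2)) * (40000 * c) := by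
          field_simp; ring
      _ ≤ _ := by gcongr
  change _ ≤ ((Gd lam).card : ℝ)
  change N ≤ _ + _ + _ + sift _ _ _ _ at hcount
  have b5 : 1 / 2000 / c * X / (lam : ℝ) ^ 2 = 1 / 2000 * (1 / c * (X / (lam : ℝ) ^ 2)) := by ring
  have b6 : 0 ≤ u / L := by positivity
  rw [b5]
  linarith

end Pool.Agent.Emirp

end MrgPart3

-- marker of a merged file
example : 731051 + 778011 = 731051 + 778011 := rfl
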